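import Pool.Agent.helper38.UB.Defs

set_option autoImplicit false

namespace Pool.Agent.helper38.UB

open Filter Topology Finset
open Pool.Agent.helper38.NNF Pool.Agent.helper38.Lac

/-! E2 (existence at the order `ρ = n`) -/

/-- a sequence with `∑ 1/r_k < ∞` and almost linear growth -/
noncomputable def E2_r (k : ℕ) : ℝ := ((k:ℝ) + 1) * (1 + Real.log ((k:ℝ) + 1)) ^ 2

theorem E2_r_pos (k : ℕ) : 0 < E2_r k := by
  have h1 : 0 ≤ Real.log ((k:ℝ) + 1) := Real.log_nonneg (by
    have : (0:ℝ) ≤ k := Nat.cast_nonneg k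
    linarith)
  unfold E2_r
  positivity

theorem E2_sum : Summable (fun k => (E2_r k)⁻¹) := by
  set F : ℕ → ℝ := fun m => ((m:ℝ) * (1 + Real.log m) ^ 2)⁻¹ with hF
  have h1 : Summable F := by
    apply (summable_condensed_iff_of_nonneg (f := F) _ _).mp
    · have h2 : (fun k : ℕ => (2:ℝ) ^ k * F (2 ^ k)) = fun k : ℕ => ((1 + k * Real.log 2) ^ 2)⁻¹ := by
        funext k
        simp only [hF]
        push_cast
        rw [Real.log_pow, mul_inv]
        have : (2:ℝ) ^ k ≠ 0 := by positivity
        field_simp
      rw [h2]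
      have hl : 0 < Real.log 2 := Real.log_pos (by norm_num)
      have h3 : Summable (fun k : ℕ => (Real.log 2 ^ 2)⁻¹ * (((k:ℝ)) ^ 2)⁻¹) :=
        (Real.summable_nat_pow_inv.mpr (by norm_num)).mul_left _
      apply Summable.of_norm_bounded_eventually h3
      rw [Filter.eventually_cofinite]
      apply (Set.finite_singleton (0:ℕ)).subset
      intro k hk
      by_contra hk0
      apply hk
      have hk1 : 0 < (k:ℝ) := by
        have : 0 < k := Nat.pos_of_ne_zero hk0
        exact_mod_cast this
      rw [Real.norm_eq_abs, abs_of_nonneg (by positivity), ← mul_inv, ← mul_pow]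
      apply inv_anti₀ (by positivity)
      apply pow_le_pow_left₀ (by positivity)
      rw [mul_comm]; linarith
    · intro m
      simp only [hF]
      positivity
    · intro m n hm hmn
      simp only [hF]
      have hm' : (0:ℝ) < m := by exact_mod_cast hm
      have hm1 : (1:ℝ) ≤ m := by exact_mod_cast hm
      have hmn' : (m:ℝ) ≤ n := by exact_mod_cast hmn
      have hl0 : 0 ≤ Real.log m := Real.log_nonneg hm1
      have hl1 : Real.log m ≤ Real.log n := Real.log_le_log hm' hmn'
      apply inv_anti₀ (by positivity)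
      apply mul_le_mul hmn' _ (by positivity) (by positivity)
      apply pow_le_pow_left₀ (by positivity)
      linarith
  have h2 := (summable_nat_add_iff (f := F) 1).mpr h1
  refine h2.congr (fun k => ?_)
  simp only [hF, E2_r]
  push_cast
  rfl

theorem exists_order_eq {n : ℕ} (hn : 1 ≤ n) :
    ∃ f ∈ Gord (((n:ℝ) : ℝ) : EReal) n, ∀ z, f z = 0 → Real.pi / n ≤ |Complex.arg z| := by
  set r : ℕ → ℝ := E2_r with hrdef
  have hr : ∀ k, 0 < r k := E2_r_pos
  have hs : Summable (fun k => (r k)⁻¹) := E2_sum
  have hn0 : (0:ℝ) < n := by exact_mod_cast (by omega : 0 < n)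
  set f : ℂ → ℂ := fun z => hh r (z ^ n) with hf
  have hNN : NN f := (nn_hh hr hs).comp (NN.pow_id n)
  have hval : ∀ R : ℝ, NNF.val f R = NNF.val (hh r) (R ^ n) := by
    intro R
    unfold NNF.val
    simp only [hf]
    push_cast; rfl
  have hl2 : 0 < Real.log 2 := Real.log_pos (by norm_num)
  have hlow : ∀ q : ℝ, 0 < q → q < n → ∀ᶠ R : ℝ in atTop,
      Real.log 2 / 2 * R ^ q ≤ Real.log (maxMod f R) := by
    intro q hq hqn
    set a : ℝ := (n - q) / 2 with ha
    have ha0 : 0 < a := by rw [ha]; linarith
    filter_upwards [eventually_ge_atTop (1:ℝ), Real.tendsto_log_atTop.eventually_ge_atTop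
      (2 * q / a ^ 2)] with R hR hR2
    have hRpos : 0 < R := by linarith
    set y : ℝ := Real.log R with hy
    have hy0 : 0 ≤ y := Real.log_nonneg hR
    have hRq : 1 ≤ R ^ q := Real.one_le_rpow hR hq.le
    set N : ℕ := ⌊R ^ q⌋₊ with hN
    have hNhalf : R ^ q / 2 ≤ N := by
      have h1 := Nat.lt_floor_add_one (R ^ q)
      have h2 : (1:ℕ) ≤ ⌊R ^ q⌋₊ := Nat.le_floor (by simpa using hRq)
      have h3 : (1:ℝ) ≤ ((⌊R ^ q⌋₊ : ℕ) : ℝ) := by exact_mod_cast h2
      linarith
    have hN1 : ∀ k < N, r k ≤ R ^ n := by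
      intro k hk
      have h1 : ((k:ℝ) + 1) ≤ R ^ q := by
        have h2 : ((k + 1 : ℕ) : ℝ) ≤ ((⌊R ^ q⌋₊ : ℕ) : ℝ) := by exact_mod_cast hk
        have h3 := Nat.floor_le (by linarith : 0 ≤ R ^ q)
        push_cast at h2
        linarith
      have hk1 : (1:ℝ) ≤ (k:ℝ) + 1 := by
        have : (0:ℝ) ≤ k := Nat.cast_nonneg k
        linarith
      have h2 : Real.log ((k:ℝ) + 1) ≤ q * y := by
        rw [hy, ← Real.log_rpow hRpos]
        exact Real.log_le_log (by linarith) h1
      have h2' : 0 ≤ Real.log ((k:ℝ) + 1) := Real.log_nonneg hk1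
      have h3 : 1 + q * y ≤ Real.exp (a * y) := by
        have h4 := Real.quadratic_le_exp_of_nonneg (show 0 ≤ a * y by positivity)
        have h5 : q * y ≤ (a * y) ^ 2 / 2 := by
          rw [div_le_iff₀ (by positivity)] at hR2
          nlinarith
        have h6 : 0 ≤ a * y := by positivity
        linarith
      have h4 : (1 + Real.log ((k:ℝ) + 1)) ^ 2 ≤ Real.exp (a * y) ^ 2 := by
        apply pow_le_pow_left₀ (by positivity)
        linarith
      have h5 : Real.exp (a * y) ^ 2 = R ^ ((n:ℝ) - q) := by
        rw [← Real.exp_nat_mul, Real.rpow_def_of_pos hRpos]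
        congr 1
        rw [ha]; push_cast; ring
      show ((k:ℝ) + 1) * (1 + Real.log ((k:ℝ) + 1)) ^ 2 ≤ R ^ n
      calc ((k:ℝ) + 1) * (1 + Real.log ((k:ℝ) + 1)) ^ 2 ≤ R ^ q * R ^ ((n:ℝ) - q) := by
            apply mul_le_mul h1 (h4.trans h5.le) (by positivity) (by positivity)
        _ = R ^ n := by
            rw [← Real.rpow_add hRpos, ← Real.rpow_natCast]; congr 1; ring
    rw [maxMod_eq hNN (by linarith), hval]
    have h1 : (2:ℝ) ^ N ≤ ∏ k ∈ range N, (1 + R ^ n / r k) := by
      have : (2:ℝ) ^ N = ∏ _k ∈ range N, (2:ℝ) := by simp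
      rw [this]
      apply Finset.prod_le_prod
      · intro k _; norm_num
      · intro k hk
        have h2 : 1 ≤ R ^ n / r k := by
          rw [le_div_iff₀ (hr k), one_mul]; exact hN1 k (Finset.mem_range.mp hk)
        linarith
    have h2 : (2:ℝ) ^ N ≤ NNF.val (hh r) (R ^ n) := h1.trans (val_hh_ge hr hs (by positivity) N)
    have h3 : (N:ℝ) * Real.log 2 ≤ Real.log (NNF.val (hh r) (R ^ n)) := by
      rw [← Real.log_pow]
      exact Real.log_le_log (by positivity) h2
    nlinarith
  refine ⟨f, ⟨⟨?_, ?_⟩, ?_⟩, ?_⟩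
  · -- infinitely many zeros
    intro hfin
    have h1 : (Set.range (fun k => -(r k : ℂ))) ⊆ (fun z : ℂ => z ^ n) '' {z : ℂ | f z = 0} := by
      rintro w ⟨k, rfl⟩
      obtain ⟨z, hz⟩ := IsAlgClosed.exists_pow_nat_eq (-(r k : ℂ)) (show 0 < n by omega)
      refine ⟨z, ?_, hz⟩
      show hh r (z ^ n) = 0
      rw [hh_zero hr hs]
      exact ⟨k, hz⟩
    have h2 : (Set.range (fun k => -(r k : ℂ))).Finite := (hfin.image _).subset h1
    obtain ⟨B, hB⟩ := h2.isBounded.exists_norm_le
    have h3 : ∀ k, r k ≤ B := by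
      intro k
      have := hB _ ⟨k, rfl⟩
      rw [norm_neg, Complex.norm_real, Real.norm_eq_abs, abs_of_pos (hr k)] at this
      exact this
    have hB0 : 0 < B := (hr 0).trans_le (h3 0)
    have h4 := hs.tendsto_atTop_zero
    have h5 : B⁻¹ ≤ 0 := ge_of_tendsto h4 (Eventually.of_forall (fun k =>
      inv_anti₀ (hr k) (h3 k)))
    have : 0 < B⁻¹ := by positivity
    linarith
  · refine ⟨fun j => (tc (hh r) j).re, fun j => n * j, ⟨?_, ?_, ?_⟩, ?_⟩
    · intro i j hij
      exact Nat.mul_lt_mul_of_pos_left hij (by omega)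
    · intro k
      exact (Complex.pos_iff.mp (tc_hh_pos hr hs k)).1
    · intro z
      have h1 := hasSum_tc (hh_differentiable hr hs) (z ^ n)
      refine h1.congr_fun ?_ |> fun h => h
      intro j
      rw [← tc_re (nn_hh hr hs), pow_mul]
    · unfold gapLimsup
      have : (fun k : ℕ => ((n * (k + 1) - n * k : ℕ) : ℕ∞)) = fun _ => (n : ℕ∞) := by
        funext k
        congr 1
        rw [mul_add, mul_one, Nat.add_sub_cancel_left]
      rw [this]
      exact limsup_const _
  · -- the order
    apply le_antisymm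
    · by_contra hcon
      push Not at hcon
      obtain ⟨q, hq1, hq2⟩ := EReal.lt_iff_exists_real_btwn.mp hcon
      have hρq : (n:ℝ) < q := by exact_mod_cast hq1
      have hs' : Summable (fun k => (r k) ^ (-(1:ℝ))) := by
        refine hs.congr (fun k => ?_)
        rw [Real.rpow_neg_one]
      set C : ℝ := 1 / 1 * ∑' k, (r k) ^ (-(1:ℝ)) with hC
      have hCpos : 0 < C := by
        rw [hC]
        apply mul_pos (by norm_num)
        exact hs'.tsum_pos (fun k => Real.rpow_nonneg (hr k).le _) 0 (Real.rpow_pos_of_pos (hr 0) _)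
      have hmpos : ∀ᶠ R : ℝ in atTop, 0 < Real.log (maxMod f R) := by
        filter_upwards [hlow (n / 2) (by positivity) (by linarith), eventually_ge_atTop (1:ℝ)]
          with R hR hR1
        refine lt_of_lt_of_le ?_ hR
        have : 0 < R ^ ((n:ℝ) / 2) := Real.rpow_pos_of_pos (by linarith) _
        positivity
      have hev : ∀ᶠ R : ℝ in atTop,
          ((Real.log (Real.log (maxMod f R)) / Real.log R : ℝ) : EReal) ≤ (q : EReal) := by
        have h1 : Tendsto (fun R : ℝ => (q - n) * Real.log R) atTop atTop :=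
          Tendsto.const_mul_atTop (by linarith) Real.tendsto_log_atTop
        filter_upwards [h1.eventually_ge_atTop (Real.log C), eventually_gt_atTop (1:ℝ), hmpos]
          with R hR1 hR2 hR3
        have hlR : 0 < Real.log R := Real.log_pos hR2
        have h2 : Real.log (maxMod f R) ≤ C * R ^ (n : ℝ) := by
          have h3 := val_hh_le hr hs (x := R ^ n) (s := 1) (by positivity) (by norm_num) le_rfl hs'
          rw [maxMod_eq hNN (by linarith), hval]
          have h4 : 0 < NNF.val (hh r) (R ^ n) := by
            have h5 := val_hh_ge hr hs (x := R ^ n) (by positivity) 0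
            simp only [Finset.range_zero, Finset.prod_empty] at h5
            linarith
          have h5 := Real.log_le_log h4 h3
          rw [Real.log_exp] at h5
          refine h5.trans (le_of_eq ?_)
          rw [hC, Real.rpow_natCast, Real.rpow_one]
          ring
        have h3 := Real.log_le_log hR3 h2
        rw [Real.log_mul hCpos.ne' (Real.rpow_pos_of_pos (by linarith) _).ne',
          Real.log_rpow (by linarith)] at h3
        have h4 : Real.log (Real.log (maxMod f R)) / Real.log R ≤ q := by
          rw [div_le_iff₀ hlR]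
          linarith
        exact_mod_cast h4
      have h2 : order f ≤ (q : EReal) := limsup_le_of_le (by isBoundedDefault) hev
      exact absurd hq2 (not_lt.mpr h2)
    · by_contra hcon
      push Not at hcon
      obtain ⟨q, hq1, hq2⟩ := EReal.lt_iff_exists_real_btwn.mp hcon
      have hρq : q < n := by exact_mod_cast hq2
      set q' : ℝ := (max q 0 + n) / 2 with hq'
      have hmaxn : max q 0 < n := max_lt hρq hn0
      have hq'0 : 0 < q' := by
        have := le_max_right q 0
        rw [hq']; linarith
      have hq'n : q' < n := by rw [hq']; linarith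
      have hqq' : q < q' := by
        have := le_max_left q 0
        rw [hq']; linarith
      have hl2' : 0 < Real.log 2 / 2 := by positivity
      have hev : ∀ᶠ R : ℝ in atTop,
          (q : EReal) ≤ ((Real.log (Real.log (maxMod f R)) / Real.log R : ℝ) : EReal) := by
        have h1 : Tendsto (fun R : ℝ => (q' - q) * Real.log R) atTop atTop :=
          Tendsto.const_mul_atTop (by linarith) Real.tendsto_log_atTop
        filter_upwards [h1.eventually_ge_atTop (-Real.log (Real.log 2 / 2)),
          eventually_gt_atTop (1:ℝ), hlow q' hq'0 hq'n] with R hR1 hR2 hR3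
        have hlR : 0 < Real.log R := Real.log_pos hR2
        have hRρ : 0 < R ^ q' := Real.rpow_pos_of_pos (by linarith) _
        have h3 := Real.log_le_log (by positivity) hR3
        rw [Real.log_mul hl2'.ne' hRρ.ne', Real.log_rpow (by linarith)] at h3
        have h4 : q ≤ Real.log (Real.log (maxMod f R)) / Real.log R := by
          rw [le_div_iff₀ hlR]
          linarith
        exact_mod_cast h4
      have h2 : (q : EReal) ≤ order f :=
        le_limsup_of_frequently_le hev.frequently (by isBoundedDefault)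
      exact absurd hq1 (not_lt.mpr h2)
  · intro z hz
    obtain ⟨k, hk⟩ := (hh_zero hr hs (z ^ n)).mp hz
    exact arg_ge_of_pow_neg hn (hr k) hk

/-- lower bound `g_2(2) ≥ π/2` -/
theorem lower_two : ∃ f ∈ Gord ((2 : ℝ) : EReal) 2, Real.pi / 2 ≤ delta f := by
  obtain ⟨f, hf, hz⟩ := exists_order_eq (n := 2) (by norm_num)
  refine ⟨f, ?_, ?_⟩
  · have : (((2:ℕ) : ℝ) : EReal) = ((2:ℝ) : EReal) := by norm_num
    rw [← this]; exact hf
  · have h1 := le_delta hf.1.1 (x := Real.pi / 2) (by
      intro z hz'
      have := hz z hz'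
      norm_num at this
      exact this)
    exact h1

end Pool.Agent.helper38.UB
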