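import Pool.Agent.helper38.UB.Defs

set_option autoImplicit false

namespace Pool.Agent.helper38.UB

open Filter Topology MeasureTheory
open Pool.Agent.helper38.NNF Pool.Agent.helper38.LacA
open scoped ComplexConjugate ComplexOrder

/-! A1 (division by zeros) -/

theorem mu_eq_zero {f : ℂ → ℂ} (hf : Differentiable ℂ f) {a : ℂ} (ha : f a ≠ 0) : mu f a = 0 := by
  have h := (hf.analyticAt a).analyticOrderAt_eq_zero.mpr ha
  unfold mu analyticOrderNatAt
  rw [h]; rfl

theorem A1_ne_top {f : ℂ → ℂ} (hf : Differentiable ℂ f) (h0 : f 0 ≠ 0) (a : ℂ) :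
    analyticOrderAt f a ≠ ⊤ := by
  intro h
  rw [analyticOrderAt_eq_top] at h
  have hA : AnalyticOnNhd ℂ f Set.univ := fun z _ => hf.analyticAt z
  have := hA.eqOn_zero_of_preconnected_of_eventuallyEq_zero isPreconnected_univ
    (Set.mem_univ a) h
  exact h0 (this (Set.mem_univ 0))

theorem A1_cast_mu {f : ℂ → ℂ} (hf : Differentiable ℂ f) (h0 : f 0 ≠ 0) (a : ℂ) :
    analyticOrderAt f a = (mu f a : ℕ) := by
  unfold mu
  exact (Nat.cast_analyticOrderNatAt (A1_ne_top hf h0 a)).symm

theorem mu_pos {f : ℂ → ℂ} (hf : Differentiable ℂ f) (h0 : f 0 ≠ 0) {a : ℂ} (ha : f a = 0) :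
    0 < mu f a := by
  rw [Nat.pos_iff_ne_zero]
  intro h
  have h1 := A1_cast_mu hf h0 a
  rw [h] at h1
  exact (hf.analyticAt a).analyticOrderAt_eq_zero.mp h1 ha

theorem A1_conj_analytic {g : ℂ → ℂ} {a : ℂ} (hg : AnalyticAt ℂ g a) :
    AnalyticAt ℂ (fun z => conj (g (conj z))) (conj a) := by
  rw [Complex.analyticAt_iff_eventually_differentiableAt] at hg ⊢
  have hc : Tendsto (fun z : ℂ => conj z) (𝓝 (conj a)) (𝓝 a) := by
    have := Complex.continuous_conj.tendsto (conj a)
    rwa [Complex.conj_conj] at this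
  filter_upwards [hc.eventually hg] with z hz
  have h1 : DifferentiableAt ℂ (conj ∘ g ∘ conj) (conj (conj z)) := hz.conj_conj
  rw [Complex.conj_conj] at h1
  exact h1

theorem A1_conj_natCast {f : ℂ → ℂ} (hf : Differentiable ℂ f)
    (hc : ∀ z, f (conj z) = conj (f z)) (a : ℂ) (n : ℕ) (h : analyticOrderAt f a = n) :
    analyticOrderAt f (conj a) = n := by
  rw [(hf.analyticAt a).analyticOrderAt_eq_natCast] at h
  rw [(hf.analyticAt (conj a)).analyticOrderAt_eq_natCast]
  obtain ⟨g, hg, hga, hev⟩ := h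
  refine ⟨fun z => conj (g (conj z)), A1_conj_analytic hg, ?_, ?_⟩
  · simp only [Complex.conj_conj]
    intro h
    exact hga ((map_eq_zero _).mp h)
  · have hcc : Tendsto (fun z : ℂ => conj z) (𝓝 (conj a)) (𝓝 a) := by
      have := Complex.continuous_conj.tendsto (conj a)
      rwa [Complex.conj_conj] at this
    filter_upwards [hcc.eventually hev] with z hz
    have h1 : f z = conj (f (conj z)) := by rw [hc, Complex.conj_conj]
    rw [h1, hz]
    simp only [smul_eq_mul, map_mul, map_pow, map_sub, Complex.conj_conj]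

theorem A1_conj_top {f : ℂ → ℂ} (hc : ∀ z, f (conj z) = conj (f z)) (a : ℂ)
    (h : analyticOrderAt f a = ⊤) : analyticOrderAt f (conj a) = ⊤ := by
  rw [analyticOrderAt_eq_top] at h ⊢
  have hcc : Tendsto (fun z : ℂ => conj z) (𝓝 (conj a)) (𝓝 a) := by
    have := Complex.continuous_conj.tendsto (conj a)
    rwa [Complex.conj_conj] at this
  filter_upwards [hcc.eventually h] with z hz
  have h1 : f z = conj (f (conj z)) := by rw [hc, Complex.conj_conj]
  rw [h1, hz, map_zero]

theorem mu_conj {f : ℂ → ℂ} (hf : Differentiable ℂ f) (hc : ∀ z, f (conj z) = conj (f z)) (a : ℂ) :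
    mu f (conj a) = mu f a := by
  unfold mu analyticOrderNatAt
  congr 1
  by_cases h : analyticOrderAt f a = ⊤
  · rw [h, A1_conj_top hc a h]
  · obtain ⟨n, hn⟩ := ENat.ne_top_iff_exists.mp h
    rw [← hn]
    exact A1_conj_natCast hf hc a n hn.symm

/-- zeros are isolated: finitely many in every closed ball -/
theorem zeros_finite {f : ℂ → ℂ} (hf : Differentiable ℂ f) (h0 : f 0 ≠ 0) (R : ℝ) :
    {a : ℂ | f a = 0 ∧ ‖a‖ ≤ R}.Finite := by
  by_contra hinf
  have hinf' : {a : ℂ | f a = 0 ∧ ‖a‖ ≤ R}.Infinite := hinf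
  obtain ⟨x, _, hx⟩ := hinf'.exists_accPt_of_subset_isCompact
    (isCompact_closedBall (0 : ℂ) R) (fun a ha => by
      simpa [Metric.mem_closedBall, dist_zero_right] using ha.2)
  have hfr : ∃ᶠ z in 𝓝[≠] x, f z = 0 := by
    rw [accPt_iff_frequently_nhdsNE] at hx
    exact hx.mono fun z hz => hz.1
  have hA : AnalyticOnNhd ℂ f Set.univ := fun z _ => hf.analyticAt z
  have := hA.eqOn_zero_of_preconnected_of_frequently_eq_zero isPreconnected_univ
    (Set.mem_univ x) hfr
  exact h0 (this (Set.mem_univ 0))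

theorem A1_PT_diff (m : ℂ → ℕ) (S : Finset ℂ) : Differentiable ℂ (PT m S) := by
  unfold PT
  refine Differentiable.fun_finset_prod fun a _ => ?_
  exact ((differentiable_const _).sub (differentiable_id.div_const a)).pow _

theorem A1_PT_ne {f : ℂ → ℂ} (hf : Differentiable ℂ f) (h0 : f 0 ≠ 0) (S : Finset ℂ) {a : ℂ}
    (ha : a ∉ S) : PT (mu f) S a ≠ 0 := by
  unfold PT
  rw [Finset.prod_ne_zero_iff]
  intro b hb
  by_cases hb0 : b = 0
  · rw [hb0, mu_eq_zero hf h0, pow_zero]; exact one_ne_zero
  · refine pow_ne_zero _ ?_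
    intro h
    have : a = b := by
      have h1 : a / b = 1 := by linear_combination -h
      field_simp at h1
      exact h1
    exact ha (this ▸ hb)

/-- one step of the division -/
theorem A1_step {g : ℂ → ℂ} (hg : Differentiable ℂ g) {a : ℂ} (ha : a ≠ 0) (n : ℕ)
    (hn : analyticOrderAt g a = n) :
    ∃ k : ℂ → ℂ, Differentiable ℂ k ∧ (∀ z, g z = (1 - z / a) ^ n * k z) ∧ k a ≠ 0 ∧
      (∀ z, z ≠ a → k z = g z / (1 - z / a) ^ n) := by
  classical
  rw [(hg.analyticAt a).analyticOrderAt_eq_natCast] at hn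
  obtain ⟨h, hh, hha, hev⟩ := hn
  have hfac : ∀ z : ℂ, (z - a) ^ n = (-a) ^ n * (1 - z / a) ^ n := by
    intro z
    rw [← mul_pow]
    congr 1
    field_simp
    ring
  have hne : ∀ z : ℂ, z ≠ a → 1 - z / a ≠ 0 := by
    intro z hz h1
    apply hz
    have h2 : z / a = 1 := by linear_combination -h1
    field_simp at h2
    exact h2
  let k : ℂ → ℂ := fun z => if z = a then (-a) ^ n * h a else g z / (1 - z / a) ^ n
  have hka : k a = (-a) ^ n * h a := by simp [k]
  have hkz : ∀ z, z ≠ a → k z = g z / (1 - z / a) ^ n := fun z hz => by simp [k, hz]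
  have hloc : k =ᶠ[𝓝 a] fun z => (-a) ^ n * h z := by
    filter_upwards [hev] with z hz
    by_cases hza : z = a
    · rw [hza, hka]
    · rw [hkz z hza, hz, smul_eq_mul, hfac]
      have := pow_ne_zero n (hne z hza)
      field_simp
  refine ⟨k, ?_, ?_, ?_, hkz⟩
  · intro z
    by_cases hza : z = a
    · subst hza
      refine DifferentiableAt.congr_of_eventuallyEq ?_ hloc
      exact hh.differentiableAt.const_mul _
    · have h2 : k =ᶠ[𝓝 z] fun z => g z / (1 - z / a) ^ n := by
        filter_upwards [isOpen_ne.mem_nhds hza] with w hw using hkz w hw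
      refine DifferentiableAt.congr_of_eventuallyEq ?_ h2
      exact (hg z).div (((differentiableAt_const _).sub (differentiableAt_id.div_const a)).pow _)
        (pow_ne_zero _ (hne z hza))
  · intro z
    by_cases hza : z = a
    · subst hza
      have h3 := hev.self_of_nhds
      rw [hka, h3, sub_self, div_self ha, sub_self, smul_eq_mul]
      rcases Nat.eq_zero_or_pos n with hn0 | hn0
      · rw [hn0]; simp
      · rw [zero_pow hn0.ne', zero_mul, zero_mul]
    · rw [hkz z hza]
      have := pow_ne_zero n (hne z hza)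
      field_simp
  · rw [hka]
    exact mul_ne_zero (pow_ne_zero _ (neg_ne_zero.mpr ha)) hha

/-- division by finitely many zeros (0 is not in `S` is not needed: its multiplicity is 0) -/
theorem div_zeros {f : ℂ → ℂ} (hf : Differentiable ℂ f) (h0 : f 0 ≠ 0) (S : Finset ℂ) :
    ∃ g : ℂ → ℂ, Differentiable ℂ g ∧ (∀ z, f z = PT (mu f) S z * g z) ∧ (∀ a ∈ S, g a ≠ 0) ∧
      g 0 = f 0 ∧ (∀ z, z ∉ S → (g z = 0 ↔ f z = 0)) := by
  classical
  induction S using Finset.induction_on with
  | empty =>
    refine ⟨f, hf, fun z => ?_, fun a ha => absurd ha (Finset.notMem_empty a), rfl,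
      fun z _ => Iff.rfl⟩
    simp [PT]
  | insert a S haS ih =>
    obtain ⟨g, hg, hfg, hgS, hg0, hgz⟩ := ih
    have hPT : ∀ z, PT (mu f) (insert a S) z = (1 - z / a) ^ mu f a * PT (mu f) S z := by
      intro z
      unfold PT
      rw [Finset.prod_insert haS]
    by_cases ha : a = 0
    · subst ha
      have hm : mu f 0 = 0 := mu_eq_zero hf h0
      refine ⟨g, hg, fun z => ?_, fun b hb => ?_, hg0, fun z hz => ?_⟩
      · rw [hPT, hm, pow_zero, one_mul]; exact hfg z
      · rw [Finset.mem_insert] at hb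
        rcases hb with hb | hb
        · rw [hb, hg0]; exact h0
        · exact hgS b hb
      · exact hgz z (fun h => hz (Finset.mem_insert_of_mem h))
    · have hord : analyticOrderAt g a = (mu f a : ℕ) := by
        have h1 : analyticOrderAt f a = analyticOrderAt (PT (mu f) S * g) a := by
          congr 1
          funext z
          exact hfg z
        have h2 : analyticOrderAt (PT (mu f) S) a = 0 :=
          ((A1_PT_diff (mu f) S).analyticAt a).analyticOrderAt_eq_zero.mpr
            (A1_PT_ne hf h0 S haS)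
        rw [analyticOrderAt_mul ((A1_PT_diff (mu f) S).analyticAt a) (hg.analyticAt a), h2,
          zero_add] at h1
        rw [← h1]
        exact A1_cast_mu hf h0 a
      obtain ⟨k, hk, hgk, hka, hkz⟩ := A1_step hg ha (mu f a) hord
      have hne : ∀ z : ℂ, z ≠ a → 1 - z / a ≠ 0 := by
        intro z hz h1
        apply hz
        have h2 : z / a = 1 := by linear_combination -h1
        field_simp at h2
        exact h2
      refine ⟨k, hk, fun z => ?_, fun b hb => ?_, ?_, fun z hz => ?_⟩
      · rw [hPT, hfg z, hgk z]; ring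
      · by_cases hba : b = a
        · rw [hba]; exact hka
        · rw [hkz b hba]
          rw [Finset.mem_insert] at hb
          exact div_ne_zero (hgS b (hb.resolve_left hba)) (pow_ne_zero _ (hne b hba))
      · rw [hkz 0 (fun h => ha h.symm), zero_div, sub_zero, one_pow, div_one, hg0]
      · rw [Finset.mem_insert, not_or] at hz
        rw [hkz z hz.1, div_eq_zero_iff]
        constructor
        · intro h
          rcases h with h | h
          · exact (hgz z hz.2).mp h
          · exact absurd h (pow_ne_zero _ (hne z hz.1))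
        · intro h
          exact Or.inl ((hgz z hz.2).mpr h)

end Pool.Agent.helper38.UB
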