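import Pool.Agent.helper38.UB.A1

set_option autoImplicit false

namespace Pool.Agent.helper38.UB

open Filter Topology MeasureTheory
open Pool.Agent.helper38.NNF Pool.Agent.helper38.LacA
open scoped ComplexConjugate ComplexOrder

/-! A2 (counting zeros) -/

theorem A2_two_pow (m : ℂ → ℕ) (S : Finset ℂ) (z : ℂ) (h : ∀ a ∈ S, m a = 0 ∨ 2 ≤ ‖1 - z / a‖) :
    (2 : ℝ) ^ (∑ a ∈ S, m a) ≤ ‖PT m S z‖ := by
  unfold PT
  rw [norm_prod, ← Finset.prod_pow_eq_pow_sum]
  refine Finset.prod_le_prod (fun a _ => by positivity) fun a ha => ?_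
  rw [norm_pow]
  rcases h a ha with h0 | h2
  · rw [h0]; simp
  · exact pow_le_pow_left₀ (by norm_num) h2 _

/-- `‖f‖ ≤ exp (C (1+‖z‖)^σ)`; compare at `0` and on `‖z‖ = 3 R`: `2^n(R) |f 0| ≤ M(3R)`. -/
theorem count_bound {f : ℂ → ℂ} (hf : Differentiable ℂ f) (h0 : f 0 ≠ 0) {σ : ℝ} (hσ : 0 ≤ σ)
    (hG : Gr f σ) : ∃ C' : ℝ, 0 ≤ C' ∧ ∀ R : ℝ, 0 ≤ R → ∀ S : Finset ℂ, (∀ a ∈ S, ‖a‖ ≤ R) →
      (∑ a ∈ S, (mu f a : ℝ)) ≤ C' * (1 + R) ^ σ := by
  obtain ⟨C, hC, hgr⟩ := hG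
  have hl2 : 0 < Real.log 2 := Real.log_pos (by norm_num)
  have hmu0 : mu f 0 = 0 := mu_eq_zero hf h0
  refine ⟨(C * 3 ^ σ + |Real.log ‖f 0‖|) / Real.log 2, by positivity, ?_⟩
  intro R hR S hS
  rcases hR.eq_or_lt with rfl | hRpos
  · have hz : ∑ a ∈ S, (mu f a : ℝ) = 0 := by
      refine Finset.sum_eq_zero fun a ha => ?_
      have : a = 0 := by simpa using hS a ha
      rw [this, hmu0]; simp
    rw [hz]; positivity
  · obtain ⟨g, hg, hfg, -, hg0, -⟩ := div_zeros hf h0 S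
    set n := ∑ a ∈ S, mu f a with hn
    have hfr : ∀ z : ℂ, ‖z‖ = 3 * R → (2 : ℝ) ^ n * ‖g z‖ ≤ Real.exp (C * (1 + 3 * R) ^ σ) := by
      intro z hz
      have h2 : (2 : ℝ) ^ n ≤ ‖PT (mu f) S z‖ := by
        refine A2_two_pow _ _ _ fun a ha => ?_
        by_cases ha0 : a = 0
        · left; rw [ha0, hmu0]
        · right
          have hna : 0 < ‖a‖ := norm_pos_iff.mpr ha0
          have h3 : 3 ≤ ‖z / a‖ := by
            rw [norm_div, hz, le_div_iff₀ hna]
            have := hS a ha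
            linarith
          have h4 := norm_sub_norm_le (z / a) 1
          rw [norm_sub_rev] at h4
          simp only [norm_one] at h4
          linarith
      have h5 := hgr z
      rw [hz, hfg z, norm_mul] at h5
      exact (mul_le_mul_of_nonneg_right h2 (norm_nonneg _)).trans h5
    have hmax : ‖g 0‖ ≤ Real.exp (C * (1 + 3 * R) ^ σ) / 2 ^ n := by
      have hb : Bornology.IsBounded (Metric.ball (0 : ℂ) (3 * R)) := Metric.isBounded_ball
      refine Complex.norm_le_of_forall_mem_frontier_norm_le hb hg.diffContOnCl (fun z hz => ?_)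
        (subset_closure (Metric.mem_ball_self (by positivity)))
      rw [frontier_ball _ (by positivity)] at hz
      have hz' : ‖z‖ = 3 * R := by simpa using hz
      rw [le_div_iff₀ (by positivity), mul_comm]
      exact hfr z hz'
    have hf0 : 0 < ‖f 0‖ := norm_pos_iff.mpr h0
    rw [hg0, le_div_iff₀ (by positivity)] at hmax
    have hlog := Real.log_le_log (by positivity) hmax
    rw [Real.log_exp, Real.log_mul hf0.ne' (by positivity), Real.log_pow] at hlog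
    have h1R : 1 ≤ (1 + R) ^ σ := Real.one_le_rpow (by linarith) hσ
    have h3R : (1 + 3 * R) ^ σ ≤ 3 ^ σ * (1 + R) ^ σ := by
      rw [← Real.mul_rpow (by norm_num) (by positivity)]
      exact Real.rpow_le_rpow (by positivity) (by linarith) hσ
    have hcast : (∑ a ∈ S, (mu f a : ℝ)) = (n : ℝ) := by rw [hn]; push_cast; rfl
    rw [hcast, div_mul_eq_mul_div, le_div_iff₀ hl2]
    have habs : -Real.log ‖f 0‖ ≤ |Real.log ‖f 0‖| := neg_le_abs _
    have h6 : |Real.log ‖f 0‖| ≤ |Real.log ‖f 0‖| * (1 + R) ^ σ :=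
      le_mul_of_one_le_right (abs_nonneg _) h1R
    have h7 : C * (1 + 3 * R) ^ σ ≤ C * (3 ^ σ * (1 + R) ^ σ) :=
      mul_le_mul_of_nonneg_left h3R hC
    nlinarith

/-- dyadic summation -/
theorem summable_mu {f : ℂ → ℂ} (hf : Differentiable ℂ f) (h0 : f 0 ≠ 0) {σ s : ℝ} (hσ : 0 ≤ σ)
    (hs : σ < s) (hG : Gr f σ) : Summable (fun a : ℂ => (mu f a : ℝ) * ‖a‖ ^ (-s)) := by
  classical
  obtain ⟨C, hC, hcount⟩ := count_bound hf h0 hσ hG
  set q : ℝ := (2 : ℝ) ^ (σ - s) with hq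
  have hq0 : 0 ≤ q := by positivity
  have hq1 : q < 1 := Real.rpow_lt_one_of_one_lt_of_neg (by norm_num) (by linarith)
  set Z := (zeros_finite hf h0 1).toFinset with hZ
  set F : ℂ → ℝ := fun a => (mu f a : ℝ) * ‖a‖ ^ (-s) with hF
  have hF0 : ∀ a, 0 ≤ F a := fun a => by positivity
  have hj : ∀ a : ℂ, ∃ j : ℕ, 1 ≤ ‖a‖ → (2 : ℝ) ^ j ≤ ‖a‖ ∧ ‖a‖ < 2 ^ (j + 1) := by
    intro a
    by_cases h : 1 ≤ ‖a‖
    · obtain ⟨j, hj⟩ := exists_nat_pow_near h (by norm_num : (1 : ℝ) < 2)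
      exact ⟨j, fun _ => hj⟩
    · exact ⟨0, fun h' => absurd h' h⟩
  choose jf hjf using hj
  refine summable_of_sum_le hF0 (c := (∑ a ∈ Z, F a) + C * 4 ^ σ * (1 - q)⁻¹) fun S => ?_
  rw [← Finset.sum_filter_add_sum_filter_not S (fun a => 1 ≤ ‖a‖)]
  rw [add_comm]
  refine add_le_add ?_ ?_
  · -- small zeros
    have h1 : ∑ a ∈ S.filter (fun a => ¬ 1 ≤ ‖a‖), F a
        = ∑ a ∈ (S.filter (fun a => ¬ 1 ≤ ‖a‖)).filter (fun a => f a = 0), F a := by
      rw [Finset.sum_filter (p := fun a => f a = 0)]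
      refine Finset.sum_congr rfl fun a _ => ?_
      split_ifs with h
      · rfl
      · simp only [hF, mu_eq_zero hf h]; simp
    rw [h1]
    refine Finset.sum_le_sum_of_subset_of_nonneg (fun a ha => ?_) fun a _ _ => hF0 a
    simp only [Finset.mem_filter, not_le] at ha
    rw [hZ, Set.Finite.mem_toFinset]
    exact ⟨ha.2, ha.1.2.le⟩
  · set S' := S.filter (fun a => 1 ≤ ‖a‖) with hS'
    obtain ⟨N, hN⟩ : ∃ N : ℕ, ∀ a ∈ S', jf a ∈ Finset.range N := by
      refine ⟨S'.sup jf + 1, fun a ha => ?_⟩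
      rw [Finset.mem_range]
      exact Nat.lt_succ_of_le (Finset.le_sup ha)
    rw [← Finset.sum_fiberwise_of_maps_to hN]
    have hterm : ∀ j ∈ Finset.range N, ∑ a ∈ S'.filter (fun a => jf a = j), F a
        ≤ C * 4 ^ σ * q ^ j := by
      intro j _
      have hb : ∀ a ∈ S'.filter (fun a => jf a = j), (2 : ℝ) ^ j ≤ ‖a‖ ∧ ‖a‖ ≤ 2 ^ (j + 1) := by
        intro a ha
        rw [Finset.mem_filter, hS', Finset.mem_filter] at ha
        obtain ⟨⟨_, h1⟩, h2⟩ := ha
        have := hjf a h1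
        rw [h2] at this
        exact ⟨this.1, this.2.le⟩
      have h1 : ∀ a ∈ S'.filter (fun a => jf a = j),
          F a ≤ (mu f a : ℝ) * ((2 : ℝ) ^ j) ^ (-s) := by
        intro a ha
        refine mul_le_mul_of_nonneg_left ?_ (Nat.cast_nonneg _)
        exact Real.rpow_le_rpow_of_nonpos (by positivity) (hb a ha).1 (by linarith)
      refine (Finset.sum_le_sum h1).trans ?_
      rw [← Finset.sum_mul]
      have h2 := hcount (2 ^ (j + 1)) (by positivity) _ fun a ha => (hb a ha).2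
      refine (mul_le_mul_of_nonneg_right h2 (by positivity)).trans ?_
      have h3 : (1 + (2 : ℝ) ^ (j + 1)) ^ σ ≤ 4 ^ σ * ((2 : ℝ) ^ j) ^ σ := by
        rw [← Real.mul_rpow (by norm_num) (by positivity)]
        refine Real.rpow_le_rpow (by positivity) ?_ hσ
        have : (1 : ℝ) ≤ 2 ^ j := one_le_pow₀ (by norm_num)
        rw [pow_succ]; linarith
      have h4 : ((2 : ℝ) ^ j) ^ σ * ((2 : ℝ) ^ j) ^ (-s) = q ^ j := by
        rw [← Real.rpow_add (by positivity), hq, ← Real.rpow_natCast, ← Real.rpow_natCast,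
          ← Real.rpow_mul (by norm_num), ← Real.rpow_mul (by norm_num)]
        ring_nf
      calc C * (1 + 2 ^ (j + 1)) ^ σ * ((2 : ℝ) ^ j) ^ (-s)
          ≤ C * (4 ^ σ * ((2 : ℝ) ^ j) ^ σ) * ((2 : ℝ) ^ j) ^ (-s) := by gcongr
        _ = C * 4 ^ σ * (((2 : ℝ) ^ j) ^ σ * ((2 : ℝ) ^ j) ^ (-s)) := by ring
        _ = C * 4 ^ σ * q ^ j := by rw [h4]
    refine (Finset.sum_le_sum hterm).trans ?_
    rw [← Finset.mul_sum]
    refine mul_le_mul_of_nonneg_left ?_ (by positivity)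
    rw [← tsum_geometric_of_lt_one hq0 hq1]
    exact (summable_geometric_of_lt_one hq0 hq1).sum_le_tsum _ (fun j _ => by positivity)

end Pool.Agent.helper38.UB
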