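import Pool.Agent.helper38.UB.Defs

set_option autoImplicit false

namespace Pool.Agent.helper38.UB

open Filter Topology MeasureTheory
open Pool.Agent.helper38.NNF Pool.Agent.helper38.LacA
open scoped ComplexConjugate ComplexOrder

/-! A4 (the Weierstrass factor) -/

theorem A4_logTaylor (p : ℕ) (u : ℂ) :
    Complex.logTaylor (p + 1) (-u) = -∑ j ∈ Finset.range p, u ^ (j + 1) / ((j : ℂ) + 1) := by
  unfold Complex.logTaylor
  rw [Finset.sum_range_succ']
  simp only [Nat.cast_zero, div_zero, add_zero]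
  rw [← Finset.sum_neg_distrib]
  refine Finset.sum_congr rfl fun j _ => ?_
  have h : (-1 : ℂ) ^ (j + 1 + 1) * (-u) ^ (j + 1) = -(u ^ (j + 1)) := by
    have h2 : (-u) ^ (j + 1) = (-1) ^ (j + 1) * u ^ (j + 1) := by
      rw [← mul_pow]; ring
    rw [h2, ← mul_assoc, ← pow_add]
    have : (-1 : ℂ) ^ (j + 1 + 1 + (j + 1)) = -1 := by
      have : j + 1 + 1 + (j + 1) = 2 * (j + 1) + 1 := by ring
      rw [this, pow_succ, pow_mul]
      norm_num
    rw [this]; ring
  rw [h]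
  push_cast
  ring

theorem abs_lE_le_small (p : ℕ) {u : ℂ} (hu : ‖u‖ ≤ 1 / 2) : |lE p u| ≤ 2 * ‖u‖ ^ (p + 1) := by
  have hu1 : ‖-u‖ < 1 := by rw [norm_neg]; linarith
  have h1 := Complex.norm_log_sub_logTaylor_le p hu1
  rw [norm_neg, A4_logTaylor] at h1
  have h2 : lE p u = (Complex.log (1 + -u) - -∑ j ∈ Finset.range p, u ^ (j + 1) / ((j : ℂ) + 1)).re := by
    unfold lE
    rw [Complex.sub_re, Complex.log_re, Complex.neg_re, ← sub_eq_add_neg]
    ring
  rw [h2]
  refine (Complex.abs_re_le_norm _).trans (h1.trans ?_)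
  have h3 : (1 - ‖u‖)⁻¹ ≤ 2 := by
    rw [inv_le_comm₀ (by linarith) (by norm_num)]
    linarith
  have h4 : 0 ≤ ‖u‖ ^ (p + 1) := by positivity
  have h5 : 0 ≤ (1 - ‖u‖)⁻¹ := inv_nonneg.mpr (by linarith)
  have h6 : ‖u‖ ^ (p + 1) * (1 - ‖u‖)⁻¹ / ((p : ℝ) + 1) ≤ ‖u‖ ^ (p + 1) * (1 - ‖u‖)⁻¹ :=
    div_le_self (mul_nonneg h4 h5) (by have : (0 : ℝ) ≤ p := Nat.cast_nonneg p
                                       linarith)
  refine h6.trans ?_
  nlinarith

theorem lE_le {p : ℕ} (hp : 1 ≤ p) {s : ℝ} (h1 : (p : ℝ) ≤ s) (h2 : s ≤ p + 1) :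
    ∃ C : ℝ, 0 ≤ C ∧ ∀ u : ℂ, lE p u ≤ C * ‖u‖ ^ s := by
  have h2s : (0 : ℝ) ≤ 2 ^ s := by positivity
  have hp1 : (1 : ℝ) ≤ p := by exact_mod_cast hp
  refine ⟨2 + (p + 1) * 2 ^ s, by positivity, fun u => ?_⟩
  have hrs : 0 ≤ ‖u‖ ^ s := Real.rpow_nonneg (norm_nonneg _) _
  rcases le_or_gt ‖u‖ (1 / 2) with hu | hu
  · have h3 := (le_abs_self _).trans (abs_lE_le_small p hu)
    have h4 : ‖u‖ ^ (p + 1) ≤ ‖u‖ ^ s := by
      rcases eq_or_lt_of_le (norm_nonneg u) with h0 | h0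
      · rw [← h0, zero_pow (by omega)]
        exact Real.rpow_nonneg le_rfl _
      · have h5 : ‖u‖ ^ ((p : ℝ) + 1) ≤ ‖u‖ ^ s :=
          Real.rpow_le_rpow_of_exponent_ge h0 (by linarith) h2
        have h6 : ‖u‖ ^ ((p : ℝ) + 1) = ‖u‖ ^ (p + 1) := by
          rw [← Real.rpow_natCast]; push_cast; rfl
        rw [← h6]; exact h5
    have h7 : 0 ≤ ((p : ℝ) + 1) * 2 ^ s * ‖u‖ ^ s := by positivity
    nlinarith
  · set r := ‖u‖ with hr
    have hr0 : 0 < r := by linarith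
    have key : ∀ j : ℕ, j + 1 ≤ p → r ^ (j + 1) ≤ 2 ^ s * r ^ s := by
      intro j hj
      have h3 : (1 : ℝ) ≤ 2 * r := by linarith
      have h4 : (2 * r) ^ (((j + 1 : ℕ) : ℝ)) ≤ (2 * r) ^ s :=
        Real.rpow_le_rpow_of_exponent_le h3 (by
          have : ((j + 1 : ℕ) : ℝ) ≤ (p : ℝ) := by exact_mod_cast hj
          linarith)
      rw [Real.rpow_natCast, Real.mul_rpow (by norm_num) hr0.le] at h4
      refine le_trans ?_ h4
      rw [mul_pow]
      have h5 : (1 : ℝ) ≤ 2 ^ (j + 1) := one_le_pow₀ (by norm_num)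
      have h6 : 0 ≤ r ^ (j + 1) := by positivity
      nlinarith
    have hlog : Real.log ‖1 - u‖ ≤ r := by
      rcases eq_or_lt_of_le (norm_nonneg (1 - u)) with h0 | h0
      · rw [← h0, Real.log_zero]; exact hr0.le
      · have h3 := Real.log_le_sub_one_of_pos h0
        have h4 : ‖1 - u‖ ≤ 1 + r := by
          calc ‖1 - u‖ ≤ ‖(1 : ℂ)‖ + ‖u‖ := norm_sub_le _ _
            _ = 1 + r := by rw [norm_one]
        linarith
    have hr1 : r ≤ 2 ^ s * r ^ s := by
      have := key 0 (by omega)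
      simpa using this
    have hsum : (∑ j ∈ Finset.range p, u ^ (j + 1) / ((j : ℂ) + 1)).re ≤ p * (2 ^ s * r ^ s) := by
      refine (Complex.re_le_norm _).trans ((norm_sum_le _ _).trans ?_)
      calc ∑ j ∈ Finset.range p, ‖u ^ (j + 1) / ((j : ℂ) + 1)‖
          ≤ ∑ j ∈ Finset.range p, 2 ^ s * r ^ s := by
            refine Finset.sum_le_sum fun j hj => ?_
            have hj' := Finset.mem_range.mp hj
            rw [norm_div, norm_pow]
            have h3 : ‖((j : ℂ) + 1)‖ = (j : ℝ) + 1 := by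
              have : ((j : ℂ) + 1) = (((j : ℝ) + 1 : ℝ) : ℂ) := by push_cast; rfl
              rw [this, Complex.norm_real, Real.norm_of_nonneg (by positivity)]
            rw [h3]
            refine (div_le_self (by positivity) (by
              have : (0 : ℝ) ≤ j := Nat.cast_nonneg j
              linarith)).trans ?_
            exact key j (by omega)
        _ = p * (2 ^ s * r ^ s) := by
            rw [Finset.sum_const, Finset.card_range, nsmul_eq_mul]
    unfold lE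
    have h8 : (0:ℝ) ≤ r ^ s := Real.rpow_nonneg hr0.le _
    nlinarith

theorem lE_conj (p : ℕ) (u : ℂ) : lE p (conj u) = lE p u := by
  unfold lE
  have h1 : ‖1 - conj u‖ = ‖1 - u‖ := by
    rw [← Complex.norm_conj (1 - u), map_sub, map_one]
  have h2 : (∑ j ∈ Finset.range p, (conj u) ^ (j + 1) / ((j : ℂ) + 1)) =
      conj (∑ j ∈ Finset.range p, u ^ (j + 1) / ((j : ℂ) + 1)) := by
    rw [map_sum]
    refine Finset.sum_congr rfl fun j _ => ?_
    rw [map_div₀, map_pow, map_add, map_one, Complex.conj_natCast]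
  rw [h1, h2, Complex.conj_re]

end Pool.Agent.helper38.UB
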