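import Pool.Agent.helper38.UB.A1
import Pool.Agent.helper38.UB.A2
import Pool.Agent.helper38.UB.A4

set_option autoImplicit false

namespace Pool.Agent.helper38.UB

open Filter Topology MeasureTheory
open Pool.Agent.helper38.NNF Pool.Agent.helper38.LacA
open scoped ComplexConjugate ComplexOrder

/-! A3 (logarithmic Hadamard representation) -/

/-- logarithm of a zero free function on a disc -/
theorem A3_log {g : ℂ → ℂ} {r : ℝ} (hr : 0 < r) (hg : DifferentiableOn ℂ g (Metric.ball 0 r))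
    (hne : ∀ z ∈ Metric.ball (0:ℂ) r, g z ≠ 0) :
    ∃ h : ℂ → ℂ, h 0 = Complex.log (g 0) ∧ DifferentiableOn ℂ h (Metric.ball 0 r) ∧
      ∀ z ∈ Metric.ball (0:ℂ) r, Complex.exp (h z) = g z := by
  have hgd : DifferentiableOn ℂ (deriv g) (Metric.ball 0 r) := hg.deriv Metric.isOpen_ball
  have hKd : DifferentiableOn ℂ (fun z => deriv g z / g z) (Metric.ball 0 r) := hgd.div hg hne
  obtain ⟨h, h0, hh⟩ := hKd.isExactOn_ball.with_val_at (0:ℂ) (Complex.log (g 0))
  have hz0 : (0:ℂ) ∈ Metric.ball (0:ℂ) r := Metric.mem_ball_self hr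
  have hpc : IsPreconnected (Metric.ball (0:ℂ) r) := (convex_ball (0:ℂ) r).isPreconnected
  refine ⟨h, h0, fun z hz => (hh z hz).differentiableAt.differentiableWithinAt, ?_⟩
  intro w hw
  have hq : ∀ z ∈ Metric.ball (0:ℂ) r, HasDerivAt (fun z => g z * Complex.exp (-(h z))) 0 z := by
    intro z hz
    have h1 : HasDerivAt g (deriv g z) z :=
      ((hg z hz).differentiableAt (Metric.isOpen_ball.mem_nhds hz)).hasDerivAt
    have h2 := (hh z hz).fun_neg.cexp
    have h3 := h1.fun_mul h2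
    have hgz := hne z hz
    have h4 : deriv g z * Complex.exp (-(h z)) +
        g z * (Complex.exp (-(h z)) * -(deriv g z / g z)) = 0 := by
      field_simp
      ring
    rw [h4] at h3
    exact h3
  have h5 : g w * Complex.exp (-(h w)) = g 0 * Complex.exp (-(h 0)) := by
    apply Metric.isOpen_ball.is_const_of_deriv_eq_zero hpc
      (f := fun z => g z * Complex.exp (-(h z)))
      (fun z hz => (hq z hz).differentiableAt.differentiableWithinAt)
      (fun z hz => (hq z hz).deriv) hw hz0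
  have h6 : g 0 * Complex.exp (-(h 0)) = 1 := by
    rw [h0, Complex.exp_neg, Complex.exp_log (hne 0 hz0), mul_inv_cancel₀ (hne 0 hz0)]
  rw [h6, Complex.exp_neg] at h5
  have h7 := Complex.exp_ne_zero (h w)
  field_simp at h5
  exact h5.symm

/-- Taylor polynomial and remainder of a function with one sided bound of the real part -/
theorem A3_taylor {h : ℂ → ℂ} {r M : ℝ} (hr : 0 < r) (hM : 0 < M)
    (hd : DifferentiableOn ℂ h (Metric.ball 0 r)) (hre : ∀ z ∈ Metric.ball (0:ℂ) r, (h z).re ≤ M)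
    (p : ℕ) : ∃ b : ℕ → ℂ, ∀ z : ℂ, ‖z‖ ≤ r / 8 →
      ‖h z - ∑ j ∈ Finset.range (p + 1), b j * z ^ j‖ ≤
        2 * (2 * M + 3 * ‖h 0‖) * (4 * ‖z‖ / r) ^ (p + 1) := by
  set K : ℝ := 2 * M + 3 * ‖h 0‖ with hK
  have hK0 : 0 ≤ K := by positivity
  have hbd : ∀ z : ℂ, ‖z‖ ≤ r / 2 → ‖h z‖ ≤ K := by
    intro z hz
    have hzb : z ∈ Metric.ball (0:ℂ) r := by rw [mem_ball_zero_iff]; linarith
    have h1 := Complex.borelCaratheodory hM hd (fun z hz => hre z hz) hr hzb
    refine h1.trans ?_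
    have e1 : 2 * M * ‖z‖ / (r - ‖z‖) ≤ 2 * M := by
      rw [div_le_iff₀ (by linarith)]
      nlinarith
    have e2 : ‖h 0‖ * (r + ‖z‖) / (r - ‖z‖) ≤ 3 * ‖h 0‖ := by
      rw [div_le_iff₀ (by linarith)]
      nlinarith [norm_nonneg (h 0)]
    linarith
  obtain ⟨ρ, hρ⟩ : ∃ ρ : ℝ, ρ = r / 4 := ⟨_, rfl⟩
  have hρ0 : 0 < ρ := by rw [hρ]; positivity
  set b : ℕ → ℂ := fun j => ((j.factorial : ℕ) : ℂ)⁻¹ * iteratedDeriv j h 0 with hb
  have hcoef : ∀ j, ‖b j‖ ≤ K / ρ ^ j := by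
    intro j
    have h1 : ‖iteratedDeriv j h 0‖ ≤ j.factorial * K / ρ ^ j := by
      apply Complex.norm_iteratedDeriv_le_of_forall_mem_sphere_norm_le j hρ0
      · refine ⟨hd.mono ?_, ?_⟩
        · apply Metric.ball_subset_ball; linarith
        · rw [closure_ball (0:ℂ) hρ0.ne']
          exact hd.continuousOn.mono (Metric.closedBall_subset_ball (by linarith))
      · intro z hz
        rw [mem_sphere_zero_iff_norm] at hz
        exact hbd z (by rw [hz]; linarith)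
    rw [hb]
    simp only [norm_mul, norm_inv, Complex.norm_natCast]
    have h2 : (0:ℝ) < j.factorial := by exact_mod_cast Nat.factorial_pos j
    rw [inv_mul_le_iff₀ h2]
    rw [mul_div_assoc] at h1
    exact h1
  refine ⟨b, fun z hz => ?_⟩
  have hzb : z ∈ Metric.ball (0:ℂ) r := by rw [mem_ball_zero_iff]; linarith
  have hsum : HasSum (fun j => b j * z ^ j) (h z) := by
    have h1 := Complex.hasSum_taylorSeries_on_ball hd hzb
    refine h1.congr_fun ?_ |> fun h => h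
    intro k
    simp only [hb, smul_eq_mul, sub_zero]
    ring
  have hsplit := (hsum.summable.sum_add_tsum_nat_add (p + 1))
  rw [hsum.tsum_eq] at hsplit
  have e1 : h z - ∑ j ∈ Finset.range (p + 1), b j * z ^ j = ∑' j, b (j + (p + 1)) * z ^ (j + (p + 1)) := by
    rw [← hsplit]; ring
  rw [e1]
  set t : ℝ := ‖z‖ / ρ with ht
  have ht0 : 0 ≤ t := by positivity
  have ht1 : t ≤ 1 / 2 := by
    rw [ht, div_le_iff₀ hρ0]; linarith
  have hterm : ∀ j, ‖b (j + (p + 1)) * z ^ (j + (p + 1))‖ ≤ K * t ^ (p + 1) * (1 / 2) ^ j := by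
    intro j
    rw [norm_mul, norm_pow]
    calc ‖b (j + (p + 1))‖ * ‖z‖ ^ (j + (p + 1))
        ≤ K / ρ ^ (j + (p + 1)) * ‖z‖ ^ (j + (p + 1)) := by
          gcongr
          exact hcoef _
      _ = K * t ^ (p + 1) * t ^ j := by
          rw [mul_assoc, ← pow_add, add_comm (p + 1) j, ht, div_pow]
          ring
      _ ≤ K * t ^ (p + 1) * (1 / 2) ^ j := by gcongr
  have hgeo : HasSum (fun j : ℕ => K * t ^ (p + 1) * (1 / 2 : ℝ) ^ j) (K * t ^ (p + 1) * 2) := by
    have := hasSum_geometric_two.mul_left (K * t ^ (p + 1))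
    exact this
  have h2 : ‖∑' j, b (j + (p + 1)) * z ^ (j + (p + 1))‖ ≤ K * t ^ (p + 1) * 2 :=
    tsum_of_norm_bounded hgeo hterm
  refine h2.trans (le_of_eq ?_)
  have e3 : 4 * ‖z‖ / r = t := by rw [ht, hρ]; field_simp
  rw [e3]; ring

/-- one radius: the formula with a remainder -/
theorem A3_one {f : ℂ → ℂ} (hf : Differentiable ℂ f) (h0 : f 0 ≠ 0) {σ C : ℝ}
    (hC : 0 ≤ C) (hG : ∀ z, ‖f z‖ ≤ Real.exp (C * (1 + ‖z‖) ^ σ)) (p : ℕ) {R : ℝ} (hR : 1 ≤ R) :
    ∃ c : Fin (p + 1) → ℂ, ∀ z : ℂ, ‖z‖ ≤ R / 4 → f z ≠ 0 →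
      |Real.log ‖f z‖ - ∑ a ∈ (zeros_finite hf h0 (2 * R)).toFinset, (mu f a : ℝ) * lE p (z / a) -
        (∑ j, c j * z ^ (j : ℕ)).re| ≤
        2 * (2 * (C * (1 + 6 * R) ^ σ + 1) + 3 * ‖Complex.log (f 0)‖) * (2 * ‖z‖ / R) ^ (p + 1) := by
  set S : Finset ℂ := (zeros_finite hf h0 (2 * R)).toFinset with hS
  have hSm : ∀ a, a ∈ S ↔ f a = 0 ∧ ‖a‖ ≤ 2 * R := by
    intro a; rw [hS, Set.Finite.mem_toFinset]; rfl
  obtain ⟨g, hgd, hfg, hgS, hg0, hgn⟩ := div_zeros hf h0 S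
  have hgne : ∀ z : ℂ, ‖z‖ ≤ 2 * R → g z ≠ 0 := by
    intro z hz
    by_cases hzS : z ∈ S
    · exact hgS z hzS
    · intro hgz
      exact hzS ((hSm z).mpr ⟨(hgn z hzS).mp hgz, hz⟩)
  set M : ℝ := C * (1 + 6 * R) ^ σ + 1 with hM
  have hM0 : 0 < M := by positivity
  -- bound on the big circle
  have hgb : ∀ z : ℂ, ‖z‖ ≤ 6 * R → ‖g z‖ ≤ Real.exp M := by
    intro z hz
    apply Complex.norm_le_of_forall_mem_frontier_norm_le (U := Metric.ball (0:ℂ) (6 * R))
      Metric.isBounded_ball hgd.diffContOnCl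
    · intro w hw
      rw [frontier_ball (0:ℂ) (by positivity), mem_sphere_zero_iff_norm] at hw
      have h1 : 1 ≤ ‖PT (mu f) S w‖ := by
        unfold PT
        rw [norm_prod]
        refine Finset.prod_induction _ (fun x : ℝ => 1 ≤ x)
          (fun a b ha hb => one_le_mul_of_one_le_of_one_le ha hb) le_rfl ?_
        intro a ha
        rw [norm_pow]
        apply one_le_pow₀
        obtain ⟨ha0, haR⟩ := (hSm a).mp ha
        have hane : a ≠ 0 := by rintro rfl; exact h0 ha0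
        have h2 : 3 ≤ ‖w / a‖ := by
          rw [norm_div, le_div_iff₀ (norm_pos_iff.mpr hane), hw]
          linarith
        have h3 := norm_sub_norm_le (w / a) 1
        rw [norm_one] at h3
        rw [norm_sub_rev]
        linarith
      have h2 := hG w
      rw [hfg w, norm_mul, hw] at h2
      have h3 : ‖g w‖ ≤ ‖PT (mu f) S w‖ * ‖g w‖ := le_mul_of_one_le_left (norm_nonneg _) h1
      refine h3.trans (h2.trans ?_)
      apply Real.exp_le_exp.mpr
      rw [hM]; linarith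
    · rw [closure_ball (0:ℂ) (by positivity)]
      simpa using hz
  obtain ⟨h, hh0, hhd, hhe⟩ := A3_log (r := 2 * R) (by positivity) hgd.differentiableOn
    (fun z hz => hgne z (by rw [mem_ball_zero_iff] at hz; exact hz.le))
  have hre : ∀ z ∈ Metric.ball (0:ℂ) (2 * R), (h z).re ≤ M := by
    intro z hz
    have h1 := hgb z (by rw [mem_ball_zero_iff] at hz; linarith)
    rw [← hhe z hz, Complex.norm_exp] at h1
    exact Real.exp_le_exp.mp h1
  obtain ⟨b, hb⟩ := A3_taylor (by positivity) hM0 hhd hre p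
  set c : Fin (p + 1) → ℂ := fun j => b j -
    (if (j : ℕ) = 0 then 0 else ∑ a ∈ S, (mu f a : ℂ) * (a⁻¹ ^ (j : ℕ) / (j : ℕ))) with hc
  refine ⟨c, fun z hz hfz => ?_⟩
  have hzb : z ∈ Metric.ball (0:ℂ) (2 * R) := by rw [mem_ball_zero_iff]; linarith
  have hlog : Real.log ‖f z‖ = ∑ a ∈ S, (mu f a : ℝ) * Real.log ‖1 - z / a‖ + (h z).re := by
    rw [hfg z, norm_mul, Real.log_mul]
    · congr 1
      · unfold PT
        rw [norm_prod, Real.log_prod]
        · apply Finset.sum_congr rfl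
          intro a _
          rw [norm_pow, Real.log_pow]
        · intro a ha hcon
          apply hfz
          rw [hfg z]
          have : PT (mu f) S z = 0 := Finset.prod_eq_zero ha (norm_eq_zero.mp hcon)
          rw [this, zero_mul]
      · rw [← hhe z hzb, Complex.norm_exp, Real.log_exp]
    · intro hcon
      apply hfz
      rw [hfg z, norm_eq_zero.mp hcon, zero_mul]
    · rw [norm_ne_zero_iff]
      exact hgne z (by rw [mem_ball_zero_iff] at hzb; exact hzb.le)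
  have hpoly : (∑ j, c j * z ^ (j : ℕ)) = ∑ j ∈ Finset.range (p + 1), b j * z ^ j -
      ∑ a ∈ S, (mu f a : ℂ) * ∑ j ∈ Finset.range p, (z / a) ^ (j + 1) / ((j : ℂ) + 1) := by
    rw [Fin.sum_univ_eq_sum_range (fun j => (b j - (if j = 0 then 0 else
      ∑ a ∈ S, (mu f a : ℂ) * (a⁻¹ ^ j / j))) * z ^ j) (p + 1)]
    simp only [sub_mul, Finset.sum_sub_distrib]
    congr 1
    rw [Finset.sum_range_succ']
    simp only [Nat.add_eq_zero_iff, one_ne_zero, and_false, if_false, if_true, zero_mul, add_zero]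
    simp only [Finset.mul_sum, Finset.sum_mul]
    rw [Finset.sum_comm]
    apply Finset.sum_congr rfl
    intro a _
    apply Finset.sum_congr rfl
    intro j _
    push_cast
    rw [div_eq_mul_inv z a, mul_pow]
    ring
  have hkey : Real.log ‖f z‖ - ∑ a ∈ S, (mu f a : ℝ) * lE p (z / a) -
      (∑ j, c j * z ^ (j : ℕ)).re = (h z - ∑ j ∈ Finset.range (p + 1), b j * z ^ j).re := by
    rw [hlog, hpoly]
    have e1 : ∑ a ∈ S, (mu f a : ℝ) * lE p (z / a) = ∑ a ∈ S, (mu f a : ℝ) * Real.log ‖1 - z / a‖ +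
        (∑ a ∈ S, (mu f a : ℂ) * ∑ j ∈ Finset.range p, (z / a) ^ (j + 1) / ((j : ℂ) + 1)).re := by
      rw [Complex.re_sum, ← Finset.sum_add_distrib]
      apply Finset.sum_congr rfl
      intro a _
      unfold lE
      rw [mul_add]
      congr 1
      rw [← Complex.ofReal_natCast, Complex.re_ofReal_mul]
    rw [e1, Complex.sub_re, Complex.sub_re]
    ring
  rw [hkey]
  refine (Complex.abs_re_le_norm _).trans ?_
  have h1 := hb z (by linarith)
  rw [hh0, hg0] at h1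
  refine h1.trans (le_of_eq ?_)
  congr 2
  field_simp
  ring

/-- the space of real parts of polynomials of degree `≤ p` restricted to a set is closed -/
theorem A3_closed (X : Type) (ι : X → ℂ) (p : ℕ) (q : ℕ → Fin (p + 1) → ℂ) (L : X → ℝ)
    (hL : ∀ x, Tendsto (fun n => (∑ j, q n j * ι x ^ (j : ℕ)).re) atTop (𝓝 (L x))) :
    ∃ c : Fin (p + 1) → ℂ, ∀ x, L x = (∑ j, c j * ι x ^ (j : ℕ)).re := by
  let Φ : (Fin (p + 1) → ℂ) →ₗ[ℝ] (X → ℝ) :=
    { toFun := fun c x => (∑ j, c j * ι x ^ (j : ℕ)).re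
      map_add' := by
        intro c d; funext x
        simp [add_mul, Finset.sum_add_distrib]
      map_smul' := by
        intro t c; funext x
        simp only [Pi.smul_apply, RingHom.id_apply, smul_eq_mul, Complex.real_smul, mul_assoc,
          ← Finset.mul_sum, Complex.re_ofReal_mul] }
  have hcl : IsClosed ((LinearMap.range Φ : Submodule ℝ (X → ℝ)) : Set (X → ℝ)) :=
    Submodule.closed_of_finiteDimensional _
  have hmem : L ∈ (LinearMap.range Φ : Submodule ℝ (X → ℝ)) := by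
    apply hcl.mem_of_tendsto (f := fun n => Φ (q n)) (b := atTop)
    · rw [tendsto_pi_nhds]
      exact hL
    · exact Eventually.of_forall (fun n => LinearMap.mem_range_self Φ (q n))
  obtain ⟨c, hc⟩ := hmem
  exact ⟨c, fun x => by rw [← hc]; rfl⟩

theorem A3_summable {f : ℂ → ℂ} (hf : Differentiable ℂ f) (h0 : f 0 ≠ 0) {σ : ℝ} (hσ : 0 ≤ σ) {p : ℕ}
    (hp : σ < p + 1) (hG : Gr f σ) (z : ℂ) :
    Summable (fun a : ℂ => (mu f a : ℝ) * lE p (z / a)) := by
  have h1 := summable_mu hf h0 hσ hp hG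
  have hfin := zeros_finite hf h0 (2 * ‖z‖)
  apply Summable.of_norm_bounded_eventually (g := fun a : ℂ =>
    2 * ‖z‖ ^ (p + 1) * ((mu f a : ℝ) * ‖a‖ ^ (-((p : ℝ) + 1))))
  · exact h1.mul_left _
  · rw [Filter.eventually_cofinite]
    apply hfin.subset
    intro a ha
    by_contra hcon
    apply ha
    by_cases hfa : f a = 0
    · have haz : 2 * ‖z‖ < ‖a‖ := by
        by_contra h2
        exact hcon ⟨hfa, not_lt.mp h2⟩
      have hapos : 0 < ‖a‖ := lt_of_le_of_lt (by positivity) haz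
      have hu : ‖z / a‖ ≤ 1 / 2 := by
        rw [norm_div, div_le_iff₀ hapos]; linarith
      have h3 := abs_lE_le_small p hu
      rw [norm_mul, Real.norm_eq_abs, Real.norm_eq_abs, Nat.abs_cast]
      calc (mu f a : ℝ) * |lE p (z / a)| ≤ (mu f a : ℝ) * (2 * ‖z / a‖ ^ (p + 1)) := by gcongr
        _ = 2 * ‖z‖ ^ (p + 1) * ((mu f a : ℝ) * ‖a‖ ^ (-((p : ℝ) + 1))) := by
            rw [norm_div, div_pow, Real.rpow_neg hapos.le]
            have : ‖a‖ ^ ((p : ℝ) + 1) = ‖a‖ ^ (p + 1) := by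
              rw [← Real.rpow_natCast ‖a‖ (p + 1)]; push_cast; rfl
            rw [this]
            field_simp
    · rw [mu_eq_zero hf hfa]; simp

theorem log_rep {f : ℂ → ℂ} (hf : Differentiable ℂ f) (h0 : f 0 ≠ 0) {σ : ℝ} (hσ : 0 ≤ σ) {p : ℕ}
    (hp : σ < p + 1) (hG : Gr f σ) :
    ∃ c : ℕ → ℂ, ∀ z : ℂ, f z ≠ 0 →
      Summable (fun a : ℂ => (mu f a : ℝ) * lE p (z / a)) ∧
      Real.log ‖f z‖ = (∑' a : ℂ, (mu f a : ℝ) * lE p (z / a)) +
        (∑ j ∈ Finset.range (p + 1), c j * z ^ j).re := by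
  obtain ⟨C, hC, hG'⟩ := id hG
  have hR : ∀ n : ℕ, (1:ℝ) ≤ (n:ℝ) + 1 := fun n => by
    have : (0:ℝ) ≤ n := Nat.cast_nonneg n
    linarith
  choose q hq using fun n : ℕ => A3_one hf h0 hC hG' p (hR n)
  set X : Type := {z : ℂ // f z ≠ 0} with hX
  set L : X → ℝ := fun x => Real.log ‖f x‖ - ∑' a : ℂ, (mu f a : ℝ) * lE p ((x : ℂ) / a) with hL
  have hlim : ∀ x : X, Tendsto (fun n => (∑ j, q n j * (x : ℂ) ^ (j : ℕ)).re) atTop (𝓝 (L x)) := by
    intro x
    -- partial sums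
    have hsum := A3_summable hf h0 hσ hp hG (x : ℂ)
    have hT : Tendsto (fun n : ℕ => ∑ a ∈ (zeros_finite hf h0 (2 * ((n:ℝ) + 1))).toFinset,
        (mu f a : ℝ) * lE p ((x : ℂ) / a)) atTop
        (𝓝 (∑' a : ℂ, (mu f a : ℝ) * lE p ((x : ℂ) / a))) := by
      have h1 : ∀ n : ℕ, ∑ a ∈ (zeros_finite hf h0 (2 * ((n:ℝ) + 1))).toFinset,
          (mu f a : ℝ) * lE p ((x : ℂ) / a) =
          ∑' a : ℂ, (if ‖a‖ ≤ 2 * ((n:ℝ) + 1) then (mu f a : ℝ) * lE p ((x : ℂ) / a) else 0) := by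
        intro n
        rw [tsum_eq_sum (s := (zeros_finite hf h0 (2 * ((n:ℝ) + 1))).toFinset)]
        · apply Finset.sum_congr rfl
          intro a ha
          rw [Set.Finite.mem_toFinset] at ha
          rw [if_pos ha.2]
        · intro a ha
          rw [Set.Finite.mem_toFinset] at ha
          split_ifs with h2
          · have : f a ≠ 0 := fun h3 => ha ⟨h3, h2⟩
            rw [mu_eq_zero hf this]; simp
          · rfl
      simp only [h1]
      apply tendsto_tsum_of_dominated_convergence (bound := fun a : ℂ =>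
        ‖(mu f a : ℝ) * lE p ((x : ℂ) / a)‖) hsum.norm
      · intro a
        apply tendsto_const_nhds.congr'
        filter_upwards [eventually_ge_atTop ⌈‖a‖⌉₊] with n hn
        have h2 : ‖a‖ ≤ n := (Nat.le_ceil _).trans (by exact_mod_cast hn)
        rw [if_pos]
        have := norm_nonneg a
        linarith
      · apply Eventually.of_forall
        intro n a
        split_ifs
        · exact le_rfl
        · rw [norm_zero]; exact norm_nonneg _
    -- the remainder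
    have hrem : Tendsto (fun n : ℕ => 2 * (2 * (C * (1 + 6 * ((n:ℝ) + 1)) ^ σ + 1) +
        3 * ‖Complex.log (f 0)‖) * (2 * ‖(x:ℂ)‖ / ((n:ℝ) + 1)) ^ (p + 1)) atTop (𝓝 0) := by
      have hn1 : Tendsto (fun n : ℕ => (n:ℝ) + 1) atTop atTop :=
        tendsto_atTop_add_const_right _ _ tendsto_natCast_atTop_atTop
      have h1 : Tendsto (fun y : ℝ => y ^ (σ - ((p:ℝ) + 1))) atTop (𝓝 0) := by
        have := tendsto_rpow_neg_atTop (y := (p:ℝ) + 1 - σ) (by linarith)
        refine this.congr (fun y => ?_)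
        congr 1; ring
      have h2 : Tendsto (fun y : ℝ => y ^ (-((p:ℝ) + 1))) atTop (𝓝 0) :=
        tendsto_rpow_neg_atTop (by positivity)
      have h3 : Tendsto (fun y : ℝ => (2 * (2 * C * 7 ^ σ) * (2 * ‖(x:ℂ)‖) ^ (p + 1)) *
          y ^ (σ - ((p:ℝ) + 1)) + (2 * (2 + 3 * ‖Complex.log (f 0)‖) * (2 * ‖(x:ℂ)‖) ^ (p + 1)) *
          y ^ (-((p:ℝ) + 1))) atTop (𝓝 0) := by
        have := (h1.const_mul (2 * (2 * C * 7 ^ σ) * (2 * ‖(x:ℂ)‖) ^ (p + 1))).add
          (h2.const_mul (2 * (2 + 3 * ‖Complex.log (f 0)‖) * (2 * ‖(x:ℂ)‖) ^ (p + 1)))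
        simpa using this
      apply squeeze_zero (fun n => by positivity) _ (h3.comp hn1)
      intro n
      simp only [Function.comp]
      set y : ℝ := (n:ℝ) + 1 with hy
      have hy1 : 1 ≤ y := hR n
      have hy0 : 0 < y := by linarith
      have e1 : (1 + 6 * y) ^ σ ≤ 7 ^ σ * y ^ σ := by
        rw [← Real.mul_rpow (by norm_num) hy0.le]
        apply Real.rpow_le_rpow (by positivity) (by linarith) hσ
      have e2 : (2 * ‖(x:ℂ)‖ / y) ^ (p + 1) = (2 * ‖(x:ℂ)‖) ^ (p + 1) * y ^ (-((p:ℝ) + 1)) := by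
        rw [div_pow, Real.rpow_neg hy0.le]
        have : y ^ ((p : ℝ) + 1) = y ^ (p + 1) := by
          rw [← Real.rpow_natCast y (p + 1)]; push_cast; rfl
        rw [this]; field_simp
      have e3 : y ^ (σ - ((p:ℝ) + 1)) = y ^ σ * y ^ (-((p:ℝ) + 1)) := by
        rw [← Real.rpow_add hy0]; congr 1
      rw [e2, e3]
      have hA : 0 ≤ (2 * ‖(x:ℂ)‖) ^ (p + 1) * y ^ (-((p:ℝ) + 1)) := by positivity
      calc 2 * (2 * (C * (1 + 6 * y) ^ σ + 1) + 3 * ‖Complex.log (f 0)‖) *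
            ((2 * ‖(x:ℂ)‖) ^ (p + 1) * y ^ (-((p:ℝ) + 1)))
          ≤ 2 * (2 * (C * (7 ^ σ * y ^ σ) + 1) + 3 * ‖Complex.log (f 0)‖) *
            ((2 * ‖(x:ℂ)‖) ^ (p + 1) * y ^ (-((p:ℝ) + 1))) := by gcongr
        _ = _ := by ring
    -- combine
    have hd : Tendsto (fun n : ℕ => Real.log ‖f x‖ -
        ∑ a ∈ (zeros_finite hf h0 (2 * ((n:ℝ) + 1))).toFinset, (mu f a : ℝ) * lE p ((x : ℂ) / a) -
        (∑ j, q n j * (x : ℂ) ^ (j : ℕ)).re) atTop (𝓝 0) := by
      apply squeeze_zero_norm' _ hrem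
      filter_upwards [eventually_ge_atTop ⌈4 * ‖(x:ℂ)‖⌉₊] with n hn
      have h2 : 4 * ‖(x:ℂ)‖ ≤ n := (Nat.le_ceil _).trans (by exact_mod_cast hn)
      rw [Real.norm_eq_abs]
      exact hq n x (by linarith) x.2
    have hfin := ((tendsto_const_nhds (x := Real.log ‖f x‖)).sub hT).sub hd
    rw [sub_zero] at hfin
    refine hfin.congr (fun n => ?_)
    ring
  obtain ⟨c, hc⟩ := A3_closed X (fun x => (x : ℂ)) p q L hlim
  refine ⟨fun j => if hj : j < p + 1 then c ⟨j, hj⟩ else 0, fun z hz => ?_⟩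
  refine ⟨A3_summable hf h0 hσ hp hG z, ?_⟩
  have h1 := hc ⟨z, hz⟩
  simp only [hL] at h1
  have e1 : (∑ j ∈ Finset.range (p + 1), (if hj : j < p + 1 then c ⟨j, hj⟩ else 0) * z ^ j) =
      ∑ j, c j * z ^ (j : ℕ) := by
    rw [Finset.sum_range]
    apply Finset.sum_congr rfl
    intro j _
    rw [dif_pos j.2]
  rw [e1, ← h1]
  ring

/-- real version -/
theorem log_rep_real {f : ℂ → ℂ} (hf : Differentiable ℂ f) (h0 : f 0 ≠ 0)
    (hc : ∀ z, f (conj z) = conj (f z)) {σ : ℝ} (hσ : 0 ≤ σ) {p : ℕ}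
    (hp : σ < p + 1) (hG : Gr f σ) :
    ∃ c : ℕ → ℝ, ∀ z : ℂ, f z ≠ 0 →
      Summable (fun a : ℂ => (mu f a : ℝ) * lE p (z / a)) ∧
      Real.log ‖f z‖ = (∑' a : ℂ, (mu f a : ℝ) * lE p (z / a)) +
        (∑ j ∈ Finset.range (p + 1), (c j : ℂ) * z ^ j).re := by
  obtain ⟨c, hcc⟩ := log_rep hf h0 hσ hp hG
  refine ⟨fun j => (c j).re, fun z hz => ?_⟩
  obtain ⟨h1, h2⟩ := hcc z hz
  refine ⟨h1, ?_⟩
  have hz' : f (conj z) ≠ 0 := by
    rw [hc z]; simpa using hz
  obtain ⟨_, h3⟩ := hcc (conj z) hz'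
  have e1 : ∑' a : ℂ, (mu f a : ℝ) * lE p (conj z / a) = ∑' a : ℂ, (mu f a : ℝ) * lE p (z / a) := by
    have := (Equiv.tsum_eq (Complex.conjAe.toEquiv : ℂ ≃ ℂ)
      (fun a : ℂ => (mu f a : ℝ) * lE p (conj z / a)))
    rw [← this]
    apply tsum_congr
    intro a
    show (mu f (conj a) : ℝ) * lE p (conj z / conj a) = _
    rw [mu_conj hf hc, ← map_div₀, lE_conj]
  rw [e1, hc z, Complex.norm_conj] at h3
  have e2 : (∑ j ∈ Finset.range (p + 1), ((c j).re : ℂ) * z ^ j).re =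
      ((∑ j ∈ Finset.range (p + 1), c j * z ^ j).re +
        (∑ j ∈ Finset.range (p + 1), c j * (conj z) ^ j).re) / 2 := by
    simp only [Complex.re_sum]
    rw [← Finset.sum_add_distrib, Finset.sum_div]
    apply Finset.sum_congr rfl
    intro j _
    rw [← map_pow, Complex.re_ofReal_mul, Complex.mul_re, Complex.mul_re, Complex.conj_re,
      Complex.conj_im]
    ring
  rw [e2]
  linarith

end Pool.Agent.helper38.UB
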