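import Pool.Agent.helper38.UB.Defs

set_option autoImplicit false

namespace Pool.Agent.helper38.UB

open Filter Topology MeasureTheory
open Pool.Agent.helper38.NNF Pool.Agent.helper38.LacA
open scoped ComplexConjugate ComplexOrder

/-! A5 (order) -/

theorem gr_of_order {f : ℂ → ℂ} (hf : NN f) {ρ σ : ℝ} (ho : Lac.order f = ((ρ : ℝ) : EReal))
    (h : ρ < σ) (hσ : 0 ≤ σ) : Gr f σ := by
  have hord : Lac.order f < ((σ : ℝ) : EReal) := by
    rw [ho]; exact_mod_cast h
  have h1 : ∀ᶠ r : ℝ in atTop,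
      ((Real.log (Real.log (Lac.maxMod f r)) / Real.log r : ℝ) : EReal) < (σ : EReal) :=
    eventually_lt_of_limsup_lt hord (by isBoundedDefault)
  have hgrow : ∀ᶠ r : ℝ in atTop, Real.log (val f r) ≤ r ^ σ := by
    filter_upwards [h1, eventually_gt_atTop (1:ℝ)] with r hr hr1
    have hr2 : Real.log (Real.log (Lac.maxMod f r)) / Real.log r < σ := by exact_mod_cast hr
    have hlr : 0 < Real.log r := Real.log_pos hr1
    rw [div_lt_iff₀ hlr] at hr2
    have hrc : 0 ≤ r ^ σ := Real.rpow_nonneg (by linarith) _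
    rcases le_or_gt (Real.log (val f r)) 0 with h0 | h0
    · linarith
    · rw [Lac.maxMod_eq hf (by linarith)] at hr2
      rw [← Real.log_rpow (by linarith)] at hr2
      exact ((Real.log_lt_log_iff h0 (Real.rpow_pos_of_pos (by linarith) _)).mp hr2).le
  obtain ⟨R₂, hR₂⟩ := Filter.eventually_atTop.mp hgrow
  set R : ℝ := max R₂ 1 with hR
  have hR1 : 1 ≤ R := le_max_right _ _
  have hR2 : R₂ ≤ R := le_max_left _ _
  have key : ∀ x y : ℝ, 0 ≤ x → Real.log x ≤ y → x ≤ Real.exp y := by
    intro x y hx hxy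
    rcases hx.eq_or_lt with h0 | h0
    · rw [← h0]; exact (Real.exp_pos _).le
    · calc x = Real.exp (Real.log x) := (Real.exp_log h0).symm
        _ ≤ Real.exp y := Real.exp_le_exp.mpr hxy
  refine ⟨1 + |Real.log (val f R)|, by positivity, ?_⟩
  intro z
  have hz1 : (1:ℝ) ≤ (1 + ‖z‖) ^ σ :=
    Real.one_le_rpow (by linarith [norm_nonneg z]) hσ
  rcases le_or_gt R ‖z‖ with hz | hz
  · refine (norm_le_val hf z).trans (key _ _ (val_nonneg hf (norm_nonneg z)) ?_)
    have h2 : Real.log (val f ‖z‖) ≤ ‖z‖ ^ σ := hR₂ _ (hR2.trans hz)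
    have h3 : ‖z‖ ^ σ ≤ (1 + ‖z‖) ^ σ :=
      Real.rpow_le_rpow (norm_nonneg z) (by linarith) hσ
    have h4 : 0 ≤ |Real.log (val f R)| * (1 + ‖z‖) ^ σ := by positivity
    nlinarith
  · refine (norm_le_val' hf hz.le).trans (key _ _ (val_nonneg hf (by linarith)) ?_)
    have h4 : |Real.log (val f R)| ≤ |Real.log (val f R)| * (1 + ‖z‖) ^ σ :=
      le_mul_of_one_le_right (abs_nonneg _) hz1
    have h5 := le_abs_self (Real.log (val f R))
    nlinarith

theorem order_le_of_gr {f : ℂ → ℂ} (hf : NN f) (hinf : Tendsto (val f) atTop atTop) {s : ℝ}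
    (hs : 0 ≤ s) (hG : Gr f s) : Lac.order f ≤ ((s : ℝ) : EReal) := by
  by_contra hcon
  push Not at hcon
  obtain ⟨q, hq1, hq2⟩ := EReal.lt_iff_exists_real_btwn.mp hcon
  have hsq : s < q := by exact_mod_cast hq1
  obtain ⟨C, hC, hCf⟩ := hG
  set C' : ℝ := C * 2 ^ s + 1 with hC'
  have hC'pos : 0 < C' := by positivity
  have hev : ∀ᶠ R : ℝ in atTop,
      ((Real.log (Real.log (Lac.maxMod f R)) / Real.log R : ℝ) : EReal) ≤ (q : EReal) := by
    have h1 : Tendsto (fun R : ℝ => (q - s) * Real.log R) atTop atTop :=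
      Tendsto.const_mul_atTop (by linarith) Real.tendsto_log_atTop
    filter_upwards [h1.eventually_ge_atTop (Real.log C'), eventually_gt_atTop (1:ℝ),
      hinf.eventually_gt_atTop 1] with R hR1 hR2 hR3
    have hlR : 0 < Real.log R := Real.log_pos hR2
    have h0 : 0 < Real.log (val f R) := Real.log_pos hR3
    have hRs : 0 < R ^ s := Real.rpow_pos_of_pos (by linarith) _
    have h2 : Real.log (val f R) ≤ C' * R ^ s := by
      have h3 := hCf (R : ℂ)
      rw [val_eq hf, Complex.norm_real, Complex.norm_real, Real.norm_eq_abs, Real.norm_eq_abs,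
        abs_of_pos (by linarith : (0:ℝ) < val f R), abs_of_pos (by linarith : (0:ℝ) < R)] at h3
      have h4 := Real.log_le_log (by linarith) h3
      rw [Real.log_exp] at h4
      have h5 : (1 + R) ^ s ≤ (2 * R) ^ s := Real.rpow_le_rpow (by linarith) (by linarith) hs
      rw [Real.mul_rpow (by norm_num) (by linarith)] at h5
      have h6 : C * (1 + R) ^ s ≤ C * (2 ^ s * R ^ s) := mul_le_mul_of_nonneg_left h5 hC
      rw [hC']
      nlinarith
    rw [Lac.maxMod_eq hf (by linarith)]
    have h3 := Real.log_le_log h0 h2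
    rw [Real.log_mul hC'pos.ne' hRs.ne', Real.log_rpow (by linarith)] at h3
    have h4 : Real.log (Real.log (val f R)) / Real.log R ≤ q := by
      rw [div_le_iff₀ hlR]
      linarith
    exact_mod_cast h4
  have h2 : Lac.order f ≤ (q : EReal) := limsup_le_of_le (by isBoundedDefault) hev
  exact absurd hq2 (not_lt.mpr h2)

end Pool.Agent.helper38.UB
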