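import Pool.Agent.helper38.UB.A3
import Pool.Agent.helper38.UB.A4

set_option autoImplicit false

namespace Pool.Agent.helper38.UB

open Filter Topology MeasureTheory
open Pool.Agent.helper38.NNF Pool.Agent.helper38.LacA
open scoped ComplexConjugate ComplexOrder

/-! A6 (order can only drop if the convergence exponent drops) -/

theorem gr_of_summable {f : ℂ → ℂ} (hf : Differentiable ℂ f) (h0 : f 0 ≠ 0) {σ s : ℝ} (hσ : 0 ≤ σ)
    {p : ℕ} (hp1 : 1 ≤ p) (hp : σ < p + 1) (hG : Gr f σ) (h1 : (p : ℝ) ≤ s) (h2 : s ≤ p + 1)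
    (hsum : Summable (fun a : ℂ => (mu f a : ℝ) * ‖a‖ ^ (-s))) : Gr f s := by
  obtain ⟨c, hc⟩ := log_rep hf h0 hσ hp hG
  obtain ⟨C, hC0, hC⟩ := lE_le hp1 h1 h2
  have hp1' : (1 : ℝ) ≤ p := by exact_mod_cast hp1
  have hs0 : 0 < s := by linarith
  set S : ℝ := ∑' a : ℂ, (mu f a : ℝ) * ‖a‖ ^ (-s) with hS
  have hS0 : 0 ≤ S := tsum_nonneg fun a => mul_nonneg (Nat.cast_nonneg _)
    (Real.rpow_nonneg (norm_nonneg _) _)
  have hterm : ∀ z a : ℂ, (mu f a : ℝ) * lE p (z / a) ≤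
      (C * ‖z‖ ^ s) * ((mu f a : ℝ) * ‖a‖ ^ (-s)) := by
    intro z a
    have hmu : (0 : ℝ) ≤ (mu f a : ℝ) := Nat.cast_nonneg _
    have h3 := mul_le_mul_of_nonneg_left (hC (z / a)) hmu
    by_cases ha : a = 0
    · subst ha
      rw [div_zero, norm_zero, Real.zero_rpow hs0.ne', mul_zero, mul_zero] at h3
      rw [div_zero]
      exact h3.trans (mul_nonneg (mul_nonneg hC0 (Real.rpow_nonneg (norm_nonneg _) _))
        (mul_nonneg hmu (Real.rpow_nonneg (norm_nonneg _) _)))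
    · refine h3.trans (le_of_eq ?_)
      rw [norm_div, Real.div_rpow (norm_nonneg _) (norm_nonneg _), Real.rpow_neg (norm_nonneg _)]
      ring
  refine ⟨C * S + ∑ j ∈ Finset.range (p + 1), ‖c j‖, by positivity, fun z => ?_⟩
  by_cases hz : f z = 0
  · rw [hz, norm_zero]; exact (Real.exp_pos _).le
  obtain ⟨hsm, hlog⟩ := hc z hz
  rw [← Real.exp_log (norm_pos_iff.2 hz)]
  refine Real.exp_le_exp.2 ?_
  rw [hlog]
  have h1z : 1 ≤ 1 + ‖z‖ := by linarith [norm_nonneg z]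
  have hA : (∑' a : ℂ, (mu f a : ℝ) * lE p (z / a)) ≤ C * S * (1 + ‖z‖) ^ s := by
    calc (∑' a : ℂ, (mu f a : ℝ) * lE p (z / a))
        ≤ ∑' a : ℂ, (C * ‖z‖ ^ s) * ((mu f a : ℝ) * ‖a‖ ^ (-s)) :=
          hsm.tsum_le_tsum (hterm z) (hsum.mul_left _)
      _ = (C * ‖z‖ ^ s) * S := by rw [tsum_mul_left]
      _ = C * S * ‖z‖ ^ s := by ring
      _ ≤ C * S * (1 + ‖z‖) ^ s := by
          refine mul_le_mul_of_nonneg_left ?_ (mul_nonneg hC0 hS0)
          exact Real.rpow_le_rpow (norm_nonneg _) (by linarith) hs0.le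
  have hB : (∑ j ∈ Finset.range (p + 1), c j * z ^ j).re ≤
      (∑ j ∈ Finset.range (p + 1), ‖c j‖) * (1 + ‖z‖) ^ s := by
    refine (Complex.re_le_norm _).trans ((norm_sum_le _ _).trans ?_)
    rw [Finset.sum_mul]
    refine Finset.sum_le_sum fun j hj => ?_
    rw [norm_mul, norm_pow]
    refine mul_le_mul_of_nonneg_left ?_ (norm_nonneg _)
    have hj' : j ≤ p := by simpa [Nat.lt_succ_iff] using Finset.mem_range.1 hj
    calc ‖z‖ ^ j ≤ (1 + ‖z‖) ^ j := pow_le_pow_left₀ (norm_nonneg _) (by linarith) j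
      _ = (1 + ‖z‖) ^ (j : ℝ) := (Real.rpow_natCast _ _).symm
      _ ≤ (1 + ‖z‖) ^ s := Real.rpow_le_rpow_of_exponent_le h1z (by
          have : (j : ℝ) ≤ p := by exact_mod_cast hj'
          linarith)
  linarith

end Pool.Agent.helper38.UB
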