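import Pool.Agent.helper38.UB.A4

set_option autoImplicit false

namespace Pool.Agent.helper38.UB

open Filter Topology MeasureTheory
open Pool.Agent.helper38.NNF Pool.Agent.helper38.LacA
open scoped ComplexConjugate ComplexOrder

/-! B1 (kernel bounds) -/

theorem B1_sum (k : ℕ) (v : ℂ) :
    (∑ j ∈ Finset.range (2 * k + 1), (-v) ^ (j + 1) / ((j : ℂ) + 1)) -
      (∑ j ∈ Finset.range (2 * k + 1), v ^ (j + 1) / ((j : ℂ) + 1)) =
      -2 * ∑ i ∈ Finset.range (k + 1), v ^ (2 * i + 1) / (2 * (i : ℂ) + 1) := by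
  induction k with
  | zero => simp; ring
  | succ k ih =>
    have e : 2 * (k + 1) + 1 = (2 * k + 1) + 1 + 1 := by ring
    rw [e, Finset.sum_range_succ, Finset.sum_range_succ, Finset.sum_range_succ (n := 2 * k + 1 + 1),
      Finset.sum_range_succ (n := 2 * k + 1), Finset.sum_range_succ (n := k + 1), mul_add, ← ih]
    have e1 : (-v) ^ (2 * k + 1 + 1) = v ^ (2 * k + 1 + 1) := by
      rw [show 2 * k + 1 + 1 = 2 * (k + 1) by ring, pow_mul, pow_mul, neg_sq]
    have e2 : (-v) ^ (2 * k + 1 + 1 + 1) = - v ^ (2 * k + 1 + 1 + 1) := by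
      rw [pow_succ, e1]; ring
    rw [e1, e2]
    push_cast
    have e3 : (2 * (k : ℂ) + 1 + 1 + 1) = 2 * ((k : ℂ) + 1) + 1 := by ring
    rw [e3]
    have e4 : 2 * (k + 1) + 1 = 2 * k + 1 + 1 + 1 := by ring
    rw [e4]
    ring

theorem Kf_eq (k : ℕ) (v : ℂ) : Kf k v = (Real.log ‖1 + v‖ - Real.log ‖1 - v‖) / 2 -
    ∑ i ∈ Finset.range (k + 1), (v ^ (2 * i + 1)).re / (2 * i + 1) := by
  unfold Kf lE
  have h1 := B1_sum k v
  have h2 := congrArg Complex.re h1
  rw [Complex.sub_re] at h2
  have h3 : (-2 * ∑ i ∈ Finset.range (k + 1), v ^ (2 * i + 1) / (2 * (i : ℂ) + 1)).re =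
      -2 * ∑ i ∈ Finset.range (k + 1), (v ^ (2 * i + 1)).re / (2 * i + 1) := by
    have : (-2 : ℂ) = ((-2 : ℝ) : ℂ) := by push_cast; rfl
    rw [this, Complex.re_ofReal_mul, Complex.re_sum]
    congr 1
    refine Finset.sum_congr rfl (fun i _ => ?_)
    have e : (2 * (i : ℂ) + 1) = ((2 * (i : ℝ) + 1 : ℝ) : ℂ) := by push_cast; rfl
    rw [e, Complex.div_ofReal_re]
  rw [h3] at h2
  have h4 : (1 : ℂ) - -v = 1 + v := by ring
  rw [h4]
  linarith

theorem Kf_conj (k : ℕ) (v : ℂ) : Kf k (conj v) = Kf k v := by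
  unfold Kf
  rw [lE_conj, ← map_neg, lE_conj]

theorem B1_log_le {w : ℂ} {u : ℝ} (hw : ‖w‖ = u) (hu : u ≠ 1) :
    |Real.log ‖1 - w‖| ≤ Real.log (1 + u) + |Real.log (1 - u)| := by
  have hu0 : 0 ≤ u := hw ▸ norm_nonneg w
  have h1 : |1 - u| ≤ ‖1 - w‖ := by
    have := abs_norm_sub_norm_le (1 : ℂ) w
    rwa [norm_one, hw] at this
  have h2 : ‖1 - w‖ ≤ 1 + u := by
    have := norm_sub_le (1 : ℂ) w
    rwa [norm_one, hw] at this
  have h3 : 0 < |1 - u| := abs_pos.2 (sub_ne_zero.2 (Ne.symm hu))
  have h4 : Real.log |1 - u| ≤ Real.log ‖1 - w‖ := Real.log_le_log h3 h1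
  have h5 : Real.log ‖1 - w‖ ≤ Real.log (1 + u) := Real.log_le_log (lt_of_lt_of_le h3 h1) h2
  rw [Real.log_abs] at h4
  have h6 : 0 ≤ Real.log (1 + u) := Real.log_nonneg (by linarith)
  rw [abs_le]
  constructor
  · have := neg_abs_le (Real.log (1 - u))
    linarith
  · have := abs_nonneg (Real.log (1 - u))
    linarith

theorem abs_Kf_le (k : ℕ) {v : ℂ} (hv : ‖v‖ ≠ 1) : |Kf k v| ≤ kap k ‖v‖ := by
  unfold kap
  split_ifs with h
  · have h1 := abs_lE_le_small (2 * k + 1) (u := v) h
    have h2 := abs_lE_le_small (2 * k + 1) (u := -v) (by rwa [norm_neg])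
    rw [norm_neg] at h2
    unfold Kf
    rw [abs_div, abs_two, div_le_iff₀ (by norm_num)]
    calc |lE (2 * k + 1) (-v) - lE (2 * k + 1) v| ≤ |lE (2 * k + 1) (-v)| + |lE (2 * k + 1) v| :=
          abs_sub _ _
      _ ≤ 2 * ‖v‖ ^ (2 * k + 1 + 1) + 2 * ‖v‖ ^ (2 * k + 1 + 1) := add_le_add h2 h1
      _ = _ := by ring
  · rw [Kf_eq]
    have h1 := B1_log_le (w := v) rfl hv
    have h2 := B1_log_le (w := -v) (u := ‖v‖) (norm_neg v) hv
    have h2' : (1 : ℂ) - -v = 1 + v := by ring
    rw [h2'] at h2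
    have h3 : |∑ i ∈ Finset.range (k + 1), (v ^ (2 * i + 1)).re / (2 * (i : ℝ) + 1)|
        ≤ ∑ i ∈ Finset.range (k + 1), ‖v‖ ^ (2 * i + 1) := by
      refine (Finset.abs_sum_le_sum_abs _ _).trans (Finset.sum_le_sum (fun i _ => ?_))
      rw [abs_div]
      have h4 : |(v ^ (2 * i + 1)).re| ≤ ‖v‖ ^ (2 * i + 1) := by
        rw [← norm_pow]; exact Complex.abs_re_le_norm _
      have h5 : (1 : ℝ) ≤ |2 * (i : ℝ) + 1| := by
        rw [abs_of_nonneg (by positivity)]
        have : (0 : ℝ) ≤ i := Nat.cast_nonneg i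
        linarith
      calc _ ≤ |(v ^ (2 * i + 1)).re| := div_le_self (abs_nonneg _) h5
        _ ≤ _ := h4
    calc |(Real.log ‖1 + v‖ - Real.log ‖1 - v‖) / 2 -
          ∑ i ∈ Finset.range (k + 1), (v ^ (2 * i + 1)).re / (2 * i + 1)|
        ≤ |(Real.log ‖1 + v‖ - Real.log ‖1 - v‖) / 2| +
          |∑ i ∈ Finset.range (k + 1), (v ^ (2 * i + 1)).re / (2 * (i : ℝ) + 1)| := abs_sub _ _
      _ ≤ (|Real.log ‖1 + v‖| + |Real.log ‖1 - v‖|) / 2 +
          ∑ i ∈ Finset.range (k + 1), ‖v‖ ^ (2 * i + 1) := by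
          refine add_le_add ?_ h3
          rw [abs_div, abs_two]
          exact div_le_div_of_nonneg_right (abs_sub _ _) (by norm_num)
      _ ≤ _ := by linarith

theorem kap_nonneg (k : ℕ) {u : ℝ} (hu : 0 ≤ u) : 0 ≤ kap k u := by
  unfold kap
  split_ifs with h
  · positivity
  · have h1 : 0 ≤ Real.log (1 + u) := Real.log_nonneg (by linarith)
    have h2 : 0 ≤ ∑ i ∈ Finset.range (k + 1), u ^ (2 * i + 1) :=
      Finset.sum_nonneg (fun i _ => by positivity)
    have := abs_nonneg (Real.log (1 - u))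
    linarith

theorem measurable_Kf (k : ℕ) : Measurable (Kf k) := by
  have h : ∀ p : ℕ, Measurable (lE p) := by
    intro p
    unfold lE
    refine Measurable.add ?_ ?_
    · exact Real.measurable_log.comp (by fun_prop)
    · exact Complex.measurable_re.comp (Continuous.measurable (by fun_prop))
  unfold Kf
  exact (((h _).comp measurable_neg).sub (h _)).div_const 2

theorem measurable_kap (k : ℕ) : Measurable (kap k) := by
  unfold kap
  refine Measurable.ite measurableSet_Iic ?_ ?_
  · fun_prop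
  · refine Measurable.add (Measurable.add ?_ ?_) ?_
    · exact Real.measurable_log.comp (by fun_prop)
    · exact (Real.measurable_log.comp (by fun_prop)).abs
    · exact Continuous.measurable (by fun_prop)

theorem B1_near {x : ℝ} (h1 : -Real.log 2 < x) (h2 : x ≤ Real.log 2) :
    |Real.log (1 - Real.exp x)| ≤ Real.log 2 + |Real.log x| := by
  have hl : Real.log 2 < 1 := by have := Real.log_two_lt_d9; linarith
  have hl0 : 0 < Real.log 2 := Real.log_pos (by norm_num)
  rcases eq_or_ne x 0 with h0 | h0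
  · subst h0
    simp
    positivity
  · have hx : 0 < |x| := abs_pos.2 h0
    have hle : Real.exp x ≤ 2 := by
      calc Real.exp x ≤ Real.exp (Real.log 2) := Real.exp_le_exp.2 h2
        _ = 2 := Real.exp_log (by norm_num)
    have hpos := Real.exp_pos x
    have ha : |1 - Real.exp x| ≤ 1 := by rw [abs_le]; constructor <;> linarith
    have hb : |x| / 2 ≤ |1 - Real.exp x| := by
      rcases lt_or_gt_of_ne h0 with hn | hp
      · have hx1 : |x| ≤ 1 := by rw [abs_of_neg hn]; linarith
        have h3 := Real.abs_exp_sub_one_sub_id_le (x := x) hx1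
        rw [abs_le] at h3
        rw [abs_of_neg hn]
        have h4 : Real.exp x - 1 - x ≤ x ^ 2 := h3.2
        have h5 : Real.exp x ≤ 1 := Real.exp_le_one_iff.2 hn.le
        rw [abs_of_nonneg (by linarith)]
        rw [abs_of_neg hn] at hx1
        have h7 : (1 - x) * Real.exp x ≤ 1 := by
          have h8 := Real.add_one_le_exp (-x)
          have h9 : Real.exp (-x) * Real.exp x = 1 := by rw [← Real.exp_add]; simp
          have h10 : (1 - x) * Real.exp x ≤ Real.exp (-x) * Real.exp x :=
            mul_le_mul_of_nonneg_right (by linarith) hpos.le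
          linarith
        have h8 : (1 - x) * Real.exp x ≤ (1 - x) * (1 + x / 2) := by nlinarith
        have h9 : Real.exp x ≤ 1 + x / 2 := le_of_mul_le_mul_left h8 (by linarith)
        linarith
      · rw [abs_of_pos hp]
        have h3 := Real.add_one_le_exp x
        rw [abs_of_nonpos (by linarith)]
        linarith
    have hc : 0 < |1 - Real.exp x| := lt_of_lt_of_le (by positivity) hb
    have h3 : Real.log |1 - Real.exp x| ≤ 0 := Real.log_nonpos hc.le ha
    have h4 : Real.log (|x| / 2) ≤ Real.log |1 - Real.exp x| := Real.log_le_log (by positivity) hb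
    rw [Real.log_div hx.ne' (by norm_num), Real.log_abs] at h4
    rw [Real.log_abs] at h3 h4
    rw [abs_of_nonpos h3]
    have h5 := neg_abs_le (Real.log x)
    have h6 := le_abs_self (Real.log x)
    have h7 := neg_le_abs (Real.log x)
    linarith

theorem kap_integrable (k : ℕ) {s η : ℝ} (hη : 0 ≤ η) (h1 : 2 * k + 1 < s - η)
    (h2 : s + η < 2 * k + 2) :
    Integrable (fun x : ℝ => kap k (Real.exp x) * Real.exp (-s * x + η * |x|)) := by
  have hl : Real.log 2 < 1 := by have := Real.log_two_lt_d9; linarith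
  have hl0 : 0 < Real.log 2 := Real.log_pos (by norm_num)
  have hk0 : (0 : ℝ) ≤ k := Nat.cast_nonneg k
  have hs : 0 ≤ s := by linarith
  have hmeas : Measurable (fun x : ℝ => kap k (Real.exp x) * Real.exp (-s * x + η * |x|)) :=
    ((measurable_kap k).comp Real.measurable_exp).mul
      (Continuous.measurable (by fun_prop))
  have hnn : ∀ x : ℝ, 0 ≤ kap k (Real.exp x) * Real.exp (-s * x + η * |x|) := fun x =>
    mul_nonneg (kap_nonneg k (Real.exp_pos x).le) (Real.exp_pos _).le
  -- left part
  have hA : IntegrableOn (fun x : ℝ => kap k (Real.exp x) * Real.exp (-s * x + η * |x|))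
      (Set.Iic (-Real.log 2)) := by
    have hI : IntegrableOn (fun x : ℝ => 2 * Real.exp ((2 * k + 2 - s - η) * x))
        (Set.Iic (-Real.log 2)) :=
      (integrableOn_exp_mul_Iic (by linarith) _).const_mul 2
    refine Integrable.mono' hI hmeas.aestronglyMeasurable ?_
    rw [ae_restrict_iff' measurableSet_Iic]
    refine Filter.Eventually.of_forall (fun x hx => ?_)
    rw [Set.mem_Iic] at hx
    have hx2 : Real.exp x ≤ 1 / 2 := by
      calc Real.exp x ≤ Real.exp (-Real.log 2) := Real.exp_le_exp.2 hx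
        _ = 1 / 2 := by rw [Real.exp_neg, Real.exp_log (by norm_num)]; norm_num
    rw [Real.norm_eq_abs, abs_of_nonneg (hnn x)]
    unfold kap
    rw [if_pos hx2, abs_of_neg (by linarith), ← Real.exp_nat_mul, mul_assoc, ← Real.exp_add]
    apply le_of_eq
    congr 2
    push_cast
    ring
  -- right part
  have hC : IntegrableOn (fun x : ℝ => kap k (Real.exp x) * Real.exp (-s * x + η * |x|))
      (Set.Ioi (Real.log 2)) := by
    have hI : IntegrableOn (fun x : ℝ => ((k : ℝ) + 3) * Real.exp ((2 * k + 1 - (s - η)) * x))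
        (Set.Ioi (Real.log 2)) :=
      (integrableOn_exp_mul_Ioi (by linarith) _).const_mul _
    refine Integrable.mono' hI hmeas.aestronglyMeasurable ?_
    rw [ae_restrict_iff' measurableSet_Ioi]
    refine Filter.Eventually.of_forall (fun x hx => ?_)
    rw [Set.mem_Ioi] at hx
    have hx2 : 2 < Real.exp x := by
      calc (2 : ℝ) = Real.exp (Real.log 2) := (Real.exp_log (by norm_num)).symm
        _ < Real.exp x := Real.exp_lt_exp.2 hx
    rw [Real.norm_eq_abs, abs_of_nonneg (hnn x)]
    have hpow : ∀ i ≤ k, Real.exp x ^ (2 * i + 1) ≤ Real.exp x ^ (2 * k + 1) := fun i hi =>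
      pow_le_pow_right₀ (by linarith) (by omega)
    have hone : Real.exp x ≤ Real.exp x ^ (2 * k + 1) := by
      have := hpow 0 (Nat.zero_le k)
      simpa using this
    have hkap : kap k (Real.exp x) ≤ ((k : ℝ) + 3) * Real.exp x ^ (2 * k + 1) := by
      unfold kap
      rw [if_neg (by linarith)]
      have e1 : Real.log (1 + Real.exp x) ≤ Real.exp x := by
        have := Real.log_le_sub_one_of_pos (x := 1 + Real.exp x) (by linarith)
        linarith
      have e2 : |Real.log (1 - Real.exp x)| ≤ Real.exp x := by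
        rw [← Real.log_abs, abs_of_neg (by linarith : 1 - Real.exp x < 0)]
        have h3 : 0 ≤ Real.log (-(1 - Real.exp x)) := Real.log_nonneg (by linarith)
        rw [abs_of_nonneg h3]
        have := Real.log_le_sub_one_of_pos (x := -(1 - Real.exp x)) (by linarith)
        linarith
      have e3 : ∑ i ∈ Finset.range (k + 1), Real.exp x ^ (2 * i + 1) ≤
          ((k : ℝ) + 1) * Real.exp x ^ (2 * k + 1) := by
        calc _ ≤ ∑ _i ∈ Finset.range (k + 1), Real.exp x ^ (2 * k + 1) :=
              Finset.sum_le_sum (fun i hi => hpow i (by rw [Finset.mem_range] at hi; omega))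
          _ = _ := by rw [Finset.sum_const, Finset.card_range, nsmul_eq_mul]; push_cast; ring
      nlinarith
    calc kap k (Real.exp x) * Real.exp (-s * x + η * |x|)
        ≤ (((k : ℝ) + 3) * Real.exp x ^ (2 * k + 1)) * Real.exp (-s * x + η * |x|) :=
          mul_le_mul_of_nonneg_right hkap (Real.exp_pos _).le
      _ = _ := by
          rw [← Real.exp_nat_mul, mul_assoc, ← Real.exp_add, abs_of_pos (by linarith)]
          congr 2
          push_cast
          ring
  -- middle part
  have hB : IntegrableOn (fun x : ℝ => kap k (Real.exp x) * Real.exp (-s * x + η * |x|))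
      (Set.Ioc (-Real.log 2) (Real.log 2)) := by
    have hI0 : IntegrableOn (fun x : ℝ => |Real.log x|) (Set.Ioc (-Real.log 2) (Real.log 2)) := by
      have h3 : IntervalIntegrable Real.log volume (-Real.log 2) (Real.log 2) :=
        intervalIntegral.intervalIntegrable_log'
      have h4 := h3.abs
      rwa [intervalIntegrable_iff_integrableOn_Ioc_of_le (by linarith)] at h4
    have hI1 : IntegrableOn (fun _ : ℝ => Real.log 3 + Real.log 2 + ((k : ℝ) + 1) * 2 ^ (2 * k + 1)
        + 2 * 2 ^ (2 * k + 2))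
        (Set.Ioc (-Real.log 2) (Real.log 2)) := by
      exact continuous_const.integrableOn_Ioc
    have hI := ((hI1.add hI0).const_mul (Real.exp (s + η)))
    refine Integrable.mono' hI hmeas.aestronglyMeasurable ?_
    rw [ae_restrict_iff' measurableSet_Ioc]
    refine Filter.Eventually.of_forall (fun x hx => ?_)
    rw [Set.mem_Ioc] at hx
    have hx2 : Real.exp x ≤ 2 := by
      calc Real.exp x ≤ Real.exp (Real.log 2) := Real.exp_le_exp.2 hx.2
        _ = 2 := Real.exp_log (by norm_num)
    have hxp := Real.exp_pos x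
    rw [Real.norm_eq_abs, abs_of_nonneg (hnn x)]
    have hxa : |x| ≤ 1 := by rw [abs_le]; constructor <;> linarith
    have hE : Real.exp (-s * x + η * |x|) ≤ Real.exp (s + η) := by
      apply Real.exp_le_exp.2
      have e1 : -s * x ≤ s := by
        have := (abs_le.1 hxa).1
        nlinarith
      have e2 : η * |x| ≤ η := by nlinarith
      linarith
    have hlog3 : 0 ≤ Real.log 3 := Real.log_nonneg (by norm_num)
    have hab := abs_nonneg (Real.log x)
    have hkap : kap k (Real.exp x) ≤ (Real.log 3 + Real.log 2 + ((k : ℝ) + 1) * 2 ^ (2 * k + 1)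
        + 2 * 2 ^ (2 * k + 2)) + |Real.log x| := by
      unfold kap
      split_ifs with h
      · have e1 : Real.exp x ^ (2 * k + 2) ≤ 2 ^ (2 * k + 2) := pow_le_pow_left₀ hxp.le hx2 _
        have e2 : (0 : ℝ) ≤ ((k : ℝ) + 1) * 2 ^ (2 * k + 1) := by positivity
        linarith
      · have e1 : Real.log (1 + Real.exp x) ≤ Real.log 3 := Real.log_le_log (by linarith) (by linarith)
        have e2 := B1_near hx.1 hx.2
        have e3 : ∑ i ∈ Finset.range (k + 1), Real.exp x ^ (2 * i + 1) ≤
            ((k : ℝ) + 1) * 2 ^ (2 * k + 1) := by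
          calc _ ≤ ∑ _i ∈ Finset.range (k + 1), (2 : ℝ) ^ (2 * k + 1) :=
                Finset.sum_le_sum (fun i hi => by
                  rw [Finset.mem_range] at hi
                  calc Real.exp x ^ (2 * i + 1) ≤ 2 ^ (2 * i + 1) := pow_le_pow_left₀ hxp.le hx2 _
                    _ ≤ 2 ^ (2 * k + 1) := pow_le_pow_right₀ (by norm_num) (by omega))
            _ = _ := by rw [Finset.sum_const, Finset.card_range, nsmul_eq_mul]; push_cast; ring
        have e4 : (0 : ℝ) ≤ 2 * 2 ^ (2 * k + 2) := by positivity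
        linarith
    calc kap k (Real.exp x) * Real.exp (-s * x + η * |x|)
        ≤ ((Real.log 3 + Real.log 2 + ((k : ℝ) + 1) * 2 ^ (2 * k + 1)
        + 2 * 2 ^ (2 * k + 2)) + |Real.log x|) * Real.exp (s + η) := by
          refine mul_le_mul hkap hE (Real.exp_pos _).le ?_
          positivity
      _ = _ := by simp only [Pi.add_apply]; ring
  have hAB := (hA.union hB).union hC
  rw [Set.Iic_union_Ioc_eq_Iic (by linarith), Set.Iic_union_Ioi] at hAB
  exact integrableOn_univ.1 hAB

end Pool.Agent.helper38.UB
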