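import Pool.Agent.helper38.UB.B1

set_option autoImplicit false

namespace Pool.Agent.helper38.UB

open Filter Topology MeasureTheory
open Pool.Agent.helper38.NNF Pool.Agent.helper38.LacA
open scoped ComplexConjugate ComplexOrder

/-! B3 (Mellin transform of the kernel) -/

theorem B3_exp_abs {c : ℝ} (hc : 0 < c) : Integrable fun x : ℝ => Real.exp (-(c * |x|)) := by
  rw [← integrableOn_univ, ← Set.Iic_union_Ioi (a := (0 : ℝ)), integrableOn_union]
  constructor
  · refine (integrableOn_exp_mul_Iic hc 0).congr_fun (fun x hx => ?_) measurableSet_Iic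
    have : |x| = -x := abs_of_nonpos hx
    simp only [this]; ring_nf
  · refine (exp_neg_integrableOn_Ioi 0 hc).congr_fun (fun x hx => ?_) measurableSet_Ioi
    have : |x| = x := abs_of_pos hx
    simp only [this]; ring_nf

/-- shifting a horizontal line of integration -/
theorem B3_shift (G : ℂ → ℂ) {a b C c : ℝ} (hc : 0 < c)
    (hG : ∀ w : ℂ, w.im ∈ Set.uIcc a b → DifferentiableAt ℂ G w)
    (hb : ∀ x y : ℝ, y ∈ Set.uIcc a b → ‖G (x + y * Complex.I)‖ ≤ C * Real.exp (-(c * |x|))) :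
    ∫ x : ℝ, G (x + a * Complex.I) = ∫ x : ℝ, G (x + b * Complex.I) := by
  have hcont : ∀ y ∈ Set.uIcc a b, Continuous fun x : ℝ => G (x + y * Complex.I) := by
    intro y hy
    refine continuous_iff_continuousAt.mpr fun x => ?_
    have h1 : ContinuousAt G ((x : ℂ) + y * Complex.I) :=
      (hG _ (by simpa using hy)).continuousAt
    exact ContinuousAt.comp (g := G) (f := fun x : ℝ => (x : ℂ) + y * Complex.I) h1 (by fun_prop)
  have hdom : Integrable fun x : ℝ => C * Real.exp (-(c * |x|)) := by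
    exact (B3_exp_abs hc).const_mul C
  have hint : ∀ y ∈ Set.uIcc a b, Integrable fun x : ℝ => G (x + y * Complex.I) := by
    intro y hy
    exact hdom.mono' (hcont y hy).aestronglyMeasurable (Eventually.of_forall fun x => hb x y hy)
  have ha : a ∈ Set.uIcc a b := Set.left_mem_uIcc
  have hb' : b ∈ Set.uIcc a b := Set.right_mem_uIcc
  have hrect : ∀ T : ℝ, (∫ x : ℝ in (-T)..T, G (x + a * Complex.I)) -
      (∫ x : ℝ in (-T)..T, G (x + b * Complex.I)) = -(Complex.I • (∫ y : ℝ in a..b, G (T + y * Complex.I))) +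
      Complex.I • ∫ y : ℝ in a..b, G (-T + y * Complex.I) := by
    intro T
    have h := Complex.integral_boundary_rect_eq_zero_of_differentiableOn G
      ((-T : ℝ) + a * Complex.I) ((T : ℝ) + b * Complex.I) ?_
    · simp at h
      linear_combination h
    · intro w hw
      refine (hG w ?_).differentiableWithinAt
      have := hw.2
      simpa using this
  have hvert : ∀ (e : ℝ), (e = 1 ∨ e = -1) → Tendsto (fun T : ℝ => ∫ y : ℝ in a..b, G ((e * T : ℝ) + y * Complex.I)) atTop (𝓝 0) := by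
    intro e he
    rw [tendsto_zero_iff_norm_tendsto_zero]
    have h1 : Tendsto (fun T : ℝ => C * Real.exp (-(c * T)) * |b - a|) atTop (𝓝 0) := by
      have h2 : Tendsto (fun T : ℝ => Real.exp (-(c * T))) atTop (𝓝 0) :=
        Real.tendsto_exp_neg_atTop_nhds_zero.comp (tendsto_id.const_mul_atTop hc)
      simpa using (h2.const_mul C).mul_const |b - a|
    refine squeeze_zero' (Eventually.of_forall fun T => norm_nonneg _) ?_ h1
    filter_upwards [eventually_ge_atTop 0] with T hT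
    refine intervalIntegral.norm_integral_le_of_norm_le_const fun y hy => ?_
    have h3 := hb (e * T) y (Set.uIoc_subset_uIcc hy)
    have h4 : |e * T| = T := by
      rcases he with rfl | rfl
      · rw [one_mul, abs_of_nonneg hT]
      · rw [neg_one_mul, abs_neg, abs_of_nonneg hT]
    rw [h4] at h3
    exact h3
  have hL : Tendsto (fun T : ℝ => (∫ x : ℝ in (-T)..T, G (x + a * Complex.I)) -
      (∫ x : ℝ in (-T)..T, G (x + b * Complex.I))) atTop
      (𝓝 ((∫ x : ℝ, G (x + a * Complex.I)) - ∫ x : ℝ, G (x + b * Complex.I))) :=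
    (intervalIntegral_tendsto_integral (hint a ha) tendsto_neg_atTop_atBot tendsto_id).sub
      (intervalIntegral_tendsto_integral (hint b hb') tendsto_neg_atTop_atBot tendsto_id)
  have hR : Tendsto (fun T : ℝ => (∫ x : ℝ in (-T)..T, G (x + a * Complex.I)) -
      (∫ x : ℝ in (-T)..T, G (x + b * Complex.I))) atTop (𝓝 0) := by
    have h1 := hvert 1 (Or.inl rfl)
    have h2 := hvert (-1) (Or.inr rfl)
    have h3 := ((h1.const_smul Complex.I).neg).add (h2.const_smul Complex.I)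
    simp only [smul_zero, neg_zero, add_zero] at h3
    refine h3.congr fun T => ?_
    rw [hrect T]
    simp
  exact sub_eq_zero.mp (tendsto_nhds_unique hL hR)


/-- contour function -/
noncomputable def B3_F (k : ℕ) (w : ℂ) : ℂ :=
  (Complex.log (1 + Complex.exp w) - Complex.log (1 - Complex.exp w)) / 2 -
    ∑ i ∈ Finset.range (k + 1), Complex.exp w ^ (2 * i + 1) / (2 * i + 1)

theorem B3_taylor (k : ℕ) (z : ℂ) :
    (Complex.logTaylor (2 * k + 2) z - Complex.logTaylor (2 * k + 2) (-z)) / 2 =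
      ∑ i ∈ Finset.range (k + 1), z ^ (2 * i + 1) / (2 * i + 1) := by
  induction k with
  | zero => simp [Complex.logTaylor, Finset.sum_range_succ]
  | succ k ih =>
    rw [Finset.sum_range_succ, ← ih]
    have e : 2 * (k + 1) + 2 = (2 * k + 2) + 1 + 1 := by ring
    rw [e, Complex.logTaylor_succ, Complex.logTaylor_succ]
    simp only [Pi.add_apply]
    have h1 : (-1 : ℂ) ^ (2 * k + 2 + 1) = -1 := by
      rw [pow_succ, pow_add, pow_mul]; simp
    have h2 : (-1 : ℂ) ^ (2 * k + 2 + 1 + 1) = 1 := by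
      rw [pow_succ, h1]; simp
    have h3 : (-z) ^ (2 * k + 2) = z ^ (2 * k + 2) := by
      rw [neg_pow]; rw [pow_add, pow_mul]; simp
    have h4 : (-z) ^ (2 * k + 2 + 1) = -z ^ (2 * k + 2 + 1) := by
      rw [pow_succ, h3]; ring
    rw [h1, h2, h3, h4]
    push_cast
    have e2 : 2 * (k + 1) + 1 = 2 * k + 2 + 1 := by ring
    rw [e2]
    have e3 : (2 : ℂ) * (k + 1) + 1 = 2 * k + 2 + 1 := by ring
    rw [e3]
    ring

theorem B3_im_pos {w : ℂ} (h0 : 0 < w.im) (h1 : w.im < Real.pi) : 0 < (Complex.exp w).im := by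
  rw [Complex.exp_im]
  exact mul_pos (Real.exp_pos _) (Real.sin_pos_of_pos_of_lt_pi h0 h1)

theorem B3_slit1 {w : ℂ} (h0 : 0 < w.im) (h1 : w.im < Real.pi) :
    1 + Complex.exp w ∈ Complex.slitPlane := by
  rw [Complex.mem_slitPlane_iff]; right
  have := B3_im_pos h0 h1
  simp only [Complex.add_im, Complex.one_im, zero_add]
  exact this.ne'

theorem B3_slit2 {w : ℂ} (h0 : 0 < w.im) (h1 : w.im < Real.pi) :
    1 - Complex.exp w ∈ Complex.slitPlane := by
  rw [Complex.mem_slitPlane_iff]; right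
  have := B3_im_pos h0 h1
  simp only [Complex.sub_im, Complex.one_im, zero_sub, ne_eq, neg_eq_zero]
  exact this.ne'

theorem B3_diff (k : ℕ) {w : ℂ} (h0 : 0 < w.im) (h1 : w.im < Real.pi) :
    DifferentiableAt ℂ (B3_F k) w := by
  unfold B3_F
  refine DifferentiableAt.sub (DifferentiableAt.div_const (DifferentiableAt.sub ?_ ?_) _) ?_
  · exact DifferentiableAt.clog (by fun_prop) (B3_slit1 h0 h1)
  · exact DifferentiableAt.clog (by fun_prop) (B3_slit2 h0 h1)
  · fun_prop

/-- bound for small `e^w` -/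
theorem B3_small (k : ℕ) {w : ℂ} (hw : Real.exp w.re ≤ 1 / 2) :
    ‖B3_F k w‖ ≤ Real.exp w.re ^ (2 * k + 2) := by
  set z := Complex.exp w with hz
  have hn : ‖z‖ = Real.exp w.re := Complex.norm_exp w
  have hz1 : ‖z‖ ≤ 1 / 2 := by rw [hn]; exact hw
  have h1 := Complex.norm_log_sub_logTaylor_le (2 * k + 1) (z := z) (by linarith)
  have h2 := Complex.norm_log_sub_logTaylor_le (2 * k + 1) (z := -z) (by rw [norm_neg]; linarith)
  rw [norm_neg] at h2
  have h3 : B3_F k w = ((Complex.log (1 + z) - Complex.logTaylor (2 * k + 1 + 1) z) -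
      (Complex.log (1 + -z) - Complex.logTaylor (2 * k + 1 + 1) (-z))) / 2 := by
    unfold B3_F
    rw [← hz, ← B3_taylor]
    rw [sub_eq_add_neg (1 : ℂ) z]
    ring
  have hb : ‖z‖ ^ (2 * k + 1 + 1) * (1 - ‖z‖)⁻¹ / (((2 * k + 1 : ℕ) : ℝ) + 1) ≤ ‖z‖ ^ (2 * k + 2) := by
    have h5 : (1 - ‖z‖)⁻¹ ≤ 2 := by
      rw [inv_le_comm₀ (by linarith) (by norm_num)]; linarith
    have h6 : 0 ≤ ‖z‖ ^ (2 * k + 2) := by positivity
    rw [div_le_iff₀ (by positivity)]
    push_cast
    have h7 : ‖z‖ ^ (2 * k + 1 + 1) * (1 - ‖z‖)⁻¹ ≤ ‖z‖ ^ (2 * k + 2) * 2 := by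
      exact mul_le_mul_of_nonneg_left h5 h6
    have h8 : (0 : ℝ) ≤ k := Nat.cast_nonneg k
    nlinarith [mul_nonneg h6 h8]
  rw [h3, norm_div, Complex.norm_ofNat, ← hn]
  have h4 := norm_sub_le (Complex.log (1 + z) - Complex.logTaylor (2 * k + 1 + 1) z)
    (Complex.log (1 + -z) - Complex.logTaylor (2 * k + 1 + 1) (-z))
  rw [div_le_iff₀ (by norm_num)]
  linarith

theorem B3_norm_ge (ε : ℝ) (hε : ε ^ 2 = 1) (w : ℂ) :
    Real.sin w.im ^ 2 ≤ ‖1 + (ε : ℂ) * Complex.exp w‖ ^ 2 := by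
  rw [Complex.sq_norm, Complex.normSq_apply]
  simp only [Complex.add_re, Complex.one_re, Complex.add_im, Complex.one_im, Complex.mul_re,
    Complex.mul_im, Complex.ofReal_re, Complex.ofReal_im, Complex.exp_re, Complex.exp_im]
  have h := Real.sin_sq_add_cos_sq w.im
  have h2 : (1 + (ε * (Real.exp w.re * Real.cos w.im) - 0 * (Real.exp w.re * Real.sin w.im))) *
        (1 + (ε * (Real.exp w.re * Real.cos w.im) - 0 * (Real.exp w.re * Real.sin w.im))) +
      (0 + (ε * (Real.exp w.re * Real.sin w.im) + 0 * (Real.exp w.re * Real.cos w.im))) *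
        (0 + (ε * (Real.exp w.re * Real.sin w.im) + 0 * (Real.exp w.re * Real.cos w.im))) =
      Real.sin w.im ^ 2 + (Real.exp w.re + ε * Real.cos w.im) ^ 2 := by
    linear_combination (ε ^ 2 * Real.exp w.re ^ 2 - 1) * h +
      (Real.exp w.re ^ 2 - Real.cos w.im ^ 2) * hε
  rw [h2]
  have := sq_nonneg (Real.exp w.re + ε * Real.cos w.im)
  linarith

theorem B3_log (ε : ℝ) (hε : ε = 1 ∨ ε = -1) {m : ℝ} (hm : 0 < m) {w : ℂ} (hs : m ≤ Real.sin w.im) :
    ‖Complex.log (1 + (ε : ℂ) * Complex.exp w)‖ ≤ Real.exp w.re + (|Real.log m| + Real.pi) := by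
  have hε2 : ε ^ 2 = 1 := by rcases hε with rfl | rfl <;> norm_num
  have hge : m ≤ ‖1 + (ε : ℂ) * Complex.exp w‖ := by
    have h1 := B3_norm_ge ε hε2 w
    have h2 : m ^ 2 ≤ ‖1 + (ε : ℂ) * Complex.exp w‖ ^ 2 :=
      (pow_le_pow_left₀ hm.le hs 2).trans h1
    exact (pow_le_pow_iff_left₀ hm.le (norm_nonneg _) two_ne_zero).mp h2
  have hle : ‖1 + (ε : ℂ) * Complex.exp w‖ ≤ 1 + Real.exp w.re := by
    refine (norm_add_le _ _).trans ?_
    rw [norm_one, norm_mul, Complex.norm_exp, Complex.norm_real]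
    have : ‖ε‖ = 1 := by rcases hε with rfl | rfl <;> simp
    rw [this, one_mul]
  have hre : |(Complex.log (1 + (ε : ℂ) * Complex.exp w)).re| ≤ Real.exp w.re + |Real.log m| := by
    rw [Complex.log_re, abs_le]
    have h1 : Real.log m ≤ Real.log ‖1 + (ε : ℂ) * Complex.exp w‖ := Real.log_le_log hm hge
    have h2 : Real.log ‖1 + (ε : ℂ) * Complex.exp w‖ ≤ Real.exp w.re := by
      refine (Real.log_le_sub_one_of_pos (lt_of_lt_of_le hm hge)).trans ?_
      linarith
    have h3 := neg_abs_le (Real.log m)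
    have h4 := Real.exp_pos w.re
    have h5 := abs_nonneg (Real.log m)
    constructor <;> linarith
  have him : |(Complex.log (1 + (ε : ℂ) * Complex.exp w)).im| ≤ Real.pi := by
    rw [Complex.log_im]; exact Complex.abs_arg_le_pi _
  have := Complex.norm_le_abs_re_add_abs_im (Complex.log (1 + (ε : ℂ) * Complex.exp w))
  linarith

theorem B3_large (k : ℕ) {m : ℝ} (hm : 0 < m) {w : ℂ} (hs : m ≤ Real.sin w.im)
    (hw : 1 / 2 ≤ Real.exp w.re) :
    ‖B3_F k w‖ ≤ ((k + 2) * 4 ^ k + (|Real.log m| + Real.pi) * (2 * 4 ^ k)) *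
      Real.exp w.re ^ (2 * k + 1) := by
  set u := Real.exp w.re with hu
  have hu0 : 0 < u := Real.exp_pos _
  set M := |Real.log m| + Real.pi with hM
  have hM0 : 0 ≤ M := by have := Real.pi_pos; positivity
  have h1 := B3_log 1 (Or.inl rfl) hm hs
  have h2 := B3_log (-1) (Or.inr rfl) hm hs
  simp only [Complex.ofReal_one, one_mul, Complex.ofReal_neg, neg_mul, ← sub_eq_add_neg] at h1 h2
  have hpow : ∀ j : ℕ, j ≤ 2 * k + 1 → u ^ j ≤ 2 * 4 ^ k * u ^ (2 * k + 1) := by
    intro j hj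
    have e1 : u ^ (2 * k + 1) = u ^ j * u ^ (2 * k + 1 - j) := by
      rw [← pow_add]; congr 1; omega
    have e2 : (1 / 2 : ℝ) ^ (2 * k + 1 - j) ≤ u ^ (2 * k + 1 - j) :=
      pow_le_pow_left₀ (by norm_num) hw _
    have e3 : (1 / 2 : ℝ) ^ (2 * k + 1) ≤ (1 / 2 : ℝ) ^ (2 * k + 1 - j) :=
      pow_le_pow_of_le_one (by norm_num) (by norm_num) (by omega)
    have e4 : (2 * 4 ^ k : ℝ) * (1 / 2) ^ (2 * k + 1) = 1 := by
      rw [pow_succ, pow_mul, show ((1 / 2 : ℝ)) ^ 2 = 1 / 4 by norm_num]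
      have : (4 : ℝ) ^ k * (1 / 4) ^ k = 1 := by rw [← mul_pow]; norm_num
      linear_combination this
    have e5 : 0 < u ^ j := by positivity
    have e6 : 1 ≤ 2 * 4 ^ k * u ^ (2 * k + 1 - j) := by
      rw [← e4]
      exact mul_le_mul_of_nonneg_left (e3.trans e2) (by positivity)
    rw [e1]
    nlinarith [mul_le_mul_of_nonneg_left e6 e5.le]
  have hodd : ∀ i : ℕ, i ∈ Finset.range (k + 1) → ‖Complex.exp w ^ (2 * i + 1) / (2 * i + 1 : ℂ)‖ ≤
      4 ^ k * u ^ (2 * k + 1) := by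
    intro i hi
    have hik : i ≤ k := Nat.lt_succ_iff.mp (Finset.mem_range.mp hi)
    rw [norm_div, norm_pow, Complex.norm_exp, ← hu]
    have hden : ‖(2 * i + 1 : ℂ)‖ = 2 * i + 1 := by
      have : (2 * i + 1 : ℂ) = ((2 * i + 1 : ℕ) : ℂ) := by push_cast; ring
      rw [this, Complex.norm_natCast]; push_cast; ring
    rw [hden, div_le_iff₀ (by positivity)]
    have e1 : u ^ (2 * k + 1) = u ^ (2 * i + 1) * (u ^ 2) ^ (k - i) := by
      rw [← pow_mul, ← pow_add]; congr 1; omega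
    have e2 : (1 / 4 : ℝ) ^ (k - i) ≤ (u ^ 2) ^ (k - i) :=
      pow_le_pow_left₀ (by norm_num) (by nlinarith) _
    have e3 : (1 / 4 : ℝ) ^ k ≤ (1 / 4 : ℝ) ^ (k - i) :=
      pow_le_pow_of_le_one (by norm_num) (by norm_num) (by omega)
    have e4 : (4 ^ k : ℝ) * (1 / 4) ^ k = 1 := by rw [← mul_pow]; norm_num
    have e5 : 0 < u ^ (2 * i + 1) := by positivity
    have e6 : 1 ≤ 4 ^ k * (u ^ 2) ^ (k - i) := by
      rw [← e4]
      exact mul_le_mul_of_nonneg_left (e3.trans e2) (by positivity)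
    have e7 : u ^ (2 * i + 1) ≤ 4 ^ k * u ^ (2 * k + 1) := by
      rw [e1]; nlinarith [mul_le_mul_of_nonneg_left e6 e5.le]
    have e8 : (0 : ℝ) ≤ 4 ^ k * u ^ (2 * k + 1) := by positivity
    have e9 : (0 : ℝ) ≤ i := Nat.cast_nonneg i
    nlinarith [mul_nonneg e8 e9]
  have hsum : ‖∑ i ∈ Finset.range (k + 1), Complex.exp w ^ (2 * i + 1) / (2 * i + 1 : ℂ)‖ ≤
      (k + 1) * (4 ^ k * u ^ (2 * k + 1)) := by
    refine (norm_sum_le _ _).trans ((Finset.sum_le_sum hodd).trans ?_)
    rw [Finset.sum_const, Finset.card_range, nsmul_eq_mul]; push_cast; exact le_rfl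
  have hlog : ‖(Complex.log (1 + Complex.exp w) - Complex.log (1 - Complex.exp w)) / 2‖ ≤ u + M := by
    rw [norm_div, Complex.norm_ofNat, div_le_iff₀ (by norm_num)]
    have := norm_sub_le (Complex.log (1 + Complex.exp w)) (Complex.log (1 - Complex.exp w))
    linarith
  have hu1 : u ≤ 4 ^ k * u ^ (2 * k + 1) := by
    have e1 : u ^ (2 * k + 1) = u * (u ^ 2) ^ k := by
      rw [← pow_mul, pow_succ]; ring
    have e2 : (1 / 4 : ℝ) ^ k ≤ (u ^ 2) ^ k :=
      pow_le_pow_left₀ (by norm_num) (by nlinarith) _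
    have e4 : (4 ^ k : ℝ) * (1 / 4) ^ k = 1 := by rw [← mul_pow]; norm_num
    have e6 : 1 ≤ 4 ^ k * (u ^ 2) ^ k := by
      rw [← e4]
      exact mul_le_mul_of_nonneg_left e2 (by positivity)
    rw [e1]; nlinarith [mul_le_mul_of_nonneg_left e6 hu0.le]
  have hone : 1 ≤ 2 * 4 ^ k * u ^ (2 * k + 1) := by
    have := hpow 0 (by omega); simpa using this
  have hfin := norm_sub_le ((Complex.log (1 + Complex.exp w) - Complex.log (1 - Complex.exp w)) / 2)
    (∑ i ∈ Finset.range (k + 1), Complex.exp w ^ (2 * i + 1) / (2 * i + 1 : ℂ))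
  have hM1 : M ≤ M * (2 * 4 ^ k * u ^ (2 * k + 1)) := le_mul_of_one_le_right hM0 hone
  unfold B3_F
  have hR : ((k + 2) * 4 ^ k + M * (2 * 4 ^ k)) * u ^ (2 * k + 1) =
    (k + 1) * (4 ^ k * u ^ (2 * k + 1)) + 4 ^ k * u ^ (2 * k + 1) + M * (2 * 4 ^ k * u ^ (2 * k + 1)) := by ring
  rw [hR]
  linarith

/-- exponential decay on the lines -/
theorem B3_decay (k : ℕ) {s m : ℝ} (h1 : 2 * k + 1 < s) (h2 : s < 2 * k + 2) (hm : 0 < m) :
    ∃ C c : ℝ, 0 < c ∧ ∀ x y : ℝ, 0 < y → y < Real.pi → m ≤ Real.sin y →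
      ‖B3_F k (x + y * Complex.I) * Complex.exp (-s * (x + y * Complex.I))‖ ≤
        C * Real.exp (-(c * |x|)) := by
  set C0 : ℝ := ((k + 2) * 4 ^ k + (|Real.log m| + Real.pi) * (2 * 4 ^ k)) with hC0
  have hC00 : 0 ≤ C0 := by have := Real.pi_pos; positivity
  set c : ℝ := min (2 * k + 2 - s) (s - (2 * k + 1)) with hc
  have hc0 : 0 < c := lt_min (by linarith) (by linarith)
  have hc1 : c ≤ 2 * k + 2 - s := min_le_left _ _
  have hc2 : c ≤ s - (2 * k + 1) := min_le_right _ _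
  refine ⟨4 * C0 + 1, c, hc0, fun x y hy0 hy1 hys => ?_⟩
  have hre : ((x : ℂ) + y * Complex.I).re = x := by simp
  have him : ((x : ℂ) + y * Complex.I).im = y := by simp
  have hexp : ‖Complex.exp (-s * ((x : ℂ) + y * Complex.I))‖ = Real.exp (-(s * x)) := by
    rw [Complex.norm_exp]; congr 1; simp
  rw [norm_mul, hexp]
  have hE0 := Real.exp_pos (-(c * |x|))
  rcases le_total (Real.exp x) (1 / 2) with hx | hx
  · have h3 := B3_small k (w := (x : ℂ) + y * Complex.I) (by rw [hre]; exact hx)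
    rw [hre] at h3
    have hx0 : x < 0 := by
      by_contra hcon
      have := Real.one_le_exp (not_lt.mp hcon)
      linarith
    have h4 : Real.exp x ^ (2 * k + 2) * Real.exp (-(s * x)) ≤ Real.exp (-(c * |x|)) := by
      rw [← Real.exp_nat_mul, ← Real.exp_add, abs_of_neg hx0]
      apply Real.exp_le_exp.mpr
      push_cast
      nlinarith
    have h5 := mul_le_mul_of_nonneg_right h3 (Real.exp_pos (-(s * x))).le
    have h6 : 0 ≤ 4 * C0 * Real.exp (-(c * |x|)) := by positivity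
    linarith
  · have h3 := B3_large k hm (w := (x : ℂ) + y * Complex.I) (by rw [him]; exact hys)
      (by rw [hre]; exact hx)
    rw [hre, ← hC0] at h3
    have hxl : -Real.log 2 ≤ x := by
      rw [← Real.log_inv]
      have := Real.log_le_log (by norm_num) hx
      rw [Real.log_exp] at this
      simpa using this
    have h4 : Real.exp x ^ (2 * k + 1) * Real.exp (-(s * x)) ≤ 4 * Real.exp (-(c * |x|)) := by
      have e4 : (4 : ℝ) = Real.exp (2 * Real.log 2) := by
        rw [mul_comm, Real.exp_mul, Real.exp_log (by norm_num)]; norm_num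
      rw [← Real.exp_nat_mul, ← Real.exp_add, e4, ← Real.exp_add]
      apply Real.exp_le_exp.mpr
      push_cast
      rcases le_total 0 x with h | h
      · rw [abs_of_nonneg h]
        have := Real.log_nonneg (show (1 : ℝ) ≤ 2 by norm_num)
        nlinarith
      · rw [abs_of_nonpos h]
        have h7 : s - (2 * k + 1) ≤ 1 := by linarith
        have h8 : c ≤ 1 := by linarith
        nlinarith
    have h5 := mul_le_mul_of_nonneg_right h3 (Real.exp_pos (-(s * x))).le
    have h6 := mul_le_mul_of_nonneg_left h4 hC00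
    linarith

/-- the function on the line `Im w = π/2` -/
noncomputable def B3_a (k : ℕ) (u : ℝ) : ℝ :=
  Real.arctan u - ∑ i ∈ Finset.range (k + 1), (-1) ^ i * u ^ (2 * i + 1) / (2 * i + 1)

theorem B3_a_deriv (k : ℕ) (u : ℝ) :
    HasDerivAt (B3_a k) ((-1) ^ (k + 1) * (u ^ (2 * k + 2) / (1 + u ^ 2))) u := by
  have h0 : (1 + u ^ 2) ≠ 0 := by positivity
  have h1 : HasDerivAt (fun u : ℝ => ∑ i ∈ Finset.range (k + 1), (-1) ^ i * u ^ (2 * i + 1) / (2 * i + 1))
      (∑ i ∈ Finset.range (k + 1), (-1) ^ i * u ^ (2 * i)) u := by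
    refine HasDerivAt.fun_sum fun i _ => ?_
    have h2 := ((hasDerivAt_pow (2 * i + 1) u).const_mul ((-1 : ℝ) ^ i)).div_const (2 * i + 1 : ℝ)
    refine h2.congr_deriv ?_
    have h3 : (2 * (i : ℝ) + 1) ≠ 0 := by positivity
    rw [Nat.add_sub_cancel]
    push_cast
    field_simp
  have h2 := (Real.hasDerivAt_arctan u).sub h1
  have h3 : ∀ k : ℕ, ∑ i ∈ Finset.range (k + 1), (-1 : ℝ) ^ i * u ^ (2 * i) =
      (1 - (-1) ^ (k + 1) * u ^ (2 * k + 2)) / (1 + u ^ 2) := by
    intro k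
    induction k with
    | zero => simp; field_simp
    | succ k ih =>
      rw [Finset.sum_range_succ, ih]
      field_simp
      ring
  rw [h3 k] at h2
  refine h2.congr_deriv ?_
  field_simp
  ring

theorem B3_a_sign (k : ℕ) {u : ℝ} (hu : 0 < u) : 0 < (-1) ^ (k + 1) * B3_a k u := by
  have hsq : ((-1 : ℝ) ^ (k + 1)) * (-1) ^ (k + 1) = 1 := by
    rw [← mul_pow]; norm_num
  have hd : ∀ x : ℝ, HasDerivAt (fun x => (-1) ^ (k + 1) * B3_a k x) (x ^ (2 * k + 2) / (1 + x ^ 2)) x := by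
    intro x
    have := (B3_a_deriv k x).const_mul ((-1 : ℝ) ^ (k + 1))
    rw [← mul_assoc, hsq, one_mul] at this
    exact this
  have hmono : StrictMonoOn (fun x => (-1) ^ (k + 1) * B3_a k x) (Set.Ici 0) := by
    refine strictMonoOn_of_deriv_pos (convex_Ici 0)
      (fun x _ => (hd x).continuousAt.continuousWithinAt) fun x hx => ?_
    rw [interior_Ici] at hx
    have hx' : 0 < x := hx
    rw [(hd x).deriv]
    positivity
  have h0 : (-1) ^ (k + 1) * B3_a k 0 = 0 := by simp [B3_a]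
  have := hmono (Set.mem_Ici.mpr le_rfl) (Set.mem_Ici.mpr hu.le) hu
  simp only at this
  rw [h0] at this
  exact this

theorem B3_arg (u : ℝ) : (1 + (u : ℂ) * Complex.I).arg = Real.arctan u := by
  have h : 0 ≤ (1 + (u : ℂ) * Complex.I).re := by simp
  rw [Complex.arg_of_re_nonneg h, Real.arctan_eq_arcsin]
  congr 1
  have h2 : ‖1 + (u : ℂ) * Complex.I‖ = √(1 + u ^ 2) := by
    rw [Complex.norm_eq_sqrt_sq_add_sq]; simp
  rw [h2]; simp

theorem B3_mid (k : ℕ) (x : ℝ) :
    B3_F k (x + (Real.pi / 2 : ℝ) * Complex.I) = Complex.I * (B3_a k (Real.exp x) : ℝ) := by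
  have hz : Complex.exp ((x : ℂ) + (Real.pi / 2 : ℝ) * Complex.I) = (Real.exp x : ℝ) * Complex.I := by
    rw [Complex.exp_add, ← Complex.ofReal_exp]
    congr 1
    push_cast
    exact Complex.exp_pi_div_two_mul_I
  unfold B3_F B3_a
  rw [hz]
  set u := Real.exp x with hu
  have h1 : (1 : ℂ) - u * Complex.I = (starRingEnd ℂ) (1 + u * Complex.I) := by
    simp [sub_eq_add_neg]
  have harg : (1 + (u : ℂ) * Complex.I).arg ≠ Real.pi := by
    rw [B3_arg]
    have := Real.arctan_lt_pi_div_two u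
    have := Real.pi_pos
    intro h; linarith
  have h2 : (Complex.log (1 + u * Complex.I) - Complex.log (1 - u * Complex.I)) / 2 =
      Complex.I * (Real.arctan u : ℝ) := by
    rw [h1, Complex.log_conj _ harg, ← B3_arg u, ← Complex.log_im]
    apply Complex.ext <;> simp
  rw [h2]
  push_cast
  rw [mul_sub, Finset.mul_sum]
  congr 1
  refine Finset.sum_congr rfl fun i _ => ?_
  rw [mul_pow, pow_succ Complex.I, pow_mul Complex.I, Complex.I_sq]
  ring


theorem B3_re (k : ℕ) (w : ℂ) : (B3_F k w).re = Kf k (Complex.exp w) := by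
  rw [Kf_eq, B3_F, Complex.sub_re, Complex.re_sum]
  congr 1
  · rw [Complex.div_ofNat_re, Complex.sub_re, Complex.log_re, Complex.log_re]
  · refine Finset.sum_congr rfl fun i _ => ?_
    have : (2 * (i : ℂ) + 1) = ((2 * (i : ℝ) + 1 : ℝ) : ℂ) := by push_cast; ring
    rw [this, Complex.div_ofReal_re]

theorem B3_sin {ψ y : ℝ} (h0 : 0 < ψ) (h1 : ψ < Real.pi) (hy : y ∈ Set.uIcc ψ (Real.pi / 2)) :
    0 < y ∧ y < Real.pi ∧ Real.sin ψ ≤ Real.sin y := by
  have hpi := Real.pi_pos
  rcases le_total ψ (Real.pi / 2) with h | h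
  · rw [Set.uIcc_of_le h] at hy
    refine ⟨by linarith [hy.1], by linarith [hy.2], ?_⟩
    exact Real.sin_le_sin_of_le_of_le_pi_div_two (by linarith) hy.2 hy.1
  · rw [Set.uIcc_of_ge h] at hy
    refine ⟨by linarith [hy.1], by linarith [hy.2], ?_⟩
    rw [← Real.sin_pi_sub ψ, ← Real.sin_pi_sub y]
    exact Real.sin_le_sin_of_le_of_le_pi_div_two (by linarith) (by linarith [hy.1])
      (by linarith [hy.2])

/-- shift the contour `Im w = ψ` to `Im w = π/2` (rectangles); on `Im w = π/2` the function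
`artanh (e^w) - ∑ e^((2i+1)w)/(2i+1)` is `I` times a real function of the sign of `(-1)^(k+1)`. -/
theorem mellin (k : ℕ) {s : ℝ} (h1 : 2 * k + 1 < s) (h2 : s < 2 * k + 2) :
    ∃ A : ℝ, 0 < (-1) ^ (k + 1) * A ∧ ∀ ψ : ℝ, 0 < ψ → ψ < Real.pi →
      ∫ x : ℝ, Kf k (Complex.exp (x + ψ * Complex.I)) * Real.exp (-s * x) =
        A * Real.sin (s * (Real.pi / 2 - ψ)) := by
  have hpi := Real.pi_pos
  set G : ℂ → ℂ := fun w => B3_F k w * Complex.exp (-s * w) with hG
  have hGd : ∀ w : ℂ, 0 < w.im → w.im < Real.pi → DifferentiableAt ℂ G w := fun w hw0 hw1 =>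
    (B3_diff k hw0 hw1).mul (by fun_prop)
  have hGc : ∀ y : ℝ, 0 < y → y < Real.pi → Continuous fun x : ℝ => G (x + y * Complex.I) := by
    intro y hy0 hy1
    refine continuous_iff_continuousAt.mpr fun x => ?_
    have h3 : ContinuousAt G ((x : ℂ) + y * Complex.I) :=
      (hGd _ (by simpa using hy0) (by simpa using hy1)).continuousAt
    exact ContinuousAt.comp (g := G) (f := fun x : ℝ => (x : ℂ) + y * Complex.I) h3 (by fun_prop)
  have hGi : ∀ y : ℝ, 0 < y → y < Real.pi → Integrable fun x : ℝ => G (x + y * Complex.I) := by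
    intro y hy0 hy1
    obtain ⟨C, c, hc, hb⟩ := B3_decay k h1 h2 (Real.sin_pos_of_pos_of_lt_pi hy0 hy1)
    exact ((B3_exp_abs hc).const_mul C).mono' (hGc y hy0 hy1).aestronglyMeasurable
      (Eventually.of_forall fun x => hb x y hy0 hy1 le_rfl)
  have hmid : ∀ x : ℝ, G (x + (Real.pi / 2 : ℝ) * Complex.I) =
      (Complex.I * Complex.exp (-s * ((Real.pi / 2 : ℝ) * Complex.I))) *
        ((B3_a k (Real.exp x) * Real.exp (-s * x) : ℝ) : ℂ) := by
    intro x
    simp only [hG]
    rw [B3_mid, mul_add, Complex.exp_add]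
    push_cast
    ring
  have hnI : ‖Complex.I * Complex.exp (-s * ((Real.pi / 2 : ℝ) * Complex.I))‖ = 1 := by
    rw [norm_mul, Complex.norm_I, one_mul, Complex.norm_exp]
    simp
  have hai : Integrable fun x : ℝ => B3_a k (Real.exp x) * Real.exp (-s * x) := by
    have h3 := hGi (Real.pi / 2) (by linarith) (by linarith)
    refine h3.mono ?_ (Eventually.of_forall fun x => ?_)
    · have hc : Continuous (B3_a k) := continuous_iff_continuousAt.mpr fun u =>
        (B3_a_deriv k u).continuousAt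
      exact ((hc.comp Real.continuous_exp).mul (by fun_prop)).aestronglyMeasurable
    · have e : ‖G (x + (Real.pi / 2 : ℝ) * Complex.I)‖ =
          ‖B3_a k (Real.exp x) * Real.exp (-s * x)‖ := by
        rw [hmid x]
        rw [norm_mul (Complex.I * _) _, hnI, one_mul, Complex.norm_real]
      exact e.ge
  refine ⟨∫ x : ℝ, B3_a k (Real.exp x) * Real.exp (-s * x), ?_, fun ψ hψ0 hψ1 => ?_⟩
  · rw [← integral_const_mul]
    have hpos : ∀ x : ℝ, 0 < (-1) ^ (k + 1) * (B3_a k (Real.exp x) * Real.exp (-s * x)) := by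
      intro x
      rw [← mul_assoc]
      exact mul_pos (B3_a_sign k (Real.exp_pos x)) (Real.exp_pos _)
    rw [integral_pos_iff_support_of_nonneg (fun x => (hpos x).le) (hai.const_mul _)]
    have : Function.support (fun x : ℝ => (-1) ^ (k + 1) * (B3_a k (Real.exp x) * Real.exp (-s * x)))
        = Set.univ := Set.eq_univ_of_forall fun x => (hpos x).ne'
    rw [this]
    simp
  · obtain ⟨C, c, hc, hb⟩ := B3_decay k h1 h2 (Real.sin_pos_of_pos_of_lt_pi hψ0 hψ1)
    have hshift := B3_shift G (a := ψ) (b := Real.pi / 2) (C := C) (c := c) hc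
      (fun w hw => hGd w (B3_sin hψ0 hψ1 hw).1 (B3_sin hψ0 hψ1 hw).2.1)
      (fun x y hy => hb x y (B3_sin hψ0 hψ1 hy).1 (B3_sin hψ0 hψ1 hy).2.1 (B3_sin hψ0 hψ1 hy).2.2)
    have hR : ∫ x : ℝ, G (x + (Real.pi / 2 : ℝ) * Complex.I) =
        (Complex.I * Complex.exp (-s * ((Real.pi / 2 : ℝ) * Complex.I))) *
        ((∫ x : ℝ, B3_a k (Real.exp x) * Real.exp (-s * x) : ℝ) : ℂ) := by
      simp_rw [hmid]
      rw [integral_const_mul]
      congr 1
      exact integral_ofReal
    have hL : ∫ x : ℝ, Kf k (Complex.exp (x + ψ * Complex.I)) * Real.exp (-s * x) =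
        (Complex.exp (s * (ψ * Complex.I)) * ∫ x : ℝ, G (x + ψ * Complex.I)).re := by
      rw [← integral_const_mul]
      have h3 : ∀ x : ℝ, Kf k (Complex.exp (x + ψ * Complex.I)) * Real.exp (-s * x) =
          RCLike.re (Complex.exp (s * (ψ * Complex.I)) * G (x + ψ * Complex.I)) := by
        intro x
        have h4 : Complex.exp (s * (ψ * Complex.I)) * G (x + ψ * Complex.I) =
            B3_F k (x + ψ * Complex.I) * ((Real.exp (-s * x) : ℝ) : ℂ) := by
          simp only [hG]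
          have h5 : Complex.exp (-s * (x + ψ * Complex.I)) =
              Complex.exp (-s * x) * Complex.exp (-(s * (ψ * Complex.I))) := by
            rw [← Complex.exp_add]; congr 1; ring
          have h6 : Complex.exp (s * (ψ * Complex.I)) * Complex.exp (-(s * (ψ * Complex.I))) = 1 := by
            rw [← Complex.exp_add]; simp
          rw [h5]
          push_cast
          linear_combination (B3_F k (x + ψ * Complex.I) * Complex.exp (-s * x)) * h6
        rw [h4]
        change _ = (B3_F k (x + ψ * Complex.I) * ((Real.exp (-s * x) : ℝ) : ℂ)).re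
        rw [Complex.re_mul_ofReal, B3_re]
      simp_rw [h3]
      exact integral_re ((hGi ψ hψ0 hψ1).const_mul _)
    rw [hL, hshift, hR]
    have h7 : Complex.exp (s * (ψ * Complex.I)) *
        ((Complex.I * Complex.exp (-s * ((Real.pi / 2 : ℝ) * Complex.I))) *
        ((∫ x : ℝ, B3_a k (Real.exp x) * Real.exp (-s * x) : ℝ) : ℂ)) =
        (Complex.I * Complex.exp (((-(s * (Real.pi / 2 - ψ)) : ℝ) : ℂ) * Complex.I)) *
        ((∫ x : ℝ, B3_a k (Real.exp x) * Real.exp (-s * x) : ℝ) : ℂ) := by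
      have h8 : Complex.exp (((-(s * (Real.pi / 2 - ψ)) : ℝ) : ℂ) * Complex.I) =
          Complex.exp (s * (ψ * Complex.I)) * Complex.exp (-s * ((Real.pi / 2 : ℝ) * Complex.I)) := by
        rw [← Complex.exp_add]; congr 1; push_cast; ring
      rw [h8]; ring
    rw [h7, Complex.re_mul_ofReal, Complex.I_mul_re, Complex.exp_ofReal_mul_I_im, Real.sin_neg]
    ring

end Pool.Agent.helper38.UB
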