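import Pool.Agent.helper38.UB.B1
import Pool.Agent.helper38.UB.B3

set_option autoImplicit false

namespace Pool.Agent.helper38.UB

open Filter Topology MeasureTheory
open Pool.Agent.helper38.NNF Pool.Agent.helper38.LacA
open scoped ComplexConjugate ComplexOrder

/-! B4 (uniform negativity) -/

theorem B4_norm (x ψ : ℝ) : ‖Complex.exp (x + ψ * Complex.I)‖ = Real.exp x := by
  rw [Complex.norm_exp]; simp

theorem B4_meas (k : ℕ) (ψ : ℝ) :
    Measurable fun x : ℝ => Kf k (Complex.exp (x + ψ * Complex.I)) :=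
  (measurable_Kf k).comp (by fun_prop)

theorem B4_ae : ∀ᵐ x : ℝ, x ≠ 0 := by
  rw [ae_iff]; simp

theorem B4_abs (k : ℕ) (ψ : ℝ) {x : ℝ} (hx : x ≠ 0) :
    |Kf k (Complex.exp (x + ψ * Complex.I))| ≤ kap k (Real.exp x) := by
  have h := abs_Kf_le k (v := Complex.exp (x + ψ * Complex.I)) (by
    rw [B4_norm]; simpa using hx)
  rwa [B4_norm] at h

theorem B4_kap_int (k : ℕ) {ρ : ℝ} (h1 : 2 * k + 1 < ρ) (h2 : ρ < 2 * k + 2) :
    Integrable (fun x : ℝ => kap k (Real.exp x) * Real.exp (-ρ * x)) := by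
  have h := kap_integrable k (s := ρ) (η := 0) le_rfl (by linarith) (by linarith)
  refine h.congr (Eventually.of_forall fun x => ?_)
  simp

theorem B4_int (k : ℕ) {ρ : ℝ} (h1 : 2 * k + 1 < ρ) (h2 : ρ < 2 * k + 2) (ψ : ℝ) :
    Integrable (fun x : ℝ => Kf k (Complex.exp (x + ψ * Complex.I)) * Real.exp (-ρ * x)) := by
  refine (B4_kap_int k h1 h2).mono' ((B4_meas k ψ).mul (by fun_prop)).aestronglyMeasurable ?_
  filter_upwards [B4_ae] with x hx
  rw [norm_mul, Real.norm_eq_abs, Real.norm_eq_abs, abs_of_pos (Real.exp_pos _)]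
  exact mul_le_mul_of_nonneg_right (B4_abs k ψ hx) (Real.exp_pos _).le

theorem B4_cont (k : ℕ) {v : ℂ} (h1 : 1 + v ≠ 0) (h2 : 1 - v ≠ 0) : ContinuousAt (Kf k) v := by
  have h : Kf k = fun v : ℂ => (Real.log ‖1 + v‖ - Real.log ‖1 - v‖) / 2 -
      ∑ i ∈ Finset.range (k + 1), (v ^ (2 * i + 1)).re / (2 * i + 1) := by
    funext v; exact Kf_eq k v
  rw [h]
  refine ContinuousAt.sub (ContinuousAt.div_const (ContinuousAt.sub ?_ ?_) _) ?_
  · exact ContinuousAt.log (by fun_prop) (norm_ne_zero_iff.mpr h1)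
  · exact ContinuousAt.log (by fun_prop) (norm_ne_zero_iff.mpr h2)
  · exact Continuous.continuousAt (by fun_prop)

theorem B4_formula (k : ℕ) {ρ : ℝ} (h1 : 2 * k + 1 < ρ) (h2 : ρ < 2 * k + 2) :
    ∃ A : ℝ, 0 < (-1) ^ (k + 1) * A ∧ ∀ ψ : ℝ, |ψ| < Real.pi →
      ∫ x : ℝ, Kf k (Complex.exp (x + ψ * Complex.I)) * Real.exp (-ρ * x) =
        A * Real.sin (ρ * (Real.pi / 2 - |ψ|)) := by
  obtain ⟨A, hA, hf⟩ := mellin k h1 h2
  refine ⟨A, hA, fun ψ hψ => ?_⟩
  rcases lt_trichotomy ψ 0 with h | h | h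
  · have h3 := hf (-ψ) (by linarith) (by rwa [abs_of_neg h] at hψ)
    rw [abs_of_neg h, ← h3]
    refine integral_congr_ae (Eventually.of_forall fun x => ?_)
    have h4 : Complex.exp (x + ψ * Complex.I) =
        conj (Complex.exp (x + ((-ψ : ℝ) : ℂ) * Complex.I)) := by
      rw [← Complex.exp_conj]; congr 1; simp
    simp only
    rw [h4, Kf_conj]
  · subst h
    have hlim : Tendsto (fun ψ : ℝ => ∫ x : ℝ, Kf k (Complex.exp (x + ψ * Complex.I)) *
        Real.exp (-ρ * x)) (𝓝[>] 0) (𝓝 (∫ x : ℝ, Kf k (Complex.exp (x + (0 : ℝ) * Complex.I)) *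
        Real.exp (-ρ * x))) := by
      refine tendsto_integral_filter_of_dominated_convergence
        (fun x : ℝ => kap k (Real.exp x) * Real.exp (-ρ * x)) ?_ ?_ (B4_kap_int k h1 h2) ?_
      · exact Eventually.of_forall fun ψ =>
          ((B4_meas k ψ).mul (by fun_prop)).aestronglyMeasurable
      · refine Eventually.of_forall fun ψ => ?_
        filter_upwards [B4_ae] with x hx
        rw [norm_mul, Real.norm_eq_abs, Real.norm_eq_abs, abs_of_pos (Real.exp_pos _)]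
        exact mul_le_mul_of_nonneg_right (B4_abs k ψ hx) (Real.exp_pos _).le
      · filter_upwards [B4_ae] with x hx
        refine Tendsto.mul_const _ ?_
        have hne : ∀ v : ℂ, ‖v‖ ≠ 1 → 1 + v ≠ 0 ∧ 1 - v ≠ 0 := by
          intro v hv
          constructor
          · intro h0
            apply hv
            rw [← neg_eq_of_add_eq_zero_right h0]; simp
          · intro h0
            apply hv
            rw [← sub_eq_zero.mp h0]; simp
        have hv := hne (Complex.exp (x + (0 : ℝ) * Complex.I)) (by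
          rw [B4_norm]; simpa using hx)
        have hc := B4_cont k hv.1 hv.2
        have hc2 : ContinuousAt (fun ψ : ℝ => Complex.exp ((x : ℂ) + (ψ : ℂ) * Complex.I)) 0 := by
          fun_prop
        have hc3 : ContinuousAt (fun ψ : ℝ => Kf k (Complex.exp ((x : ℂ) + (ψ : ℂ) * Complex.I))) 0 :=
          ContinuousAt.comp (g := Kf k) hc hc2
        exact hc3.tendsto.mono_left nhdsWithin_le_nhds
    have hlim2 : Tendsto (fun ψ : ℝ => A * Real.sin (ρ * (Real.pi / 2 - ψ))) (𝓝[>] 0)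
        (𝓝 (A * Real.sin (ρ * (Real.pi / 2 - 0)))) := by
      have : Continuous fun ψ : ℝ => A * Real.sin (ρ * (Real.pi / 2 - ψ)) := by fun_prop
      exact (this.tendsto 0).mono_left nhdsWithin_le_nhds
    rw [abs_zero]
    refine tendsto_nhds_unique hlim (hlim2.congr' ?_)
    have hev : ∀ᶠ ψ : ℝ in 𝓝[>] 0, ψ < Real.pi :=
      nhdsWithin_le_nhds (Iio_mem_nhds Real.pi_pos)
    filter_upwards [self_mem_nhdsWithin, hev] with ψ hψ0 hψ1
    exact (hf ψ hψ0 hψ1).symm
  · rw [abs_of_pos h] at hψ ⊢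
    exact hf ψ h hψ

/-- (a) the formula extends to `ψ = 0` by dominated convergence and to `-ψ` by symmetry; (b) sign
of the sine; (c) perturbation of the weight: dominated convergence with majorant
`kap k (e^x) e^{-ρx} (e^{2η|x|} - 1)`. -/
theorem kernel_neg (k : ℕ) {ρ Ψ : ℝ} (h1 : 2 * k + 1 < ρ) (h2 : ρ < 2 * k + 2) (hΨ0 : 0 ≤ Ψ)
    (hΨ : Ψ < Real.pi / 2 - k * Real.pi / ρ) :
    ∃ η c : ℝ, 0 < η ∧ 0 < c ∧ 2 * k + 1 < ρ - 2 * η ∧ ρ + 2 * η < 2 * k + 2 ∧
      ∀ ψ : ℝ, |ψ| ≤ Ψ → ∀ w : ℝ → ℝ, Measurable w →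
        (∀ x, Real.exp (-(2 * η * |x|)) ≤ w x ∧ w x ≤ Real.exp (2 * η * |x|)) →
        ∫ x : ℝ, Kf k (Complex.exp (x + ψ * Complex.I)) * (Real.exp (-ρ * x) * w x) ≤ -c := by
  have hpi := Real.pi_pos
  have hk0 : (0 : ℝ) ≤ k := Nat.cast_nonneg k
  have hρ0 : 0 < ρ := by linarith
  obtain ⟨A, hA, hf⟩ := B4_formula k h1 h2
  -- sign
  have hsign : ∀ t : ℝ, 0 ≤ t → t ≤ Ψ → A * Real.sin (ρ * (Real.pi / 2 - t)) < 0 := by
    intro t ht0 ht1
    have e1 : k * Real.pi < ρ * (Real.pi / 2 - t) := by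
      have h3 : k * Real.pi / ρ < Real.pi / 2 - t := by linarith
      rwa [div_lt_iff₀ hρ0, mul_comm (Real.pi / 2 - t)] at h3
    have e2 : ρ * (Real.pi / 2 - t) < (k + 1) * Real.pi := by
      nlinarith [mul_nonneg hρ0.le ht0]
    have e3 : 0 < Real.sin (ρ * (Real.pi / 2 - t) - k * Real.pi) :=
      Real.sin_pos_of_pos_of_lt_pi (by linarith) (by linarith)
    rw [Real.sin_sub_nat_mul_pi] at e3
    have e4 := mul_pos hA e3
    have e5 : ((-1 : ℝ)) ^ (k + 1) * (-1) ^ k = -1 := by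
      rw [pow_succ, mul_assoc, mul_comm (-1 : ℝ) ((-1) ^ k), ← mul_assoc, ← mul_pow]; norm_num
    have e6 : (-1) ^ (k + 1) * A * ((-1) ^ k * Real.sin (ρ * (Real.pi / 2 - t))) =
        -(A * Real.sin (ρ * (Real.pi / 2 - t))) := by
      linear_combination (A * Real.sin (ρ * (Real.pi / 2 - t))) * e5
    linarith
  obtain ⟨t0, ht0, hmax⟩ := (isCompact_Icc (a := (0 : ℝ)) (b := Ψ)).exists_isMaxOn
    ⟨0, Set.left_mem_Icc.mpr hΨ0⟩
    (f := fun t : ℝ => A * Real.sin (ρ * (Real.pi / 2 - t))) (by fun_prop)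
  set c : ℝ := -(A * Real.sin (ρ * (Real.pi / 2 - t0))) / 2 with hc
  have hc0 : 0 < c := by have := hsign t0 ht0.1 ht0.2; rw [hc]; linarith
  -- the admissible range of η
  set η0 : ℝ := min (ρ - (2 * k + 1)) (2 * k + 2 - ρ) / 4 with hη0
  have hm0 : 0 < min (ρ - (2 * k + 1)) (2 * k + 2 - ρ) := lt_min (by linarith) (by linarith)
  have hη00 : 0 < η0 := by rw [hη0]; linarith
  have ha1 : 2 * k + 1 < ρ - 2 * η0 := by
    have := min_le_left (ρ - (2 * k + 1)) (2 * k + 2 - ρ); rw [hη0]; linarith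
  have ha2 : ρ + 2 * η0 < 2 * k + 2 := by
    have := min_le_right (ρ - (2 * k + 1)) (2 * k + 2 - ρ); rw [hη0]; linarith
  have hI0 := kap_integrable k (s := ρ) (η := 2 * η0) (by linarith) ha1 ha2
  have hkap0 : ∀ x : ℝ, 0 ≤ kap k (Real.exp x) := fun x => kap_nonneg k (Real.exp_pos x).le
  have hmeasD : ∀ η : ℝ, Measurable fun x : ℝ => kap k (Real.exp x) * Real.exp (-ρ * x) *
      (Real.exp (2 * η * |x|) - 1) := by
    intro η
    exact (((measurable_kap k).comp (by fun_prop)).mul (by fun_prop)).mul (by fun_prop)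
  have hdomD : ∀ η : ℝ, 0 < η → η ≤ η0 → ∀ x : ℝ, ‖kap k (Real.exp x) * Real.exp (-ρ * x) *
      (Real.exp (2 * η * |x|) - 1)‖ ≤ kap k (Real.exp x) * Real.exp (-ρ * x + 2 * η0 * |x|) := by
    intro η hη hηη x
    have hx0 := abs_nonneg x
    have e1 : 1 ≤ Real.exp (2 * η * |x|) := Real.one_le_exp (by positivity)
    have e2 : Real.exp (2 * η * |x|) ≤ Real.exp (2 * η0 * |x|) :=
      Real.exp_le_exp.mpr (by nlinarith)
    rw [norm_mul, norm_mul, Real.norm_eq_abs, Real.norm_eq_abs, Real.norm_eq_abs,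
      abs_of_nonneg (hkap0 x), abs_of_pos (Real.exp_pos _), abs_of_nonneg (by linarith),
      Real.exp_add, ← mul_assoc]
    exact mul_le_mul_of_nonneg_left (by linarith)
      (mul_nonneg (hkap0 x) (Real.exp_pos _).le)
  have hlim : Tendsto (fun η : ℝ => ∫ x : ℝ, kap k (Real.exp x) * Real.exp (-ρ * x) *
      (Real.exp (2 * η * |x|) - 1)) (𝓝[>] 0) (𝓝 (∫ x : ℝ, (0 : ℝ))) := by
    refine tendsto_integral_filter_of_dominated_convergence
      (fun x : ℝ => kap k (Real.exp x) * Real.exp (-ρ * x + 2 * η0 * |x|)) ?_ ?_ hI0 ?_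
    · exact Eventually.of_forall fun η => (hmeasD η).aestronglyMeasurable
    · have hev : ∀ᶠ η : ℝ in 𝓝[>] 0, η < η0 := nhdsWithin_le_nhds (Iio_mem_nhds hη00)
      filter_upwards [self_mem_nhdsWithin, hev] with η hη hη1
      exact Eventually.of_forall fun x => hdomD η hη hη1.le x
    · refine Eventually.of_forall fun x => ?_
      have hcont : Continuous fun η : ℝ => kap k (Real.exp x) * Real.exp (-ρ * x) *
          (Real.exp (2 * η * |x|) - 1) := by fun_prop
      have := (hcont.tendsto 0).mono_left (nhdsWithin_le_nhds (s := Set.Ioi (0 : ℝ)))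
      simpa using this
  rw [integral_zero] at hlim
  have hev1 : ∀ᶠ η : ℝ in 𝓝[>] 0, ∫ x : ℝ, kap k (Real.exp x) * Real.exp (-ρ * x) *
      (Real.exp (2 * η * |x|) - 1) < c := hlim (Iio_mem_nhds hc0)
  have hev2 : ∀ᶠ η : ℝ in 𝓝[>] 0, η < η0 := nhdsWithin_le_nhds (Iio_mem_nhds hη00)
  obtain ⟨η, ⟨hηD, hηlt⟩, hηpos⟩ := ((hev1.and hev2).and self_mem_nhdsWithin).exists
  have hηpos : 0 < η := hηpos
  refine ⟨η, c, hηpos, hc0, by linarith, by linarith, fun ψ hψ w hw hwb => ?_⟩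
  have hψpi : |ψ| < Real.pi := by
    have : 0 ≤ k * Real.pi / ρ := by positivity
    linarith
  -- the main term
  have hmain : ∫ x : ℝ, Kf k (Complex.exp (x + ψ * Complex.I)) * Real.exp (-ρ * x) ≤ -(2 * c) := by
    rw [hf ψ hψpi]
    have h3 := hmax (Set.mem_Icc.mpr ⟨abs_nonneg ψ, hψ⟩)
    have h4 : A * Real.sin (ρ * (Real.pi / 2 - |ψ|)) ≤ A * Real.sin (ρ * (Real.pi / 2 - t0)) := h3
    rw [hc]; linarith
  -- the error term
  have hD : Integrable fun x : ℝ => kap k (Real.exp x) * Real.exp (-ρ * x) *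
      (Real.exp (2 * η * |x|) - 1) :=
    hI0.mono' (hmeasD η).aestronglyMeasurable
      (Eventually.of_forall fun x => hdomD η hηpos hηlt.le x)
  have herr_b : ∀ᵐ x : ℝ, ‖Kf k (Complex.exp (x + ψ * Complex.I)) *
      (Real.exp (-ρ * x) * (w x - 1))‖ ≤ kap k (Real.exp x) * Real.exp (-ρ * x) *
      (Real.exp (2 * η * |x|) - 1) := by
    filter_upwards [B4_ae] with x hx
    have e0 : 0 ≤ 2 * η * |x| := by positivity
    have e1 := (hwb x).1
    have e2 := (hwb x).2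
    have e3 : |w x - 1| ≤ Real.exp (2 * η * |x|) - 1 := by
      rw [abs_le]
      refine ⟨?_, by linarith⟩
      have e4 : Real.exp (2 * η * |x|) * Real.exp (-(2 * η * |x|)) = 1 := by
        rw [← Real.exp_add]; simp
      have e5 := Real.exp_pos (2 * η * |x|)
      have e6 := Real.exp_pos (-(2 * η * |x|))
      nlinarith [sq_nonneg (Real.exp (2 * η * |x|) - Real.exp (-(2 * η * |x|)))]
    rw [norm_mul, norm_mul, Real.norm_eq_abs, Real.norm_eq_abs, Real.norm_eq_abs,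
      abs_of_pos (Real.exp_pos _), ← mul_assoc]
    exact mul_le_mul (mul_le_mul_of_nonneg_right (B4_abs k ψ hx) (Real.exp_pos _).le) e3
      (abs_nonneg _) (mul_nonneg (hkap0 x) (Real.exp_pos _).le)
  have herr_i : Integrable fun x : ℝ => Kf k (Complex.exp (x + ψ * Complex.I)) *
      (Real.exp (-ρ * x) * (w x - 1)) := by
    refine hD.mono' ?_ herr_b
    exact ((B4_meas k ψ).mul (Measurable.mul (by fun_prop) (hw.sub_const 1))).aestronglyMeasurable
  have hsplit : ∫ x : ℝ, Kf k (Complex.exp (x + ψ * Complex.I)) * (Real.exp (-ρ * x) * w x) =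
      (∫ x : ℝ, Kf k (Complex.exp (x + ψ * Complex.I)) * Real.exp (-ρ * x)) +
      ∫ x : ℝ, Kf k (Complex.exp (x + ψ * Complex.I)) * (Real.exp (-ρ * x) * (w x - 1)) := by
    rw [← integral_add (B4_int k h1 h2 ψ) herr_i]
    refine integral_congr_ae (Eventually.of_forall fun x => ?_)
    simp only
    ring
  have herr : ∫ x : ℝ, Kf k (Complex.exp (x + ψ * Complex.I)) * (Real.exp (-ρ * x) * (w x - 1)) ≤
      ∫ x : ℝ, kap k (Real.exp x) * Real.exp (-ρ * x) * (Real.exp (2 * η * |x|) - 1) := by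
    refine integral_mono_ae herr_i hD ?_
    filter_upwards [herr_b] with x hx
    exact (le_abs_self _).trans hx
  rw [hsplit]
  linarith

end Pool.Agent.helper38.UB
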