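import Pool.Agent.helper38.UB.A3
import Pool.Agent.helper38.UB.A6
import Pool.Agent.helper38.UB.B1
import Pool.Agent.helper38.UB.B4

set_option autoImplicit false

namespace Pool.Agent.helper38.UB

open Filter Topology MeasureTheory
open Pool.Agent.helper38.NNF Pool.Agent.helper38.LacA
open scoped ComplexConjugate ComplexOrder

/-! B6 (assembly of U) -/

noncomputable def B6_phi (η X x : ℝ) : ℝ := min (η * x) (2 * η * X - η * x)

noncomputable def B6_W (ρ η X x : ℝ) : ℝ := Real.exp (-ρ * x + B6_phi η X x)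

theorem B6_phi_lip {η X : ℝ} (hη : 0 ≤ η) (x y : ℝ) :
    |B6_phi η X (x + y) - B6_phi η X x| ≤ η * |y| := by
  unfold B6_phi
  refine (abs_min_sub_min_le_max _ _ _ _).trans ?_
  apply max_le
  · rw [show η * (x + y) - η * x = η * y by ring, abs_mul, abs_of_nonneg hη]
  · rw [show 2 * η * X - η * (x + y) - (2 * η * X - η * x) = -(η * y) by ring, abs_neg, abs_mul,
      abs_of_nonneg hη]

theorem B6_phi_le (η X x : ℝ) : B6_phi η X x ≤ η * x := min_le_left _ _

theorem B6_phi_le' (η X x : ℝ) : B6_phi η X x ≤ 2 * η * X - η * x := min_le_right _ _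

theorem B6_phi_eq {η X x : ℝ} (hη : 0 ≤ η) (hx : x ≤ X) : B6_phi η X x = η * x := by
  unfold B6_phi
  apply min_eq_left
  nlinarith

theorem B6_phi_cont (η X : ℝ) : Continuous (B6_phi η X) := by
  unfold B6_phi
  fun_prop

theorem B6_W_pos (ρ η X x : ℝ) : 0 < B6_W ρ η X x := Real.exp_pos _

theorem B6_W_cont (ρ η X : ℝ) : Continuous (B6_W ρ η X) := by
  unfold B6_W
  have := B6_phi_cont η X
  fun_prop

theorem B6_W_shift {ρ η X : ℝ} (hη : 0 ≤ η) (x y : ℝ) :
    B6_W ρ η X (x + y) ≤ B6_W ρ η X x * Real.exp (-ρ * y + η * |y|) := by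
  unfold B6_W
  rw [← Real.exp_add]
  apply Real.exp_le_exp.mpr
  have := (abs_le.mp (B6_phi_lip (X := X) hη x y)).2
  linarith

/-- majorant integral -/
noncomputable def B6_I (k : ℕ) (ρ η : ℝ) : ℝ :=
  ∫ y : ℝ, kap k (Real.exp y) * Real.exp (-ρ * y + η * |y|)

theorem B6_norm_div {a : ℂ} (ha : a ≠ 0) (x : ℝ) :
    ‖-(Real.exp x : ℂ) / a‖ = Real.exp (x - Real.log ‖a‖) := by
  have h := norm_pos_iff.mpr ha
  rw [norm_div, norm_neg, Complex.norm_real, Real.norm_eq_abs, abs_of_pos (Real.exp_pos _),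
    Real.exp_sub, Real.exp_log h]

theorem B6_maj {k : ℕ} {ρ η X : ℝ} (hη : 0 ≤ η) {a : ℂ} (ha : a ≠ 0) {x : ℝ}
    (hx : x ≠ Real.log ‖a‖) :
    |Kf k (-(Real.exp x : ℂ) / a) * B6_W ρ η X x| ≤ B6_W ρ η X (Real.log ‖a‖) *
      (kap k (Real.exp (x - Real.log ‖a‖)) *
        Real.exp (-ρ * (x - Real.log ‖a‖) + η * |x - Real.log ‖a‖|)) := by
  have h1 : ‖-(Real.exp x : ℂ) / a‖ ≠ 1 := by
    rw [B6_norm_div ha, ← Real.exp_zero]
    intro h
    have := Real.exp_injective h
    exact hx (by linarith)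
  have h2 := abs_Kf_le k h1
  rw [B6_norm_div ha] at h2
  have h3 := B6_W_shift (ρ := ρ) (X := X) hη (Real.log ‖a‖) (x - Real.log ‖a‖)
  rw [add_sub_cancel] at h3
  rw [abs_mul, abs_of_pos (B6_W_pos ρ η X x)]
  have h4 : 0 ≤ kap k (Real.exp (x - Real.log ‖a‖)) := kap_nonneg k (Real.exp_pos _).le
  calc |Kf k (-(Real.exp x : ℂ) / a)| * B6_W ρ η X x
      ≤ kap k (Real.exp (x - Real.log ‖a‖)) * (B6_W ρ η X (Real.log ‖a‖) *
        Real.exp (-ρ * (x - Real.log ‖a‖) + η * |x - Real.log ‖a‖|)) :=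
        mul_le_mul h2 h3 (B6_W_pos ρ η X x).le h4
    _ = _ := by ring

theorem B6_maj_int {k : ℕ} {ρ η : ℝ} (hη : 0 ≤ η) (h1 : 2 * k + 1 < ρ - η) (h2 : ρ + η < 2 * k + 2)
    (c t : ℝ) : Integrable (fun x : ℝ => c * (kap k (Real.exp (x - t)) *
        Real.exp (-ρ * (x - t) + η * |x - t|))) ∧
    ∫ x : ℝ, c * (kap k (Real.exp (x - t)) * Real.exp (-ρ * (x - t) + η * |x - t|)) =
      c * B6_I k ρ η := by
  have h3 := kap_integrable k hη h1 h2
  constructor
  · exact (h3.comp_sub_right t).const_mul c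
  · rw [integral_const_mul]
    congr 1
    exact integral_sub_right_eq_self (fun y : ℝ => kap k (Real.exp y) *
      Real.exp (-ρ * y + η * |y|)) t

theorem B6_meas (k : ℕ) (ρ η X : ℝ) (a : ℂ) :
    Measurable (fun x : ℝ => Kf k (-(Real.exp x : ℂ) / a) * B6_W ρ η X x) := by
  apply Measurable.mul
  · apply (measurable_Kf k).comp
    have : Continuous (fun x : ℝ => -(Real.exp x : ℂ) / a) := by fun_prop
    exact this.measurable
  · exact (B6_W_cont ρ η X).measurable

theorem B6_ae_ne (t : ℝ) : ∀ᵐ x : ℝ, x ≠ t := by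
  rw [ae_iff]
  simp

theorem B6_int {k : ℕ} {ρ η X : ℝ} (hη : 0 ≤ η) (h1 : 2 * k + 1 < ρ - η) (h2 : ρ + η < 2 * k + 2)
    {a : ℂ} (ha : a ≠ 0) :
    Integrable (fun x : ℝ => Kf k (-(Real.exp x : ℂ) / a) * B6_W ρ η X x) ∧
    ∫ x : ℝ, |Kf k (-(Real.exp x : ℂ) / a) * B6_W ρ η X x| ≤
      B6_W ρ η X (Real.log ‖a‖) * B6_I k ρ η := by
  obtain ⟨h3, h4⟩ := B6_maj_int hη h1 h2 (B6_W ρ η X (Real.log ‖a‖)) (Real.log ‖a‖)
  have hae : ∀ᵐ x : ℝ, ‖Kf k (-(Real.exp x : ℂ) / a) * B6_W ρ η X x‖ ≤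
      B6_W ρ η X (Real.log ‖a‖) * (kap k (Real.exp (x - Real.log ‖a‖)) *
        Real.exp (-ρ * (x - Real.log ‖a‖) + η * |x - Real.log ‖a‖|)) := by
    filter_upwards [B6_ae_ne (Real.log ‖a‖)] with x hx
    exact B6_maj hη ha hx
  have hint : Integrable (fun x : ℝ => Kf k (-(Real.exp x : ℂ) / a) * B6_W ρ η X x) :=
    h3.mono' (B6_meas k ρ η X a).aestronglyMeasurable hae
  refine ⟨hint, ?_⟩
  rw [← h4]
  exact integral_mono_ae hint.abs h3 hae

theorem B6_I_nonneg (k : ℕ) (ρ η : ℝ) : 0 ≤ B6_I k ρ η := by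
  unfold B6_I
  apply integral_nonneg
  intro y
  exact mul_nonneg (kap_nonneg k (Real.exp_pos _).le) (Real.exp_pos _).le

/-- angle of `-1/a` -/
theorem B6_angle {a : ℂ} (ha : a ≠ 0) {Ψ : ℝ} (h : Real.pi - Ψ ≤ |Complex.arg a|) :
    ∃ ψ : ℝ, |ψ| ≤ Ψ ∧ ∀ y : ℝ, -(Real.exp (y + Real.log ‖a‖) : ℂ) / a =
      Complex.exp (y + ψ * Complex.I) := by
  have hn := norm_pos_iff.mpr ha
  have hpi := Real.pi_pos
  have hle := Complex.abs_arg_le_pi a
  have hpol := Complex.norm_mul_exp_arg_mul_I a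
  have key : ∀ ψ : ℝ, Complex.exp (ψ * Complex.I) = -Complex.exp (-(Complex.arg a * Complex.I)) →
      ∀ y : ℝ, -(Real.exp (y + Real.log ‖a‖) : ℂ) / a = Complex.exp (y + ψ * Complex.I) := by
    intro ψ hψ y
    rw [Complex.exp_add, hψ, Real.exp_add, Real.exp_log hn, Complex.exp_neg]
    have h1 := Complex.exp_ne_zero (Complex.arg a * Complex.I)
    have h2 : (‖a‖ : ℂ) ≠ 0 := by exact_mod_cast hn.ne'
    nth_rewrite 2 [← hpol]
    push_cast
    field_simp
  rcases le_or_gt 0 (Complex.arg a) with h0 | h0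
  · refine ⟨Real.pi - Complex.arg a, ?_, key _ ?_⟩
    · rw [abs_of_nonneg h0] at h hle
      rw [abs_of_nonneg (by linarith)]; linarith
    · have : ((Real.pi - Complex.arg a : ℝ) : ℂ) * Complex.I =
          Real.pi * Complex.I + (-(Complex.arg a * Complex.I)) := by push_cast; ring
      rw [this, Complex.exp_add, Complex.exp_pi_mul_I]; ring
  · refine ⟨-Real.pi - Complex.arg a, ?_, key _ ?_⟩
    · rw [abs_of_neg h0] at h hle
      rw [abs_of_nonpos (by linarith)]; linarith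
    · have : ((-Real.pi - Complex.arg a : ℝ) : ℂ) * Complex.I =
          -(Real.pi * Complex.I) + (-(Complex.arg a * Complex.I)) := by push_cast; ring
      rw [this, Complex.exp_add, Complex.exp_neg, Complex.exp_pi_mul_I]
      norm_num

theorem B6_neg {k : ℕ} {ρ η c Ψ : ℝ} (hη : 0 ≤ η)
    (hker : ∀ ψ : ℝ, |ψ| ≤ Ψ → ∀ w : ℝ → ℝ, Measurable w →
        (∀ x, Real.exp (-(2 * η * |x|)) ≤ w x ∧ w x ≤ Real.exp (2 * η * |x|)) →
        ∫ x : ℝ, Kf k (Complex.exp (x + ψ * Complex.I)) * (Real.exp (-ρ * x) * w x) ≤ -c)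
    {X : ℝ} {a : ℂ} (ha : a ≠ 0) (h : Real.pi - Ψ ≤ |Complex.arg a|) :
    ∫ x : ℝ, Kf k (-(Real.exp x : ℂ) / a) * B6_W ρ η X x ≤ -(c * B6_W ρ η X (Real.log ‖a‖)) := by
  obtain ⟨ψ, hψ, hang⟩ := B6_angle ha h
  set t : ℝ := Real.log ‖a‖ with ht
  rw [← integral_add_right_eq_self (fun x : ℝ => Kf k (-(Real.exp x : ℂ) / a) * B6_W ρ η X x) t]
  have e1 : ∀ x : ℝ, Kf k (-(Real.exp (x + t) : ℂ) / a) * B6_W ρ η X (x + t) =
      B6_W ρ η X t * (Kf k (Complex.exp (x + ψ * Complex.I)) * (Real.exp (-ρ * x) *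
        Real.exp (B6_phi η X (t + x) - B6_phi η X t))) := by
    intro x
    rw [hang x]
    have : B6_W ρ η X (x + t) = B6_W ρ η X t * (Real.exp (-ρ * x) *
        Real.exp (B6_phi η X (t + x) - B6_phi η X t)) := by
      unfold B6_W
      rw [← Real.exp_add, ← Real.exp_add, add_comm x t]
      congr 1; ring
    rw [this]; ring
  simp only [e1]
  rw [integral_const_mul]
  have h1 := hker ψ hψ (fun x => Real.exp (B6_phi η X (t + x) - B6_phi η X t)) (by
      have := B6_phi_cont η X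
      exact (by fun_prop : Continuous (fun x => Real.exp (B6_phi η X (t + x) - B6_phi η X t))).measurable)
    (by
      intro x
      have h2 := abs_le.mp (B6_phi_lip (X := X) hη t x)
      have h3 : 0 ≤ η * |x| := by positivity
      constructor
      · apply Real.exp_le_exp.mpr; linarith [h2.1]
      · apply Real.exp_le_exp.mpr; linarith [h2.2])
  have h2 := mul_le_mul_of_nonneg_left h1 (B6_W_pos ρ η X t).le
  calc _ ≤ B6_W ρ η X t * -c := h2
    _ = _ := by ring

theorem B6_countable {f : ℂ → ℂ} (hf : Differentiable ℂ f) (h0 : f 0 ≠ 0) :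
    {a : ℂ | f a = 0}.Countable := by
  have : {a : ℂ | f a = 0} = ⋃ n : ℕ, {a : ℂ | f a = 0 ∧ ‖a‖ ≤ n} := by
    ext a
    simp only [Set.mem_ofPred_eq, Set.mem_iUnion]
    constructor
    · intro h
      obtain ⟨n, hn⟩ := exists_nat_ge ‖a‖
      exact ⟨n, h, hn⟩
    · rintro ⟨n, h, _⟩; exact h
  rw [this]
  exact Set.countable_iUnion (fun n => (zeros_finite hf h0 n).countable)

/-- Let `W_X(x) = exp(-ρ x + min (η x) (2 η X - η x))`. Integrate
`0 ≤ log ‖f(e^x)‖ - log ‖f(-e^x)‖ = 2 ∑ mu(a) K(-e^x/a) + 2 ∑_{j odd} c_j e^{jx}` against it. -/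
theorem core_U {f : ℂ → ℂ} (hf : Differentiable ℂ f) (h0 : f 0 ≠ 0)
    (hc : ∀ z, f (conj z) = conj (f z))
    (hpos : ∀ r : ℝ, 0 < r → ‖f (-r)‖ ≤ ‖f r‖) {k : ℕ} {ρ : ℝ} (h1 : 2 * k + 1 < ρ)
    (h2 : ρ < 2 * k + 2) (hgr : ∀ σ, ρ < σ → Gr f σ) {D : ℝ}
    (hD : Real.pi / 2 + k * Real.pi / ρ < D)
    (hz : {z : ℂ | f z = 0 ∧ |Complex.arg z| < D}.Finite) :
    ∃ s : ℝ, 2 * k + 1 < s ∧ s < ρ ∧ Gr f s := by
  have hpi := Real.pi_pos
  have hk0 : (0:ℝ) ≤ k := Nat.cast_nonneg k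
  have hρ0 : 0 < ρ := by linarith
  have hkρ : k * Real.pi / ρ < Real.pi / 2 := by
    rw [div_lt_div_iff₀ hρ0 (by norm_num)]
    nlinarith
  have hkρ0 : 0 ≤ k * Real.pi / ρ := by positivity
  -- the angle
  obtain ⟨D', hD'1, hD'2, hD'3⟩ : ∃ D' : ℝ, Real.pi / 2 + k * Real.pi / ρ < D' ∧ D' ≤ Real.pi ∧
      D' ≤ D := ⟨min D Real.pi, lt_min hD (by linarith), min_le_right _ _, min_le_left _ _⟩
  set Ψ : ℝ := Real.pi - D' with hΨ
  obtain ⟨η, c, hη, hcpos, hη1, hη2, hker⟩ := kernel_neg k h1 h2 (Ψ := Ψ) (by rw [hΨ]; linarith)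
    (by rw [hΨ]; linarith)
  have hη0 : 0 ≤ η := hη.le
  have hη3 : 2 * k + 1 < ρ - η := by linarith
  have hη4 : ρ + η < 2 * k + 2 := by linarith
  have hGr : Gr f (ρ + η / 2) := hgr _ (by linarith)
  have hσ0 : 0 ≤ ρ + η / 2 := by linarith
  have hp : ρ + η / 2 < ((2 * k + 1 : ℕ) : ℝ) + 1 := by push_cast; linarith
  have hsum1 : Summable (fun a : ℂ => (mu f a : ℝ) * ‖a‖ ^ (-(ρ + η))) :=
    summable_mu hf h0 hσ0 (by linarith) hGr
  have hsum2 : Summable (fun a : ℂ => (mu f a : ℝ) * ‖a‖ ^ (-(2 * k + 2 : ℝ))) :=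
    summable_mu hf h0 hσ0 (by linarith) hGr
  obtain ⟨cc, hrep⟩ := log_rep_real hf h0 hc hσ0 hp hGr
  set I₀ : ℝ := B6_I k ρ η with hI₀
  have hI₀0 : 0 ≤ I₀ := B6_I_nonneg k ρ η
  -- zeros as a countable type
  have hcount := B6_countable hf h0
  set Z : Type := {a : ℂ // f a = 0} with hZ
  have : Countable Z := hcount.to_subtype
  have hZne : ∀ a : Z, (a : ℂ) ≠ 0 := by
    rintro ⟨a, ha⟩ h
    have h' : a = 0 := h
    rw [h'] at ha; exact h0 ha
  have hsub : ∀ F : ℂ → ℝ, (∀ a, f a ≠ 0 → F a = 0) → ∑' a : ℂ, F a = ∑' a : Z, F a := by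
    intro F hF
    symm
    apply tsum_subtype_eq_of_support_subset (s := {a : ℂ | f a = 0})
    intro a ha
    by_contra hcon
    exact ha (hF a hcon)
  have hsubs : ∀ F : ℂ → ℝ, Summable F → Summable (fun a : Z => F a) := by
    intro F hF
    exact hF.comp_injective Subtype.val_injective
  -- the function T
  set T : ℝ → ℝ := fun x => ∑' a : Z, (mu f a : ℝ) * Kf k (-(Real.exp x : ℂ) / a) with hT
  -- lower bound for T from positivity
  set Cq : ℝ := ∑ j ∈ Finset.range (2 * k + 1 + 1), |cc j| with hCq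
  have hCq0 : 0 ≤ Cq := Finset.sum_nonneg (fun j _ => abs_nonneg _)
  have hTlow : ∀ x : ℝ, 0 ≤ x → f (Real.exp x) ≠ 0 → f (-(Real.exp x : ℂ)) ≠ 0 →
      -(Cq * Real.exp ((2 * k + 1) * x)) ≤ T x := by
    intro x hx hf1 hf2
    obtain ⟨s1, r1⟩ := hrep _ hf1
    obtain ⟨s2, r2⟩ := hrep _ hf2
    have h3 : Real.log ‖f (-(Real.exp x : ℂ))‖ ≤ Real.log ‖f (Real.exp x)‖ :=
      Real.log_le_log (norm_pos_iff.mpr hf2) (hpos _ (Real.exp_pos x))
    have h4 : ∑' a : ℂ, (mu f a : ℝ) * lE (2 * k + 1) ((Real.exp x : ℂ) / a) -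
        ∑' a : ℂ, (mu f a : ℝ) * lE (2 * k + 1) (-(Real.exp x : ℂ) / a) = 2 * T x := by
      rw [← s1.tsum_sub s2, hT, ← tsum_mul_left]
      rw [hsub _ (by intro a ha; rw [mu_eq_zero hf ha]; simp)]
      apply tsum_congr
      intro a
      unfold Kf
      rw [neg_div, neg_neg]
      ring
    have h5 : (∑ j ∈ Finset.range (2 * k + 1 + 1), (cc j : ℂ) * (Real.exp x : ℂ) ^ j).re -
        (∑ j ∈ Finset.range (2 * k + 1 + 1), (cc j : ℂ) * (-(Real.exp x : ℂ)) ^ j).re ≤
        2 * (Cq * Real.exp ((2 * k + 1) * x)) := by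
      rw [← Complex.sub_re, ← Finset.sum_sub_distrib]
      refine (Complex.re_le_norm _).trans ((norm_sum_le _ _).trans ?_)
      rw [hCq, Finset.sum_mul, Finset.mul_sum]
      apply Finset.sum_le_sum
      intro j hj
      rw [Finset.mem_range] at hj
      have h6 : ‖(cc j : ℂ) * (Real.exp x : ℂ) ^ j‖ ≤ |cc j| * Real.exp ((2 * k + 1) * x) := by
        rw [norm_mul, norm_pow, Complex.norm_real, Complex.norm_real, Real.norm_eq_abs,
          Real.norm_eq_abs, abs_of_pos (Real.exp_pos x), ← Real.exp_nat_mul]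
        apply mul_le_mul_of_nonneg_left _ (abs_nonneg _)
        apply Real.exp_le_exp.mpr
        apply mul_le_mul_of_nonneg_right _ hx
        have : (j:ℝ) ≤ ((2 * k + 1 : ℕ) : ℝ) := by exact_mod_cast (by omega : j ≤ 2 * k + 1)
        push_cast at this
        exact this
      have h7 : ‖(cc j : ℂ) * (-(Real.exp x : ℂ)) ^ j‖ ≤ |cc j| * Real.exp ((2 * k + 1) * x) := by
        have : ‖(cc j : ℂ) * (-(Real.exp x : ℂ)) ^ j‖ = ‖(cc j : ℂ) * (Real.exp x : ℂ) ^ j‖ := by
          rw [norm_mul, norm_mul, norm_pow, norm_pow, norm_neg]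
        rw [this]; exact h6
      have h8 := norm_sub_le ((cc j : ℂ) * (Real.exp x : ℂ) ^ j) ((cc j : ℂ) * (-(Real.exp x : ℂ)) ^ j)
      linarith
    linarith
  -- the negative half line
  set J : Z → ℝ := fun a => ∫ x in Set.Iic (0:ℝ), kap k (Real.exp (x - Real.log ‖(a:ℂ)‖)) *
    Real.exp (-(ρ - η) * x) with hJ
  have hVint : ∀ a : Z, Integrable (fun x : ℝ => kap k (Real.exp (x - Real.log ‖(a:ℂ)‖)) *
      Real.exp (-(ρ - η) * x)) := by
    intro a
    set t : ℝ := Real.log ‖(a:ℂ)‖ with ht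
    obtain ⟨h3, _⟩ := B6_maj_int hη0 hη3 hη4 (Real.exp (-(ρ - η) * t)) t
    apply h3.mono'
    · apply Measurable.aestronglyMeasurable
      apply Measurable.mul
      · exact (measurable_kap k).comp (by fun_prop)
      · fun_prop
    · apply Eventually.of_forall
      intro x
      have h4 : 0 ≤ kap k (Real.exp (x - t)) := kap_nonneg k (Real.exp_pos _).le
      rw [norm_mul, Real.norm_eq_abs, Real.norm_eq_abs, abs_of_nonneg h4,
        abs_of_pos (Real.exp_pos _)]
      have h5 : Real.exp (-(ρ - η) * x) ≤ Real.exp (-(ρ - η) * t) *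
          Real.exp (-ρ * (x - t) + η * |x - t|) := by
        rw [← Real.exp_add]
        apply Real.exp_le_exp.mpr
        have := le_abs_self (x - t)
        nlinarith
      calc kap k (Real.exp (x - t)) * Real.exp (-(ρ - η) * x)
          ≤ kap k (Real.exp (x - t)) * (Real.exp (-(ρ - η) * t) *
          Real.exp (-ρ * (x - t) + η * |x - t|)) := mul_le_mul_of_nonneg_left h5 h4
        _ = _ := by ring
  have hJ0 : ∀ a, 0 ≤ J a := by
    intro a
    apply setIntegral_nonneg measurableSet_Iic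
    intro x _
    exact mul_nonneg (kap_nonneg k (Real.exp_pos _).le) (Real.exp_pos _).le
  have hJsum : Summable (fun a : Z => (mu f a : ℝ) * J a) := by
    have hfin := zeros_finite hf h0 2
    have hfinZ : {a : Z | ‖(a:ℂ)‖ ≤ 2}.Finite := by
      apply Set.Finite.of_finite_image (f := Subtype.val) _ Subtype.val_injective.injOn
      apply hfin.subset
      rintro x ⟨a, ha, rfl⟩
      exact ⟨a.2, ha⟩
    have hgap : 0 < 2 * (k:ℝ) + 2 - (ρ - η) := by linarith
    apply Summable.of_norm_bounded_eventually (g := fun a : Z =>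
      2 / (2 * (k:ℝ) + 2 - (ρ - η)) * ((mu f a : ℝ) * ‖(a:ℂ)‖ ^ (-(2 * k + 2 : ℝ))))
    · exact (hsubs _ hsum2).mul_left _
    · rw [Filter.eventually_cofinite]
      apply hfinZ.subset
      intro a ha
      by_contra hcon
      apply ha
      have ha2 : 2 < ‖(a:ℂ)‖ := not_le.mp hcon
      have hapos : 0 < ‖(a:ℂ)‖ := by linarith
      have hJa : J a = 2 * ‖(a:ℂ)‖ ^ (-(2 * k + 2 : ℝ)) / (2 * (k:ℝ) + 2 - (ρ - η)) := by
        have e1 : J a = ∫ x in Set.Iic (0:ℝ), (2 * ‖(a:ℂ)‖ ^ (-(2 * k + 2 : ℝ))) *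
            Real.exp ((2 * (k:ℝ) + 2 - (ρ - η)) * x) := by
          apply setIntegral_congr_fun measurableSet_Iic
          intro x hx
          have hx0 : x ≤ 0 := hx
          have h3 : Real.exp (x - Real.log ‖(a:ℂ)‖) ≤ 1 / 2 := by
            rw [Real.exp_sub, Real.exp_log hapos, div_le_iff₀ hapos]
            have := Real.exp_le_one_iff.mpr hx0
            linarith
          simp only [kap, if_pos h3]
          rw [← Real.exp_nat_mul, Real.rpow_def_of_pos hapos, mul_assoc, mul_assoc, ← Real.exp_add,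
            ← Real.exp_add]
          congr 2
          push_cast
          ring
        rw [e1, integral_const_mul, integral_exp_mul_Iic hgap]
        simp
        ring
      rw [norm_mul, Real.norm_eq_abs, Real.norm_eq_abs, Nat.abs_cast, abs_of_nonneg (hJ0 a), hJa]
      apply le_of_eq
      ring
  -- the key inequality
  set C₁ : ℝ := Cq / (ρ - η - (2 * k + 1)) + ∑' a : Z, (mu f a : ℝ) * J a with hC₁
  have hWsum : ∀ X : ℝ, Summable (fun a : Z => (mu f a : ℝ) * B6_W ρ η X (Real.log ‖(a:ℂ)‖)) := by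
    intro X
    apply Summable.of_nonneg_of_le (g := fun a : Z => (mu f a : ℝ) * B6_W ρ η X (Real.log ‖(a:ℂ)‖))
      (f := fun a : Z => Real.exp (2 * η * X) * ((mu f a : ℝ) * ‖(a:ℂ)‖ ^ (-(ρ + η))))
    · intro a
      exact mul_nonneg (Nat.cast_nonneg _) (B6_W_pos _ _ _ _).le
    · intro a
      have hapos : 0 < ‖(a:ℂ)‖ := norm_pos_iff.mpr (hZne a)
      have h3 : B6_W ρ η X (Real.log ‖(a:ℂ)‖) ≤ Real.exp (2 * η * X) * ‖(a:ℂ)‖ ^ (-(ρ + η)) := by
        unfold B6_W
        rw [Real.rpow_def_of_pos hapos, ← Real.exp_add]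
        apply Real.exp_le_exp.mpr
        have := B6_phi_le' η X (Real.log ‖(a:ℂ)‖)
        linarith
      calc (mu f a : ℝ) * B6_W ρ η X (Real.log ‖(a:ℂ)‖)
          ≤ (mu f a : ℝ) * (Real.exp (2 * η * X) * ‖(a:ℂ)‖ ^ (-(ρ + η))) := by gcongr
        _ = _ := by ring
    · exact (hsubs _ hsum1).mul_left _
  have hnormsum : ∀ X : ℝ, Summable (fun a : Z => (mu f a : ℝ) *
      ∫ x : ℝ, |Kf k (-(Real.exp x : ℂ) / a) * B6_W ρ η X x|) := by
    intro X
    apply Summable.of_nonneg_of_le (f := fun a : Z =>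
      I₀ * ((mu f a : ℝ) * B6_W ρ η X (Real.log ‖(a:ℂ)‖)))
    · intro a
      exact mul_nonneg (Nat.cast_nonneg _) (integral_nonneg (fun x => abs_nonneg _))
    · intro a
      have h3 := (B6_int (X := X) hη0 hη3 hη4 (hZne a)).2
      calc (mu f a : ℝ) * ∫ x : ℝ, |Kf k (-(Real.exp x : ℂ) / a) * B6_W ρ η X x|
          ≤ (mu f a : ℝ) * (B6_W ρ η X (Real.log ‖(a:ℂ)‖) * I₀) := by gcongr
        _ = _ := by ring
    · exact (hWsum X).mul_left _
  have hsetle : ∀ (X : ℝ) (s : Set ℝ) (a : Z),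
      ∫ x in s, |Kf k (-(Real.exp x : ℂ) / a) * B6_W ρ η X x| ≤
      ∫ x : ℝ, |Kf k (-(Real.exp x : ℂ) / a) * B6_W ρ η X x| := by
    intro X s a
    exact setIntegral_le_integral (B6_int (X := X) hη0 hη3 hη4 (hZne a)).1.abs
      (Eventually.of_forall (fun x => abs_nonneg _))
  have hsets : ∀ (X : ℝ) (s : Set ℝ), Summable (fun a : Z => (mu f a : ℝ) *
      ∫ x in s, Kf k (-(Real.exp x : ℂ) / a) * B6_W ρ η X x) := by
    intro X s
    apply Summable.of_norm_bounded (hnormsum X)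
    intro a
    rw [norm_mul, Real.norm_eq_abs, Nat.abs_cast]
    apply mul_le_mul_of_nonneg_left _ (Nat.cast_nonneg _)
    exact (norm_integral_le_integral_norm _).trans (hsetle X s a)
  have hae : ∀ᵐ x : ℝ, f (Real.exp x) ≠ 0 ∧ f (-(Real.exp x : ℂ)) ≠ 0 := by
    have i1 : Function.Injective (fun x : ℝ => (Real.exp x : ℂ)) :=
      Complex.ofReal_injective.comp Real.exp_injective
    have i2 : Function.Injective (fun x : ℝ => -(Real.exp x : ℂ)) := neg_injective.comp i1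
    have c1 := (hcount.preimage_of_injOn (f := fun x : ℝ => (Real.exp x : ℂ)) i1.injOn).ae_notMem volume
    have c2 := (hcount.preimage_of_injOn (f := fun x : ℝ => -(Real.exp x : ℂ)) i2.injOn).ae_notMem volume
    filter_upwards [c1, c2] with x hx1 hx2
    exact ⟨hx1, hx2⟩
  have hgap2 : 0 < ρ - η - (2 * (k:ℝ) + 1) := by linarith
  have hlow : ∀ X : ℝ, 0 ≤ X → -C₁ ≤ ∑' a : Z, (mu f a : ℝ) *
      ∫ x : ℝ, Kf k (-(Real.exp x : ℂ) / a) * B6_W ρ η X x := by
    intro X _
    have e1 : ∀ a : Z, (mu f a : ℝ) * ∫ x : ℝ, Kf k (-(Real.exp x : ℂ) / a) * B6_W ρ η X x =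
        (mu f a : ℝ) * (∫ x in Set.Iic (0:ℝ), Kf k (-(Real.exp x : ℂ) / a) * B6_W ρ η X x) +
        (mu f a : ℝ) * ∫ x in Set.Ioi (0:ℝ), Kf k (-(Real.exp x : ℂ) / a) * B6_W ρ η X x := by
      intro a
      rw [← mul_add]
      congr 1
      have hint := (B6_int (X := X) hη0 hη3 hη4 (hZne a)).1
      exact (intervalIntegral.integral_Iic_add_Ioi hint.integrableOn hint.integrableOn).symm
    rw [tsum_congr e1, (hsets X _).tsum_add (hsets X _)]
    have p1 : -(∑' a : Z, (mu f a : ℝ) * J a) ≤ ∑' a : Z, (mu f a : ℝ) *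
        (∫ x in Set.Iic (0:ℝ), Kf k (-(Real.exp x : ℂ) / a) * B6_W ρ η X x) := by
      rw [← tsum_neg]
      apply Summable.tsum_le_tsum _ hJsum.neg (hsets X _)
      intro a
      rw [← mul_neg]
      apply mul_le_mul_of_nonneg_left _ (Nat.cast_nonneg _)
      rw [neg_le]
      refine (neg_le_abs _).trans ?_
      rw [← Real.norm_eq_abs]
      refine (norm_integral_le_integral_norm _).trans ?_
      apply integral_mono_ae
      · exact ((B6_int (X := X) hη0 hη3 hη4 (hZne a)).1.norm).integrableOn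
      · exact (hVint a).integrableOn
      · filter_upwards [ae_restrict_of_ae (B6_ae_ne (Real.log ‖(a:ℂ)‖))] with x hx
        have h3 : ‖-(Real.exp x : ℂ) / a‖ ≠ 1 := by
          rw [B6_norm_div (hZne a), ← Real.exp_zero]
          intro h
          exact hx (by linarith [Real.exp_injective h])
        have h4 := abs_Kf_le k h3
        rw [B6_norm_div (hZne a)] at h4
        have h5 : B6_W ρ η X x ≤ Real.exp (-(ρ - η) * x) := by
          unfold B6_W
          apply Real.exp_le_exp.mpr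
          have := B6_phi_le η X x
          linarith
        rw [norm_mul, Real.norm_eq_abs, Real.norm_eq_abs, abs_of_pos (B6_W_pos _ _ _ _)]
        exact mul_le_mul h4 h5 (B6_W_pos _ _ _ _).le (kap_nonneg k (Real.exp_pos _).le)
    have p2 : -(Cq / (ρ - η - (2 * k + 1))) ≤ ∑' a : Z, (mu f a : ℝ) *
        (∫ x in Set.Ioi (0:ℝ), Kf k (-(Real.exp x : ℂ) / a) * B6_W ρ η X x) := by
      have hF := hasSum_integral_of_summable_integral_norm (μ := volume.restrict (Set.Ioi (0:ℝ)))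
        (F := fun (a : Z) (x : ℝ) => (mu f a : ℝ) *
          (Kf k (-(Real.exp x : ℂ) / a) * B6_W ρ η X x))
        (fun a => ((B6_int (X := X) hη0 hη3 hη4 (hZne a)).1.const_mul _).integrableOn)
        (by
          apply Summable.of_nonneg_of_le _ _ (hnormsum X)
          · intro a
            exact integral_nonneg (fun x => norm_nonneg _)
          · intro a
            have : ∀ x : ℝ, ‖(mu f a : ℝ) * (Kf k (-(Real.exp x : ℂ) / a) * B6_W ρ η X x)‖ =
                (mu f a : ℝ) * |Kf k (-(Real.exp x : ℂ) / a) * B6_W ρ η X x| := by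
              intro x
              rw [norm_mul, Real.norm_eq_abs, Nat.abs_cast, Real.norm_eq_abs]
            simp only [this]
            rw [integral_const_mul]
            exact mul_le_mul_of_nonneg_left (hsetle X _ a) (Nat.cast_nonneg _))
      have e2 : ∑' a : Z, (mu f a : ℝ) *
          (∫ x in Set.Ioi (0:ℝ), Kf k (-(Real.exp x : ℂ) / a) * B6_W ρ η X x) =
          ∫ x in Set.Ioi (0:ℝ), T x * B6_W ρ η X x := by
        have := hF.tsum_eq
        simp only [integral_const_mul] at this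
        rw [this]
        apply integral_congr_ae
        apply Eventually.of_forall
        intro x
        simp only [hT]
        rw [← tsum_mul_right]
        apply tsum_congr
        intro a
        ring
      rw [e2]
      by_cases hint : IntegrableOn (fun x => T x * B6_W ρ η X x) (Set.Ioi 0)
      · have hexp : IntegrableOn (fun x : ℝ => Real.exp (-(ρ - η - (2 * (k:ℝ) + 1)) * x))
            (Set.Ioi 0) := exp_neg_integrableOn_Ioi 0 hgap2
        have hval : ∫ x in Set.Ioi (0:ℝ), -(Cq * Real.exp (-(ρ - η - (2 * (k:ℝ) + 1)) * x)) =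
            -(Cq / (ρ - η - (2 * k + 1))) := by
          rw [integral_neg, integral_const_mul, integral_exp_mul_Ioi (by linarith), mul_zero,
            Real.exp_zero]
          have hne : ρ - η - (2 * (k:ℝ) + 1) ≠ 0 := hgap2.ne'
          rw [neg_div_neg_eq, mul_one_div]
        rw [← hval]
        apply integral_mono_ae (hexp.const_mul Cq).neg hint
        filter_upwards [ae_restrict_of_ae hae, ae_restrict_mem measurableSet_Ioi] with x hx hx0
        have hx0' : (0:ℝ) ≤ x := le_of_lt hx0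
        have h3 := hTlow x hx0' hx.1 hx.2
        have h4 : B6_W ρ η X x ≤ Real.exp (-(ρ - η) * x) := by
          unfold B6_W
          apply Real.exp_le_exp.mpr
          have := B6_phi_le η X x
          linarith
        have h5 : Real.exp (-(ρ - η - (2 * (k:ℝ) + 1)) * x) =
            Real.exp ((2 * k + 1) * x) * Real.exp (-(ρ - η) * x) := by
          rw [← Real.exp_add]; congr 1; ring
        show -(Cq * Real.exp (-(ρ - η - (2 * (k:ℝ) + 1)) * x)) ≤ T x * B6_W ρ η X x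
        rw [h5]
        have h6 := B6_W_pos ρ η X x
        have h7 : 0 ≤ Cq * Real.exp ((2 * k + 1) * x) := by positivity
        have h8 : -(Cq * Real.exp ((2 * k + 1) * x)) * B6_W ρ η X x ≤ T x * B6_W ρ η X x :=
          mul_le_mul_of_nonneg_right h3 h6.le
        have h9 : Cq * Real.exp ((2 * k + 1) * x) * B6_W ρ η X x ≤
            Cq * Real.exp ((2 * k + 1) * x) * Real.exp (-(ρ - η) * x) :=
          mul_le_mul_of_nonneg_left h4 h7
        linarith
      · rw [integral_undef hint]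
        have : 0 ≤ Cq / (ρ - η - (2 * (k:ℝ) + 1)) := by positivity
        linarith
    rw [hC₁]
    linarith
  -- upper bound
  have hfinS : {a : Z | |Complex.arg (a:ℂ)| < D'}.Finite := by
    apply Set.Finite.of_finite_image (f := Subtype.val) _ Subtype.val_injective.injOn
    apply hz.subset
    rintro x ⟨a, ha, rfl⟩
    exact ⟨a.2, lt_of_lt_of_le ha hD'3⟩
  classical
  set e : Z → ℝ := fun a => if |Complex.arg (a:ℂ)| < D' then
    (c + I₀) * ((mu f a : ℝ) * ‖(a:ℂ)‖ ^ (-(ρ - η))) else 0 with he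
  have hesum : Summable e := by
    apply summable_of_hasFiniteSupport
    apply hfinS.subset
    intro a ha
    by_contra hcon
    apply ha
    have hcon' : ¬ |Complex.arg (a:ℂ)| < D' := hcon
    simp only [he]
    rw [if_neg hcon']
  have hWle : ∀ (X : ℝ) (a : Z), B6_W ρ η X (Real.log ‖(a:ℂ)‖) ≤ ‖(a:ℂ)‖ ^ (-(ρ - η)) := by
    intro X a
    have hapos : 0 < ‖(a:ℂ)‖ := norm_pos_iff.mpr (hZne a)
    unfold B6_W
    rw [Real.rpow_def_of_pos hapos]
    apply Real.exp_le_exp.mpr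
    have := B6_phi_le η X (Real.log ‖(a:ℂ)‖)
    linarith
  have hup : ∀ X : ℝ, 0 ≤ X →
      c * ∑' a : Z, (mu f a : ℝ) * B6_W ρ η X (Real.log ‖(a:ℂ)‖) ≤ C₁ + ∑' a, e a := by
    intro X hX
    have h3 := hlow X hX
    have h4 : ∑' a : Z, (mu f a : ℝ) * ∫ x : ℝ, Kf k (-(Real.exp x : ℂ) / a) * B6_W ρ η X x ≤
        ∑' a : Z, (-(c * ((mu f a : ℝ) * B6_W ρ η X (Real.log ‖(a:ℂ)‖))) + e a) := by
      apply Summable.tsum_le_tsum
      · intro a
        by_cases ha : |Complex.arg (a:ℂ)| < D'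
        · simp only [he, if_pos ha]
          have h5 := (B6_int (X := X) hη0 hη3 hη4 (hZne a)).2
          have h6 : ∫ x : ℝ, Kf k (-(Real.exp x : ℂ) / a) * B6_W ρ η X x ≤
              B6_W ρ η X (Real.log ‖(a:ℂ)‖) * I₀ := by
            refine le_trans ?_ h5
            refine (le_abs_self _).trans ?_
            rw [← Real.norm_eq_abs]
            exact norm_integral_le_integral_norm _
          have h7 := hWle X a
          have h8 : (0:ℝ) ≤ mu f a := Nat.cast_nonneg _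
          have h9 : (mu f a : ℝ) * ∫ x : ℝ, Kf k (-(Real.exp x : ℂ) / a) * B6_W ρ η X x ≤
              (mu f a : ℝ) * (B6_W ρ η X (Real.log ‖(a:ℂ)‖) * I₀) :=
            mul_le_mul_of_nonneg_left h6 h8
          have h10 : (c + I₀) * ((mu f a : ℝ) * B6_W ρ η X (Real.log ‖(a:ℂ)‖)) ≤
              (c + I₀) * ((mu f a : ℝ) * ‖(a:ℂ)‖ ^ (-(ρ - η))) := by
            gcongr
          linarith
        · simp only [he, if_neg ha]
          have h5 := B6_neg hη0 hker (X := X) (hZne a) (by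
            rw [hΨ]; push Not at ha; linarith)
          have h8 : (0:ℝ) ≤ mu f a := Nat.cast_nonneg _
          have h9 := mul_le_mul_of_nonneg_left h5 h8
          linarith
      · have := hsets X Set.univ
        simpa using this
      · exact (((hWsum X).mul_left c).neg).add hesum
    rw [(((hWsum X).mul_left c).neg).tsum_add hesum, tsum_neg, tsum_mul_left] at h4
    linarith
  have hfinal : Summable (fun a : Z => (mu f a : ℝ) * ‖(a:ℂ)‖ ^ (-(ρ - η))) := by
    apply summable_of_sum_le (c := (C₁ + ∑' a, e a) / c)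
    · intro a
      positivity
    · intro F
      obtain ⟨X, hX⟩ : ∃ X : ℝ, ∀ a ∈ F, Real.log ‖(a:ℂ)‖ ≤ X := by
        obtain ⟨X, hX⟩ := (F.image (fun a : Z => Real.log ‖(a:ℂ)‖)).bddAbove
        exact ⟨X, fun a ha => hX (by
          rw [Finset.coe_image]; exact ⟨a, ha, rfl⟩)⟩
      set X' : ℝ := max X 0 with hX'
      have h3 := hup X' (le_max_right _ _)
      rw [le_div_iff₀ hcpos]
      have h4 : ∑ a ∈ F, (mu f a : ℝ) * ‖(a:ℂ)‖ ^ (-(ρ - η)) =
          ∑ a ∈ F, (mu f a : ℝ) * B6_W ρ η X' (Real.log ‖(a:ℂ)‖) := by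
        apply Finset.sum_congr rfl
        intro a ha
        have hapos : 0 < ‖(a:ℂ)‖ := norm_pos_iff.mpr (hZne a)
        unfold B6_W
        rw [B6_phi_eq hη0 ((hX a ha).trans (le_max_left _ _)), Real.rpow_def_of_pos hapos]
        congr 2
        ring
      have h5 : ∑ a ∈ F, (mu f a : ℝ) * B6_W ρ η X' (Real.log ‖(a:ℂ)‖) ≤
          ∑' a : Z, (mu f a : ℝ) * B6_W ρ η X' (Real.log ‖(a:ℂ)‖) :=
        (hWsum X').sum_le_tsum F (fun a _ => mul_nonneg (Nat.cast_nonneg _) (B6_W_pos _ _ _ _).le)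
      rw [h4]
      nlinarith
  -- conclusion
  refine ⟨ρ - η, hη3, by linarith, ?_⟩
  apply gr_of_summable hf h0 hσ0 (p := 2 * k + 1) (by omega) hp hGr (by push_cast; linarith)
    (by push_cast; linarith)
  have hinj : Function.Injective (Subtype.val : Z → ℂ) := Subtype.val_injective
  exact (hinj.summable_iff (f := fun a : ℂ => (mu f a : ℝ) * ‖a‖ ^ (-(ρ - η))) (by
    intro a ha
    have : f a ≠ 0 := fun h => ha ⟨⟨a, h⟩, rfl⟩
    rw [mu_eq_zero hf this]; simp)).mp hfinal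

end Pool.Agent.helper38.UB
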