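import Pool.Agent.helper38.UB.Defs

set_option autoImplicit false

namespace Pool.Agent.helper38.UB

open Filter Topology MeasureTheory
open Pool.Agent.helper38.NNF Pool.Agent.helper38.LacA
open scoped ComplexConjugate ComplexOrder

/-! C1 (order 2: bounded ratio in the right half plane) -/

theorem C1_lower {f : ℂ → ℂ} (hN : NN f) {b s₀ : ℝ} (hb : Real.pi / 2 < b) (hbpi : b ≤ Real.pi)
    (hzf : ∀ w : ℂ, s₀ < w.re → |w.im| < b → f (Complex.exp w) ≠ 0)
    (hone : ∀ᶠ r : ℝ in atTop, 1 ≤ val f r) {c : ℝ} (hc : 2 < c)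
    (hgr : ∀ᶠ s : ℝ in atTop, Real.log (VV f s) ≤ Real.exp (c * s)) {s₁ : ℝ} (hs₁ : s₀ < s₁) :
    ∃ B : ℝ, 0 < B ∧ (∀ w : ℂ, s₁ ≤ w.re → |w.im| ≤ Real.pi / 2 →
      Real.exp (-(B * Real.exp (c * w.re))) ≤ ‖FF f w‖) ∧
      (∀ s : ℝ, s₁ ≤ s → VV f s ≤ Real.exp (B * Real.exp (c * s))) := by
  have hc0 : 0 < c := by linarith
  have hone' : ∀ᶠ s : ℝ in atTop, 1 ≤ VV f s := Real.tendsto_exp_atTop.eventually hone
  obtain ⟨S, hS⟩ := Filter.eventually_atTop.mp (hone'.and hgr)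
  set sc : ℝ := max S s₀ with hsc
  have hH : Hyp f sc b c :=
    { nn := hN
      one_le := fun s hs => (hS s ((le_max_left _ _).trans hs)).1
      bpos := by linarith [Real.pi_pos]
      bpi := hbpi
      cpos := hc0
      zf := fun w h1 h2 => hzf w (lt_of_le_of_lt (le_max_right _ _) h1) h2
      grow := fun s hs => (hS s ((le_max_left _ _).trans hs)).2 }
  obtain ⟨B₁, hB₁, hlow⟩ := hH.lower hb
  -- compact part
  have hKc : IsCompact (Set.Icc s₁ (sc + b) ×ℂ Set.Icc (-(Real.pi / 2)) (Real.pi / 2)) :=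
    isCompact_Icc.reProdIm isCompact_Icc
  obtain ⟨m, hm0, hm⟩ := hKc.exists_forall_le' (f := fun w => ‖FF f w‖) (a := 0)
    ((FF_differentiable hN).continuous.norm.continuousOn) (by
      intro w hw
      rw [Complex.mem_reProdIm] at hw
      refine norm_pos_iff.mpr (hzf w (lt_of_lt_of_le hs₁ hw.1.1) ?_)
      exact lt_of_le_of_lt (abs_le.mpr ⟨hw.2.1, hw.2.2⟩) hb)
  set V : ℝ := VV f sc with hV
  have hV1 : 1 ≤ V := hH.one_le sc le_rfl
  set u : ℝ := Real.exp (c * s₁) with hu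
  have hu0 : 0 < u := Real.exp_pos _
  have hmono : ∀ x : ℝ, s₁ ≤ x → u ≤ Real.exp (c * x) := fun x hx =>
    Real.exp_le_exp.mpr (mul_le_mul_of_nonneg_left hx hc0.le)
  refine ⟨B₁ + |Real.log m| / u + 1 + |Real.log V| / u, by positivity, ?_, ?_⟩
  · intro w hw1 hw2
    have hx := hmono w.re hw1
    rcases le_or_gt (sc + b) w.re with h | h
    · refine le_trans (Real.exp_le_exp.mpr (neg_le_neg ?_)) (hlow w h hw2)
      refine mul_le_mul_of_nonneg_right ?_ (Real.exp_pos _).le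
      have h1 : 0 ≤ |Real.log m| / u := by positivity
      have h2 : 0 ≤ |Real.log V| / u := by positivity
      linarith
    · have hmw := hm w (by
        rw [Complex.mem_reProdIm]
        exact ⟨⟨hw1, h.le⟩, abs_le.mp hw2⟩)
      refine le_trans ?_ hmw
      rw [← Real.le_log_iff_exp_le hm0]
      have h1 : |Real.log m| ≤ |Real.log m| / u * Real.exp (c * w.re) := by
        rw [div_mul_eq_mul_div, le_div_iff₀ hu0]
        exact mul_le_mul_of_nonneg_left hx (abs_nonneg _)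
      have h2 : 0 ≤ (B₁ + 1 + |Real.log V| / u) * Real.exp (c * w.re) := by positivity
      have h3 := neg_abs_le (Real.log m)
      nlinarith
  · intro s hs
    have hx := hmono s hs
    rcases le_or_gt sc s with h | h
    · have h1 := hH.one_le s h
      have h2 := hH.grow s h
      rw [← Real.log_le_iff_le_exp (by linarith)]
      refine h2.trans ?_
      refine le_mul_of_one_le_left (Real.exp_pos _).le ?_
      have h3 : 0 ≤ |Real.log m| / u := by positivity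
      have h4 : 0 ≤ |Real.log V| / u := by positivity
      linarith
    · have h1 : VV f s ≤ V := VV_mono hN h.le
      refine h1.trans ?_
      rw [← Real.log_le_iff_le_exp (by linarith)]
      have h2 : |Real.log V| ≤ |Real.log V| / u * Real.exp (c * s) := by
        rw [div_mul_eq_mul_div, le_div_iff₀ hu0]
        exact mul_le_mul_of_nonneg_left hx (abs_nonneg _)
      have h3 : 0 ≤ (B₁ + |Real.log m| / u + 1) * Real.exp (c * s) := by positivity
      have h4 := le_abs_self (Real.log V)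
      nlinarith

theorem C1_strip {f : ℂ → ℂ} (hN : NN f) {b s₀ : ℝ} (hb : Real.pi / 2 < b) (hbpi : b ≤ Real.pi)
    (hzf : ∀ w : ℂ, s₀ < w.re → |w.im| < b → f (Complex.exp w) ≠ 0)
    (hone : ∀ᶠ r : ℝ in atTop, 1 ≤ val f r)
    (hgr : ∀ c : ℝ, 2 < c → ∀ᶠ s : ℝ in atTop, Real.log (VV f s) ≤ Real.exp (c * s))
    {s₁ : ℝ} (hs₁ : s₀ < s₁) : ∃ C : ℝ, 0 < C ∧ ∀ ψ : ℝ, 0 < ψ → ψ < Real.pi / 2 →
      ∀ w : ℂ, s₁ ≤ w.re → 0 ≤ w.im → w.im ≤ ψ →
        ‖FF f (w + ψ * Complex.I)‖ ≤ C * ‖FF f (w - ψ * Complex.I)‖ := by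
  have hpi := Real.pi_pos
  have hKc : IsCompact (Set.Icc s₁ s₁ ×ℂ Set.Icc (-(Real.pi / 2)) (Real.pi / 2)) :=
    isCompact_Icc.reProdIm isCompact_Icc
  obtain ⟨m, hm0, hm⟩ := hKc.exists_forall_le' (f := fun w => ‖FF f w‖) (a := 0)
    ((FF_differentiable hN).continuous.norm.continuousOn) (by
      intro w hw
      rw [Complex.mem_reProdIm] at hw
      refine norm_pos_iff.mpr (hzf w (lt_of_lt_of_le hs₁ hw.1.1) ?_)
      exact lt_of_le_of_lt (abs_le.mpr ⟨hw.2.1, hw.2.2⟩) hb)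
  have hVn : 0 ≤ VV f s₁ := (norm_nonneg _).trans (norm_FF_le hN (s₁ : ℂ))
  set C : ℝ := VV f s₁ / m + 1 with hC
  have hC0 : 0 < C := by positivity
  have hC1 : 1 ≤ C := by
    have : 0 ≤ VV f s₁ / m := by positivity
    linarith
  refine ⟨C, hC0, ?_⟩
  intro ψ hψ hψ2
  -- the exponent
  obtain ⟨c, hc2, hcψ⟩ : ∃ c : ℝ, 2 < c ∧ c * ψ < Real.pi := by
    have h1 : 2 < Real.pi / ψ := by rw [lt_div_iff₀ hψ]; linarith
    refine ⟨(2 + Real.pi / ψ) / 2, by linarith, ?_⟩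
    have h2 : (2 + Real.pi / ψ) / 2 * ψ = (2 * ψ + Real.pi) / 2 := by field_simp
    rw [h2]; linarith
  obtain ⟨B, hB0, hlow, hup⟩ := C1_lower hN hb hbpi hzf hone hc2 (hgr c hc2) hs₁
  set G : ℂ → ℂ := fun w => FF f (w + ψ * Complex.I) / FF f (w - ψ * Complex.I) / C with hG
  have hp : ∀ w : ℂ, (w + ψ * Complex.I).re = w.re ∧ (w + ψ * Complex.I).im = w.im + ψ := by
    intro w; constructor <;> simp
  have hmi : ∀ w : ℂ, (w - ψ * Complex.I).re = w.re ∧ (w - ψ * Complex.I).im = w.im - ψ := by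
    intro w; constructor <;> simp
  have hin : ∀ w : ℂ, 0 ≤ w.im → w.im ≤ ψ → |(w - ψ * Complex.I).im| ≤ Real.pi / 2 := by
    intro w h1 h2
    rw [(hmi w).2, abs_le]
    constructor <;> linarith
  have hne : ∀ w : ℂ, s₁ ≤ w.re → 0 ≤ w.im → w.im ≤ ψ → FF f (w - ψ * Complex.I) ≠ 0 := by
    intro w h1 h2 h3
    refine hzf _ (by rw [(hmi w).1]; linarith) ?_
    exact lt_of_le_of_lt (hin w h2 h3) hb
  have hnorm : ∀ w : ℂ, ‖G w‖ = ‖FF f (w + ψ * Complex.I)‖ / ‖FF f (w - ψ * Complex.I)‖ / C := by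
    intro w
    simp only [hG]
    rw [norm_div, norm_div, Complex.norm_real, Real.norm_eq_abs, abs_of_pos hC0]
  have hone1 : ∀ w : ℂ, ‖FF f (w + ψ * Complex.I)‖ / ‖FF f (w - ψ * Complex.I)‖ ≤ 1 →
      ‖G w‖ ≤ 1 := by
    intro w h
    rw [hnorm, div_le_one hC0]
    linarith
  have hmain : ∀ w : ℂ, s₁ ≤ w.re → 0 ≤ w.im → w.im ≤ ψ → ‖G w‖ ≤ 1 := by
    intro w hw1 hw2 hw3
    refine half_strip (G := G) (s₁ := s₁) (ψ := ψ) (c := c) (B := 2 * B) hψ (by linarith) hcψ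
      ?_ ?_ ?_ ?_ ?_ hw1 hw2 hw3
    · intro z h1 h2 h3
      have hF := FF_differentiable hN
      have h4 : DifferentiableAt ℂ (fun w => FF f (w + ψ * Complex.I)) z :=
        (hF.comp (differentiable_id.add_const _)) z
      have h5 : DifferentiableAt ℂ (fun w => FF f (w - ψ * Complex.I)) z :=
        (hF.comp (differentiable_id.sub_const _)) z
      exact (h4.div h5 (hne z h1 h2 h3)).div_const _
    · -- left side
      intro z h1 h2 h3
      rw [hnorm, div_le_one hC0]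
      have e1 : ‖FF f (z + ψ * Complex.I)‖ ≤ VV f s₁ := by
        have := norm_FF_le hN (z + ψ * Complex.I)
        rwa [(hp z).1, h1] at this
      have e2 : m ≤ ‖FF f (z - ψ * Complex.I)‖ := by
        refine hm _ ?_
        rw [Complex.mem_reProdIm]
        refine ⟨?_, abs_le.mp (hin z h2 h3)⟩
        rw [(hmi z).1, h1]
        exact ⟨le_rfl, le_rfl⟩
      have e3 : ‖FF f (z + ψ * Complex.I)‖ / ‖FF f (z - ψ * Complex.I)‖ ≤ VV f s₁ / m :=
        div_le_div₀ hVn e1 hm0 e2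
      linarith
    · -- bottom
      intro z h1 h2
      apply hone1
      have hz : z - ψ * Complex.I = conj (z + ψ * Complex.I) := by
        apply Complex.ext
        · simp
        · simp [h2]
      rw [hz, FF_conj hN, Complex.norm_conj]
      exact div_self_le_one _
    · -- top
      intro z h1 h2
      apply hone1
      have hz : z - ψ * Complex.I = ((z.re : ℝ) : ℂ) := by
        apply Complex.ext
        · simp
        · simp [h2]
      have hzne : FF f (z - ψ * Complex.I) ≠ 0 := hne z h1 (by rw [h2]; exact hψ.le) h2.le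
      have hpos : 0 < ‖FF f (z - ψ * Complex.I)‖ := norm_pos_iff.mpr hzne
      rw [div_le_one hpos]
      have e1 := norm_FF_le hN (z + ψ * Complex.I)
      rw [(hp z).1] at e1
      refine e1.trans ?_
      rw [hz, FF_real hN, Complex.norm_real]
      exact le_abs_self _
    · -- growth
      intro z h1 h2 h3
      have e1 : ‖FF f (z + ψ * Complex.I)‖ ≤ Real.exp (B * Real.exp (c * z.re)) := by
        have e0 := norm_FF_le hN (z + ψ * Complex.I)
        rw [(hp z).1] at e0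
        exact e0.trans (hup _ h1)
      have e2 := hlow (z - ψ * Complex.I) (by rw [(hmi z).1]; exact h1) (hin z h2 h3)
      rw [(hmi z).1] at e2
      have hpos : 0 < ‖FF f (z - ψ * Complex.I)‖ := lt_of_lt_of_le (Real.exp_pos _) e2
      rw [hnorm]
      have e3 : ‖FF f (z + ψ * Complex.I)‖ / ‖FF f (z - ψ * Complex.I)‖
          ≤ Real.exp (2 * B * Real.exp (c * z.re)) := by
        rw [div_le_iff₀ hpos]
        calc ‖FF f (z + ψ * Complex.I)‖ ≤ Real.exp (B * Real.exp (c * z.re)) := e1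
          _ = Real.exp (2 * B * Real.exp (c * z.re)) * Real.exp (-(B * Real.exp (c * z.re))) := by
              rw [← Real.exp_add]; congr 1; ring
          _ ≤ _ := mul_le_mul_of_nonneg_left e2 (Real.exp_pos _).le
      exact (div_le_self (div_nonneg (norm_nonneg _) (norm_nonneg _)) hC1).trans e3
  intro w hw1 hw2 hw3
  have h := hmain w hw1 hw2 hw3
  have hpos : 0 < ‖FF f (w - ψ * Complex.I)‖ := norm_pos_iff.mpr (hne w hw1 hw2 hw3)
  rw [hnorm, div_le_one hC0, div_le_iff₀ hpos] at h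
  exact h

/-- the bound in the closed first quadrant -/
theorem C1_quadrant {f : ℂ → ℂ} (hN : NN f) {b s₀ : ℝ} (hb : Real.pi / 2 < b) (hbpi : b ≤ Real.pi)
    (hzf : ∀ w : ℂ, s₀ < w.re → |w.im| < b → f (Complex.exp w) ≠ 0)
    (hone : ∀ᶠ r : ℝ in atTop, 1 ≤ val f r)
    (hgr : ∀ c : ℝ, 2 < c → ∀ᶠ s : ℝ in atTop, Real.log (VV f s) ≤ Real.exp (c * s))
    {s₁ : ℝ} (hs₁ : s₀ < s₁) : ∃ C : ℝ, 0 < C ∧ ∀ x θ : ℝ, s₁ ≤ x → 0 ≤ θ → θ ≤ Real.pi / 2 →
      ‖f (-Complex.exp (x + θ * Complex.I))‖ ≤ C * ‖f (Complex.exp (x + θ * Complex.I))‖ := by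
  obtain ⟨C, hC, h⟩ := C1_strip hN hb hbpi hzf hone hgr hs₁
  refine ⟨C, hC, fun x θ hx hθ0 hθ1 => ?_⟩
  have hpi := Real.pi_pos
  set t : ℝ := 1 - 2 * θ / Real.pi with ht
  have ht0 : 0 ≤ t := by
    have : 2 * θ / Real.pi ≤ 1 := by rw [div_le_one hpi]; linarith
    linarith
  have ht1 : t ≤ 1 := by
    have : 0 ≤ 2 * θ / Real.pi := by positivity
    linarith
  have hcont : Continuous (FF f) := (FF_differentiable hN).continuous
  have hev : ∀ᶠ ψ : ℝ in 𝓝[<] (Real.pi / 2),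
      ‖FF f ((x : ℂ) + ((ψ * t : ℝ) : ℂ) * Complex.I + ψ * Complex.I)‖
        ≤ C * ‖FF f ((x : ℂ) + ((ψ * t : ℝ) : ℂ) * Complex.I - ψ * Complex.I)‖ := by
    have h1 : ∀ᶠ ψ : ℝ in 𝓝[<] (Real.pi / 2), 0 < ψ :=
      (eventually_gt_nhds (show (0 : ℝ) < Real.pi / 2 by linarith)).filter_mono
        nhdsWithin_le_nhds
    filter_upwards [h1, self_mem_nhdsWithin] with ψ h2 h3
    refine h ψ h2 h3 _ (by simpa using hx) ?_ ?_
    · simp only [Complex.add_im, Complex.ofReal_im, Complex.mul_im, Complex.ofReal_re,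
        Complex.I_im, Complex.I_re, mul_one, mul_zero, zero_add, add_zero]
      positivity
    · simp only [Complex.add_im, Complex.ofReal_im, Complex.mul_im, Complex.ofReal_re,
        Complex.I_im, Complex.I_re, mul_one, mul_zero, zero_add, add_zero]
      nlinarith
  have hlim1 : Tendsto (fun ψ : ℝ =>
      ‖FF f ((x : ℂ) + ((ψ * t : ℝ) : ℂ) * Complex.I + ψ * Complex.I)‖) (𝓝[<] (Real.pi / 2))
      (𝓝 ‖FF f ((x : ℂ) + ((Real.pi / 2 * t : ℝ) : ℂ) * Complex.I
        + ((Real.pi / 2 : ℝ) : ℂ) * Complex.I)‖) := by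
    have : Continuous fun ψ : ℝ =>
        ‖FF f ((x : ℂ) + ((ψ * t : ℝ) : ℂ) * Complex.I + ψ * Complex.I)‖ := by
      refine (hcont.comp ?_).norm
      fun_prop
    exact (this.tendsto (Real.pi / 2)).mono_left nhdsWithin_le_nhds
  have hlim2 : Tendsto (fun ψ : ℝ =>
      C * ‖FF f ((x : ℂ) + ((ψ * t : ℝ) : ℂ) * Complex.I - ψ * Complex.I)‖)
      (𝓝[<] (Real.pi / 2))
      (𝓝 (C * ‖FF f ((x : ℂ) + ((Real.pi / 2 * t : ℝ) : ℂ) * Complex.I
        - ((Real.pi / 2 : ℝ) : ℂ) * Complex.I)‖)) := by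
    have : Continuous fun ψ : ℝ =>
        C * ‖FF f ((x : ℂ) + ((ψ * t : ℝ) : ℂ) * Complex.I - ψ * Complex.I)‖ := by
      refine continuous_const.mul (hcont.comp ?_).norm
      fun_prop
    exact (this.tendsto (Real.pi / 2)).mono_left nhdsWithin_le_nhds
  have hfin := le_of_tendsto_of_tendsto hlim1 hlim2 hev
  -- identification of the points
  set z : ℂ := Complex.exp (x + θ * Complex.I) with hz
  have hcz : conj z = Complex.exp (x - θ * Complex.I) := by
    rw [hz, ← Complex.exp_conj]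
    congr 1
    apply Complex.ext <;> simp
  have hpt : Real.pi / 2 * t = Real.pi / 2 - θ := by
    rw [ht]; field_simp
  have e1 : FF f ((x : ℂ) + ((Real.pi / 2 * t : ℝ) : ℂ) * Complex.I
        + ((Real.pi / 2 : ℝ) : ℂ) * Complex.I) = conj (f (-z)) := by
    rw [← conj_f hN, map_neg, hcz]
    unfold FF
    congr 1
    rw [hpt]
    have e2 : (x : ℂ) + ((Real.pi / 2 - θ : ℝ) : ℂ) * Complex.I
        + ((Real.pi / 2 : ℝ) : ℂ) * Complex.I
        = (x - θ * Complex.I) + Real.pi * Complex.I := by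
      push_cast; ring
    rw [e2, Complex.exp_add, Complex.exp_pi_mul_I]
    ring
  have e2 : FF f ((x : ℂ) + ((Real.pi / 2 * t : ℝ) : ℂ) * Complex.I
        - ((Real.pi / 2 : ℝ) : ℂ) * Complex.I) = conj (f z) := by
    rw [← conj_f hN, hcz]
    unfold FF
    congr 2
    rw [hpt]
    push_cast; ring
  rw [e1, e2, Complex.norm_conj, Complex.norm_conj] at hfin
  exact hfin

/-- for `ψ < π/2` apply `LacA.half_strip` to `f(e^{w+iψ})/(C f(e^{w-iψ}))` on `0 ≤ Im w ≤ ψ`,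
`Re w ≥ s₁` (fixed); lower bound of the denominator from `LacA.Hyp.lower`; then let `ψ → π/2`. -/
theorem ratio_bound {f : ℂ → ℂ} (hN : NN f) {b s₀ : ℝ} (hb : Real.pi / 2 < b) (hbpi : b ≤ Real.pi)
    (hzf : ∀ w : ℂ, s₀ < w.re → |w.im| < b → f (Complex.exp w) ≠ 0)
    (hone : ∀ᶠ r : ℝ in atTop, 1 ≤ val f r)
    (hgr : ∀ c : ℝ, 2 < c → ∀ᶠ s : ℝ in atTop, Real.log (VV f s) ≤ Real.exp (c * s)) :
    ∃ C R : ℝ, 0 < C ∧ 0 < R ∧ ∀ z : ℂ, R ≤ ‖z‖ → 0 ≤ z.re → ‖f (-z)‖ ≤ C * ‖f z‖ := by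
  obtain ⟨C, hC, h⟩ := C1_quadrant hN hb hbpi hzf hone hgr (show s₀ < s₀ + 1 by linarith)
  refine ⟨C, Real.exp (s₀ + 1), hC, Real.exp_pos _, ?_⟩
  have key : ∀ z : ℂ, Real.exp (s₀ + 1) ≤ ‖z‖ → 0 ≤ z.re → 0 ≤ z.im →
      ‖f (-z)‖ ≤ C * ‖f z‖ := by
    intro z h1 h2 h3
    have hz0 : 0 < ‖z‖ := lt_of_lt_of_le (Real.exp_pos _) h1
    have hx : s₀ + 1 ≤ Real.log ‖z‖ := (Real.le_log_iff_exp_le hz0).mpr h1
    have harg0 : 0 ≤ Complex.arg z := Complex.arg_nonneg_iff.mpr h3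
    have harg1 : Complex.arg z ≤ Real.pi / 2 :=
      (le_abs_self _).trans (Complex.abs_arg_le_pi_div_two_iff.mpr h2)
    have hexp : Complex.exp ((Real.log ‖z‖ : ℝ) + (Complex.arg z : ℝ) * Complex.I) = z := by
      rw [Complex.exp_add, ← Complex.ofReal_exp, Real.exp_log hz0]
      exact Complex.norm_mul_exp_arg_mul_I z
    have := h (Real.log ‖z‖) (Complex.arg z) hx harg0 harg1
    rwa [hexp] at this
  intro z h1 h2
  rcases le_total 0 z.im with h3 | h3
  · exact key z h1 h2 h3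
  · have := key (conj z) (by rwa [Complex.norm_conj]) (by simpa using h2) (by simpa using h3)
    rwa [← map_neg, conj_f hN, conj_f hN, Complex.norm_conj, Complex.norm_conj] at this

end Pool.Agent.helper38.UB
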