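import Pool.Agent.helper38.UB.A1

set_option autoImplicit false

namespace Pool.Agent.helper38.UB

open Filter Topology MeasureTheory
open Pool.Agent.helper38.NNF Pool.Agent.helper38.LacA
open scoped ComplexConjugate ComplexOrder

/-! C2 (Blaschke condition) -/

theorem C2_PT_ne {m : ℂ → ℕ} {U : Finset ℂ} {z : ℂ} (hz : z ∉ U) : PT m U z ≠ 0 := by
  unfold PT
  refine Finset.prod_ne_zero_iff.mpr fun a ha => pow_ne_zero _ ?_
  intro h
  by_cases ha0 : a = 0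
  · subst ha0
    simp at h
  · apply hz
    have : z / a = 1 := by linear_combination -h
    rw [div_eq_one_iff_eq ha0] at this
    rwa [this]

theorem C2_norm_PT (m : ℂ → ℕ) (U : Finset ℂ) (z : ℂ) :
    ‖PT m U z‖ = ∏ a ∈ U, ‖1 - z / a‖ ^ m a := by
  unfold PT
  rw [norm_prod]
  exact Finset.prod_congr rfl fun a _ => norm_pow _ _

theorem C2_ratio3 {a z : ℂ} (ha : a ≠ 0) (hz : 2 * ‖a‖ ≤ ‖z‖) :
    ‖1 - z / a‖ ≤ 3 * ‖1 - (-z) / a‖ := by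
  have ha' : 0 < ‖a‖ := norm_pos_iff.mpr ha
  have h1 : 2 ≤ ‖z / a‖ := by
    rw [norm_div, le_div_iff₀ ha']; exact hz
  have h2 : ‖1 - z / a‖ ≤ 1 + ‖z / a‖ := by
    calc ‖1 - z / a‖ ≤ ‖(1 : ℂ)‖ + ‖z / a‖ := norm_sub_le _ _
      _ = 1 + ‖z / a‖ := by simp
  have h3 : ‖z / a‖ - 1 ≤ ‖1 - (-z) / a‖ := by
    have : ‖z / a‖ - ‖(-1 : ℂ)‖ ≤ ‖z / a - (-1)‖ := norm_sub_norm_le _ _
    have e : z / a - (-1) = 1 - (-z) / a := by ring
    rw [e] at this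
    simpa using this
  linarith

theorem C2_PT_ratio {m : ℂ → ℕ} {U : Finset ℂ} (hm0 : m 0 = 0) {z : ℂ}
    (hz : ∀ a ∈ U, 2 * ‖a‖ ≤ ‖z‖) :
    ‖PT m U z‖ ≤ 3 ^ (∑ a ∈ U, m a) * ‖PT m U (-z)‖ := by
  rw [C2_norm_PT, C2_norm_PT, ← Finset.prod_pow_eq_pow_sum, ← Finset.prod_mul_distrib]
  refine Finset.prod_le_prod (fun a _ => by positivity) fun a ha => ?_
  by_cases ha0 : a = 0
  · subst ha0; simp [hm0]
  · rw [← mul_pow]
    exact pow_le_pow_left₀ (norm_nonneg _) (C2_ratio3 ha0 (hz a ha)) _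

theorem C2_blaschke_ratio {T : Finset ℂ} {m : ℂ → ℕ} {z : ℂ} (hz0 : 0 < ‖z‖)
    (hz : ∀ a ∈ T, 2 * ‖a‖ ≤ ‖z‖) :
    ‖∏ a ∈ T, ((z - conj a) / (a - z)) ^ m a‖ ≤ 3 ^ (∑ a ∈ T, m a) := by
  rw [norm_prod, ← Finset.prod_pow_eq_pow_sum]
  refine Finset.prod_le_prod (fun a _ => by positivity) fun a ha => ?_
  rw [norm_pow]
  refine pow_le_pow_left₀ (norm_nonneg _) ?_ _
  rw [norm_div]
  have h1 : ‖z - conj a‖ ≤ ‖z‖ + ‖a‖ := by
    calc ‖z - conj a‖ ≤ ‖z‖ + ‖conj a‖ := norm_sub_le _ _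
      _ = ‖z‖ + ‖a‖ := by rw [RCLike.norm_conj]
  have h2 : ‖z‖ - ‖a‖ ≤ ‖a - z‖ := by
    rw [norm_sub_rev]; exact norm_sub_norm_le _ _
  have h3 := hz a ha
  have h4 : 0 < ‖a - z‖ := by linarith [norm_nonneg a]
  rw [div_le_iff₀ h4]
  linarith [norm_nonneg a]

/-- the pointwise gain at a positive point -/
theorem C2_gain {a : ℂ} {x ε : ℝ} (hx : 0 < x) (hε : 0 < ε) (hxa : x ≤ ‖a‖)
    (ha : ε * ‖a‖ ≤ -a.re) :
    ‖1 - (-(x : ℂ)) / a‖ * Real.exp (x * ε / 2 * ‖a‖⁻¹) ≤ ‖1 - (x : ℂ) / a‖ := by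
  have hapos : 0 < ‖a‖ := lt_of_lt_of_le hx hxa
  have ha0 : a ≠ 0 := norm_pos_iff.mp hapos
  have e1 : ‖1 - (-(x : ℂ)) / a‖ = ‖a + x‖ / ‖a‖ := by
    rw [← norm_div]; congr 1; field_simp; ring
  have e2 : ‖1 - (x : ℂ) / a‖ = ‖a - x‖ / ‖a‖ := by
    rw [← norm_div]; congr 1; field_simp
  rw [e1, e2, div_mul_eq_mul_div]
  refine div_le_div_of_nonneg_right ?_ hapos.le
  have hn1 : ‖a + x‖ ^ 2 = ‖a‖ ^ 2 + 2 * x * a.re + x ^ 2 := by
    rw [← Complex.normSq_eq_norm_sq, ← Complex.normSq_eq_norm_sq, Complex.normSq_apply,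
      Complex.normSq_apply]
    simp only [Complex.add_re, Complex.ofReal_re, Complex.add_im, Complex.ofReal_im]
    ring
  have hn2 : ‖a - x‖ ^ 2 = ‖a‖ ^ 2 - 2 * x * a.re + x ^ 2 := by
    rw [← Complex.normSq_eq_norm_sq, ← Complex.normSq_eq_norm_sq, Complex.normSq_apply,
      Complex.normSq_apply]
    simp only [Complex.sub_re, Complex.ofReal_re, Complex.sub_im, Complex.ofReal_im]
    ring
  have hre : 0 < -a.re := lt_of_lt_of_le (by positivity) ha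
  have hp2 : 0 < ‖a - x‖ ^ 2 := by
    rw [hn2]; nlinarith [sq_nonneg ‖a‖, mul_pos hx hre, sq_nonneg x]
  have hle : ‖a - x‖ ≤ 2 * ‖a‖ := by
    calc ‖a - x‖ ≤ ‖a‖ + ‖(x : ℂ)‖ := norm_sub_le _ _
      _ ≤ 2 * ‖a‖ := by
        rw [Complex.norm_real, Real.norm_of_nonneg hx.le]; linarith
  have hw : x * ε * ‖a‖⁻¹ ≤ (-4 * x * a.re) / ‖a - x‖ ^ 2 := by
    rw [le_div_iff₀ hp2]
    have h4 : ‖a - x‖ ^ 2 ≤ 4 * ‖a‖ ^ 2 := by nlinarith [norm_nonneg (a - x)]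
    calc x * ε * ‖a‖⁻¹ * ‖a - x‖ ^ 2 ≤ x * ε * ‖a‖⁻¹ * (4 * ‖a‖ ^ 2) := by
          refine mul_le_mul_of_nonneg_left h4 (by positivity)
      _ = 4 * x * (ε * ‖a‖) := by field_simp
      _ ≤ 4 * x * (-a.re) := mul_le_mul_of_nonneg_left ha (by positivity)
      _ = -4 * x * a.re := by ring
  have hkey : ‖a + x‖ ^ 2 * Real.exp (x * ε * ‖a‖⁻¹) ≤ ‖a - x‖ ^ 2 := by
    have h5 : ‖a + x‖ ^ 2 = ‖a - x‖ ^ 2 * (1 - (-4 * x * a.re) / ‖a - x‖ ^ 2) := by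
      rw [mul_sub, mul_div_cancel₀ _ hp2.ne', hn1, hn2]; ring
    have h6 : 1 - (-4 * x * a.re) / ‖a - x‖ ^ 2 ≤ Real.exp (-(x * ε * ‖a‖⁻¹)) := by
      have := Real.add_one_le_exp (-(x * ε * ‖a‖⁻¹))
      linarith
    calc ‖a + x‖ ^ 2 * Real.exp (x * ε * ‖a‖⁻¹)
        ≤ (‖a - x‖ ^ 2 * Real.exp (-(x * ε * ‖a‖⁻¹))) * Real.exp (x * ε * ‖a‖⁻¹) := by
          refine mul_le_mul_of_nonneg_right ?_ (Real.exp_pos _).le
          rw [h5]
          exact mul_le_mul_of_nonneg_left h6 hp2.le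
      _ = ‖a - x‖ ^ 2 := by rw [mul_assoc, ← Real.exp_add]; simp
  have hsq : (‖a + x‖ * Real.exp (x * ε / 2 * ‖a‖⁻¹)) ^ 2 ≤ ‖a - x‖ ^ 2 := by
    rw [mul_pow, ← Real.exp_nat_mul]
    convert hkey using 3
    push_cast; ring
  exact (pow_le_pow_iff_left₀ (by positivity) (norm_nonneg _) (by norm_num)).mp hsq

/-- symmetry of the two products on the imaginary axis -/
theorem C2_PT_symm {m : ℂ → ℕ} {S : Finset ℂ} (hSc : ∀ a ∈ S, conj a ∈ S)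
    (hm : ∀ a, m (conj a) = m a) (y : ℝ) :
    ‖PT m S (-((y : ℂ) * Complex.I))‖ = ‖PT m S ((y : ℂ) * Complex.I)‖ := by
  rw [C2_norm_PT, C2_norm_PT]
  refine Finset.prod_nbij' (fun a => conj a) (fun a => conj a) hSc hSc (fun a _ => by simp)
    (fun a _ => by simp) (fun a _ => ?_)
  rw [hm a]
  congr 1
  have e : (1 : ℂ) - (y : ℂ) * Complex.I / conj a = conj (1 - (-((y : ℂ) * Complex.I)) / a) := by
    simp
  rw [e, RCLike.norm_conj]

/-- comparison of the `T`-products with their Blaschke form on the imaginary axis -/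
theorem C2_PT_T {m : ℂ → ℕ} {T : Finset ℂ} (hT : ∀ a ∈ T, a ≠ 0) (y : ℝ) :
    ‖PT m T (-((y : ℂ) * Complex.I))‖ * (∏ a ∈ T, ‖a‖ ^ m a) =
      ‖∏ a ∈ T, (((y : ℂ) * Complex.I) - conj a) ^ m a‖ := by
  rw [C2_norm_PT, ← Finset.prod_mul_distrib, norm_prod]
  refine Finset.prod_congr rfl fun a ha => ?_
  rw [← mul_pow, norm_pow]
  congr 1
  rw [← norm_mul]
  have ha0 := hT a ha
  have e1 : (1 - -((y : ℂ) * Complex.I) / a) * a = a + (y : ℂ) * Complex.I := by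
    field_simp; ring
  have e2 : ((y : ℂ) * Complex.I) - conj a = - conj (a + (y : ℂ) * Complex.I) := by
    simp; ring
  rw [e1, e2, norm_neg, RCLike.norm_conj]

theorem C2_PT_T' {m : ℂ → ℕ} {T : Finset ℂ} (hT : ∀ a ∈ T, a ≠ 0) (z : ℂ) :
    ‖PT m T z‖ * (∏ a ∈ T, ‖a‖ ^ m a) = ‖∏ a ∈ T, (a - z) ^ m a‖ := by
  rw [C2_norm_PT, ← Finset.prod_mul_distrib, norm_prod]
  refine Finset.prod_congr rfl fun a ha => ?_
  rw [← mul_pow, norm_pow]
  congr 1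
  rw [← norm_mul]
  have ha0 := hT a ha
  have e1 : (1 - z / a) * a = a - z := by
    field_simp
  rw [e1]

/-- the boundary identity, first off `S` -/
theorem C2_axis_off {f h : ℂ → ℂ} (hc : ∀ z, f (conj z) = conj (f z)) {m : ℂ → ℕ}
    (hm : ∀ a, m (conj a) = m a) {S T : Finset ℂ} (hdis : Disjoint S T)
    (hSc : ∀ a ∈ S, conj a ∈ S) (hT : ∀ a ∈ T, a ≠ 0)
    (hfac : ∀ z, f z = PT m (S ∪ T) z * h z) (y : ℝ) (hy : (y : ℂ) * Complex.I ∉ S) :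
    ‖∏ a ∈ T, (((y : ℂ) * Complex.I) - conj a) ^ m a‖ * ‖h (-((y : ℂ) * Complex.I))‖ =
      ‖∏ a ∈ T, (a - (y : ℂ) * Complex.I) ^ m a‖ * ‖h ((y : ℂ) * Complex.I)‖ := by
  have hPU : ∀ z, PT m (S ∪ T) z = PT m S z * PT m T z := by
    intro z; unfold PT; exact Finset.prod_union hdis
  have hneg : -((y : ℂ) * Complex.I) = conj ((y : ℂ) * Complex.I) := by simp
  have h1 : ‖f (-((y : ℂ) * Complex.I))‖ = ‖f ((y : ℂ) * Complex.I)‖ := by
    rw [hneg, hc, RCLike.norm_conj]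
  have h2 := C2_PT_symm (m := m) hSc hm y
  have h3 : ‖PT m S ((y : ℂ) * Complex.I)‖ ≠ 0 := norm_ne_zero_iff.mpr (C2_PT_ne hy)
  rw [hfac, hfac, hPU, hPU, norm_mul, norm_mul, norm_mul, norm_mul, h2] at h1
  have h4 : ‖PT m T (-((y : ℂ) * Complex.I))‖ * ‖h (-((y : ℂ) * Complex.I))‖ =
      ‖PT m T ((y : ℂ) * Complex.I)‖ * ‖h ((y : ℂ) * Complex.I)‖ := by
    apply mul_left_cancel₀ h3
    linarith
  rw [← C2_PT_T hT, ← C2_PT_T' hT]
  calc _ = (‖PT m T (-((y : ℂ) * Complex.I))‖ * ‖h (-((y : ℂ) * Complex.I))‖) *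
        (∏ a ∈ T, ‖a‖ ^ m a) := by ring
    _ = _ := by rw [h4]; ring

theorem C2_axis {f h : ℂ → ℂ} (hh : Differentiable ℂ h) (hc : ∀ z, f (conj z) = conj (f z))
    {m : ℂ → ℕ} (hm : ∀ a, m (conj a) = m a) {S T : Finset ℂ} (hdis : Disjoint S T)
    (hSc : ∀ a ∈ S, conj a ∈ S) (hT : ∀ a ∈ T, a ≠ 0)
    (hfac : ∀ z, f z = PT m (S ∪ T) z * h z) (y : ℝ) :
    ‖∏ a ∈ T, (((y : ℂ) * Complex.I) - conj a) ^ m a‖ * ‖h (-((y : ℂ) * Complex.I))‖ =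
      ‖∏ a ∈ T, (a - (y : ℂ) * Complex.I) ^ m a‖ * ‖h ((y : ℂ) * Complex.I)‖ := by
  have hhc : Continuous h := hh.continuous
  have hfin : {y : ℝ | (y : ℂ) * Complex.I ∈ S}.Finite := by
    refine Set.Finite.preimage (s := (S : Set ℂ)) (f := fun y : ℝ => (y : ℂ) * Complex.I) ?_
      S.finite_toSet
    intro u _ v _ huv
    have := mul_right_cancel₀ Complex.I_ne_zero huv
    exact_mod_cast this
  have hdense : Dense ({y : ℝ | (y : ℂ) * Complex.I ∈ S}ᶜ) := hfin.countable.dense_compl ℝ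
  have hL : Continuous fun y : ℝ =>
      ‖∏ a ∈ T, (((y : ℂ) * Complex.I) - conj a) ^ m a‖ * ‖h (-((y : ℂ) * Complex.I))‖ := by
    fun_prop
  have hR : Continuous fun y : ℝ =>
      ‖∏ a ∈ T, (a - (y : ℂ) * Complex.I) ^ m a‖ * ‖h ((y : ℂ) * Complex.I)‖ := by
    fun_prop
  have := Continuous.ext_on hdense hL hR (fun y hy =>
    C2_axis_off hc hm hdis hSc hT hfac y hy)
  exact congrFun this y

/-- Phragmen and Lindelof for the quotient -/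
theorem C2_core {h : ℂ → ℂ} (hh : Differentiable ℂ h) (hne : ∀ z : ℂ, 0 ≤ z.re → h z ≠ 0)
    {m : ℂ → ℕ} {T : Finset ℂ} (hTre : ∀ a ∈ T, a.re < 0)
    (hbd : ∃ C R : ℝ, ∀ z : ℂ, R ≤ ‖z‖ → 0 ≤ z.re →
      ‖(∏ a ∈ T, ((z - conj a) / (a - z)) ^ m a) * (h (-z) / h z)‖ ≤ C)
    (hax : ∀ y : ℝ, ‖∏ a ∈ T, (((y : ℂ) * Complex.I) - conj a) ^ m a‖ *
        ‖h (-((y : ℂ) * Complex.I))‖ =
      ‖∏ a ∈ T, (a - (y : ℂ) * Complex.I) ^ m a‖ * ‖h ((y : ℂ) * Complex.I)‖)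
    (x : ℝ) (hx : 0 < x) : ‖h (-(x : ℂ))‖ ≤ ‖h x‖ := by
  have hTne : ∀ a ∈ T, ∀ z : ℂ, 0 ≤ z.re → a - z ≠ 0 := by
    intro a ha z hz h0
    have := congrArg Complex.re h0
    simp at this
    have := hTre a ha
    linarith
  set Θ : ℂ → ℂ := fun z => (∏ a ∈ T, ((z - conj a) / (a - z)) ^ m a) * (h (-z) / h z) with hΘ
  have hd : DiffContOnCl ℂ Θ {z : ℂ | 0 < z.re} := by
    apply DifferentiableOn.diffContOnCl
    rw [Complex.closure_setOfPred_lt_re]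
    intro z hz
    have hz' : 0 ≤ z.re := hz
    refine DifferentiableAt.differentiableWithinAt ?_
    refine DifferentiableAt.mul ?_ ?_
    · refine DifferentiableAt.fun_finsetProd fun a ha => ?_
      refine DifferentiableAt.pow ?_ _
      refine DifferentiableAt.div ?_ ?_ (hTne a ha z hz')
      · fun_prop
      · fun_prop
    · refine DifferentiableAt.div ?_ (hh z) (hne z hz')
      exact (hh (-z)).comp z (by fun_prop)
  obtain ⟨C, R, hCR⟩ := hbd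
  have hexp : ∃ c < (2 : ℝ), ∃ B, Θ =O[Bornology.cobounded ℂ ⊓ 𝓟 {z : ℂ | 0 < z.re}]
      fun z => Real.exp (B * ‖z‖ ^ c) := by
    refine ⟨0, by norm_num, 0, ?_⟩
    refine Asymptotics.IsBigO.of_bound C ?_
    rw [Filter.eventually_inf_principal]
    have : ∀ᶠ z : ℂ in Bornology.cobounded ℂ, R ≤ ‖z‖ :=
      tendsto_norm_cobounded_atTop.eventually_ge_atTop R
    filter_upwards [this] with z hz hz0
    have := hCR z hz (le_of_lt hz0)
    rw [zero_mul, Real.exp_zero, norm_one, mul_one]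
    exact this
  have hre : Filter.IsBoundedUnder (· ≤ ·) Filter.atTop fun x : ℝ => ‖Θ x‖ := by
    refine ⟨C, ?_⟩
    rw [Filter.eventually_map]
    filter_upwards [Filter.eventually_ge_atTop R, Filter.eventually_ge_atTop 0] with x hx hx0
    refine hCR x ?_ ?_
    · rw [Complex.norm_real]; exact hx.trans (le_abs_self x)
    · simpa using hx0
  have him : ∀ y : ℝ, ‖Θ (y * Complex.I)‖ ≤ 1 := by
    intro y
    have hre0 : (0 : ℝ) ≤ ((y : ℂ) * Complex.I).re := by simp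
    have hn := hne _ hre0
    have hden : ∏ a ∈ T, (a - (y : ℂ) * Complex.I) ^ m a ≠ 0 :=
      Finset.prod_ne_zero_iff.mpr fun a ha => pow_ne_zero _ (hTne a ha _ hre0)
    have e : Θ (y * Complex.I) = ((∏ a ∈ T, (((y : ℂ) * Complex.I) - conj a) ^ m a) *
        h (-((y : ℂ) * Complex.I))) / ((∏ a ∈ T, (a - (y : ℂ) * Complex.I) ^ m a) *
        h ((y : ℂ) * Complex.I)) := by
      simp only [hΘ, div_pow, Finset.prod_div_distrib]
      rw [div_mul_div_comm]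
    rw [e, norm_div, norm_mul, norm_mul, hax y]
    exact div_self_le_one _
  have hres := PhragmenLindelof.right_half_plane_of_bounded_on_real hd hexp hre him
    (z := (x : ℂ)) (by simpa using hx.le)
  have hxre : (0 : ℝ) ≤ (x : ℂ).re := by simpa using hx.le
  have hone : ‖∏ a ∈ T, (((x : ℂ) - conj a) / (a - x)) ^ m a‖ = 1 := by
    rw [norm_prod]
    refine Finset.prod_eq_one fun a ha => ?_
    rw [norm_pow, norm_div]
    have e : (x : ℂ) - conj a = - conj (a - x) := by simp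
    rw [e, norm_neg, RCLike.norm_conj, div_self, one_pow]
    exact norm_ne_zero_iff.mpr (hTne a ha _ hxre)
  rw [hΘ] at hres
  simp only at hres
  rw [norm_mul, hone, one_mul, norm_div] at hres
  have hpos : 0 < ‖h x‖ := norm_pos_iff.mpr (hne _ hxre)
  rwa [div_le_one hpos] at hres

/-- The Blaschke condition. -/
theorem blaschke {f : ℂ → ℂ} (hf : Differentiable ℂ f) (h0 : f 0 ≠ 0)
    (hc : ∀ z, f (conj z) = conj (f z)) (S : Finset ℂ) (hSc : ∀ a ∈ S, conj a ∈ S) {ε : ℝ}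
    (hε : 0 < ε) (hz : ∀ a, f a = 0 → a ∉ S → ε * ‖a‖ ≤ -a.re)
    (hratio : ∃ C R : ℝ, 0 < C ∧ 0 < R ∧ ∀ z : ℂ, R ≤ ‖z‖ → 0 ≤ z.re → ‖f (-z)‖ ≤ C * ‖f z‖) :
    Summable (fun a : ℂ => (mu f a : ℝ) * ‖a‖⁻¹) := by
  classical
  obtain ⟨C, R, hC, hR, hrat⟩ := hratio
  -- a zero free disc
  obtain ⟨δ, hδ, hδ0⟩ : ∃ δ : ℝ, 0 < δ ∧ ∀ z : ℂ, ‖z‖ < δ → f z ≠ 0 := by
    have := hf.continuous.continuousAt (x := (0 : ℂ))
    have h1 : ∀ᶠ z in 𝓝 (0 : ℂ), f z ≠ 0 := this.eventually_ne h0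
    obtain ⟨δ, hδ, h2⟩ := Metric.eventually_nhds_iff.mp h1
    exact ⟨δ, hδ, fun z hz => h2 (by simpa using hz)⟩
  set x : ℝ := δ / 2 with hxdef
  have hx : 0 < x := by positivity
  have hfx : f x ≠ 0 := hδ0 _ (by
    rw [Complex.norm_real, Real.norm_of_nonneg hx.le]; linarith)
  have hfnx : f (-(x : ℂ)) ≠ 0 := hδ0 _ (by
    rw [norm_neg, Complex.norm_real, Real.norm_of_nonneg hx.le]; linarith)
  set m := mu f with hm
  have hm0 : m 0 = 0 := mu_eq_zero hf h0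
  have hmc : ∀ a, m (conj a) = m a := mu_conj hf hc
  have hxa : ∀ a, f a = 0 → x ≤ ‖a‖ := by
    intro a ha
    by_contra hcon
    exact hδ0 a (by linarith) ha
  set K0 : ℝ := ‖PT m S (-(x : ℂ))‖ * ‖f x‖ / (‖f (-(x : ℂ))‖ * ‖PT m S x‖) with hK0
  -- the key bound for finite sets of zeros off `S`
  have key : ∀ T : Finset ℂ, (∀ a ∈ T, f a = 0 ∧ a ∉ S) →
      ∑ a ∈ T, (m a : ℝ) * ‖a‖⁻¹ ≤ Real.log K0 / (x * ε / 2) := by
    intro T hT
    have hdis : Disjoint S T := by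
      rw [Finset.disjoint_left]
      intro a haS haT
      exact (hT a haT).2 haS
    have hTa : ∀ a ∈ T, a ≠ 0 := by
      intro a ha h; subst h; exact h0 (hT _ ha).1
    have hTre : ∀ a ∈ T, a.re < 0 := by
      intro a ha
      have h1 := hz a (hT a ha).1 (hT a ha).2
      have h2 : 0 < ε * ‖a‖ := mul_pos hε (norm_pos_iff.mpr (hTa a ha))
      linarith
    obtain ⟨h, hh, hfac, hhU, hh0, hhz⟩ := div_zeros hf h0 (S ∪ T)
    have hne : ∀ z : ℂ, 0 ≤ z.re → h z ≠ 0 := by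
      intro z hzre hhz0
      by_cases hzU : z ∈ S ∪ T
      · exact hhU z hzU hhz0
      · have hfz : f z = 0 := (hhz z hzU).mp hhz0
        have hzS : z ∉ S := fun h => hzU (Finset.mem_union_left _ h)
        have h1 := hz z hfz hzS
        have hz0 : z ≠ 0 := by intro h; subst h; exact h0 hfz
        have h2 : 0 < ε * ‖z‖ := mul_pos hε (norm_pos_iff.mpr hz0)
        linarith
    have hPU : ∀ z, PT m (S ∪ T) z = PT m S z * PT m T z := by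
      intro z; unfold PT; exact Finset.prod_union hdis
    have hax := C2_axis hh hc hmc hdis hSc hTa hfac
    have hbd : ∃ C' R' : ℝ, ∀ z : ℂ, R' ≤ ‖z‖ → 0 ≤ z.re →
        ‖(∏ a ∈ T, ((z - conj a) / (a - z)) ^ m a) * (h (-z) / h z)‖ ≤ C' := by
      refine ⟨3 ^ (∑ a ∈ T, m a) * (C * 3 ^ (∑ a ∈ S ∪ T, m a)),
        R + 2 * ∑ a ∈ S ∪ T, ‖a‖ + 1, fun z hzn hzre => ?_⟩
      have hsum : ∀ a ∈ S ∪ T, ‖a‖ ≤ ∑ a ∈ S ∪ T, ‖a‖ := fun a ha =>
        Finset.single_le_sum (f := fun a => ‖a‖) (fun _ _ => norm_nonneg _) ha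
      have hsum0 : 0 ≤ ∑ a ∈ S ∪ T, ‖a‖ := Finset.sum_nonneg fun _ _ => norm_nonneg _
      have hlarge : ∀ a ∈ S ∪ T, 2 * ‖a‖ ≤ ‖z‖ := by
        intro a ha
        have := hsum a ha
        linarith
      have hzpos : 0 < ‖z‖ := by linarith
      rw [norm_mul]
      refine mul_le_mul (C2_blaschke_ratio hzpos
        fun a ha => hlarge a (Finset.mem_union_right _ ha)) ?_ (norm_nonneg _) (by positivity)
      rw [norm_div, div_le_iff₀ (norm_pos_iff.mpr (hne z hzre))]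
      have h1 := hrat z (by linarith) hzre
      rw [hfac, hfac, norm_mul, norm_mul] at h1
      have h2 := C2_PT_ratio hm0 hlarge
      have hnegU : -z ∉ S ∪ T := by
        intro hmem
        have := hlarge _ hmem
        rw [norm_neg] at this
        linarith
      have h3 : 0 < ‖PT m (S ∪ T) (-z)‖ := norm_pos_iff.mpr (C2_PT_ne hnegU)
      have h4 : ‖PT m (S ∪ T) (-z)‖ * ‖h (-z)‖ ≤
          ‖PT m (S ∪ T) (-z)‖ * (C * 3 ^ (∑ a ∈ S ∪ T, m a) * ‖h z‖) := by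
        calc ‖PT m (S ∪ T) (-z)‖ * ‖h (-z)‖ ≤ C * (‖PT m (S ∪ T) z‖ * ‖h z‖) := h1
          _ ≤ C * ((3 ^ (∑ a ∈ S ∪ T, m a) * ‖PT m (S ∪ T) (-z)‖) * ‖h z‖) := by gcongr
          _ = _ := by ring
      exact le_of_mul_le_mul_left h4 h3
    have hcore := C2_core hh hne hTre hbd hax x hx
    -- evaluate at `x`
    have hPSx : 0 < ‖PT m S x‖ := by
      rw [norm_pos_iff]
      intro h1
      apply hfx
      rw [hfac, hPU, h1]; simp
    have hPSnx : 0 < ‖PT m S (-(x : ℂ))‖ := by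
      rw [norm_pos_iff]
      intro h1
      apply hfnx
      rw [hfac, hPU, h1]; simp
    have hPTnx : 0 < ‖PT m T (-(x : ℂ))‖ := by
      rw [norm_pos_iff]
      intro h1
      apply hfnx
      rw [hfac, hPU, h1]; simp
    have hfnx' : 0 < ‖f (-(x : ℂ))‖ := norm_pos_iff.mpr hfnx
    have hfx' : 0 < ‖f x‖ := norm_pos_iff.mpr hfx
    have hratioT : ‖PT m T x‖ ≤ K0 * ‖PT m T (-(x : ℂ))‖ := by
      rw [hK0, div_mul_eq_mul_div, le_div_iff₀ (by positivity)]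
      have e1 : ‖f (-(x : ℂ))‖ = ‖PT m S (-(x : ℂ))‖ * ‖PT m T (-(x : ℂ))‖ * ‖h (-(x : ℂ))‖ := by
        conv_lhs => rw [hfac, hPU]
        rw [norm_mul, norm_mul]
      have e2 : ‖f x‖ = ‖PT m S x‖ * ‖PT m T x‖ * ‖h x‖ := by
        conv_lhs => rw [hfac, hPU]
        rw [norm_mul, norm_mul]
      rw [e1]
      calc ‖PT m T x‖ * (‖PT m S (-(x : ℂ))‖ * ‖PT m T (-(x : ℂ))‖ * ‖h (-(x : ℂ))‖ *
            ‖PT m S x‖) ≤ ‖PT m T x‖ * (‖PT m S (-(x : ℂ))‖ * ‖PT m T (-(x : ℂ))‖ * ‖h x‖ *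
            ‖PT m S x‖) := by gcongr
        _ = ‖PT m S (-(x : ℂ))‖ * (‖PT m S x‖ * ‖PT m T x‖ * ‖h x‖) * ‖PT m T (-(x : ℂ))‖ := by
          ring
        _ = _ := by rw [← e2]
    have hgain : ‖PT m T (-(x : ℂ))‖ * Real.exp (x * ε / 2 * ∑ a ∈ T, (m a : ℝ) * ‖a‖⁻¹) ≤
        ‖PT m T x‖ := by
      rw [C2_norm_PT, C2_norm_PT, Finset.mul_sum, Real.exp_sum, ← Finset.prod_mul_distrib]
      refine Finset.prod_le_prod (fun a _ => by positivity) fun a ha => ?_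
      have h1 := C2_gain hx hε (hxa a (hT a ha).1) (hz a (hT a ha).1 (hT a ha).2)
      have e : Real.exp (x * ε / 2 * ((m a : ℝ) * ‖a‖⁻¹)) =
          Real.exp (x * ε / 2 * ‖a‖⁻¹) ^ m a := by
        rw [← Real.exp_nat_mul]; congr 1; ring
      rw [e, ← mul_pow]
      exact pow_le_pow_left₀ (by positivity) h1 _
    have hfinal : Real.exp (x * ε / 2 * ∑ a ∈ T, (m a : ℝ) * ‖a‖⁻¹) ≤ K0 := by
      have h5 : ‖PT m T (-(x : ℂ))‖ * Real.exp (x * ε / 2 * ∑ a ∈ T, (m a : ℝ) * ‖a‖⁻¹) ≤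
          ‖PT m T (-(x : ℂ))‖ * K0 := by
        calc _ ≤ ‖PT m T x‖ := hgain
          _ ≤ K0 * ‖PT m T (-(x : ℂ))‖ := hratioT
          _ = _ := mul_comm _ _
      exact le_of_mul_le_mul_left h5 hPTnx
    have hlog := Real.log_le_log (Real.exp_pos _) hfinal
    rw [Real.log_exp] at hlog
    rw [le_div_iff₀ (by positivity)]
    linarith
  -- conclusion
  refine summable_of_sum_le (c := ∑ a ∈ S, (m a : ℝ) * ‖a‖⁻¹ + Real.log K0 / (x * ε / 2))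
    (fun a => by positivity) fun u => ?_
  have hnn : ∀ a, 0 ≤ (m a : ℝ) * ‖a‖⁻¹ := fun a => by positivity
  have hsplit : ∑ a ∈ u, (m a : ℝ) * ‖a‖⁻¹ ≤ ∑ a ∈ S, (m a : ℝ) * ‖a‖⁻¹ +
      ∑ a ∈ u.filter (fun a => f a = 0 ∧ a ∉ S), (m a : ℝ) * ‖a‖⁻¹ := by
    rw [← Finset.sum_filter_add_sum_filter_not u (fun a => f a = 0 ∧ a ∉ S), add_comm]
    refine add_le_add ?_ le_rfl
    calc ∑ a ∈ u.filter (fun a => ¬ (f a = 0 ∧ a ∉ S)), (m a : ℝ) * ‖a‖⁻¹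
        ≤ ∑ a ∈ S ∪ u.filter (fun a => ¬ (f a = 0 ∧ a ∉ S)), (m a : ℝ) * ‖a‖⁻¹ :=
          Finset.sum_le_sum_of_subset_of_nonneg Finset.subset_union_right
            fun a _ _ => hnn a
      _ = ∑ a ∈ S, (m a : ℝ) * ‖a‖⁻¹ := by
          symm
          refine Finset.sum_subset Finset.subset_union_left fun a ha haS => ?_
          have hau := (Finset.mem_union.mp ha).resolve_left haS
          have h1 := (Finset.mem_filter.mp hau).2
          have h2 : f a ≠ 0 := fun h => h1 ⟨h, haS⟩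
          have h3 : m a = 0 := mu_eq_zero hf h2
          rw [h3]; simp
  refine hsplit.trans (add_le_add le_rfl (key _ fun a ha => (Finset.mem_filter.mp ha).2))

end Pool.Agent.helper38.UB
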