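import Pool.Agent.helper38.UB.Defs

set_option autoImplicit false

namespace Pool.Agent.helper38.UB

open Filter Topology MeasureTheory
open Pool.Agent.helper38.NNF Pool.Agent.helper38.LacA
open scoped ComplexConjugate ComplexOrder

/-! C3a (convergence of genus 0 products) -/

theorem C3a_pow_bound (x : ℂ) (n : ℕ) : ‖(1 - x) ^ n - 1‖ ≤ Real.exp (n * ‖x‖) - 1 := by
  have h := (Finset.range n).norm_prod_one_add_sub_one_le (fun _ : ℕ => -x)
  simp only [Finset.prod_const, Finset.card_range, Finset.sum_const, norm_neg, nsmul_eq_mul,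
    ← sub_eq_add_neg] at h
  exact h

theorem C3a_exp_sub {y : ℝ} : Real.exp y - 1 ≤ y * Real.exp y := by
  have h := Real.add_one_le_exp (-y)
  have h1 : 0 < Real.exp y := Real.exp_pos y
  have h2 : Real.exp (-y) * Real.exp y = 1 := by rw [← Real.exp_add]; simp
  nlinarith

theorem prod_conv (m : ℂ → ℕ) (hm0 : m 0 = 0) (hsum : Summable (fun a : ℂ => (m a : ℝ) * ‖a‖⁻¹))
    (T : ℕ → Finset ℂ) (hT : ∀ a, m a ≠ 0 → ∀ᶠ N in atTop, a ∈ T N) :
    ∃ Pi : ℂ → ℂ, Differentiable ℂ Pi ∧
      TendstoLocallyUniformlyOn (fun N z => PT m (T N) z) Pi atTop Set.univ ∧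
      ∀ z, (∀ a, m a ≠ 0 → z ≠ a) → Pi z ≠ 0 ∧
        Summable (fun a : ℂ => (m a : ℝ) * Real.log ‖1 - z / a‖) ∧
        Real.log ‖Pi z‖ = ∑' a : ℂ, (m a : ℝ) * Real.log ‖1 - z / a‖ := by
  classical
  -- index type: the support of `m`
  let ι := {a : ℂ // m a ≠ 0}
  let f : ι → ℂ → ℂ := fun a z => (1 - z / a.1) ^ m a.1 - 1
  have hf1 : ∀ (a : ι) (z : ℂ), 1 + f a z = (1 - z / a.1) ^ m a.1 := by
    intro a z; simp only [f]; ring
  set S : ℝ := ∑' a : ℂ, (m a : ℝ) * ‖a‖⁻¹ with hS
  have hle : ∀ a : ℂ, (m a : ℝ) * ‖a‖⁻¹ ≤ S := by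
    intro a
    exact hsum.le_tsum a (fun b _ => by positivity)
  have hsumι : Summable (fun a : ι => (m a.1 : ℝ) * ‖a.1‖⁻¹) :=
    hsum.comp_injective Subtype.val_injective
  -- pointwise bound
  have hfb : ∀ (R : ℝ), 0 ≤ R → ∀ (a : ι) (z : ℂ), ‖z‖ ≤ R →
      ‖f a z‖ ≤ (R * Real.exp (R * S)) * ((m a.1 : ℝ) * ‖a.1‖⁻¹) := by
    intro R hR a z hz
    have h1 : ‖f a z‖ ≤ Real.exp ((m a.1 : ℝ) * ‖z / a.1‖) - 1 := C3a_pow_bound _ _
    set y : ℝ := R * ((m a.1 : ℝ) * ‖a.1‖⁻¹) with hy
    have hy0 : 0 ≤ y := by positivity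
    have h2 : (m a.1 : ℝ) * ‖z / a.1‖ ≤ y := by
      rw [norm_div, div_eq_mul_inv, hy]
      have h3 : ‖z‖ * ‖a.1‖⁻¹ ≤ R * ‖a.1‖⁻¹ := mul_le_mul_of_nonneg_right hz (by positivity)
      have h4 : (m a.1 : ℝ) * (‖z‖ * ‖a.1‖⁻¹) ≤ (m a.1 : ℝ) * (R * ‖a.1‖⁻¹) :=
        mul_le_mul_of_nonneg_left h3 (by positivity)
      linarith
    have h3 : Real.exp ((m a.1 : ℝ) * ‖z / a.1‖) ≤ Real.exp y := Real.exp_le_exp.mpr h2
    have h4 : y ≤ R * S := mul_le_mul_of_nonneg_left (hle a.1) hR
    have h5 : Real.exp y ≤ Real.exp (R * S) := Real.exp_le_exp.mpr h4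
    have h6 := C3a_exp_sub (y := y)
    have h7 : y * Real.exp y ≤ y * Real.exp (R * S) := mul_le_mul_of_nonneg_left h5 hy0
    calc ‖f a z‖ ≤ y * Real.exp (R * S) := by linarith
      _ = _ := by rw [hy]; ring
  have hfc : ∀ a : ι, Continuous (f a) := by
    intro a; simp only [f]; fun_prop
  -- local uniform convergence over finite sets
  have hlu : HasProdLocallyUniformlyOn (fun (a : ι) (z : ℂ) => 1 + f a z)
      (fun z => ∏' a : ι, (1 + f a z)) Set.univ := by
    apply hasProdLocallyUniformlyOn_of_forall_compact isOpen_univ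
    intro K _ hK
    obtain ⟨R, hR⟩ := hK.isBounded.exists_norm_le
    apply Summable.hasProdUniformlyOn_one_add
      (u := fun a : ι => (max R 0 * Real.exp (max R 0 * S)) * ((m a.1 : ℝ) * ‖a.1‖⁻¹)) hK
      (hsumι.mul_left _)
    · refine Eventually.of_forall ?_
      intro a z hz
      exact hfb (max R 0) (le_max_right _ _) a z ((hR z hz).trans (le_max_left _ _))
    · intro a
      exact (hfc a).continuousOn
  rw [hasProdLocallyUniformlyOn_iff_tendstoLocallyUniformlyOn] at hlu
  -- along `T`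
  have hTt : Tendsto (fun N => (T N).subtype (fun a => m a ≠ 0)) atTop
      (atTop : Filter (Finset ι)) := by
    rw [tendsto_atTop]
    intro F
    have h1 : ∀ᶠ N in atTop, ∀ a ∈ F, a.1 ∈ T N := by
      rw [Finset.eventually_all]
      intro a _
      exact hT a.1 a.2
    filter_upwards [h1] with N hN
    intro a ha
    rw [Finset.mem_subtype]
    exact hN a ha
  have hPT : ∀ N z, PT m (T N) z = ∏ a ∈ (T N).subtype (fun a => m a ≠ 0), (1 + f a z) := by
    intro N z
    unfold PT
    have h1 : ∏ a ∈ (T N).subtype (fun a => m a ≠ 0), (1 + f a z) =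
        ∏ a ∈ (T N).subtype (fun a => m a ≠ 0), (fun b : ℂ => (1 - z / b) ^ m b) a.1 := by
      apply Finset.prod_congr rfl
      intro a _
      exact hf1 a z
    have h2 := Finset.prod_subtype_eq_prod_filter (s := T N) (p := fun a => m a ≠ 0)
      (fun b : ℂ => (1 - z / b) ^ m b)
    rw [h1]
    refine Eq.trans ?_ h2.symm
    symm
    apply Finset.prod_filter_of_ne
    intro a _ ha hma
    apply ha
    simp only [hma, pow_zero]
  have hconv : TendstoLocallyUniformlyOn (fun N z => PT m (T N) z)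
      (fun z => ∏' a : ι, (1 + f a z)) atTop Set.univ := by
    have h1 : (fun N z => PT m (T N) z) = fun N =>
        (fun (s : Finset ι) (z : ℂ) => ∏ a ∈ s, (1 + f a z))
          ((T N).subtype (fun a => m a ≠ 0)) := by
      funext N z; exact hPT N z
    rw [h1]
    intro v hv z hz
    obtain ⟨t, ht, h2⟩ := hlu v hv z hz
    exact ⟨t, ht, hTt.eventually h2⟩
  refine ⟨fun z => ∏' a : ι, (1 + f a z), ?_, hconv, ?_⟩
  · have h1 := hconv.differentiableOn (Eventually.of_forall (fun N => by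
      have h2 : Differentiable ℂ (PT m (T N)) := by
        unfold PT; fun_prop
      exact h2.differentiableOn)) isOpen_univ
    exact differentiableOn_univ.mp h1
  · intro z hz
    have hfs : Summable (fun a : ι => ‖f a z‖) := by
      refine Summable.of_nonneg_of_le (fun a => norm_nonneg _)
        (fun a => hfb ‖z‖ (norm_nonneg z) a z le_rfl) (hsumι.mul_left _)
    have ha0 : ∀ a : ι, a.1 ≠ 0 := by
      intro a h0
      exact a.2 (by rw [h0]; exact hm0)
    have hne : ∀ a : ι, 1 + f a z ≠ 0 := by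
      intro a
      rw [hf1]
      apply pow_ne_zero
      intro h0
      apply hz a.1 a.2
      have h1 : z / a.1 = 1 := by linear_combination -h0
      rwa [div_eq_one_iff_eq (ha0 a)] at h1
    have hlog : ∀ a : ι, Real.log ‖1 + f a z‖ = (m a.1 : ℝ) * Real.log ‖1 - z / a.1‖ := by
      intro a
      rw [hf1, norm_pow, Real.log_pow]
    have hls : Summable (fun a : ι => (m a.1 : ℝ) * Real.log ‖1 - z / a.1‖) := by
      have h1 := Summable.summable_log_norm_one_add hfs
      refine h1.congr ?_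
      intro a
      exact hlog a
    have hsupp : Function.support (fun a : ℂ => (m a : ℝ) * Real.log ‖1 - z / a‖) ⊆
        {a : ℂ | m a ≠ 0} := by
      intro a ha hma
      apply ha
      simp [hma]
    refine ⟨tprod_one_add_ne_zero_of_summable hne hfs, ?_, ?_⟩
    · have h1 := (summable_subtype_iff_indicator
        (f := fun a : ℂ => (m a : ℝ) * Real.log ‖1 - z / a‖) (s := {a : ℂ | m a ≠ 0})).mp hls
      rwa [Set.indicator_eq_self.mpr hsupp] at h1
    · have hmul : Multipliable (fun a : ι => 1 + f a z) := multipliable_one_add_of_summable hfs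
      have h2 : ‖∏' a : ι, (1 + f a z)‖ = ∏' a : ι, ‖1 + f a z‖ := hmul.norm_tprod
      have h3 : Summable (fun a : ι => Real.log ‖1 + f a z‖) := by
        refine hls.congr ?_
        intro a
        exact (hlog a).symm
      rw [h2, ← Real.rexp_tsum_eq_tprod (fun a => norm_pos_iff.mpr (hne a)) h3, Real.log_exp]
      rw [tsum_congr hlog]
      exact tsum_subtype_eq_of_support_subset hsupp

end Pool.Agent.helper38.UB
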