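import Pool.Agent.helper38.UB.A3
import Pool.Agent.helper38.UB.A4

set_option autoImplicit false

namespace Pool.Agent.helper38.UB

open Filter Topology MeasureTheory
open Pool.Agent.helper38.NNF Pool.Agent.helper38.LacA
open scoped ComplexConjugate ComplexOrder

/-! C3b (logarithmic representation of genus 0 type) -/

theorem C3b_lE_two (u : ℂ) : lE 2 u = Real.log ‖1 - u‖ + (u + u ^ 2 / 2).re := by
  unfold lE
  rw [Finset.sum_range_succ, Finset.sum_range_one]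
  norm_num

theorem C3b_sum_inv {f : ℂ → ℂ} (hsum : Summable (fun a : ℂ => (mu f a : ℝ) * ‖a‖⁻¹)) :
    Summable (fun a : ℂ => (mu f a : ℂ) * a⁻¹) := by
  refine Summable.of_norm ?_
  refine hsum.congr fun a => ?_
  rw [norm_mul, norm_inv, Complex.norm_natCast]

theorem C3b_sum_inv_sq {f : ℂ → ℂ} (hsum : Summable (fun a : ℂ => (mu f a : ℝ) * ‖a‖⁻¹)) :
    Summable (fun a : ℂ => (mu f a : ℂ) * (a⁻¹ ^ 2 / 2)) := by
  refine Summable.of_norm ?_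
  refine Summable.of_nonneg_of_le (fun a => norm_nonneg _) (fun a => ?_)
    (hsum.mul_left (∑' a : ℂ, (mu f a : ℝ) * ‖a‖⁻¹))
  have hnn : ∀ b : ℂ, 0 ≤ (mu f b : ℝ) * ‖b‖⁻¹ := fun b => by positivity
  have h1 : (mu f a : ℝ) * ‖a‖⁻¹ ≤ ∑' a : ℂ, (mu f a : ℝ) * ‖a‖⁻¹ :=
    hsum.le_tsum a (fun b _ => hnn b)
  rw [norm_mul, norm_div, norm_pow, norm_inv, Complex.norm_natCast]
  have h2 : (mu f a : ℝ) ≤ (mu f a : ℝ) * (mu f a : ℝ) := by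
    rcases Nat.eq_zero_or_pos (mu f a) with h | h
    · simp [h]
    · have : (1 : ℝ) ≤ (mu f a : ℝ) := by exact_mod_cast h
      nlinarith
  have h3 : 0 ≤ ‖a‖⁻¹ ^ 2 := by positivity
  have h4 : ‖(2 : ℂ)‖ = 2 := by norm_num
  rw [h4]
  calc (mu f a : ℝ) * (‖a‖⁻¹ ^ 2 / 2) ≤ (mu f a : ℝ) * ‖a‖⁻¹ ^ 2 := by
        have : 0 ≤ (mu f a : ℝ) := Nat.cast_nonneg _
        nlinarith
    _ ≤ ((mu f a : ℝ) * (mu f a : ℝ)) * ‖a‖⁻¹ ^ 2 := mul_le_mul_of_nonneg_right h2 h3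
    _ = ((mu f a : ℝ) * ‖a‖⁻¹) * ((mu f a : ℝ) * ‖a‖⁻¹) := by ring
    _ ≤ _ := mul_le_mul_of_nonneg_right h1 (hnn a)

theorem C3b_real {f : ℂ → ℂ} (hf : Differentiable ℂ f) (hc : ∀ z, f (conj z) = conj (f z))
    (g : ℂ → ℂ) (hg : ∀ a, g (conj a) = conj (g a)) :
    ((∑' a : ℂ, (mu f a : ℂ) * g a).re : ℂ) = ∑' a : ℂ, (mu f a : ℂ) * g a := by
  rw [← Complex.conj_eq_iff_re]
  rw [Complex.conj_tsum]
  rw [← (Equiv.tsum_eq (starRingAut : ℂ ≃+* ℂ).toEquiv (fun a : ℂ => (mu f a : ℂ) * g a))]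
  refine tsum_congr fun a => ?_
  have : ((starRingAut : ℂ ≃+* ℂ).toEquiv a) = conj a := rfl
  rw [this, hg, mu_conj hf hc, map_mul, Complex.conj_natCast]

theorem log_rep_zero {f : ℂ → ℂ} (hf : Differentiable ℂ f) (h0 : f 0 ≠ 0)
    (hc : ∀ z, f (conj z) = conj (f z)) {σ : ℝ} (hσ : 0 ≤ σ) (hp : σ < 3) (hG : Gr f σ)
    (hsum : Summable (fun a : ℂ => (mu f a : ℝ) * ‖a‖⁻¹)) :
    ∃ α β : ℝ, ∀ z, f z ≠ 0 → Summable (fun a : ℂ => (mu f a : ℝ) * Real.log ‖1 - z / a‖) ∧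
      Real.log ‖f z‖ = Real.log ‖f 0‖ + ((β : ℂ) * z + α * z ^ 2).re +
        ∑' a : ℂ, (mu f a : ℝ) * Real.log ‖1 - z / a‖ := by
  obtain ⟨c, hcz⟩ := log_rep_real hf h0 hc hσ (p := 2) (by norm_num; linarith) hG
  have s1 := C3b_sum_inv hsum
  have s2 := C3b_sum_inv_sq hsum
  have r1 := C3b_real hf hc (fun a => a⁻¹) (fun a => by rw [map_inv₀])
  have r2 := C3b_real hf hc (fun a => a⁻¹ ^ 2 / 2) (fun a => by
    rw [map_div₀, map_pow, map_inv₀, map_ofNat])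
  set A1 : ℂ := ∑' a : ℂ, (mu f a : ℂ) * a⁻¹ with hA1
  set A2 : ℂ := ∑' a : ℂ, (mu f a : ℂ) * (a⁻¹ ^ 2 / 2) with hA2
  -- value of c 0
  have hc0 : c 0 = Real.log ‖f 0‖ := by
    obtain ⟨-, h⟩ := hcz 0 h0
    rw [h]
    have h1 : ∀ a : ℂ, (mu f a : ℝ) * lE 2 (0 / a) = 0 := fun a => by
      rw [zero_div, C3b_lE_two]; simp
    rw [tsum_congr h1, tsum_zero]
    simp [Finset.sum_range_succ]
  refine ⟨A2.re + c 2, A1.re + c 1, fun z hz => ?_⟩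
  obtain ⟨hs, hl⟩ := hcz z hz
  -- the polynomial part
  have t1 : HasSum (fun a : ℂ => (((mu f a : ℂ) * a⁻¹) * z + ((mu f a : ℂ) * (a⁻¹ ^ 2 / 2)) * z ^ 2).re)
      (A1 * z + A2 * z ^ 2).re :=
    Complex.hasSum_re ((s1.hasSum.mul_right z).add (s2.hasSum.mul_right (z ^ 2)))
  have e1 : ∀ a : ℂ, (mu f a : ℝ) * Real.log ‖1 - z / a‖ = (mu f a : ℝ) * lE 2 (z / a)
      - (((mu f a : ℂ) * a⁻¹) * z + ((mu f a : ℂ) * (a⁻¹ ^ 2 / 2)) * z ^ 2).re := by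
    intro a
    rw [C3b_lE_two]
    have : (((mu f a : ℂ) * a⁻¹) * z + ((mu f a : ℂ) * (a⁻¹ ^ 2 / 2)) * z ^ 2)
        = ((mu f a : ℝ) : ℂ) * (z / a + (z / a) ^ 2 / 2) := by
      push_cast
      rw [div_eq_mul_inv]
      ring
    rw [this, Complex.re_ofReal_mul]
    ring
  have hs' : HasSum (fun a : ℂ => (mu f a : ℝ) * Real.log ‖1 - z / a‖)
      ((∑' a : ℂ, (mu f a : ℝ) * lE 2 (z / a)) - (A1 * z + A2 * z ^ 2).re) := by
    refine (hs.hasSum.sub t1).congr_fun ?_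
    intro a
    exact e1 a
  refine ⟨hs'.summable, ?_⟩
  rw [hs'.tsum_eq, hl, ← hc0]
  have h5 : (∑ j ∈ Finset.range (2 + 1), (c j : ℂ) * z ^ j).re = c 0 + ((c 1 : ℂ) * z + (c 2 : ℂ) * z ^ 2).re := by
    rw [Finset.sum_range_succ, Finset.sum_range_succ, Finset.sum_range_one]
    simp [add_assoc]
  rw [h5]
  have h6 : (((A1.re + c 1 : ℝ) : ℂ) * z + ((A2.re + c 2 : ℝ) : ℂ) * z ^ 2).re
      = (A1 * z + A2 * z ^ 2).re + ((c 1 : ℂ) * z + (c 2 : ℂ) * z ^ 2).re := by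
    rw [← Complex.add_re]
    congr 1
    push_cast
    rw [r1, r2]
    ring
  rw [h6]
  ring

end Pool.Agent.helper38.UB
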