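import Pool.Agent.helper38.UB.C3a
import Pool.Agent.helper38.UB.C3b
import Pool.Agent.helper38.UB.A1

set_option autoImplicit false

namespace Pool.Agent.helper38.UB

open Filter Topology MeasureTheory
open Pool.Agent.helper38.NNF Pool.Agent.helper38.LacA
open scoped ComplexConjugate ComplexOrder

/-! C3c (product representation) -/

theorem C3c_PT_zero (m : ℂ → ℕ) (T : Finset ℂ) : PT m T 0 = 1 := by
  unfold PT
  apply Finset.prod_eq_one
  intro a _
  simp

theorem C3c_PT_diff (m : ℂ → ℕ) (T : Finset ℂ) : Differentiable ℂ (PT m T) := by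
  unfold PT
  fun_prop

theorem C3c_eq {f Q : ℂ → ℂ} (hf : Differentiable ℂ f) (hQ : Differentiable ℂ Q) (h0 : f 0 ≠ 0)
    (hQ0 : Q 0 = f 0) (hn : ∀ z, f z ≠ 0 → ‖Q z‖ = ‖f z‖) : f = Q := by
  obtain ⟨r, hr, hb⟩ := Metric.eventually_nhds_iff_ball.mp (hf.continuous.continuousAt.eventually_ne h0)
  have hd : DifferentiableOn ℂ (fun z => Q z / f z) (Metric.ball 0 r) :=
    hQ.differentiableOn.div hf.differentiableOn hb
  have hmax : IsMaxOn (norm ∘ fun z => Q z / f z) (Metric.ball 0 r) 0 := by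
    intro z hz
    show ‖Q z / f z‖ ≤ ‖Q 0 / f 0‖
    rw [norm_div, norm_div, hn z (hb z hz), hn 0 h0, div_self (norm_ne_zero_iff.mpr (hb z hz)),
      div_self (norm_ne_zero_iff.mpr h0)]
  have hconst := Complex.eqOn_of_isPreconnected_of_isMaxOn_norm
    (convex_ball (0:ℂ) r).isPreconnected Metric.isOpen_ball hd (Metric.mem_ball_self hr) hmax
  have hev : f =ᶠ[𝓝 0] Q := by
    filter_upwards [Metric.ball_mem_nhds (0:ℂ) hr] with z hz
    have h1 := hconst hz
    simp only [Function.const_apply, hQ0, div_self h0] at h1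
    rw [div_eq_one_iff_eq (hb z hz)] at h1
    exact h1.symm
  have hfa : AnalyticOnNhd ℂ f Set.univ := fun z _ => hf.analyticAt z
  have hQa : AnalyticOnNhd ℂ Q Set.univ := fun z _ => hQ.analyticAt z
  exact AnalyticOnNhd.eq_of_eventuallyEq hfa hQa hev

/-- `f = f(0) e^{βz+αz²} lim_N P_{|a| ≤ N}` -/
theorem prod_rep {f : ℂ → ℂ} (hf : Differentiable ℂ f) (h0 : f 0 ≠ 0)
    (hc : ∀ z, f (conj z) = conj (f z)) {σ : ℝ} (hσ : 0 ≤ σ) (hp : σ < 3) (hG : Gr f σ)
    (hsum : Summable (fun a : ℂ => (mu f a : ℝ) * ‖a‖⁻¹)) (S : Finset ℂ) :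
    ∃ (α β : ℝ) (Pi : ℂ → ℂ) (T : ℕ → Finset ℂ), Differentiable ℂ Pi ∧
      (∀ N : ℕ, ∀ a : ℂ, a ∈ T N ↔ f a = 0 ∧ ‖a‖ ≤ N ∧ a ∉ S) ∧
      TendstoLocallyUniformlyOn (fun N z => PT (mu f) (T N) z) Pi atTop Set.univ ∧
      (∀ z, f z = f 0 * Complex.exp (β * z + α * z ^ 2) * (PT (mu f) S z * Pi z)) ∧
      ∀ z, f z ≠ 0 → Summable (fun a : ℂ => (mu f a : ℝ) * Real.log ‖1 - z / a‖) ∧
      Real.log ‖f z‖ = Real.log ‖f 0‖ + ((β : ℂ) * z + α * z ^ 2).re +
        ∑' a : ℂ, (mu f a : ℝ) * Real.log ‖1 - z / a‖ := by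
  classical
  obtain ⟨α, β, hrep⟩ := log_rep_zero hf h0 hc hσ hp hG hsum
  set m : ℂ → ℕ := fun a => if a ∈ S then 0 else mu f a with hm
  have hmle : ∀ a, m a ≤ mu f a := by
    intro a; simp only [hm]; split_ifs <;> omega
  have hm0 : m 0 = 0 := by
    have := mu_eq_zero hf h0
    have := hmle 0
    omega
  have hmsum : Summable (fun a : ℂ => (m a : ℝ) * ‖a‖⁻¹) := by
    apply Summable.of_nonneg_of_le (fun a => by positivity) _ hsum
    intro a
    apply mul_le_mul_of_nonneg_right _ (by positivity)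
    exact_mod_cast hmle a
  set T : ℕ → Finset ℂ := fun N => ((zeros_finite hf h0 N).toFinset).filter (fun a => a ∉ S) with hT
  have hTm : ∀ N : ℕ, ∀ a : ℂ, a ∈ T N ↔ f a = 0 ∧ ‖a‖ ≤ N ∧ a ∉ S := by
    intro N a
    simp only [hT, Finset.mem_filter, Set.Finite.mem_toFinset]
    constructor
    · rintro ⟨⟨h1, h2⟩, h3⟩; exact ⟨h1, h2, h3⟩
    · rintro ⟨h1, h2, h3⟩; exact ⟨⟨h1, h2⟩, h3⟩
  have hTev : ∀ a, m a ≠ 0 → ∀ᶠ N in atTop, a ∈ T N := by
    intro a ha
    have ha1 : a ∉ S := by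
      intro h; apply ha; simp only [hm, if_pos h]
    have ha2 : f a = 0 := by
      by_contra h
      have := mu_eq_zero hf h
      have := hmle a
      omega
    filter_upwards [eventually_ge_atTop ⌈‖a‖⌉₊] with N hN
    exact (hTm N a).mpr ⟨ha2, (Nat.le_ceil _).trans (by exact_mod_cast hN), ha1⟩
  obtain ⟨Pi, hPd, hPt, hPz⟩ := prod_conv m hm0 hmsum T hTev
  have hPT : ∀ N z, PT m (T N) z = PT (mu f) (T N) z := by
    intro N z
    unfold PT
    apply Finset.prod_congr rfl
    intro a ha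
    have : a ∉ S := ((hTm N a).mp ha).2.2
    simp only [hm, if_neg this]
  have hPt' : TendstoLocallyUniformlyOn (fun N z => PT (mu f) (T N) z) Pi atTop Set.univ := by
    have : (fun N z => PT (mu f) (T N) z) = fun N z => PT m (T N) z := by
      funext N z; rw [hPT]
    rw [this]; exact hPt
  have hPi0 : Pi 0 = 1 := by
    have h1 := hPt'.tendsto_at (Set.mem_univ (0:ℂ))
    simp only [C3c_PT_zero] at h1
    exact (tendsto_nhds_unique h1 tendsto_const_nhds)
  refine ⟨α, β, Pi, T, hPd, hTm, hPt', ?_, hrep⟩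
  have hQd : Differentiable ℂ
      (fun z => f 0 * Complex.exp (β * z + α * z ^ 2) * (PT (mu f) S z * Pi z)) := by
    have := C3c_PT_diff (mu f) S
    fun_prop
  have hmain := C3c_eq hf hQd h0 (by simp [C3c_PT_zero, hPi0]) (by
    intro z hz
    have hne : ∀ a, m a ≠ 0 → z ≠ a := by
      intro a ha hza
      have : mu f a = 0 := mu_eq_zero hf (by rw [← hza]; exact hz)
      have := hmle a
      omega
    obtain ⟨hPne, hPs, hPl⟩ := hPz z hne
    obtain ⟨hs, hr⟩ := hrep z hz
    have hPTne : PT (mu f) S z ≠ 0 := by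
      unfold PT
      rw [Finset.prod_ne_zero_iff]
      intro a _
      by_cases ha : mu f a = 0
      · rw [ha, pow_zero]; exact one_ne_zero
      · apply pow_ne_zero
        intro hcon
        rw [sub_eq_zero] at hcon
        have ha0 : a ≠ 0 := by
          rintro rfl
          exact ha (mu_eq_zero hf h0)
        rw [eq_comm, div_eq_one_iff_eq ha0] at hcon
        apply ha
        apply mu_eq_zero hf
        rw [← hcon]; exact hz
    have hlogPT : Real.log ‖PT (mu f) S z‖ = ∑ a ∈ S, (mu f a : ℝ) * Real.log ‖1 - z / a‖ := by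
      unfold PT at hPTne ⊢
      rw [norm_prod, Real.log_prod]
      · apply Finset.sum_congr rfl
        intro a _
        rw [norm_pow, Real.log_pow]
      · intro a ha hcon
        exact hPTne (Finset.prod_eq_zero ha (norm_eq_zero.mp hcon))
    have hsplit : ∑' a : ℂ, (mu f a : ℝ) * Real.log ‖1 - z / a‖ =
        ∑ a ∈ S, (mu f a : ℝ) * Real.log ‖1 - z / a‖ +
        ∑' a : ℂ, (m a : ℝ) * Real.log ‖1 - z / a‖ := by
      have e1 : ∀ a : ℂ, (mu f a : ℝ) * Real.log ‖1 - z / a‖ =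
          (if a ∈ S then (mu f a : ℝ) * Real.log ‖1 - z / a‖ else 0) +
          (m a : ℝ) * Real.log ‖1 - z / a‖ := by
        intro a
        simp only [hm]
        split_ifs <;> simp
      rw [tsum_congr e1]
      have hS : Summable (fun a : ℂ => if a ∈ S then (mu f a : ℝ) * Real.log ‖1 - z / a‖ else 0) := by
        apply summable_of_hasFiniteSupport
        apply (S.finite_toSet).subset
        intro a ha
        by_contra hcon
        apply ha
        have : a ∉ S := hcon
        simp only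
        rw [if_neg this]
      rw [hS.tsum_add hPs]
      congr 1
      rw [tsum_eq_sum (s := S)]
      · apply Finset.sum_congr rfl
        intro a ha
        rw [if_pos ha]
      · intro a ha
        rw [if_neg ha]
    have hfn : 0 < ‖f z‖ := norm_pos_iff.mpr hz
    have hQn : ‖f 0 * Complex.exp (β * z + α * z ^ 2) * (PT (mu f) S z * Pi z)‖ ≠ 0 := by
      rw [norm_ne_zero_iff]
      exact mul_ne_zero (mul_ne_zero h0 (Complex.exp_ne_zero _)) (mul_ne_zero hPTne hPne)
    apply Real.log_injOn_pos (Set.mem_Ioi.mpr (lt_of_le_of_ne (norm_nonneg _) hQn.symm))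
      (Set.mem_Ioi.mpr hfn)
    have n1 := norm_ne_zero_iff.mpr hPTne
    have n2 := norm_ne_zero_iff.mpr hPne
    have n3 := norm_ne_zero_iff.mpr h0
    have n4 := norm_ne_zero_iff.mpr (Complex.exp_ne_zero (β * z + α * z ^ 2))
    rw [norm_mul, norm_mul, norm_mul, Real.log_mul (mul_ne_zero n3 n4) (mul_ne_zero n1 n2),
      Real.log_mul n3 n4, Real.log_mul n1 n2, hlogPT, hPl,
      Complex.norm_exp, Real.log_exp, hr, hsplit])
  intro z
  exact congrFun hmain z

end Pool.Agent.helper38.UB
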