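import Pool.Agent.helper38.UB.A1

set_option autoImplicit false

namespace Pool.Agent.helper38.UB

open Filter Topology MeasureTheory
open Pool.Agent.helper38.NNF Pool.Agent.helper38.LacA
open scoped ComplexConjugate ComplexOrder

/-! C3d (signs of the coefficients) -/

theorem C3d_log_le (u : ℂ) : Real.log ‖1 - u‖ ≤ ‖u‖ := by
  have h1 : ‖1 - u‖ ≤ 1 + ‖u‖ := by
    calc ‖1 - u‖ ≤ ‖(1 : ℂ)‖ + ‖u‖ := norm_sub_le _ _
      _ = 1 + ‖u‖ := by simp
  rcases eq_or_ne ‖1 - u‖ 0 with h0 | h0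
  · rw [h0, Real.log_zero]; exact norm_nonneg _
  · have h2 : 0 < ‖1 - u‖ := lt_of_le_of_ne (norm_nonneg _) (Ne.symm h0)
    have h3 := Real.log_le_sub_one_of_pos h2
    linarith

theorem C3d_log_big {u : ℂ} (hu : 2 ≤ ‖u‖) : |Real.log ‖1 - u‖| ≤ ‖u‖ := by
  have h1 : 1 ≤ ‖1 - u‖ := by
    have := norm_sub_norm_le u 1
    rw [norm_sub_rev] at this
    simp only [norm_one] at this
    linarith
  rw [abs_of_nonneg (Real.log_nonneg h1)]
  exact C3d_log_le u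

theorem C3d_log_sector {u : ℂ} {κ : ℝ} (hκ0 : 0 ≤ κ) (hκ1 : κ < 1) (hu : u.re ≤ κ * ‖u‖) :
    |Real.log ‖1 - u‖| ≤ (1 - κ ^ 2)⁻¹ * ‖u‖ := by
  have hk : 0 < 1 - κ ^ 2 := by nlinarith
  have ht : 0 ≤ ‖u‖ := norm_nonneg u
  have hone : 1 ≤ (1 - κ ^ 2)⁻¹ := by
    rw [one_le_inv₀ hk]; nlinarith [sq_nonneg κ]
  have hD : ‖1 - u‖ ^ 2 = 1 - 2 * u.re + ‖u‖ ^ 2 := by
    rw [← Complex.normSq_eq_norm_sq, ← Complex.normSq_eq_norm_sq, Complex.normSq_apply,
      Complex.normSq_apply]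
    simp only [Complex.sub_re, Complex.one_re, Complex.sub_im, Complex.one_im]
    ring
  have hD2 : 1 - κ ^ 2 ≤ ‖1 - u‖ ^ 2 := by
    rw [hD]; nlinarith [sq_nonneg (‖u‖ - κ)]
  have hDpos : 0 < ‖1 - u‖ ^ 2 := lt_of_lt_of_le hk hD2
  have hlog : Real.log ‖1 - u‖ = (1 / 2) * Real.log (‖1 - u‖ ^ 2) := by
    rw [Real.log_pow]; push_cast; ring
  rw [abs_le]
  constructor
  · have h1 : 1 - (‖1 - u‖ ^ 2)⁻¹ ≤ Real.log (‖1 - u‖ ^ 2) := Real.one_sub_inv_le_log_of_pos hDpos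
    have h2 : 1 - (‖1 - u‖ ^ 2)⁻¹ = (‖1 - u‖ ^ 2 - 1) * (‖1 - u‖ ^ 2)⁻¹ := by
      rw [sub_mul, mul_inv_cancel₀ hDpos.ne', one_mul]
    have h3 : -(2 * ‖u‖) ≤ ‖1 - u‖ ^ 2 - 1 := by
      rw [hD]
      have : u.re ≤ ‖u‖ := Complex.re_le_norm u
      nlinarith [sq_nonneg ‖u‖]
    have h4 : (‖1 - u‖ ^ 2)⁻¹ ≤ (1 - κ ^ 2)⁻¹ := by
      apply inv_anti₀ hk hD2
    have h5 : 0 ≤ (‖1 - u‖ ^ 2)⁻¹ := inv_nonneg.mpr hDpos.le
    have h6 : -(2 * ‖u‖) * (1 - κ ^ 2)⁻¹ ≤ (‖1 - u‖ ^ 2 - 1) * (‖1 - u‖ ^ 2)⁻¹ := by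
      have h7 : -(2 * ‖u‖) * (1 - κ ^ 2)⁻¹ ≤ -(2 * ‖u‖) * (‖1 - u‖ ^ 2)⁻¹ := by
        apply mul_le_mul_of_nonpos_left h4
        linarith
      exact h7.trans (mul_le_mul_of_nonneg_right h3 h5)
    rw [hlog]
    nlinarith
  · have h1 := C3d_log_le u
    nlinarith

theorem C3d_geom {c s p q : ℝ} (hc : 0 < c) (hs : 0 ≤ s) (hsc : s ≤ c) (h1 : c ^ 2 + s ^ 2 = 1)
    (hpq : p ^ 2 + q ^ 2 = 1) (hp : 2 * c * s ≤ p) : p * s + |q| * c ≤ c := by
  have hp0 : 0 ≤ p := le_trans (by positivity) hp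
  have hp1 : p ≤ 1 := by nlinarith [sq_nonneg q]
  have hpos : 0 ≤ c - p * s := by nlinarith
  have hsq : (|q| * c) ^ 2 ≤ (c - p * s) ^ 2 := by
    rw [mul_pow, sq_abs]
    have hq : q ^ 2 = 1 - p ^ 2 := by linarith
    rw [hq]
    nlinarith [mul_nonneg hp0 (sub_nonneg.mpr hp)]
  have h2 := (le_abs_self _).trans (abs_le_of_sq_le_sq hsq hpos)
  linarith

/-- one ray -/
theorem C3d_ray {f : ℂ → ℂ} (hf : Differentiable ℂ f) (h0 : f 0 ≠ 0)
    (hsum : Summable (fun a : ℂ => (mu f a : ℝ) * ‖a‖⁻¹)) (e : ℂ) (he : ‖e‖ = 1) {κ : ℝ}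
    (hκ0 : 0 ≤ κ) (hκ1 : κ < 1) (E : Set ℂ) (hE : E.Finite)
    (hsec : ∀ a : ℂ, f a = 0 → a ∉ E → ∀ r : ℝ, 0 ≤ r → ((r : ℂ) * e / a).re ≤ κ * ‖(r : ℂ) * e / a‖) :
    Tendsto (fun r : ℝ => r⁻¹ * ∑' a : ℂ, (mu f a : ℝ) * Real.log ‖1 - (r : ℂ) * e / a‖) atTop
      (𝓝 0) := by
  have hk : 0 < 1 - κ ^ 2 := by nlinarith
  have hone : 1 ≤ (1 - κ ^ 2)⁻¹ := by
    rw [one_le_inv₀ hk]; nlinarith [sq_nonneg κ]
  obtain ⟨RE, hRE⟩ : ∃ RE : ℝ, ∀ a ∈ E, ‖a‖ ≤ RE := by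
    obtain ⟨C, hC⟩ := hE.isBounded.exists_norm_le
    exact ⟨C, fun a ha => hC a ha⟩
  have key : Tendsto (fun r : ℝ => ∑' a : ℂ, r⁻¹ * ((mu f a : ℝ) * Real.log ‖1 - (r : ℂ) * e / a‖))
      atTop (𝓝 (∑' a : ℂ, (0 : ℝ))) := by
    refine tendsto_tsum_of_dominated_convergence
      (bound := fun a : ℂ => (1 - κ ^ 2)⁻¹ * ((mu f a : ℝ) * ‖a‖⁻¹)) (hsum.mul_left _) ?_ ?_
    · intro a
      by_cases ha : a = 0
      · subst ha
        simp
      have ha' : 0 < ‖a‖ := norm_pos_iff.mpr ha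
      -- squeeze
      have h1 : Tendsto (fun r : ℝ => r⁻¹ * Real.log ‖1 - (r : ℂ) * e / a‖) atTop (𝓝 0) := by
        have h2 : Tendsto (fun r : ℝ => r⁻¹ * Real.log (1 + r * ‖a‖⁻¹)) atTop (𝓝 0) := by
          have h3 : Tendsto (fun y : ℝ => Real.log y / y) atTop (𝓝 0) := by
            have := Real.isLittleO_log_id_atTop.tendsto_div_nhds_zero
            simpa using this
          have h4 : Tendsto (fun r : ℝ => 1 + r * ‖a‖⁻¹) atTop atTop := by
            apply tendsto_atTop_add_const_left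
            exact Tendsto.atTop_mul_const (inv_pos.mpr ha') tendsto_id
          have h5 := h3.comp h4
          have h6 : Tendsto (fun r : ℝ => (1 + r * ‖a‖⁻¹) / r) atTop (𝓝 (0 + ‖a‖⁻¹)) := by
            have h7 : Tendsto (fun r : ℝ => r⁻¹ + ‖a‖⁻¹) atTop (𝓝 (0 + ‖a‖⁻¹)) :=
              tendsto_inv_atTop_zero.add tendsto_const_nhds
            refine h7.congr' ?_
            filter_upwards [eventually_gt_atTop (0 : ℝ)] with r hr
            field_simp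
          have h8 := h5.mul h6
          simp only [zero_mul] at h8
          refine h8.congr' ?_
          filter_upwards [eventually_gt_atTop (0 : ℝ)] with r hr
          have : (1 + r * ‖a‖⁻¹) ≠ 0 := by positivity
          simp only [Function.comp]
          field_simp
        refine squeeze_zero' ?_ ?_ h2
        · filter_upwards [eventually_ge_atTop (2 * ‖a‖), eventually_gt_atTop (0 : ℝ)] with r hr hr0
          have hu : 2 ≤ ‖(r : ℂ) * e / a‖ := by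
            rw [norm_div, norm_mul, he, mul_one, Complex.norm_real, Real.norm_of_nonneg hr0.le,
              le_div_iff₀ ha']
            exact hr
          have h1 : 1 ≤ ‖1 - (r : ℂ) * e / a‖ := by
            have := norm_sub_norm_le ((r : ℂ) * e / a) 1
            rw [norm_sub_rev] at this
            simp only [norm_one] at this
            linarith
          exact mul_nonneg (inv_nonneg.mpr hr0.le) (Real.log_nonneg h1)
        · filter_upwards [eventually_ge_atTop (2 * ‖a‖), eventually_gt_atTop (0 : ℝ)] with r hr hr0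
          have hu : ‖(r : ℂ) * e / a‖ = r * ‖a‖⁻¹ := by
            rw [norm_div, norm_mul, he, mul_one, Complex.norm_real, Real.norm_of_nonneg hr0.le]
            rfl
          have hu2 : 2 ≤ ‖(r : ℂ) * e / a‖ := by
            rw [hu, ← div_eq_mul_inv, le_div_iff₀ ha']
            exact hr
          have h1 : 1 ≤ ‖1 - (r : ℂ) * e / a‖ := by
            have := norm_sub_norm_le ((r : ℂ) * e / a) 1
            rw [norm_sub_rev] at this
            simp only [norm_one] at this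
            linarith
          apply mul_le_mul_of_nonneg_left _ (inv_nonneg.mpr hr0.le)
          apply Real.log_le_log (by linarith)
          calc ‖1 - (r : ℂ) * e / a‖ ≤ ‖(1 : ℂ)‖ + ‖(r : ℂ) * e / a‖ := norm_sub_le _ _
            _ = 1 + r * ‖a‖⁻¹ := by rw [hu]; simp
      have h9 := h1.const_mul (mu f a : ℝ)
      rw [mul_zero] at h9
      refine h9.congr fun r => ?_
      ring
    · filter_upwards [eventually_ge_atTop (2 * RE), eventually_gt_atTop (0 : ℝ)] with r hr hr0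
      intro a
      by_cases hfa : f a = 0
      swap
      · rw [mu_eq_zero hf hfa]; simp
      have ha : a ≠ 0 := by rintro rfl; exact h0 hfa
      have ha' : 0 < ‖a‖ := norm_pos_iff.mpr ha
      have hu : ‖(r : ℂ) * e / a‖ = r * ‖a‖⁻¹ := by
        rw [norm_div, norm_mul, he, mul_one, Complex.norm_real, Real.norm_of_nonneg hr0.le]
        rfl
      have hbd : |Real.log ‖1 - (r : ℂ) * e / a‖| ≤ (1 - κ ^ 2)⁻¹ * ‖(r : ℂ) * e / a‖ := by
        by_cases haE : a ∈ E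
        · have h2 : 2 ≤ ‖(r : ℂ) * e / a‖ := by
            rw [hu, ← div_eq_mul_inv, le_div_iff₀ ha']
            have := hRE a haE
            linarith
          refine (C3d_log_big h2).trans ?_
          nlinarith [norm_nonneg ((r : ℂ) * e / a)]
        · exact C3d_log_sector hκ0 hκ1 (hsec a hfa haE r hr0.le)
      rw [Real.norm_eq_abs, abs_mul, abs_mul, abs_of_pos (inv_pos.mpr hr0),
        abs_of_nonneg (Nat.cast_nonneg (mu f a))]
      calc r⁻¹ * ((mu f a : ℝ) * |Real.log ‖1 - (r : ℂ) * e / a‖|)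
          ≤ r⁻¹ * ((mu f a : ℝ) * ((1 - κ ^ 2)⁻¹ * ‖(r : ℂ) * e / a‖)) := by
            gcongr
        _ = (1 - κ ^ 2)⁻¹ * ((mu f a : ℝ) * ‖a‖⁻¹) := by
            rw [hu]; field_simp
  rw [tsum_zero] at key
  refine key.congr fun r => ?_
  rw [tsum_mul_left]

/-- on the ray `z = r e^{iθ}`, `π - b < θ < π/2`: both `z` and `-z` stay away from the zeros, the
sum over the zeros is `o(r)` by dominated convergence (`|log |1 ± z/a|| ≤ C |z/a|`). -/
theorem beta_nonneg {f : ℂ → ℂ} (hf : Differentiable ℂ f) (h0 : f 0 ≠ 0) {α β : ℝ}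
    (hrep : ∀ z, f z ≠ 0 → Real.log ‖f z‖ = Real.log ‖f 0‖ + ((β : ℂ) * z + α * z ^ 2).re +
        ∑' a : ℂ, (mu f a : ℝ) * Real.log ‖1 - z / a‖)
    (hsum : Summable (fun a : ℂ => (mu f a : ℝ) * ‖a‖⁻¹)) {b : ℝ} (hb : Real.pi / 2 < b)
    (hz : {z : ℂ | f z = 0 ∧ |Complex.arg z| < b}.Finite)
    (hratio : ∃ C R : ℝ, 0 < C ∧ 0 < R ∧ ∀ z : ℂ, R ≤ ‖z‖ → 0 ≤ z.re → ‖f (-z)‖ ≤ C * ‖f z‖) :
    0 ≤ β := by
  obtain ⟨C, R, hC, hR, hCR⟩ := hratio
  have hpi := Real.pi_pos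
  set δ : ℝ := min (b - Real.pi / 2) (Real.pi / 2) with hδ
  have hδ0 : 0 < δ := lt_min (by linarith) (by linarith)
  have hδb : Real.pi / 2 + δ ≤ b := by
    have := min_le_left (b - Real.pi / 2) (Real.pi / 2)
    linarith
  have hδp : δ ≤ Real.pi / 2 := min_le_right _ _
  set c : ℝ := Real.cos (δ / 2) with hcdef
  set s : ℝ := Real.sin (δ / 2) with hsdef
  have hc0 : 0 < c := Real.cos_pos_of_mem_Ioo ⟨by linarith, by linarith⟩
  have hs0 : 0 < s := Real.sin_pos_of_pos_of_lt_pi (by linarith) (by linarith)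
  have hcs : c ^ 2 + s ^ 2 = 1 := Real.cos_sq_add_sin_sq _
  have hsc : s ≤ c := by
    have h1 : s ≤ Real.sin (Real.pi / 4) :=
      Real.sin_le_sin_of_le_of_le_pi_div_two (by linarith) (by linarith) (by linarith)
    have h2 : Real.cos (Real.pi / 4) ≤ c :=
      Real.cos_le_cos_of_nonneg_of_le_pi (by linarith) (by linarith) (by linarith)
    rw [Real.sin_pi_div_four] at h1
    rw [Real.cos_pi_div_four] at h2
    linarith
  have hc1 : c < 1 := by nlinarith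
  set e : ℂ := ⟨s, c⟩ with hedef
  have he : ‖e‖ = 1 := by
    have : ‖e‖ ^ 2 = 1 := by
      rw [← Complex.normSq_eq_norm_sq, Complex.normSq_apply]
      simp only [hedef]; nlinarith
    have h2 : 0 ≤ ‖e‖ := norm_nonneg _
    nlinarith [sq_nonneg (‖e‖ - 1)]
  -- zeros away from the finite set are in the left sector
  have hleft : ∀ a : ℂ, f a = 0 → a ∉ {z : ℂ | f z = 0 ∧ |Complex.arg z| < b} →
      2 * c * s * ‖a‖ ≤ -a.re := by
    intro a ha haE
    have harg : b ≤ |Complex.arg a| := by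
      by_contra hcon
      exact haE ⟨ha, not_le.mp hcon⟩
    have h1 : ‖a‖ * Real.cos (Complex.arg a) = a.re := Complex.norm_mul_cos_arg a
    have h2 : Real.cos (Complex.arg a) ≤ Real.cos (Real.pi / 2 + δ) := by
      rw [← Real.cos_abs (Complex.arg a)]
      apply Real.cos_le_cos_of_nonneg_of_le_pi (by linarith) (Complex.abs_arg_le_pi a)
      linarith
    have h3 : Real.cos (Real.pi / 2 + δ) = -(2 * c * s) := by
      rw [Real.cos_add, Real.cos_pi_div_two, Real.sin_pi_div_two]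
      have : Real.sin δ = 2 * s * c := by
        have := Real.sin_two_mul (δ / 2)
        rw [show 2 * (δ / 2) = δ by ring] at this
        rw [this]
      rw [this]; ring
    rw [← h1]
    have h4 := norm_nonneg a
    nlinarith
  have hdiv : ∀ (v a : ℂ), a ≠ 0 → (v / a).re = (v.re * a.re + v.im * a.im) / ‖a‖ ^ 2 := by
    intro v a ha
    rw [Complex.div_re, Complex.normSq_eq_norm_sq]
    ring
  have hgen : ∀ (σ : ℝ), (σ = 1 ∨ σ = -1) → ∀ a : ℂ, f a = 0 →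
      a ∉ {z : ℂ | f z = 0 ∧ |Complex.arg z| < b} → ∀ r : ℝ, 0 ≤ r →
      ((r : ℂ) * ((σ : ℂ) * e) / a).re ≤ c * ‖(r : ℂ) * ((σ : ℂ) * e) / a‖ := by
    intro σ hσ a ha haE r hr
    have ha0 : a ≠ 0 := by rintro rfl; exact h0 ha
    have hn : 0 < ‖a‖ := norm_pos_iff.mpr ha0
    have hσ1 : |σ| = 1 := by rcases hσ with h | h <;> simp [h]
    have hnorm : ‖(r : ℂ) * ((σ : ℂ) * e) / a‖ = r / ‖a‖ := by
      rw [norm_div, norm_mul, norm_mul, he, Complex.norm_real, Complex.norm_real,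
        Real.norm_of_nonneg hr, Real.norm_eq_abs, hσ1]
      ring
    rw [hnorm, hdiv _ _ ha0]
    have hre : ((r : ℂ) * ((σ : ℂ) * e)).re = r * (σ * s) := by
      simp [hedef]
    have him : ((r : ℂ) * ((σ : ℂ) * e)).im = r * (σ * c) := by
      simp [hedef]
    rw [hre, him]
    set p : ℝ := -a.re / ‖a‖ with hp
    set q : ℝ := a.im / ‖a‖ with hq
    have hare : a.re = -(p * ‖a‖) := by rw [hp]; field_simp
    have haim : a.im = q * ‖a‖ := by rw [hq]; field_simp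
    have hpq : p ^ 2 + q ^ 2 = 1 := by
      have h1 : a.re ^ 2 + a.im ^ 2 = ‖a‖ ^ 2 := by
        rw [← Complex.normSq_eq_norm_sq, Complex.normSq_apply]; ring
      rw [hp, hq]
      field_simp
      linarith
    have hp2 : 2 * c * s ≤ p := by
      rw [hp, le_div_iff₀ hn]
      exact hleft a ha haE
    have hg := C3d_geom hc0 hs0.le hsc hcs hpq hp2
    have hp0 : 0 ≤ p := le_trans (by positivity) hp2
    have hmain : σ * (-(p * s) + q * c) ≤ c := by
      have hq1 : q ≤ |q| := le_abs_self q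
      have hq2 : -q ≤ |q| := neg_le_abs q
      have hps : 0 ≤ p * s := by positivity
      rcases hσ with h | h
      · rw [h]; nlinarith
      · rw [h]; nlinarith
    have hfin : (r * (σ * s) * a.re + r * (σ * c) * a.im) / ‖a‖ ^ 2
        = (r / ‖a‖) * (σ * (-(p * s) + q * c)) := by
      rw [hare, haim]
      field_simp
    rw [hfin, mul_comm c]
    exact mul_le_mul_of_nonneg_left hmain (by positivity)
  -- both rays
  have ray1 := C3d_ray hf h0 hsum ((1 : ℝ) * e) (by simp [he]) hc0.le hc1 _ hz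
    (fun a ha haE r hr => hgen 1 (Or.inl rfl) a ha haE r hr)
  have ray2 := C3d_ray hf h0 hsum ((-1 : ℝ) * e) (by simp [he]) hc0.le hc1 _ hz
    (fun a ha haE r hr => hgen (-1) (Or.inr rfl) a ha haE r hr)
  by_contra hβ
  push Not at hβ
  obtain ⟨RE, hRE⟩ : ∃ RE : ℝ, ∀ a ∈ {z : ℂ | f z = 0 ∧ |Complex.arg z| < b}, ‖a‖ ≤ RE := by
    obtain ⟨C, hC⟩ := hz.isBounded.exists_norm_le
    exact ⟨C, fun a ha => hC a ha⟩
  have hnz : ∀ (σ : ℝ), (σ = 1 ∨ σ = -1) → ∀ r : ℝ, 0 < r → RE < r →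
      f ((r : ℂ) * ((σ : ℂ) * e)) ≠ 0 := by
    intro σ hσ r hr0 hr hf0
    set z : ℂ := (r : ℂ) * ((σ : ℂ) * e) with hzdef
    have hσ1 : |σ| = 1 := by rcases hσ with h | h <;> simp [h]
    have hnorm : ‖z‖ = r := by
      rw [hzdef, norm_mul, norm_mul, he, Complex.norm_real, Complex.norm_real,
        Real.norm_of_nonneg hr0.le, Real.norm_eq_abs, hσ1]
      ring
    by_cases hzE : z ∈ {z : ℂ | f z = 0 ∧ |Complex.arg z| < b}
    · have := hRE z hzE
      rw [hnorm] at this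
      linarith
    · have h1 := hgen σ hσ z hf0 hzE r hr0.le
      have hz0 : z ≠ 0 := by
        intro h
        rw [h, norm_zero] at hnorm
        linarith
      rw [← hzdef, div_self hz0] at h1
      simp at h1
      linarith
  have hlim : Tendsto (fun r : ℝ => r⁻¹ * Real.log C
      + r⁻¹ * ∑' a : ℂ, (mu f a : ℝ) * Real.log ‖1 - (r : ℂ) * ((1 : ℝ) * e) / a‖
      - r⁻¹ * ∑' a : ℂ, (mu f a : ℝ) * Real.log ‖1 - (r : ℂ) * ((-1 : ℝ) * e) / a‖)
      atTop (𝓝 (0 * Real.log C + 0 - 0)) :=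
    ((tendsto_inv_atTop_zero.mul_const _).add ray1).sub ray2
  have hlt : (0 * Real.log C + 0 - 0 : ℝ) < -2 * β * s := by
    nlinarith [mul_pos (neg_pos.mpr hβ) hs0]
  obtain ⟨r, hr1, hr2, hr3, hr4⟩ := ((hlim.eventually_lt_const hlt).and
    ((eventually_gt_atTop (0 : ℝ)).and ((eventually_gt_atTop RE).and
      (eventually_ge_atTop R)))).exists
  have hz1 : f ((r : ℂ) * (((1 : ℝ) : ℂ) * e)) ≠ 0 := hnz 1 (Or.inl rfl) r hr2 hr3
  have hz2 : f ((r : ℂ) * (((-1 : ℝ) : ℂ) * e)) ≠ 0 := hnz (-1) (Or.inr rfl) r hr2 hr3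
  have hneg : (r : ℂ) * (((-1 : ℝ) : ℂ) * e) = -((r : ℂ) * (((1 : ℝ) : ℂ) * e)) := by
    push_cast; ring
  have hrat := hCR ((r : ℂ) * (((1 : ℝ) : ℂ) * e)) (by
      rw [norm_mul, norm_mul, he, Complex.norm_real, Complex.norm_real,
        Real.norm_of_nonneg hr2.le]
      simpa using hr4) (by
      simp [hedef]
      positivity)
  rw [← hneg] at hrat
  have hlog : Real.log ‖f ((r : ℂ) * (((-1 : ℝ) : ℂ) * e))‖
      ≤ Real.log C + Real.log ‖f ((r : ℂ) * (((1 : ℝ) : ℂ) * e))‖ := by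
    rw [← Real.log_mul hC.ne' (norm_ne_zero_iff.mpr hz1)]
    exact Real.log_le_log (norm_pos_iff.mpr hz2) hrat
  rw [hrep _ hz1, hrep _ hz2] at hlog
  have hre1 : ((β : ℂ) * ((r : ℂ) * (((1 : ℝ) : ℂ) * e))
      + α * ((r : ℂ) * (((1 : ℝ) : ℂ) * e)) ^ 2).re
      = β * (r * s) + α * ((r : ℂ) * (((1 : ℝ) : ℂ) * e)  * ((r : ℂ) * (((1 : ℝ) : ℂ) * e))).re := by
    rw [Complex.add_re, Complex.re_ofReal_mul, sq, Complex.re_ofReal_mul]
    simp [hedef]
  have hre2 : ((β : ℂ) * ((r : ℂ) * (((-1 : ℝ) : ℂ) * e))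
      + α * ((r : ℂ) * (((-1 : ℝ) : ℂ) * e)) ^ 2).re
      = -(β * (r * s)) + α * ((r : ℂ) * (((1 : ℝ) : ℂ) * e)  * ((r : ℂ) * (((1 : ℝ) : ℂ) * e))).re := by
    rw [hneg, neg_sq, Complex.add_re, Complex.re_ofReal_mul, sq, Complex.re_ofReal_mul]
    simp [hedef]
  rw [hre1, hre2] at hlog
  set S1 : ℝ := ∑' a : ℂ, (mu f a : ℝ) * Real.log ‖1 - (r : ℂ) * ((1 : ℝ) * e) / a‖ with hS1
  set S2 : ℝ := ∑' a : ℂ, (mu f a : ℝ) * Real.log ‖1 - (r : ℂ) * ((-1 : ℝ) * e) / a‖ with hS2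
  have h10 : -2 * β * s * r ≤ Real.log C + S1 - S2 := by
    linarith
  have h11 : r⁻¹ * Real.log C + r⁻¹ * S1 - r⁻¹ * S2 = (Real.log C + S1 - S2) / r := by
    field_simp
  rw [h11, div_lt_iff₀ hr2] at hr1
  linarith

theorem gr_one {f : ℂ → ℂ} (hN : NN f) (h0 : f 0 ≠ 0) {α β : ℝ} (hα : α ≤ 0)
    (hrep : ∀ z, f z ≠ 0 → Real.log ‖f z‖ = Real.log ‖f 0‖ + ((β : ℂ) * z + α * z ^ 2).re +
        ∑' a : ℂ, (mu f a : ℝ) * Real.log ‖1 - z / a‖)
    (hsum : Summable (fun a : ℂ => (mu f a : ℝ) * ‖a‖⁻¹)) : Gr f 1 := by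
  set A : ℝ := ∑' a : ℂ, (mu f a : ℝ) * ‖a‖⁻¹ with hA
  have hA0 : 0 ≤ A := tsum_nonneg fun a => by positivity
  have hval0 : 0 < val f 0 := by
    have h1 : f ((0 : ℝ) : ℂ) = (val f 0 : ℂ) := val_eq hN 0
    have h2 : 0 ≤ val f 0 := val_nonneg hN le_rfl
    rcases h2.lt_or_eq with h | h
    · exact h
    · exfalso
      apply h0
      rw [← h] at h1
      simpa using h1
  refine ⟨|Real.log ‖f 0‖| + |β| + A, by positivity, fun z => ?_⟩
  set r : ℝ := ‖z‖ with hr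
  have hr0 : 0 ≤ r := norm_nonneg z
  have h1 : ‖f z‖ ≤ val f r := norm_le_val hN z
  have hvr : 0 < val f r := lt_of_lt_of_le hval0 (val_mono hN le_rfl hr0)
  have hfr : f (r : ℂ) = (val f r : ℂ) := val_eq hN r
  have hfr0 : f (r : ℂ) ≠ 0 := by
    rw [hfr]; exact_mod_cast hvr.ne'
  have hlog : Real.log (val f r) ≤ |Real.log ‖f 0‖| + |β| * r + A * r := by
    have h2 := hrep (r : ℂ) hfr0
    rw [hfr, Complex.norm_real, Real.norm_of_nonneg hvr.le] at h2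
    rw [h2]
    have h3 : ((β : ℂ) * (r : ℂ) + α * (r : ℂ) ^ 2).re = β * r + α * r ^ 2 := by
      have : ((β : ℂ) * (r : ℂ) + α * (r : ℂ) ^ 2) = ((β * r + α * r ^ 2 : ℝ) : ℂ) := by
        push_cast; ring
      rw [this, Complex.ofReal_re]
    rw [h3]
    have h4 : ∑' a : ℂ, (mu f a : ℝ) * Real.log ‖1 - (r : ℂ) / a‖ ≤ A * r := by
      by_cases hs : Summable (fun a : ℂ => (mu f a : ℝ) * Real.log ‖1 - (r : ℂ) / a‖)
      · rw [hA, ← tsum_mul_right]
        refine Summable.tsum_le_tsum (fun a => ?_) hs (hsum.mul_right r)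
        have h5 := C3d_log_le ((r : ℂ) / a)
        rw [norm_div, Complex.norm_real, Real.norm_of_nonneg hr0] at h5
        calc (mu f a : ℝ) * Real.log ‖1 - (r : ℂ) / a‖ ≤ (mu f a : ℝ) * (r / ‖a‖) := by gcongr
          _ = (mu f a : ℝ) * ‖a‖⁻¹ * r := by rw [div_eq_mul_inv]; ring
      · rw [tsum_eq_zero_of_not_summable hs]; positivity
    have h6 : β * r ≤ |β| * r := mul_le_mul_of_nonneg_right (le_abs_self β) hr0
    have h7 : α * r ^ 2 ≤ 0 := mul_nonpos_of_nonpos_of_nonneg hα (sq_nonneg r)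
    have h8 := le_abs_self (Real.log ‖f 0‖)
    linarith
  calc ‖f z‖ ≤ val f r := h1
    _ = Real.exp (Real.log (val f r)) := (Real.exp_log hvr).symm
    _ ≤ Real.exp ((|Real.log ‖f 0‖| + |β| + A) * (1 + r) ^ (1 : ℝ)) := by
        apply Real.exp_le_exp.mpr
        rw [Real.rpow_one]
        nlinarith [abs_nonneg (Real.log ‖f 0‖), abs_nonneg β, mul_nonneg (abs_nonneg (Real.log ‖f 0‖)) hr0]

end Pool.Agent.helper38.UB
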