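import Pool.Agent.helper38.UB.Defs

set_option autoImplicit false

namespace Pool.Agent.helper38.UB

open Filter Topology MeasureTheory
open Pool.Agent.helper38.NNF Pool.Agent.helper38.LacA
open scoped ComplexConjugate ComplexOrder

/-! C4 (coefficient class) -/

theorem C4_re {F : ℂ → ℂ} (hF : NN F) (k : ℕ) : tc F k = (((tc F k).re : ℝ) : ℂ) := by
  have h := (Complex.nonneg_iff.mp (hF.2 k)).2
  apply Complex.ext
  · simp
  · simp [← h]

theorem C4_re_nonneg {F : ℂ → ℂ} (hF : NN F) (k : ℕ) : 0 ≤ (tc F k).re :=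
  (Complex.nonneg_iff.mp (hF.2 k)).1

theorem C4_mul_re {F G : ℂ → ℂ} (hF : NN F) (hG : NN G) (k : ℕ) :
    (tc (fun z => F z * G z) k).re
      = ∑ i ∈ Finset.range (k + 1), (tc F i).re * (tc G (k - i)).re := by
  rw [tc_mul hF.1 hG.1, Complex.re_sum]
  apply Finset.sum_congr rfl
  intro i _
  rw [C4_re hF i, C4_re hG (k - i)]
  simp

theorem C4_deriv_re {F : ℂ → ℂ} (k : ℕ) :
    (tc (deriv F) k).re = ((k : ℝ) + 1) * (tc F (k + 1)).re := by
  rw [tc_deriv]
  have : ((k : ℂ) + 1) = (((k : ℝ) + 1 : ℝ) : ℂ) := by push_cast; rfl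
  rw [this, Complex.re_ofReal_mul]

theorem CB.mul {B B' : ℝ} {F G : ℂ → ℂ} (hF : CB B F) (hG : CB B' G) :
    CB (B + B') (fun z => F z * G z) := by
  refine ⟨hF.1.mul hG.1, fun k => ?_⟩
  have hd : deriv (fun z => F z * G z) = fun z => deriv F z * G z + F z * deriv G z := by
    funext z
    exact deriv_fun_mul (hF.1.1 z) (hG.1.1 z)
  have hadd := tc_add (F := fun z => deriv F z * G z) (G := fun z => F z * deriv G z)
    (hF.1.1.deriv.mul hG.1.1) (hF.1.1.mul hG.1.1.deriv) k
  rw [← C4_deriv_re, hd, hadd,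
    Complex.add_re, C4_mul_re hF.1.derivNN hG.1, C4_mul_re hF.1 hG.1.derivNN,
    C4_mul_re hF.1 hG.1, add_mul, Finset.mul_sum, Finset.mul_sum]
  apply add_le_add
  · apply Finset.sum_le_sum
    intro i _
    rw [C4_deriv_re, ← mul_assoc]
    exact mul_le_mul_of_nonneg_right (hF.2 i) (C4_re_nonneg hG.1 _)
  · apply Finset.sum_le_sum
    intro i _
    rw [C4_deriv_re, mul_left_comm B']
    exact mul_le_mul_of_nonneg_left (hG.2 _) (C4_re_nonneg hF.1 _)

theorem CB.mono {B B' : ℝ} {F : ℂ → ℂ} (hF : CB B F) (h : B ≤ B') : CB B' F :=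
  ⟨hF.1, fun k => (hF.2 k).trans (mul_le_mul_of_nonneg_right h (C4_re_nonneg hF.1 k))⟩

theorem C4_tc_exp (β : ℝ) (k : ℕ) :
    tc (fun z => Complex.exp (β * z)) k = ((β ^ k / (k.factorial : ℝ) : ℝ) : ℂ) := by
  apply tc_unique (c := fun k => ((β ^ k / (k.factorial : ℝ) : ℝ) : ℂ))
  intro z
  have h := NormedSpace.expSeries_div_hasSum_exp (𝔸 := ℂ) ((β : ℂ) * z)
  rw [← Complex.exp_eq_exp_ℂ] at h
  refine h.congr_fun ?_ |> fun h => h
  intro n
  rw [mul_pow]
  push_cast
  ring

theorem CB_exp {β : ℝ} (hβ : 0 ≤ β) : CB β (fun z => Complex.exp (β * z)) := by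
  refine ⟨⟨by fun_prop, fun k => ?_⟩, fun k => ?_⟩
  · rw [C4_tc_exp, Complex.zero_le_real]
    positivity
  · rw [C4_tc_exp, C4_tc_exp, Complex.ofReal_re, Complex.ofReal_re, Nat.factorial_succ]
    apply le_of_eq
    have : ((k.factorial : ℕ) : ℝ) ≠ 0 := by exact_mod_cast Nat.factorial_ne_zero k
    have h2 : ((k : ℝ) + 1) ≠ 0 := by positivity
    push_cast
    field_simp
    ring

theorem C4_tc_poly (p : Polynomial ℂ) (k : ℕ) : tc (fun z => p.eval z) k = p.coeff k := by
  apply tc_unique (c := fun k => p.coeff k)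
  intro z
  rw [Polynomial.eval_eq_sum, Polynomial.sum]
  apply hasSum_sum_of_ne_finset_zero
  intro b hb
  rw [Polynomial.notMem_support_iff.mp hb, zero_mul]

/-- positivity up to degree `d` -/
def C4_Pos (d : ℕ) (F : ℂ → ℂ) : Prop := NN F ∧ ∀ k ≤ d, 0 < (tc F k).re

theorem C4_Pos.mul {d d' : ℕ} {F G : ℂ → ℂ} (hF : C4_Pos d F) (hG : C4_Pos d' G) :
    C4_Pos (d + d') (fun z => F z * G z) := by
  refine ⟨hF.1.mul hG.1, fun k hk => ?_⟩
  rw [C4_mul_re hF.1 hG.1]
  apply Finset.sum_pos' (fun i _ => mul_nonneg (C4_re_nonneg hF.1 _) (C4_re_nonneg hG.1 _))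
  refine ⟨min k d, Finset.mem_range.mpr (by omega), ?_⟩
  exact mul_pos (hF.2 _ (by omega)) (hG.2 _ (by omega))

theorem C4_one_NN : NN (fun _ => (1 : ℂ)) := NN.const zero_le_one

theorem C4_Pos_one : C4_Pos 0 (fun _ => (1 : ℂ)) := by
  refine ⟨C4_one_NN, fun k hk => ?_⟩
  rw [tc_const, if_pos (by omega)]
  simp

theorem C4_CB_one : CB 0 (fun _ => (1 : ℂ)) := by
  refine ⟨C4_one_NN, fun k => ?_⟩
  rw [tc_const, if_neg (by omega)]
  simp

theorem C4_Pos.pow {d : ℕ} {F : ℂ → ℂ} (hF : C4_Pos d F) (m : ℕ) :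
    C4_Pos (m * d) (fun z => F z ^ m) := by
  induction m with
  | zero => simpa using C4_Pos_one
  | succ m ih =>
    have h := ih.mul hF
    have e : (fun z => F z ^ (m + 1)) = fun z => F z ^ m * F z := by
      funext z; rw [pow_succ]
    rw [e, Nat.succ_mul]
    exact h

theorem C4_CB_pow {B : ℝ} {F : ℂ → ℂ} (hF : CB B F) (m : ℕ) :
    CB (m * B) (fun z => F z ^ m) := by
  induction m with
  | zero => simpa using C4_CB_one
  | succ m ih =>
    have h := ih.mul hF
    have e : (fun z => F z ^ (m + 1)) = fun z => F z ^ m * F z := by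
      funext z; rw [pow_succ]
    rw [e]
    refine CB.mono h (le_of_eq ?_)
    push_cast
    ring

/-- the linear factor -/
theorem C4_lin_tc (c : ℝ) (k : ℕ) :
    tc (fun z => 1 + (c : ℂ) * z) k = if k = 0 then 1 else if k = 1 then (c : ℂ) else 0 := by
  have h := C4_tc_poly (1 + Polynomial.C (c : ℂ) * Polynomial.X) k
  have e : (fun z : ℂ => (1 + Polynomial.C (c : ℂ) * Polynomial.X).eval z)
      = fun z => 1 + (c : ℂ) * z := by
    funext z; simp
  rw [e] at h
  rw [h]
  rcases k with _ | _ | k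
  · simp
  · simp [Polynomial.coeff_one]
  · simp [Polynomial.coeff_one, Polynomial.coeff_X]

theorem C4_quad_tc (c e : ℝ) (k : ℕ) :
    tc (fun z => 1 + (c : ℂ) * z + (e : ℂ) * z ^ 2) k
      = if k = 0 then 1 else if k = 1 then (c : ℂ) else if k = 2 then (e : ℂ) else 0 := by
  have h := C4_tc_poly (1 + Polynomial.C (c : ℂ) * Polynomial.X
    + Polynomial.C (e : ℂ) * Polynomial.X ^ 2) k
  have e' : (fun z : ℂ => (1 + Polynomial.C (c : ℂ) * Polynomial.X
      + Polynomial.C (e : ℂ) * Polynomial.X ^ 2).eval z)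
      = fun z => 1 + (c : ℂ) * z + (e : ℂ) * z ^ 2 := by
    funext z; simp
  rw [e'] at h
  rw [h]
  rcases k with _ | _ | _ | k
  · simp
  · simp [Polynomial.coeff_one, Polynomial.coeff_X_pow]
  · simp [Polynomial.coeff_one, Polynomial.coeff_X_pow, Polynomial.coeff_X]
  · simp [Polynomial.coeff_one, Polynomial.coeff_X_pow, Polynomial.coeff_X]

theorem C4_lin {c : ℝ} (hc : 0 < c) :
    CB c (fun z => 1 + (c : ℂ) * z) ∧ C4_Pos 1 (fun z => 1 + (c : ℂ) * z) := by
  have hN : NN (fun z => 1 + (c : ℂ) * z) := by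
    refine ⟨by fun_prop, fun k => ?_⟩
    rw [C4_lin_tc]
    split_ifs
    · exact zero_le_one
    · rw [Complex.zero_le_real]; exact hc.le
    · exact le_rfl
  refine ⟨⟨hN, fun k => ?_⟩, ⟨hN, fun k hk => ?_⟩⟩
  · rcases k with _ | k
    · rw [C4_lin_tc, C4_lin_tc]; simp
    · rw [C4_lin_tc, if_neg (by omega), if_neg (by omega)]
      rw [Complex.zero_re, mul_zero]
      exact mul_nonneg hc.le (C4_re_nonneg hN _)
  · rw [C4_lin_tc]
    rcases k with _ | _ | k
    · simp
    · simpa using hc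
    · omega

theorem C4_quad {c e B : ℝ} (hc : 0 < c) (he : 0 < e) (h1 : c ≤ B) (h2 : 2 * e ≤ B * c) :
    CB B (fun z => 1 + (c : ℂ) * z + (e : ℂ) * z ^ 2)
      ∧ C4_Pos 2 (fun z => 1 + (c : ℂ) * z + (e : ℂ) * z ^ 2) := by
  have hN : NN (fun z => 1 + (c : ℂ) * z + (e : ℂ) * z ^ 2) := by
    refine ⟨by fun_prop, fun k => ?_⟩
    rw [C4_quad_tc]
    split_ifs
    · exact zero_le_one
    · rw [Complex.zero_le_real]; exact hc.le
    · rw [Complex.zero_le_real]; exact he.le
    · exact le_rfl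
  refine ⟨⟨hN, fun k => ?_⟩, ⟨hN, fun k hk => ?_⟩⟩
  · rcases k with _ | _ | k
    · rw [C4_quad_tc, C4_quad_tc]; simpa using h1
    · rw [C4_quad_tc, C4_quad_tc]
      norm_num
      exact h2
    · rw [C4_quad_tc, if_neg (by omega), if_neg (by omega), if_neg (by omega)]
      rw [Complex.zero_re, mul_zero]
      exact mul_nonneg (hc.le.trans h1) (C4_re_nonneg hN _)
  · rw [C4_quad_tc]
    rcases k with _ | _ | _ | k
    · simp
    · simpa using hc
    · simpa using he
    · omega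

/-- real factor -/
theorem C4_fac_real {a : ℂ} (ha : conj a = a) (hre : a.re < 0) :
    (fun z : ℂ => 1 - z / a) = fun z => 1 + ((‖a‖⁻¹ : ℝ) : ℂ) * z := by
  have him : a.im = 0 := Complex.conj_eq_iff_im.mp ha
  have h1 : a = (a.re : ℂ) := by apply Complex.ext <;> simp [him]
  have h2 : ‖a‖ = - a.re := by
    rw [h1, Complex.norm_real, Real.norm_eq_abs, Complex.ofReal_re, abs_of_neg hre]
  funext z
  rw [h2]
  conv_lhs => rw [h1]
  have h3 : (a.re : ℂ) ≠ 0 := by
    exact_mod_cast hre.ne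
  push_cast
  field_simp
  ring

/-- complex factor -/
theorem C4_fac_quad {a : ℂ} (ha : a ≠ 0) :
    (fun z : ℂ => (1 - z / a) * (1 - z / conj a))
      = fun z => 1 + ((-2 * a.re * (‖a‖ ^ 2)⁻¹ : ℝ) : ℂ) * z + (((‖a‖ ^ 2)⁻¹ : ℝ) : ℂ) * z ^ 2 := by
  have hca : conj a ≠ 0 := by simpa using ha
  have h1 : ((‖a‖ ^ 2 : ℝ) : ℂ) = a * conj a := by
    rw [Complex.mul_conj, Complex.normSq_eq_norm_sq]
  have h2 : ((2 * a.re : ℝ) : ℂ) = a + conj a := by
    rw [Complex.add_conj]
  funext z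
  have h3 : ((-2 * a.re * (‖a‖ ^ 2)⁻¹ : ℝ) : ℂ) = -(a + conj a) * (a * conj a)⁻¹ := by
    rw [← h1, ← h2]; push_cast; ring
  have h4 : (((‖a‖ ^ 2)⁻¹ : ℝ) : ℂ) = (a * conj a)⁻¹ := by
    rw [← h1]; push_cast; ring
  rw [h3, h4]
  field_simp
  ring

/-- induction over finite sets closed under conjugation -/
theorem C4_induct {P : Finset ℂ → Prop} (h0 : P ∅)
    (h1 : ∀ (a : ℂ) (T : Finset ℂ), conj a = a → a ∉ T → (∀ b ∈ T, conj b ∈ T) → P T →
      P (insert a T))
    (h2 : ∀ (a : ℂ) (T : Finset ℂ), conj a ≠ a → a ∉ T → conj a ∉ T →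
      (∀ b ∈ T, conj b ∈ T) → P T → P (insert a (insert (conj a) T)))
    (T : Finset ℂ) (hT : ∀ a ∈ T, conj a ∈ T) : P T := by
  induction hn : T.card using Nat.strong_induction_on generalizing T with
  | _ n ih =>
    rcases T.eq_empty_or_nonempty with rfl | ⟨a, ha⟩
    · exact h0
    · by_cases hc : conj a = a
      · have hcl : ∀ b ∈ T.erase a, conj b ∈ T.erase a := by
          intro b hb
          rw [Finset.mem_erase] at hb ⊢
          refine ⟨fun h => hb.1 ?_, hT b hb.2⟩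
          rw [← Complex.conj_conj b, h, hc]
        have := ih (T.erase a).card (by rw [← hn]; exact Finset.card_erase_lt_of_mem ha)
          (T.erase a) hcl rfl
        have h3 := h1 a (T.erase a) hc (Finset.notMem_erase a T) hcl this
        rwa [Finset.insert_erase ha] at h3
      · set T' := (T.erase a).erase (conj a) with hT'
        have hcl : ∀ b ∈ T', conj b ∈ T' := by
          intro b hb
          rw [hT', Finset.mem_erase, Finset.mem_erase] at hb ⊢
          refine ⟨fun h => hb.2.1 ?_, fun h => hb.1 ?_, hT b hb.2.2⟩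
          · exact (starRingEnd ℂ).injective h
          · rw [← h, Complex.conj_conj]
        have hmem : conj a ∈ T.erase a := Finset.mem_erase.mpr ⟨hc, hT a ha⟩
        have hlt : T'.card < n := by
          rw [← hn]
          exact (Finset.card_erase_lt_of_mem hmem).trans (Finset.card_erase_lt_of_mem ha)
        have := ih T'.card hlt T' hcl rfl
        have ha' : a ∉ T' := by
          rw [hT', Finset.mem_erase, Finset.mem_erase]; tauto
        have hca' : conj a ∉ T' := by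
          rw [hT', Finset.mem_erase]; tauto
        have h3 := h2 a T' hc ha' hca' hcl this
        rw [hT', Finset.insert_erase hmem, Finset.insert_erase ha] at h3
        exact h3

/-- finite conjugation invariant products -/
theorem CB_PT (T : Finset ℂ) (hT : ∀ a ∈ T, conj a ∈ T) (m : ℂ → ℕ) (hm : ∀ a, m (conj a) = m a)
    {ε : ℝ} (hε : 0 < ε) (hε1 : ε ≤ 1) (hz : ∀ a ∈ T, a ≠ 0 ∧ ε * ‖a‖ ≤ -a.re) :
    CB (2 / ε * ∑ a ∈ T, (m a : ℝ) * ‖a‖⁻¹) (PT m T) := by
  revert hz
  refine C4_induct (P := fun T => (∀ a ∈ T, a ≠ 0 ∧ ε * ‖a‖ ≤ -a.re) →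
    CB (2 / ε * ∑ a ∈ T, (m a : ℝ) * ‖a‖⁻¹) (PT m T)) ?_ ?_ ?_ T hT
  · intro _
    have e : PT m ∅ = fun _ => (1 : ℂ) := by funext z; simp [PT]
    rw [e]
    simpa using C4_CB_one
  · intro a T ha haT _ ih hz
    have hza := hz a (Finset.mem_insert_self _ _)
    have hna : 0 < ‖a‖ := norm_pos_iff.mpr hza.1
    have hre : a.re < 0 := by nlinarith [hza.2, mul_pos hε hna]
    have e : PT m (insert a T) = fun z => (fun z => (1 - z / a)) z ^ m a * PT m T z := by
      funext z; simp only [PT]; rw [Finset.prod_insert haT]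
    rw [e]
    have h1 : CB ‖a‖⁻¹ (fun z => 1 - z / a) := by
      rw [C4_fac_real ha hre]
      exact (C4_lin (inv_pos.mpr hna)).1
    have h2 := (C4_CB_pow h1 (m a)).mul (ih fun b hb => hz b (Finset.mem_insert_of_mem hb))
    refine CB.mono h2 ?_
    rw [Finset.sum_insert haT, mul_add]
    have : (1 : ℝ) ≤ 2 / ε := by rw [le_div_iff₀ hε]; linarith
    have h3 : 0 ≤ (m a : ℝ) * ‖a‖⁻¹ := by positivity
    have h4 : 1 * ((m a : ℝ) * ‖a‖⁻¹) ≤ 2 / ε * ((m a : ℝ) * ‖a‖⁻¹) :=
      mul_le_mul_of_nonneg_right this h3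
    linarith
  · intro a T ha haT hcaT _ ih hz
    have hza := hz a (Finset.mem_insert_self _ _)
    have hna : 0 < ‖a‖ := norm_pos_iff.mpr hza.1
    have hre : a.re < 0 := by nlinarith [hza.2, mul_pos hε hna]
    have hnot : a ∉ insert (conj a) T := by
      rw [Finset.mem_insert]; push Not; exact ⟨fun h => ha h.symm, haT⟩
    have e : PT m (insert a (insert (conj a) T))
        = fun z => (fun z => (1 - z / a) * (1 - z / conj a)) z ^ m a * PT m T z := by
      funext z; simp only [PT]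
      rw [Finset.prod_insert hnot, Finset.prod_insert hcaT, hm, mul_pow, mul_assoc]
    rw [e]
    have hle : -a.re ≤ ‖a‖ := by
      have := Complex.abs_re_le_norm a
      rw [abs_of_neg hre] at this
      exact this
    have h1 : CB (4 / ε * ‖a‖⁻¹) (fun z => (1 - z / a) * (1 - z / conj a)) := by
      rw [C4_fac_quad hza.1]
      refine (C4_quad ?_ (by positivity) ?_ ?_).1
      · have : 0 < -a.re := by linarith
        have h3 : -2 * a.re * (‖a‖ ^ 2)⁻¹ = 2 * (-a.re) * (‖a‖ ^ 2)⁻¹ := by ring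
        rw [h3]; positivity
      · rw [← sub_nonneg]
        have h3 : 4 / ε * ‖a‖⁻¹ - -2 * a.re * (‖a‖ ^ 2)⁻¹
            = (4 * ‖a‖ - 2 * (-a.re) * ε) / (ε * ‖a‖ ^ 2) := by
          field_simp
        rw [h3]
        apply div_nonneg _ (by positivity)
        have : 2 * (-a.re) * ε ≤ 2 * (-a.re) * 1 :=
          mul_le_mul_of_nonneg_left hε1 (by linarith)
        linarith
      · rw [← sub_nonneg]
        have h3 : 4 / ε * ‖a‖⁻¹ * (-2 * a.re * (‖a‖ ^ 2)⁻¹) - 2 * (‖a‖ ^ 2)⁻¹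
            = (8 * (-a.re) - 2 * (ε * ‖a‖)) / (ε * ‖a‖ ^ 3) := by
          field_simp; ring
        rw [h3]
        apply div_nonneg _ (by positivity)
        linarith [hza.2]
    have h2 := (C4_CB_pow h1 (m a)).mul (ih fun b hb =>
      hz b (Finset.mem_insert_of_mem (Finset.mem_insert_of_mem hb)))
    refine CB.mono h2 (le_of_eq ?_)
    rw [Finset.sum_insert hnot, Finset.sum_insert hcaT, hm, Complex.norm_conj]
    ring

/-- positivity of the coefficients of a finite product up to the degree -/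
theorem PT_pos (T : Finset ℂ) (hT : ∀ a ∈ T, conj a ∈ T) (m : ℂ → ℕ) (hm : ∀ a, m (conj a) = m a)
    (hz : ∀ a ∈ T, a.re < 0) (k : ℕ) (hk : k ≤ ∑ a ∈ T, m a) : 0 < (tc (PT m T) k).re := by
  have key : C4_Pos (∑ a ∈ T, m a) (PT m T) := by
    revert hz
    clear hk
    refine C4_induct (P := fun T => (∀ a ∈ T, a.re < 0) →
      C4_Pos (∑ a ∈ T, m a) (PT m T)) ?_ ?_ ?_ T hT
    · intro _
      have e : PT m ∅ = fun _ => (1 : ℂ) := by funext z; simp [PT]
      rw [e]
      simpa using C4_Pos_one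
    · intro a T ha haT _ ih hz
      have hre := hz a (Finset.mem_insert_self _ _)
      have hna : 0 < ‖a‖ := norm_pos_iff.mpr (by rintro rfl; simp at hre)
      have e : PT m (insert a T) = fun z => (fun z => (1 - z / a)) z ^ m a * PT m T z := by
        funext z; simp only [PT]; rw [Finset.prod_insert haT]
      rw [e, Finset.sum_insert haT]
      have h1 : C4_Pos 1 (fun z => 1 - z / a) := by
        rw [C4_fac_real ha hre]
        exact (C4_lin (inv_pos.mpr hna)).2
      have h2 := (h1.pow (m a)).mul (ih fun b hb => hz b (Finset.mem_insert_of_mem hb))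
      rwa [mul_one] at h2
    · intro a T ha haT hcaT _ ih hz
      have hre := hz a (Finset.mem_insert_self _ _)
      have ha0 : a ≠ 0 := by rintro rfl; simp at hre
      have hna : 0 < ‖a‖ := norm_pos_iff.mpr ha0
      have hnot : a ∉ insert (conj a) T := by
        rw [Finset.mem_insert]; push Not; exact ⟨fun h => ha h.symm, haT⟩
      have e : PT m (insert a (insert (conj a) T))
          = fun z => (fun z => (1 - z / a) * (1 - z / conj a)) z ^ m a * PT m T z := by
        funext z; simp only [PT]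
        rw [Finset.prod_insert hnot, Finset.prod_insert hcaT, hm, mul_pow, mul_assoc]
      rw [e, Finset.sum_insert hnot, Finset.sum_insert hcaT, hm]
      have h1 : C4_Pos 2 (fun z => (1 - z / a) * (1 - z / conj a)) := by
        rw [C4_fac_quad ha0]
        have hc : 0 < -2 * a.re * (‖a‖ ^ 2)⁻¹ := by
          have : 0 < -a.re := by linarith
          have h3 : -2 * a.re * (‖a‖ ^ 2)⁻¹ = 2 * (-a.re) * (‖a‖ ^ 2)⁻¹ := by ring
          rw [h3]; positivity
        refine (C4_quad (B := -2 * a.re * (‖a‖ ^ 2)⁻¹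
          + 2 * (‖a‖ ^ 2)⁻¹ / (-2 * a.re * (‖a‖ ^ 2)⁻¹)) hc (by positivity) ?_ ?_).2
        · have : 0 ≤ 2 * (‖a‖ ^ 2)⁻¹ / (-2 * a.re * (‖a‖ ^ 2)⁻¹) := by positivity
          linarith
        · rw [add_mul, div_mul_cancel₀ _ hc.ne']
          have := mul_pos hc hc
          linarith
      have h2 := (h1.pow (m a)).mul (ih fun b hb =>
        hz b (Finset.mem_insert_of_mem (Finset.mem_insert_of_mem hb)))
      have h3 : m a * 2 + ∑ b ∈ T, m b = m a + (m a + ∑ b ∈ T, m b) := by ring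
      rwa [h3] at h2
  exact key.2 k hk

end Pool.Agent.helper38.UB
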