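import Pool.Agent.helper38.UB.Defs

set_option autoImplicit false

namespace Pool.Agent.helper38.UB

open Filter Topology MeasureTheory
open Pool.Agent.helper38.NNF Pool.Agent.helper38.LacA
open scoped ComplexConjugate ComplexOrder

/-! C5 (no gaps) -/

/-- the coefficients of `exp (α z ^ 2)` -/
noncomputable def C5_e (α : ℝ) (i : ℕ) : ℝ :=
  if Even i then α ^ (i / 2) / ((i / 2).factorial : ℝ) else 0

theorem C5_e_nonneg {α : ℝ} (hα : 0 < α) (i : ℕ) : 0 ≤ C5_e α i := by
  unfold C5_e; split_ifs <;> positivity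

theorem C5_e_le {α : ℝ} (hα : 0 < α) (J i : ℕ) (hJ : α ≤ (J : ℝ) + 1) (hi : 2 * J < i) :
    C5_e α i ≤ α ^ (J + 1) / ((J + 1).factorial : ℝ) := by
  unfold C5_e
  split_ifs with h
  · obtain ⟨j, rfl⟩ := h
    have h1 : (j + j) / 2 = j := by omega
    rw [h1]
    have h2 : J + 1 ≤ j := by omega
    clear hi h1
    induction j, h2 using Nat.le_induction with
    | base => exact le_rfl
    | succ j hj ih =>
      refine le_trans ?_ ih
      rw [pow_succ, Nat.factorial_succ, Nat.cast_mul, mul_comm (α ^ j), mul_div_mul_comm]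
      have h3 : α / ((j + 1 : ℕ) : ℝ) ≤ 1 := by
        rw [div_le_one (by positivity)]
        have : ((J + 1 : ℕ) : ℝ) ≤ ((j + 1 : ℕ) : ℝ) := by exact_mod_cast (by omega)
        push_cast at this ⊢
        linarith
      exact mul_le_of_le_one_left (by positivity) h3
  · positivity

theorem C5_seq {α : ℝ} (hα : 0 < α) (h : ℕ → ℝ) (M0 : ℕ) (hpos : ∀ m, M0 ≤ m → 0 < h m) :
    ∃ M, ∀ m, M ≤ m → 0 < ∑ i ∈ Finset.range (m + 1), C5_e α i * h (m - i) := by
  set S := ∑ t ∈ Finset.range M0, |h t| with hS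
  set μ := min (h M0) (h (M0 + 1)) with hμ
  have hμ0 : 0 < μ := lt_min (hpos _ le_rfl) (hpos _ (by omega))
  obtain ⟨J0, hJ0⟩ := exists_nat_gt (max α (α * S / μ))
  refine ⟨M0 + 1 + 2 * J0, fun m hm => ?_⟩
  obtain ⟨i0, J, hi0, hJ, hmJ⟩ : ∃ i0 J : ℕ, (i0 = M0 ∨ i0 = M0 + 1) ∧ J0 ≤ J ∧ m = i0 + 2 * J := by
    rcases Nat.even_or_odd (m - M0) with he | ho
    · obtain ⟨r, hr⟩ := he
      exact ⟨M0, r, Or.inl rfl, by omega, by omega⟩
    · obtain ⟨r, hr⟩ := ho
      exact ⟨M0 + 1, r, Or.inr rfl, by omega, by omega⟩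
  have hi0' : M0 ≤ i0 := by omega
  have hhi0 : μ ≤ h i0 := by
    rcases hi0 with rfl | rfl
    · exact min_le_left _ _
    · exact min_le_right _ _
  have hJr : (J0 : ℝ) ≤ J := by exact_mod_cast hJ
  have hJα : α ≤ (J : ℝ) + 1 := by
    have := le_max_left α (α * S / μ)
    linarith
  have hJS : α * S / μ < (J : ℝ) + 1 := by
    have := le_max_right α (α * S / μ)
    linarith
  rw [← Finset.sum_range_reflect]
  have hre : ∀ t ∈ Finset.range (m + 1),
      C5_e α (m + 1 - 1 - t) * h (m - (m + 1 - 1 - t)) = C5_e α (m - t) * h t := by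
    intro t ht
    rw [Finset.mem_range] at ht
    have h1 : m - (m + 1 - 1 - t) = t := by omega
    rw [h1]
    rfl
  rw [Finset.sum_congr rfl hre,
    ← Finset.sum_range_add_sum_Ico _ (show M0 ≤ m + 1 by omega)]
  set E := α ^ (J + 1) / ((J + 1).factorial : ℝ) with hE
  have h1 : -(E * S) ≤ ∑ t ∈ Finset.range M0, C5_e α (m - t) * h t := by
    rw [hS, Finset.mul_sum, ← Finset.sum_neg_distrib]
    apply Finset.sum_le_sum
    intro t ht
    rw [Finset.mem_range] at ht
    have h2 := C5_e_le hα J (m - t) hJα (by omega)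
    have h3 := C5_e_nonneg hα (m - t)
    have h4 : -|h t| ≤ h t := neg_abs_le _
    have h5 : C5_e α (m - t) * (-|h t|) ≤ C5_e α (m - t) * h t :=
      mul_le_mul_of_nonneg_left h4 h3
    have h6 : C5_e α (m - t) * |h t| ≤ E * |h t| :=
      mul_le_mul_of_nonneg_right h2 (abs_nonneg _)
    linarith
  have h2 : C5_e α (m - i0) * h i0 ≤ ∑ t ∈ Finset.Ico M0 (m + 1), C5_e α (m - t) * h t := by
    apply Finset.single_le_sum (f := fun t => C5_e α (m - t) * h t)
    · intro t ht
      rw [Finset.mem_Ico] at ht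
      exact mul_nonneg (C5_e_nonneg hα _) (hpos t ht.1).le
    · rw [Finset.mem_Ico]; omega
  have h3 : C5_e α (m - i0) = α ^ J / (J.factorial : ℝ) := by
    have : m - i0 = J + J := by omega
    rw [this, C5_e, if_pos ⟨J, rfl⟩]
    have : (J + J) / 2 = J := by omega
    rw [this]
  have h4 : E = α ^ J / (J.factorial : ℝ) * (α / ((J : ℝ) + 1)) := by
    rw [hE, pow_succ, Nat.factorial_succ]
    push_cast
    have : (J.factorial : ℝ) ≠ 0 := by exact_mod_cast Nat.factorial_ne_zero J
    field_simp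
  have h5 : 0 < α ^ J / (J.factorial : ℝ) := by positivity
  have h6 : α / ((J : ℝ) + 1) * S < μ := by
    rw [div_mul_eq_mul_div, div_lt_iff₀ (by positivity)]
    rw [div_lt_iff₀ hμ0] at hJS
    linarith
  have h7 : E * S < α ^ J / (J.factorial : ℝ) * μ := by
    rw [h4, mul_assoc]
    exact mul_lt_mul_of_pos_left h6 h5
  have h8 : α ^ J / (J.factorial : ℝ) * μ ≤ C5_e α (m - i0) * h i0 := by
    rw [h3]
    exact mul_le_mul_of_nonneg_left hhi0 h5.le
  linarith

theorem C5_tc_e (α : ℝ) (k : ℕ) :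
    tc (fun z => Complex.exp (α * z ^ 2)) k = ((C5_e α k : ℝ) : ℂ) := by
  apply tc_unique (c := fun k => ((C5_e α k : ℝ) : ℂ))
  intro z
  have h := NormedSpace.expSeries_div_hasSum_exp (𝔸 := ℂ) ((α : ℂ) * z ^ 2)
  rw [← Complex.exp_eq_exp_ℂ] at h
  have hinj : Function.Injective (fun n : ℕ => 2 * n) := fun a b hab => by
    simp only at hab; omega
  rw [← hinj.hasSum_iff]
  · refine h.congr_fun ?_ |> fun h => h
    intro n
    simp only [Function.comp_apply]
    rw [C5_e, if_pos (even_two_mul n)]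
    have : 2 * n / 2 = n := by omega
    rw [this]
    push_cast
    ring
  · intro x hx
    rw [C5_e, if_neg]
    · simp
    · intro he
      apply hx
      obtain ⟨r, hr⟩ := he
      exact ⟨r, by simp only; omega⟩

theorem C5_poly {P G : ℂ → ℂ} {B : ℝ} (hG : CB B G)
    (hGpos : ∀ k, 0 < (tc G k).re) (hP : Differentiable ℂ P) {d : ℕ}
    (hPr : ∀ k, (tc P k).im = 0) (hPd : ∀ k, d < k → tc P k = 0)
    (hlead : 0 < (tc P d).re) :
    ∃ M : ℕ, ∀ m, M ≤ m → 0 < (tc (fun z => P z * G z) m).re := by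
  have hgre : ∀ m, (tc (fun z => P z * G z) m).re
      = ∑ i ∈ Finset.range (m + 1), (tc P i).re * (tc G (m - i)).re := by
    intro m
    rw [tc_mul hP hG.1.1, Complex.re_sum]
    apply Finset.sum_congr rfl
    intro i _
    rw [Complex.mul_re, hPr i]
    ring
  have hB : 0 < B := by
    have h1 := hG.2 0
    have h2 := hGpos 0
    have h3 := hGpos (0 + 1)
    by_contra hb
    push Not at hb
    have : B * (tc G 0).re ≤ 0 := mul_nonpos_of_nonpos_of_nonneg hb h2.le
    push_cast at h1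
    linarith
  -- decreasing tail
  have hdec : ∀ k j : ℕ, B ≤ (k : ℝ) + 1 → k < j →
      (tc G j).re ≤ B / ((k : ℝ) + 1) * (tc G k).re := by
    intro k j hk hj
    induction j, hj using Nat.le_induction with
    | base =>
      have h1 := hG.2 k
      rw [div_mul_eq_mul_div, le_div_iff₀ (by positivity)]
      linarith
    | succ j hj ih =>
      refine le_trans ?_ ih
      have h1 := hG.2 j
      have h2 := hGpos j
      have h3 : (k : ℝ) + 1 ≤ (j : ℝ) + 1 := by
        have : (k : ℝ) ≤ j := by exact_mod_cast (by omega)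
        linarith
      have h4 : B * (tc G j).re ≤ ((j : ℝ) + 1) * (tc G j).re :=
        mul_le_mul_of_nonneg_right (hk.trans h3) h2.le
      exact le_of_mul_le_mul_left (h1.trans h4) (by positivity)
  set S := ∑ i ∈ Finset.range d, |(tc P i).re| with hS
  obtain ⟨K, hK⟩ := exists_nat_gt (max B (S * B / (tc P d).re))
  refine ⟨K + d, fun m hm => ?_⟩
  rw [hgre]
  have hsplit : ∑ i ∈ Finset.range (m + 1), (tc P i).re * (tc G (m - i)).re
      = ∑ i ∈ Finset.range (d + 1), (tc P i).re * (tc G (m - i)).re := by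
    symm
    apply Finset.sum_subset
    · intro i hi
      rw [Finset.mem_range] at hi ⊢
      omega
    · intro i _ hi
      rw [Finset.mem_range] at hi
      rw [hPd i (by omega)]
      simp
  rw [hsplit, Finset.sum_range_succ]
  set k := m - d with hk
  have hkK : (K : ℝ) ≤ k := by exact_mod_cast (by omega)
  have hBk : B ≤ (k : ℝ) + 1 := by
    have := le_max_left B (S * B / (tc P d).re)
    linarith
  have hSk : S * B / (tc P d).re < (k : ℝ) + 1 := by
    have := le_max_right B (S * B / (tc P d).re)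
    linarith
  have hgk := hGpos k
  have h1 : -(S * (B / ((k : ℝ) + 1) * (tc G k).re))
      ≤ ∑ i ∈ Finset.range d, (tc P i).re * (tc G (m - i)).re := by
    rw [hS, Finset.sum_mul, ← Finset.sum_neg_distrib]
    apply Finset.sum_le_sum
    intro i hi
    rw [Finset.mem_range] at hi
    have h2 := hdec k (m - i) hBk (by omega)
    have h3 := (hGpos (m - i)).le
    have h4 : -|(tc P i).re| ≤ (tc P i).re := neg_abs_le _
    have h5 : (-|(tc P i).re|) * (tc G (m - i)).re ≤ (tc P i).re * (tc G (m - i)).re :=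
      mul_le_mul_of_nonneg_right h4 h3
    have h6 : |(tc P i).re| * (tc G (m - i)).re
        ≤ |(tc P i).re| * (B / ((k : ℝ) + 1) * (tc G k).re) :=
      mul_le_mul_of_nonneg_left h2 (abs_nonneg _)
    linarith
  have h2 : S * (B / ((k : ℝ) + 1) * (tc G k).re) < (tc P d).re * (tc G k).re := by
    have h3 : S * (B / ((k : ℝ) + 1)) < (tc P d).re := by
      rw [div_lt_iff₀ hlead] at hSk
      rw [← mul_div_assoc, div_lt_iff₀ (by positivity)]
      linarith
    calc S * (B / ((k : ℝ) + 1) * (tc G k).re) = S * (B / ((k : ℝ) + 1)) * (tc G k).re := by ring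
      _ < (tc P d).re * (tc G k).re := mul_lt_mul_of_pos_right h3 hgk
  linarith

theorem no_gap {f P G : ℂ → ℂ} {c α B : ℝ} (hc : 0 < c) (hα : 0 < α) (hG : CB B G)
    (hGpos : ∀ k, 0 < (tc G k).re) (hP : Differentiable ℂ P) {d : ℕ}
    (hPr : ∀ k, (tc P k).im = 0) (hPd : ∀ k, d < k → tc P k = 0)
    (hlead : 0 < (tc P d).re)
    (hf : ∀ z, f z = c * Complex.exp (α * z ^ 2) * (P z * G z)) :
    ∃ M : ℕ, ∀ m, M ≤ m → 0 < (tc f m).re := by
  obtain ⟨M0, hM0⟩ := C5_poly hG hGpos hP hPr hPd hlead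
  obtain ⟨M, hM⟩ := C5_seq hα (fun m => (tc (fun z => P z * G z) m).re) M0 hM0
  refine ⟨M, fun m hm => ?_⟩
  have hfe : f = fun z => (c : ℂ) * ((fun z => Complex.exp (α * z ^ 2)) z
      * (fun z => P z * G z) z) := by
    funext z
    rw [hf z]
    ring
  have hE : Differentiable ℂ (fun z : ℂ => Complex.exp (α * z ^ 2)) := by fun_prop
  have hH : Differentiable ℂ (fun z => P z * G z) := hP.mul hG.1.1
  have hmul := tc_mul hE hH m
  have hcm := tc_const_mul (F := fun z => (fun z => Complex.exp (α * z ^ 2)) z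
      * (fun z => P z * G z) z) (c : ℂ) m
  rw [hfe, hcm, hmul, Complex.re_ofReal_mul, Complex.re_sum]
  apply mul_pos hc
  have h1 := hM m hm
  refine lt_of_lt_of_eq h1 (Finset.sum_congr rfl fun i _ => ?_)
  rw [C5_tc_e, Complex.re_ofReal_mul]

end Pool.Agent.helper38.UB
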