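import Pool.Agent.helper38.LacOrd
import Pool.Agent.helper38.LacGlue

set_option autoImplicit false

namespace Pool.Agent.helper38.UB

open Filter Topology

/-- multiplicity of the zero `a` of `f` (it is `0` when `f a ≠ 0`) -/
noncomputable def mu (f : ℂ → ℂ) (a : ℂ) : ℕ := analyticOrderNatAt f a

/-- growth of order at most `σ` -/
def Gr (f : ℂ → ℂ) (σ : ℝ) : Prop :=
  ∃ C : ℝ, 0 ≤ C ∧ ∀ z : ℂ, ‖f z‖ ≤ Real.exp (C * (1 + ‖z‖) ^ σ)

/-- `log |E(u; p)|`, `E` the Weierstrass factor of genus `p` -/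
noncomputable def lE (p : ℕ) (u : ℂ) : ℝ :=
  Real.log ‖1 - u‖ + (∑ j ∈ Finset.range p, u ^ (j + 1) / ((j : ℂ) + 1)).re

/-- the odd kernel: `(log |E(-v; p)| - log |E(v; p)|) / 2` with `p = 2 k + 1` -/
noncomputable def Kf (k : ℕ) (v : ℂ) : ℝ := (lE (2 * k + 1) (-v) - lE (2 * k + 1) v) / 2

/-- majorant of the odd kernel -/
noncomputable def kap (k : ℕ) (u : ℝ) : ℝ :=
  if u ≤ 1 / 2 then 2 * u ^ (2 * k + 2)
  else Real.log (1 + u) + |Real.log (1 - u)| + ∑ i ∈ Finset.range (k + 1), u ^ (2 * i + 1)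

/-- finite product of linear factors -/
noncomputable def PT (m : ℂ → ℕ) (T : Finset ℂ) (z : ℂ) : ℂ := ∏ a ∈ T, (1 - z / a) ^ m a

/-- the class of entire functions with nonnegative coefficients and `F' ≤ B F` coefficientwise -/
def CB (B : ℝ) (F : ℂ → ℂ) : Prop :=
  NNF.NN F ∧ ∀ k : ℕ, ((k : ℝ) + 1) * (NNF.tc F (k + 1)).re ≤ B * (NNF.tc F k).re

end Pool.Agent.helper38.UB
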