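import Pool.Agent.helper38.UB.A5
import Pool.Agent.helper38.UB.B6

set_option autoImplicit false

namespace Pool.Agent.helper38.UB

open Filter Topology MeasureTheory
open Pool.Agent.helper38.NNF Pool.Agent.helper38.LacA
open scoped ComplexConjugate ComplexOrder

/-! F1 (reductions, upper bound for non-integer orders) -/

/-- removing the power of `z` -/
theorem F1_shift {f : ℂ → ℂ} (hf : NN f) {N : ℕ} (hN : ∀ k, k < N → tc f k = 0) (z : ℂ) :
    f z = z ^ N * (sh^[N] f) z := by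
  have h1 := hasSum_tc hf.1 z
  have h2 := hasSum_tc (sh_iter_differentiable hf.1 N) z
  have h3 := h2.mul_left (z ^ N)
  have h4 := (hasSum_nat_add_iff' (f := fun k => tc f k * z ^ k) N).mpr h1
  have h5 : ∑ i ∈ Finset.range N, tc f i * z ^ i = 0 := by
    apply Finset.sum_eq_zero
    intro i hi
    rw [hN i (Finset.mem_range.mp hi), zero_mul]
  rw [h5, sub_zero] at h4
  apply h4.unique
  refine h3.congr_fun ?_ |> fun h => h
  intro k
  simp only [tc_sh_iter hf.1]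
  ring

/-- the data of a function of the class `G n` -/
theorem F1_data {n : ℕ} {f : ℂ → ℂ} (hf : f ∈ Lac.G n) (hn : 2 ≤ n) :
    NN f ∧ (∃ N : ℕ, (∀ k, k < N → tc f k = 0) ∧ tc f N ≠ 0) ∧
    {z : ℂ | f z = 0}.Infinite ∧ Tendsto (val f) atTop atTop ∧
    (∀ M : ℕ, ∃ m, M ≤ m ∧ tc f m = 0) := by
  obtain ⟨hzinf, a, ν, hlac, hgapn⟩ := hf
  obtain ⟨hNN, hta, ht0⟩ := hlac.tc
  have hmono := hlac.1
  refine ⟨hNN, ⟨ν 0, ?_, ?_⟩, hzinf, ?_, ?_⟩
  · intro k hk
    apply ht0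
    rintro ⟨j, rfl⟩
    have := hmono.monotone (Nat.zero_le j)
    omega
  · rw [hta]
    exact_mod_cast (hlac.2.1 0).ne'
  · have h1 : 0 < (tc f (ν 1)).re := by
      rw [hta]; simpa using hlac.2.1 1
    have h2 : 1 ≤ ν 1 := by
      have := hmono (show (0:ℕ) < 1 by norm_num)
      omega
    apply tendsto_atTop_mono' (f₁ := fun r : ℝ => (tc f (ν 1)).re * r) atTop
    · filter_upwards [eventually_ge_atTop (1:ℝ)] with r hr
      refine le_trans ?_ (coef_le_val hNN (by linarith) (ν 1))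
      apply mul_le_mul_of_nonneg_left _ h1.le
      exact le_self_pow₀ hr (by omega)
    · exact tendsto_id.const_mul_atTop h1
  · have hfreq : ∃ᶠ j in atTop, n ≤ ν (j + 1) - ν j := by
      have h1 : ((n - 1 : ℕ) : ℕ∞) < limsup (fun k => ((ν (k + 1) - ν k : ℕ) : ℕ∞)) atTop := by
        have : limsup (fun k => ((ν (k + 1) - ν k : ℕ) : ℕ∞)) atTop = (n : ℕ∞) := hgapn
        rw [this]
        exact_mod_cast (by omega : n - 1 < n)
      have h2 := frequently_lt_of_lt_limsup (by isBoundedDefault) h1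
      refine h2.mono (fun j hj => ?_)
      have : n - 1 < ν (j + 1) - ν j := by exact_mod_cast hj
      omega
    intro M
    obtain ⟨j, hj, hj2⟩ := (hfreq.and_eventually (eventually_ge_atTop M)).exists
    refine ⟨ν j + 1, ?_, ?_⟩
    · have := hmono.le_apply (x := j)
      omega
    · apply ht0
      rintro ⟨i, hi⟩
      have h3 : j < i := hmono.lt_iff_lt.mp (by omega)
      have h4 : i < j + 1 := hmono.lt_iff_lt.mp (by omega)
      omega

theorem F1_fin {f : ℂ → ℂ} {D : ℝ} (hD : D < Lac.delta f) :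
    {z : ℂ | f z = 0 ∧ |Complex.arg z| < D}.Finite := by
  have hev : ∀ᶠ z : {z : ℂ // f z = 0} in cofinite, D < |Complex.arg z| := by
    exact eventually_lt_of_lt_liminf (hD.trans_le le_rfl)
      (isBoundedUnder_of ⟨0, fun z => abs_nonneg _⟩)
  rw [Filter.eventually_cofinite] at hev
  have h1 := hev.image (Subtype.val)
  apply h1.subset
  rintro z ⟨hz, hz2⟩
  exact ⟨⟨z, hz⟩, not_lt.mpr hz2.le, rfl⟩

theorem F1_conj {f : ℂ → ℂ} (hf : NN f) (z : ℂ) : f (conj z) = conj (f z) := conj_f hf z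

/-- growth passes to the quotient by a power of `z` -/
theorem F1_gr_down {f g : ℂ → ℂ} (hf : NN f) (hg : NN g) {N : ℕ} (hfg : ∀ z, f z = z ^ N * g z)
    {σ : ℝ} (hσ : 0 ≤ σ) (hG : Gr f σ) : Gr g σ := by
  obtain ⟨C, hC, hGf⟩ := hG
  refine ⟨C * 2 ^ σ, by positivity, fun z => ?_⟩
  set r : ℝ := max ‖z‖ 1 with hr
  have hr1 : 1 ≤ r := le_max_right _ _
  have h1 : ‖g z‖ ≤ val g r := norm_le_val' hg (le_max_left _ _)
  have h2 : val g r ≤ val f r := by
    have h3 : val f r = r ^ N * val g r := by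
      unfold NNF.val
      rw [hfg, ← Complex.ofReal_pow, Complex.re_ofReal_mul]
    rw [h3]
    exact le_mul_of_one_le_left (val_nonneg hg (by linarith)) (one_le_pow₀ hr1)
  have h3 : val f r ≤ ‖f r‖ := by
    unfold NNF.val
    exact Complex.re_le_norm _
  have h4 := hGf r
  rw [Complex.norm_real, Real.norm_eq_abs, abs_of_pos (by linarith)] at h4
  refine h1.trans (h2.trans (h3.trans (h4.trans ?_)))
  apply Real.exp_le_exp.mpr
  rw [mul_assoc]
  apply mul_le_mul_of_nonneg_left _ hC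
  rw [← Real.mul_rpow (by norm_num) (by positivity)]
  apply Real.rpow_le_rpow (by positivity) _ hσ
  have h5 := norm_nonneg z
  rcases max_cases ‖z‖ 1 with h | h
  · rw [hr, h.1]; linarith
  · rw [hr, h.1]; linarith

theorem F1_gr_up {f g : ℂ → ℂ} {N : ℕ} (hfg : ∀ z, f z = z ^ N * g z)
    {σ : ℝ} (hσ : 1 ≤ σ) (hG : Gr g σ) : Gr f σ := by
  obtain ⟨C, hC, hGg⟩ := hG
  refine ⟨C + N, by positivity, fun z => ?_⟩
  have hz := norm_nonneg z
  have h1 : ‖z‖ ^ N ≤ Real.exp (N * (1 + ‖z‖) ^ σ) := by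
    have h2 : ‖z‖ ≤ Real.exp ((1 + ‖z‖) ^ σ) := by
      have h3 : 1 + ‖z‖ ≤ (1 + ‖z‖) ^ σ := by
        conv_lhs => rw [← Real.rpow_one (1 + ‖z‖)]
        exact Real.rpow_le_rpow_of_exponent_le (by linarith) hσ
      have h4 := Real.add_one_le_exp ((1 + ‖z‖) ^ σ)
      linarith
    calc ‖z‖ ^ N ≤ (Real.exp ((1 + ‖z‖) ^ σ)) ^ N := by gcongr
      _ = Real.exp (N * (1 + ‖z‖) ^ σ) := by rw [← Real.exp_nat_mul]
  rw [hfg z, norm_mul, norm_pow]
  calc ‖z‖ ^ N * ‖g z‖ ≤ Real.exp (N * (1 + ‖z‖) ^ σ) * Real.exp (C * (1 + ‖z‖) ^ σ) := by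
        gcongr
        exact hGg z
    _ = Real.exp ((C + N) * (1 + ‖z‖) ^ σ) := by rw [← Real.exp_add]; congr 1; ring

theorem F1_zeros {f g : ℂ → ℂ} {N : ℕ} (hfg : ∀ z, f z = z ^ N * g z) {z : ℂ} (hz : g z = 0) :
    f z = 0 := by rw [hfg, hz, mul_zero]

/-- **Upper bound for all `n ≥ 2` and all non-integer orders in `(2k-1, 2k)`.** -/
theorem upper_mid {n : ℕ} (hn : 2 ≤ n) {k : ℕ} (hk : 1 ≤ k) {ρ : ℝ} (h1 : 2 * (k : ℝ) - 1 < ρ)
    (h2 : ρ < 2 * k) {f : ℂ → ℂ} (hf : f ∈ Lac.Gord (ρ : EReal) n) :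
    Lac.delta f ≤ Real.pi / 2 + (k - 1) * Real.pi / ρ := by
  by_contra hcon
  push Not at hcon
  obtain ⟨j, rfl⟩ : ∃ j, k = j + 1 := ⟨k - 1, by omega⟩
  push_cast at h1 h2 hcon
  have hj0 : (0:ℝ) ≤ j := Nat.cast_nonneg j
  rw [add_sub_cancel_right] at hcon
  obtain ⟨hfG, hord⟩ := hf
  obtain ⟨hNN, ⟨N, hN1, hN2⟩, hinf, htop, hgap⟩ := F1_data hfG hn
  obtain ⟨D, hD1, hD2⟩ := exists_between hcon
  have hfin := F1_fin hD2
  set g : ℂ → ℂ := sh^[N] f with hg
  have hgN : NN g := hNN.shiter N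
  have hfg : ∀ z, f z = z ^ N * g z := F1_shift hNN hN1
  have hg0 : g 0 ≠ 0 := by
    have := tc_sh_iter hNN.1 N 0
    rw [tc_zero, zero_add] at this
    rw [hg, this]; exact hN2
  have hgr : ∀ σ, ρ < σ → Gr g σ := by
    intro σ hσ
    have hσ0 : 0 ≤ σ := by linarith
    exact F1_gr_down hNN hgN hfg hσ0 (gr_of_order hNN hord hσ hσ0)
  obtain ⟨s, hs1, hs2, hs3⟩ := core_U (f := g) hgN.1 hg0 (F1_conj hgN) (by
      intro r hr
      have e1 : ‖g (-r)‖ ≤ val g r := by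
        apply norm_le_val' hgN
        rw [norm_neg, Complex.norm_real, Real.norm_eq_abs, abs_of_pos hr]
      refine e1.trans ?_
      exact Complex.re_le_norm _) (k := j) (ρ := ρ) (by linarith) (by linarith) hgr
    (D := D) hD1 (by
      apply hfin.subset
      rintro z ⟨hz1, hz2⟩
      exact ⟨F1_zeros hfg hz1, hz2⟩)
  have hfs : Gr f s := F1_gr_up hfg (by linarith) hs3
  have h3 := order_le_of_gr hNN htop (by linarith) hfs
  rw [hord] at h3
  have h4 : ρ ≤ s := by exact_mod_cast h3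
  linarith

end Pool.Agent.helper38.UB
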