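import Pool.Agent.helper38.UB.F1
import Pool.Agent.helper38.UB.C1
import Pool.Agent.helper38.UB.C2
import Pool.Agent.helper38.UB.C3c
import Pool.Agent.helper38.UB.C3d
import Pool.Agent.helper38.UB.C4
import Pool.Agent.helper38.UB.C5

set_option autoImplicit false

namespace Pool.Agent.helper38.UB

open Filter Topology MeasureTheory
open Pool.Agent.helper38.NNF Pool.Agent.helper38.LacA
open scoped ComplexConjugate ComplexOrder

/-! F2 (order 2) -/

theorem F2_abs_arg_conj (z : ℂ) : |Complex.arg (conj z)| = |Complex.arg z| := by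
  rw [Complex.arg_conj]
  split_ifs with h
  · rw [h]
  · rw [abs_neg]

/-- `PT` of a finite set as a polynomial -/
theorem F2_poly (m : ℂ → ℕ) (S : Finset ℂ) :
    ∃ p : Polynomial ℂ, p ≠ 0 ∧ ∀ z, PT m S z = p.eval z := by
  refine ⟨∏ a ∈ S, (1 - Polynomial.C a⁻¹ * Polynomial.X) ^ m a, ?_, ?_⟩
  · intro h
    have h1 := congrArg (Polynomial.eval 0) h
    rw [Polynomial.eval_prod] at h1
    simp at h1
  · intro z
    unfold PT
    rw [Polynomial.eval_prod]
    apply Finset.prod_congr rfl
    intro a _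
    simp only [Polynomial.eval_pow, Polynomial.eval_sub, Polynomial.eval_one, Polynomial.eval_mul,
      Polynomial.eval_C, Polynomial.eval_X]
    rw [div_eq_mul_inv, mul_comm z]

theorem F2_tc_poly (p : Polynomial ℂ) (k : ℕ) : tc (fun z => p.eval z) k = p.coeff k := by
  apply tc_unique
  intro z
  have h : HasSum (fun k => p.coeff k * z ^ k)
      (∑ k ∈ Finset.range (p.natDegree + 1), p.coeff k * z ^ k) :=
    hasSum_sum_of_ne_finset_zero (by
      intro b hb
      rw [Finset.mem_range, not_lt] at hb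
      rw [Polynomial.coeff_eq_zero_of_natDegree_lt (by omega), zero_mul])
  rw [← Polynomial.eval_eq_sum_range] at h
  exact h

theorem F2_tc_real {F : ℂ → ℂ} (hF : Differentiable ℂ F) (hc : ∀ z, F (conj z) = conj (F z))
    (k : ℕ) : (tc F k).im = 0 := by
  have h1 : ∀ z, HasSum (fun k => conj (tc F k) * z ^ k) (F z) := by
    intro z
    have h2 := (hasSum_tc hF (conj z)).mapL (Complex.conjCLE : ℂ →L[ℝ] ℂ)
    have h3 : (Complex.conjCLE : ℂ →L[ℝ] ℂ) (F (conj z)) = F z := by
      show conj (F (conj z)) = F z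
      rw [hc, Complex.conj_conj]
    rw [h3] at h2
    refine h2.congr_fun ?_ |> fun h => h
    intro k
    show conj (tc F k) * z ^ k = conj (tc F k * conj z ^ k)
    rw [map_mul, map_pow, Complex.conj_conj]
  have h2 := tc_unique h1 k
  have h3 := congrArg Complex.im h2
  rw [Complex.conj_im] at h3
  linarith

theorem F2_PT_conj {m : ℂ → ℕ} (hm : ∀ a, m (conj a) = m a) (S : Finset ℂ)
    (hS : ∀ a ∈ S, conj a ∈ S) (z : ℂ) : PT m S (conj z) = conj (PT m S z) := by
  unfold PT
  rw [map_prod]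
  apply Finset.prod_bij' (fun a _ => conj a) (fun a _ => conj a) hS hS
  · intro a _; exact Complex.conj_conj a
  · intro a _; exact Complex.conj_conj a
  · intro a _
    rw [hm, map_pow, map_sub, map_one, map_div₀, Complex.conj_conj]

theorem F2_PT_split (m : ℂ → ℕ) {S T : Finset ℂ} (h : S ⊆ T) [DecidableEq ℂ] (z : ℂ) :
    PT m T z = PT m S z * PT m (T \ S) z := by
  unfold PT
  rw [mul_comm]
  exact (Finset.prod_sdiff h).symm

/-- a lower bound for the coefficients of a product of functions with nonnegative coefficients -/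
theorem F2_tc_mul_ge {F G : ℂ → ℂ} (hF : NN F) (hG : NN G) (k : ℕ) :
    (tc F k).re * (tc G 0).re ≤ (tc (fun z => F z * G z) k).re := by
  rw [tc_mul hF.1 hG.1, Complex.re_sum]
  have h1 : ∀ i ∈ Finset.range (k + 1), 0 ≤ (tc F i * tc G (k - i)).re := by
    intro i _
    exact (Complex.nonneg_iff.mp (mul_nonneg (hF.2 i) (hG.2 (k - i)))).1
  have h2 := Finset.single_le_sum h1 (Finset.mem_range.mpr (Nat.lt_succ_self k))
  have h3 : (tc F k * tc G (k - k)).re = (tc F k).re * (tc G 0).re := by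
    rw [Nat.sub_self, tc_re hF k, Complex.re_ofReal_mul]
    simp
  rw [h3] at h2
  exact h2

/-- the limit product has positive coefficients and belongs to the class `CB` -/
theorem F2_limit {m : ℂ → ℕ} (hm : ∀ a, m (conj a) = m a)
    (hsum : Summable (fun a : ℂ => (m a : ℝ) * ‖a‖⁻¹)) {ε : ℝ} (hε : 0 < ε) (hε1 : ε ≤ 1)
    {T : ℕ → Finset ℂ} (hTc : ∀ N, ∀ a ∈ T N, conj a ∈ T N)
    (hT : ∀ N, ∀ a ∈ T N, a ≠ 0 ∧ m a ≠ 0 ∧ ε * ‖a‖ ≤ -a.re) (hmono : Monotone T)
    (hcard : ∀ k : ℕ, ∃ N, k ≤ (T N).card)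
    {Pi : ℂ → ℂ} (hPd : Differentiable ℂ Pi)
    (hPt : TendstoLocallyUniformlyOn (fun N z => PT m (T N) z) Pi atTop Set.univ) :
    CB (2 / ε * ∑' a : ℂ, (m a : ℝ) * ‖a‖⁻¹) Pi ∧ ∀ k, 0 < (tc Pi k).re := by
  classical
  set B : ℝ := 2 / ε * ∑' a : ℂ, (m a : ℝ) * ‖a‖⁻¹ with hB
  have hneg : ∀ N, ∀ a ∈ T N, a.re < 0 := by
    intro N a ha
    obtain ⟨h1, _, h2⟩ := hT N a ha
    have := norm_pos_iff.mpr h1
    have : 0 < ε * ‖a‖ := by positivity
    linarith
  have hCB : ∀ N, CB B (PT m (T N)) := by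
    intro N
    apply (CB_PT (T N) (hTc N) m hm hε hε1 (fun a ha => ⟨(hT N a ha).1, (hT N a ha).2.2⟩)).mono
    rw [hB]
    apply mul_le_mul_of_nonneg_left _ (by positivity)
    exact hsum.sum_le_tsum _ (fun a _ => by positivity)
  have hdiff : ∀ N, Differentiable ℂ (fun z => PT m (T N) z) := fun N => C3c_PT_diff m (T N)
  have hlim : ∀ k, Tendsto (fun N => (tc (PT m (T N)) k).re) atTop (𝓝 (tc Pi k).re) := by
    intro k
    exact (Complex.continuous_re.tendsto _).comp (tc_tendsto hdiff hPt k)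
  have hlim' : ∀ k, Tendsto (fun N => tc (PT m (T N)) k) atTop (𝓝 (tc Pi k)) :=
    fun k => tc_tendsto hdiff hPt k
  have hNN : NN Pi := by
    refine ⟨hPd, fun k => ?_⟩
    exact ge_of_tendsto' (hlim' k) (fun N => (hCB N).1.2 k)
  refine ⟨⟨hNN, fun k => ?_⟩, fun k => ?_⟩
  · have h1 := (hlim (k + 1)).const_mul ((k:ℝ) + 1)
    have h2 := (hlim k).const_mul B
    exact le_of_tendsto_of_tendsto' h1 h2 (fun N => (hCB N).2 k)
  · obtain ⟨N, hN⟩ := hcard k
    have hk : k ≤ ∑ a ∈ T N, m a := by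
      refine hN.trans ?_
      rw [Finset.card_eq_sum_ones]
      apply Finset.sum_le_sum
      intro a ha
      exact Nat.one_le_iff_ne_zero.mpr (hT N a ha).2.1
    have hpos := PT_pos (T N) (hTc N) m hm (hneg N) k hk
    refine lt_of_lt_of_le hpos ?_
    apply ge_of_tendsto (hlim k)
    filter_upwards [eventually_ge_atTop N] with M hM
    have hsub : T N ⊆ T M := hmono hM
    have h1 : PT m (T M) = fun z => PT m (T N) z * PT m (T M \ T N) z := by
      funext z; exact F2_PT_split m hsub z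
    have hDc : ∀ a ∈ T M \ T N, conj a ∈ T M \ T N := by
      intro a ha
      rw [Finset.mem_sdiff] at ha ⊢
      refine ⟨hTc M a ha.1, fun h => ha.2 ?_⟩
      have := hTc N _ h
      rwa [Complex.conj_conj] at this
    have hD := CB_PT (T M \ T N) hDc m hm hε hε1 (fun a ha => by
      have := Finset.mem_sdiff.mp ha
      exact ⟨(hT M a this.1).1, (hT M a this.1).2.2⟩)
    have h2 := F2_tc_mul_ge (hCB N).1 hD.1 k
    rw [tc_zero, C3c_PT_zero, Complex.one_re, mul_one] at h2
    rw [h1]
    exact h2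

/-- **Order 2: `δ(f) ≤ π/2`.** -/
theorem upper_two {n : ℕ} (hn : 2 ≤ n) {f : ℂ → ℂ} (hf : f ∈ Lac.Gord ((2 : ℝ) : EReal) n) :
    Lac.delta f ≤ Real.pi / 2 := by
  classical
  by_contra hcon
  push Not at hcon
  have hpi := Real.pi_pos
  obtain ⟨hfG, hord⟩ := hf
  obtain ⟨hNN, ⟨N, hN1, hN2⟩, hinf, htop, hgap⟩ := F1_data hfG hn
  obtain ⟨b, hb1, hb2⟩ := exists_between hcon
  have hbpi : b ≤ Real.pi := hb2.le.trans (Lac.delta_le_pi hinf)
  have hfin := F1_fin hb2
  set g : ℂ → ℂ := sh^[N] f with hg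
  have hgN : NN g := hNN.shiter N
  have hgd : Differentiable ℂ g := hgN.1
  have hfg : ∀ z, f z = z ^ N * g z := F1_shift hNN hN1
  have hg0 : g 0 ≠ 0 := by
    have := tc_sh_iter hNN.1 N 0
    rw [tc_zero, zero_add] at this
    rw [hg, this]; exact hN2
  have hgc : ∀ z, g (conj z) = conj (g z) := F1_conj hgN
  have hgr : ∀ σ, 2 < σ → Gr g σ := by
    intro σ hσ
    have hσ0 : 0 ≤ σ := by linarith
    exact F1_gr_down hNN hgN hfg hσ0 (gr_of_order hNN hord hσ hσ0)
  -- zeros of g
  have hginf : {z : ℂ | g z = 0}.Infinite := by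
    intro hcf
    apply hinf
    apply (hcf.union (Set.finite_singleton (0:ℂ))).subset
    intro z hz
    have hz' : f z = 0 := hz
    rw [hfg z, mul_eq_zero] at hz'
    rcases hz' with h | h
    · right
      by_contra hz0
      exact pow_ne_zero N hz0 h
    · left; exact h
  have hgfin : {z : ℂ | g z = 0 ∧ |Complex.arg z| < b}.Finite := by
    apply hfin.subset
    rintro z ⟨hz1, hz2⟩
    exact ⟨F1_zeros hfg hz1, hz2⟩
  set S : Finset ℂ := hgfin.toFinset with hS
  have hSm : ∀ a, a ∈ S ↔ g a = 0 ∧ |Complex.arg a| < b := by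
    intro a; rw [hS, Set.Finite.mem_toFinset]; rfl
  have hSc : ∀ a ∈ S, conj a ∈ S := by
    intro a ha
    rw [hSm] at ha ⊢
    refine ⟨?_, ?_⟩
    · rw [hgc, ha.1, map_zero]
    · rw [F2_abs_arg_conj]; exact ha.2
  set ε : ℝ := -Real.cos b with hε
  have hε0 : 0 < ε := by
    rw [hε, neg_pos]
    exact Real.cos_neg_of_pi_div_two_lt_of_lt hb1 (by linarith)
  have hε1 : ε ≤ 1 := by
    rw [hε]; linarith [Real.neg_one_le_cos b]
  have hre : ∀ a, g a = 0 → a ∉ S → ε * ‖a‖ ≤ -a.re := by
    intro a ha haS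
    have hab : b ≤ |Complex.arg a| := by
      by_contra h
      exact haS ((hSm a).mpr ⟨ha, not_le.mp h⟩)
    have h1 : a.re = ‖a‖ * Real.cos (Complex.arg a) := by
      rw [Complex.norm_mul_cos_arg]
    have h2 : Real.cos (Complex.arg a) ≤ Real.cos b := by
      rw [← Real.cos_abs (Complex.arg a)]
      exact Real.cos_le_cos_of_nonneg_of_le_pi (by linarith) (Complex.abs_arg_le_pi a) hab
    have h3 := norm_nonneg a
    rw [h1, hε]
    nlinarith
  -- the bounded ratio
  have hratio : ∃ C R : ℝ, 0 < C ∧ 0 < R ∧ ∀ z : ℂ, R ≤ ‖z‖ → 0 ≤ z.re → ‖g (-z)‖ ≤ C * ‖g z‖ := by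
    obtain ⟨R, hR⟩ : ∃ R : ℝ, ∀ a ∈ S, ‖a‖ ≤ R := by
      obtain ⟨R, hR⟩ := (S.image (fun a : ℂ => ‖a‖)).bddAbove
      exact ⟨R, fun a ha => hR (by rw [Finset.coe_image]; exact ⟨a, ha, rfl⟩)⟩
    set R' : ℝ := max R 1 with hR'
    have hR'0 : 0 < R' := lt_of_lt_of_le one_pos (le_max_right _ _)
    apply ratio_bound hgN (b := b) (s₀ := Real.log R') hb1 hbpi
    · intro w hw1 hw2 h0
      have h1 : R' < ‖Complex.exp w‖ := by
        rw [Complex.norm_exp, ← Real.exp_log hR'0]
        exact Real.exp_lt_exp.mpr hw1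
      have harg : Complex.arg (Complex.exp w) = w.im := by
        rw [Complex.exp_eq_exp_re_mul_sin_add_cos]
        rw [abs_lt] at hw2
        have h2 : Complex.exp w.re * (Complex.cos w.im + Complex.sin w.im * Complex.I) =
            ((Real.exp w.re : ℝ) : ℂ) * (Complex.cos (w.im : ℂ) +
              Complex.sin (w.im : ℂ) * Complex.I) := by
          rw [Complex.ofReal_exp]
        rw [h2]
        apply Complex.arg_mul_cos_add_sin_mul_I (Real.exp_pos _)
        exact ⟨by linarith, by linarith⟩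
      have h3 := hR (Complex.exp w) ((hSm _).mpr ⟨h0, by rw [harg]; exact hw2⟩)
      have h4 : R ≤ R' := le_max_left _ _
      linarith
    · -- val g ≥ 1 eventually
      have hex : ∃ k, 1 ≤ k ∧ 0 < (tc g k).re := by
        by_contra hno
        push Not at hno
        have hconst : ∀ z, g z = g 0 := by
          intro z
          have h1 := hasSum_tc hgd z
          have h2 : HasSum (fun k => tc g k * z ^ k) (tc g 0 * z ^ 0) := by
            apply hasSum_single
            intro k hk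
            have h3 := hno k (Nat.one_le_iff_ne_zero.mpr hk)
            have h4 : (tc g k).re = 0 := le_antisymm h3 (tc_re_nonneg hgN k)
            rw [tc_re hgN k, h4]; simp
          have h5 := h1.unique h2
          rw [h5, tc_zero]; simp
        obtain ⟨z, hz⟩ := hginf.nonempty
        have : g z = 0 := hz
        rw [hconst z] at this
        exact hg0 this
      obtain ⟨k, hk1, hk2⟩ := hex
      filter_upwards [eventually_ge_atTop (max 1 (1 / (tc g k).re))] with r hr
      have hr1 : 1 ≤ r := (le_max_left _ _).trans hr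
      refine le_trans ?_ (coef_le_val hgN (by linarith) k)
      have h1 : r ≤ r ^ k := le_self_pow₀ hr1 (by omega)
      have h2 : 1 / (tc g k).re ≤ r ^ k := ((le_max_right _ _).trans hr).trans h1
      rw [div_le_iff₀ hk2] at h2
      linarith
    · intro c hc
      set σ : ℝ := (2 + c) / 2 with hσ
      obtain ⟨C, hC, hGg⟩ := hgr σ (by rw [hσ]; linarith)
      have hσ0 : 0 ≤ σ := by rw [hσ]; linarith
      have hσc : 0 < c - σ := by rw [hσ]; linarith
      have hev : ∀ᶠ s : ℝ in atTop, C * 2 ^ σ ≤ Real.exp ((c - σ) * s) := by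
        have : Tendsto (fun s : ℝ => Real.exp ((c - σ) * s)) atTop atTop :=
          Real.tendsto_exp_atTop.comp (tendsto_id.const_mul_atTop hσc)
        exact this.eventually_ge_atTop _
      filter_upwards [hev, eventually_ge_atTop (0:ℝ)] with s hs hs0
      have h1 : VV g s ≤ Real.exp (C * (1 + Real.exp s) ^ σ) := by
        have h2 := hGg (Real.exp s : ℝ)
        rw [Complex.norm_real, Real.norm_eq_abs, abs_of_pos (Real.exp_pos s)] at h2
        refine le_trans ?_ h2
        exact Complex.re_le_norm _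
      rcases le_or_gt (VV g s) 0 with h0 | h0
      · have : Real.log (VV g s) ≤ 0 := by
          have hV0 : 0 ≤ VV g s := val_nonneg hgN (Real.exp_pos s).le
          have : VV g s = 0 := le_antisymm h0 hV0
          rw [this, Real.log_zero]
        exact this.trans (Real.exp_pos _).le
      · have h2 : Real.log (VV g s) ≤ C * (1 + Real.exp s) ^ σ := by
          rw [← Real.log_exp (C * (1 + Real.exp s) ^ σ)]
          exact Real.log_le_log h0 h1
        refine h2.trans ?_
        have h3 : (1 + Real.exp s) ^ σ ≤ 2 ^ σ * Real.exp (σ * s) := by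
          have h4 : (1:ℝ) ≤ Real.exp s := Real.one_le_exp hs0
          have h5 : Real.exp (σ * s) = (Real.exp s) ^ σ := by
            rw [← Real.exp_mul]; congr 1; ring
          rw [h5, ← Real.mul_rpow (by norm_num) (Real.exp_pos s).le]
          apply Real.rpow_le_rpow (by positivity) (by linarith) hσ0
        calc C * (1 + Real.exp s) ^ σ ≤ C * (2 ^ σ * Real.exp (σ * s)) := by gcongr
          _ = (C * 2 ^ σ) * Real.exp (σ * s) := by ring
          _ ≤ Real.exp ((c - σ) * s) * Real.exp (σ * s) := by gcongr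
          _ = Real.exp (c * s) := by rw [← Real.exp_add]; congr 1; ring
  -- Blaschke
  have hsum := blaschke hgd hg0 hgc S hSc hε0 hre hratio
  obtain ⟨α, β, Pi, T, hPd, hTm, hPt, hrepf, hrep⟩ := prod_rep hgd hg0 hgc (σ := 5 / 2)
    (by norm_num) (by norm_num) (hgr _ (by norm_num)) hsum S
  have hβ : 0 ≤ β := beta_nonneg hgd hg0 (α := α) (fun z hz => (hrep z hz).2) hsum hb1 hgfin hratio
  have hα : 0 < α := by
    by_contra hα
    have h1 := gr_one hgN hg0 (not_lt.mp hα) (fun z hz => (hrep z hz).2) hsum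
    have h2 := order_le_of_gr hNN htop (by norm_num) (F1_gr_up hfg le_rfl h1)
    rw [hord] at h2
    have h3 : (2:ℝ) ≤ 1 := by exact_mod_cast h2
    norm_num at h3
  -- the limit product
  have hmc := mu_conj hgd hgc
  have hlimit := F2_limit (m := mu g) hmc hsum hε0 hε1 (T := T)
    (by
      intro M a ha
      rw [hTm] at ha ⊢
      refine ⟨?_, ?_, ?_⟩
      · rw [hgc, ha.1, map_zero]
      · rw [Complex.norm_conj]; exact ha.2.1
      · intro h
        have := hSc _ h
        rw [Complex.conj_conj] at this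
        exact ha.2.2 this)
    (by
      intro M a ha
      rw [hTm] at ha
      refine ⟨?_, ?_, hre a ha.1 ha.2.2⟩
      · rintro rfl; exact hg0 ha.1
      · exact (mu_pos hgd hg0 ha.1).ne')
    (by
      intro M M' hMM a ha
      rw [hTm] at ha ⊢
      exact ⟨ha.1, ha.2.1.trans (by exact_mod_cast hMM), ha.2.2⟩)
    (by
      intro k
      have hinf2 : ({z : ℂ | g z = 0} \ (S : Set ℂ)).Infinite := hginf.sdiff S.finite_toSet
      obtain ⟨F, hF1, hF2⟩ := hinf2.exists_subset_card_eq k
      obtain ⟨R, hR⟩ := (F.image (fun a : ℂ => ‖a‖)).bddAbove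
      obtain ⟨M, hM⟩ := exists_nat_ge R
      refine ⟨M, ?_⟩
      rw [← hF2]
      apply Finset.card_le_card
      intro a ha
      rw [hTm]
      have h1 := hF1 ha
      have h2 : ‖a‖ ≤ R := hR (by rw [Finset.coe_image]; exact ⟨a, ha, rfl⟩)
      exact ⟨h1.1, h2.trans hM, h1.2⟩)
    hPd hPt
  obtain ⟨hPiCB, hPipos⟩ := hlimit
  set G : ℂ → ℂ := fun z => Complex.exp (β * z) * Pi z with hG
  have hGCB := (CB_exp hβ).mul hPiCB
  have hGpos : ∀ k, 0 < (tc G k).re := by
    intro k
    have h1 := F2_tc_mul_ge hPiCB.1 (CB_exp hβ).1 k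
    have h2 : (fun z => Pi z * Complex.exp (β * z)) = G := by
      funext z; rw [hG]; ring
    rw [h2, tc_zero, mul_zero, Complex.exp_zero, Complex.one_re, mul_one] at h1
    exact lt_of_lt_of_le (hPipos k) h1
  -- the polynomial
  obtain ⟨p, hp0, hp⟩ := F2_poly (mu g) S
  have hpfun : PT (mu g) S = fun z => p.eval z := by funext z; exact hp z
  have hPr : ∀ k, (tc (PT (mu g) S) k).im = 0 :=
    F2_tc_real (C3c_PT_diff _ _) (F2_PT_conj hmc S hSc)
  have hPtc : ∀ k, tc (PT (mu g) S) k = p.coeff k := by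
    intro k; rw [hpfun]; exact F2_tc_poly p k
  have hlead : (tc (PT (mu g) S) p.natDegree).re ≠ 0 := by
    intro h
    have h1 := hPr p.natDegree
    rw [hPtc] at h h1
    exact (Polynomial.leadingCoeff_ne_zero.mpr hp0) (Complex.ext h h1)
  have hg0pos : 0 < (g 0).re := by
    have h1 := tc_re_nonneg hgN 0
    rw [tc_zero] at h1
    apply lt_of_le_of_ne h1
    intro h
    apply hg0
    have h2 := tc_re hgN 0
    rw [tc_zero, ← h] at h2
    rw [h2]; simp
  have hg0c : g 0 = ((g 0).re : ℂ) := by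
    have h2 := tc_re hgN 0
    rw [tc_zero] at h2
    exact h2
  have hform : ∀ z, g z = ((g 0).re : ℂ) * Complex.exp (α * z ^ 2) * (PT (mu g) S z * G z) := by
    intro z
    rw [← hg0c, hrepf z, hG, Complex.exp_add]
    ring
  have hev : ∃ M : ℕ, ∀ m, M ≤ m → tc g m ≠ 0 := by
    rcases lt_or_gt_of_ne hlead with hneg | hpos
    · obtain ⟨M, hM⟩ := no_gap (f := fun z => -g z) (P := fun z => -(PT (mu g) S z)) (G := G)
        hg0pos hα hGCB hGpos (C3c_PT_diff _ _).neg (d := p.natDegree)
        (by intro k; rw [tc_neg, Complex.neg_im, hPr k, neg_zero])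
        (by intro k hk; rw [tc_neg, hPtc, Polynomial.coeff_eq_zero_of_natDegree_lt hk, neg_zero])
        (by rw [tc_neg, Complex.neg_re]; linarith)
        (by intro z; rw [hform z]; ring)
      exfalso
      have h1 := hM M le_rfl
      rw [tc_neg, Complex.neg_re] at h1
      have h2 := tc_re_nonneg hgN M
      linarith
    · obtain ⟨M, hM⟩ := no_gap (f := g) (P := PT (mu g) S) (G := G)
        hg0pos hα hGCB hGpos (C3c_PT_diff _ _) (d := p.natDegree) hPr
        (by intro k hk; rw [hPtc, Polynomial.coeff_eq_zero_of_natDegree_lt hk])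
        hpos hform
      refine ⟨M, fun m hm h => ?_⟩
      have := hM m hm
      rw [h] at this
      simp at this
  obtain ⟨M, hM⟩ := hev
  obtain ⟨m, hm1, hm2⟩ := hgap (M + N)
  apply hM (m - N) (by omega)
  rw [hg, tc_sh_iter hNN.1]
  rw [Nat.sub_add_cancel (by omega)]
  exact hm2

end Pool.Agent.helper38.UB
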